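import Pool.Agent.MP_dc1150_gt.Defs

-- part MP_dc1150_gt.Core
section

/-! Row model of the Hilbert metric and the basic combinatorial lemmas. -/

open scoped RealInnerProductSpace BigOperators
open Classical

namespace Pool.Agent.MP_dc1150_gt

variable {d : ℕ}

/-- The positive pairing. -/
noncomputable def Hh (p u : Euc d) : ℝ := 1 - ⟪p, u⟫

/-- `u ≤ e^θ v` on all rows. -/
def Close (R : Set (Euc d)) (θ : ℝ) (u v : Euc d) : Prop :=
  ∀ p ∈ R, Hh p u ≤ Real.exp θ * Hh p v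

/-- Far apart in the row sense. -/
def Far (R : Set (Euc d)) (α : ℝ) (x u : Euc d) : Prop :=
  ∃ p ∈ R, Real.exp (2 * α) * Hh p u < Hh p x ∨ Real.exp (2 * α) * Hh p x < Hh p u

/-- A row-separated sequence of length `N` in `A`. -/
def TSep (R A : Set (Euc d)) (α : ℝ) (N : ℕ) : Prop :=
  ∃ x : ℕ → Euc d, (∀ i < N, x i ∈ A) ∧
    ∀ j < N, ∀ u ∈ convexHull ℝ (x '' {i | i < j}), Far R α (x j) u

/-- The standing hypotheses. -/
structure Ctx (R A : Set (Euc d)) : Prop where
  convR : Convex ℝ R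
  zeroR : (0 : Euc d) ∈ R
  convA : Convex ℝ A
  pos : ∀ p ∈ R, ∀ u ∈ A, 0 < Hh p u

theorem Hh_combo (p u v : Euc d) (a b : ℝ) (hab : a + b = 1) :
    Hh p (a • u + b • v) = a * Hh p u + b * Hh p v := by
  unfold Hh
  rw [inner_add_right, inner_smul_right, inner_smul_right]
  have : b = 1 - a := by linarith
  subst this; ring

theorem Hh_combo_left (p q u : Euc d) (a b : ℝ) (hab : a + b = 1) :
    Hh (a • p + b • q) u = a * Hh p u + b * Hh q u := by
  unfold Hh
  rw [inner_add_left, inner_smul_left, inner_smul_left]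
  have : b = 1 - a := by linarith
  subst this; simp; ring

theorem Hh_sum {ι : Type*} (s : Finset ι) (w : ι → ℝ) (x : ι → Euc d) (p : Euc d)
    (hw : ∑ i ∈ s, w i = 1) : Hh p (∑ i ∈ s, w i • x i) = ∑ i ∈ s, w i * Hh p (x i) := by
  unfold Hh
  rw [inner_sum]
  simp only [inner_smul_right, mul_sub, mul_one, Finset.sum_sub_distrib, hw]

theorem Hh_zero (u : Euc d) : Hh 0 u = 1 := by simp [Hh]

theorem convex_Hh_le (p : Euc d) (c : ℝ) : Convex ℝ {u : Euc d | Hh p u ≤ c} := by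
  intro u hu v hv a b ha hb hab
  simp only [Set.mem_ofPred_eq] at *
  rw [Hh_combo _ _ _ _ _ hab]
  have h1 := mul_le_mul_of_nonneg_left hu ha
  have h2 := mul_le_mul_of_nonneg_left hv hb
  have : a * c + b * c = c := by rw [← add_mul, hab, one_mul]
  linarith

theorem convex_le_Hh (p : Euc d) (c : ℝ) : Convex ℝ {u : Euc d | c ≤ Hh p u} := by
  intro u hu v hv a b ha hb hab
  simp only [Set.mem_ofPred_eq] at *
  rw [Hh_combo _ _ _ _ _ hab]
  have h1 := mul_le_mul_of_nonneg_left hu ha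
  have h2 := mul_le_mul_of_nonneg_left hv hb
  have : a * c + b * c = c := by rw [← add_mul, hab, one_mul]
  linarith

theorem hull_Hh_le {S : Set (Euc d)} {p : Euc d} {c : ℝ} (h : ∀ s ∈ S, Hh p s ≤ c) :
    ∀ u ∈ convexHull ℝ S, Hh p u ≤ c := fun _ hu =>
  convexHull_min (fun s hs => h s hs) (convex_Hh_le p c) hu

theorem hull_le_Hh {S : Set (Euc d)} {p : Euc d} {c : ℝ} (h : ∀ s ∈ S, c ≤ Hh p s) :
    ∀ u ∈ convexHull ℝ S, c ≤ Hh p u := fun _ hu =>
  convexHull_min (fun s hs => h s hs) (convex_le_Hh p c) hu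

theorem Far.mono {R A : Set (Euc d)} (hc : Ctx R A) {α β : ℝ} (hαβ : α ≤ β) {x u : Euc d}
    (hx : x ∈ A) (hu : u ∈ A) (h : Far R β x u) : Far R α x u := by
  obtain ⟨p, hp, h⟩ := h
  have he : Real.exp (2 * α) ≤ Real.exp (2 * β) := Real.exp_le_exp.2 (by linarith)
  refine ⟨p, hp, ?_⟩
  rcases h with h | h
  · left
    exact lt_of_le_of_lt (mul_le_mul_of_nonneg_right he (hc.pos p hp u hu).le) h
  · right
    exact lt_of_le_of_lt (mul_le_mul_of_nonneg_right he (hc.pos p hp x hx).le) h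

theorem hull_sub {R A : Set (Euc d)} (hc : Ctx R A) {x : ℕ → Euc d} {N j : ℕ}
    (hx : ∀ i < N, x i ∈ A) (hj : j < N) :
    convexHull ℝ (x '' {i | i < j}) ⊆ A := by
  apply convexHull_min _ hc.convA
  rintro _ ⟨i, hi, rfl⟩
  exact hx i (lt_trans hi hj)

theorem TSep.mono {R A : Set (Euc d)} (hc : Ctx R A) {α β : ℝ} (hαβ : α ≤ β) {N : ℕ}
    (h : TSep R A β N) : TSep R A α N := by
  obtain ⟨x, hx, h⟩ := h
  exact ⟨x, hx, fun j hj u hu => (h j hj u hu).mono hc hαβ (hx j hj) (hull_sub hc hx hj hu)⟩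

theorem Close.trans {R : Set (Euc d)} {θ φ : ℝ} {u v w : Euc d}
    (h1 : Close R θ u v) (h2 : Close R φ v w) : Close R (θ + φ) u w := by
  intro p hp
  calc Hh p u ≤ Real.exp θ * Hh p v := h1 p hp
    _ ≤ Real.exp θ * (Real.exp φ * Hh p w) :=
        mul_le_mul_of_nonneg_left (h2 p hp) (Real.exp_pos _).le
    _ = Real.exp (θ + φ) * Hh p w := by rw [Real.exp_add]; ring

theorem Close.mono {R A : Set (Euc d)} (hc : Ctx R A) {θ φ : ℝ} (h : θ ≤ φ) {u v : Euc d}
    (hv : v ∈ A) (h1 : Close R θ u v) : Close R φ u v := fun p hp =>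
  (h1 p hp).trans (mul_le_mul_of_nonneg_right (Real.exp_le_exp.2 h) (hc.pos p hp v hv).le)

theorem not_far {R : Set (Euc d)} {α : ℝ} {x u : Euc d} (h : ¬ Far R α x u) :
    Close R (2 * α) x u ∧ Close R (2 * α) u x := by
  unfold Far at h
  push Not at h
  exact ⟨fun p hp => (h p hp).1, fun p hp => (h p hp).2⟩

/-- A sequence separated by single rows is row-separated. -/
theorem tsep_of_rows {R A : Set (Euc d)} {α : ℝ} {N : ℕ} (x : ℕ → Euc d)
    (hx : ∀ i < N, x i ∈ A)
    (h : ∀ j < N, ∃ p ∈ R, ∃ c : ℝ,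
      ((∀ i < j, Hh p (x i) ≤ c) ∧ Real.exp (2 * α) * c < Hh p (x j)) ∨
      ((∀ i < j, c ≤ Hh p (x i)) ∧ Real.exp (2 * α) * Hh p (x j) < c)) :
    TSep R A α N := by
  refine ⟨x, hx, fun j hj u hu => ?_⟩
  obtain ⟨p, hp, c, h | h⟩ := h j hj
  · refine ⟨p, hp, Or.inl ?_⟩
    have := hull_Hh_le (S := x '' {i | i < j}) (p := p) (c := c)
      (by rintro _ ⟨i, hi, rfl⟩; exact h.1 i hi) u hu
    exact lt_of_le_of_lt (mul_le_mul_of_nonneg_left this (Real.exp_pos _).le) h.2
  · refine ⟨p, hp, Or.inr ?_⟩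
    have := hull_le_Hh (S := x '' {i | i < j}) (p := p) (c := c)
      (by rintro _ ⟨i, hi, rfl⟩; exact h.1 i hi) u hu
    exact lt_of_lt_of_le h.2 this

/-- Forward greedy selection. -/
theorem greedy_fwd {τ : Type*} (Ω : Finset τ) (w : τ → ℝ) (hw : ∀ t ∈ Ω, 0 ≤ w t)
    (Bad : τ → τ → Prop) (β : ℝ) (hβ0 : 0 ≤ β)
    (hβ : ∀ t ∈ Ω, ∑ t' ∈ Ω.filter (fun t' => Bad t t'), w t' ≤ β) (m : ℕ)
    (htot : (m : ℝ) * β < ∑ t ∈ Ω, w t) :
    ∀ n ≤ m + 1, ∃ r : ℕ → τ, (∀ a < n, r a ∈ Ω) ∧ ∀ a b, a < b → b < n → ¬ Bad (r a) (r b) := by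
  have hne : Ω.Nonempty := by
    rcases Ω.eq_empty_or_nonempty with h | h
    · subst h
      have : (0 : ℝ) ≤ m * β := by positivity
      simp at htot; linarith
    · exact h
  obtain ⟨t0, ht0⟩ := hne
  intro n
  induction n with
  | zero => intro _; exact ⟨fun _ => t0, by simp, by simp⟩
  | succ n ih =>
    intro hn
    obtain ⟨r, hr, hr2⟩ := ih (by omega)
    have hex : ∃ t ∈ Ω, ∀ a < n, ¬ Bad (r a) t := by
      by_contra hcon
      push Not at hcon
      have h1 : ∑ t ∈ Ω, w t ≤ ∑ t ∈ Ω, ∑ a ∈ Finset.range n, (if Bad (r a) t then w t else 0) := by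
        apply Finset.sum_le_sum
        intro t ht
        obtain ⟨a, ha, hb⟩ := hcon t ht
        have := Finset.single_le_sum (f := fun a => if Bad (r a) t then w t else 0)
          (s := Finset.range n) (fun a _ => by split_ifs; exacts [hw t ht, le_rfl])
          (Finset.mem_range.2 ha)
        simpa [hb] using this
      rw [Finset.sum_comm] at h1
      have h2 : ∑ a ∈ Finset.range n, ∑ t ∈ Ω, (if Bad (r a) t then w t else 0)
          ≤ ∑ _a ∈ Finset.range n, β := by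
        apply Finset.sum_le_sum
        intro a ha
        rw [← Finset.sum_filter]
        exact hβ _ (hr a (Finset.mem_range.1 ha))
      simp only [Finset.sum_const, Finset.card_range, nsmul_eq_mul] at h2
      have h3 : (n : ℝ) * β ≤ m * β :=
        mul_le_mul_of_nonneg_right (by exact_mod_cast (by omega : n ≤ m)) hβ0
      linarith
    obtain ⟨t, ht, ht2⟩ := hex
    refine ⟨fun a => if a = n then t else r a, ?_, ?_⟩
    · intro a ha
      by_cases h : a = n
      · simp [h, ht]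
      · simp only [h, if_false]; exact hr a (by omega)
    · intro a b hab hb
      have ha : a ≠ n := by omega
      by_cases h : b = n
      · simp only [ha, h, if_false, if_true]; exact ht2 a (by omega)
      · simp only [ha, h, if_false]; exact hr2 a b hab (by omega)

/-- Reverse greedy selection. -/
theorem greedy_rev {τ : Type*} (Ω : Finset τ) (w : τ → ℝ) (hw : ∀ t ∈ Ω, 0 ≤ w t)
    (Bad : τ → τ → Prop) (β : ℝ) (hβ0 : 0 ≤ β)
    (hβ : ∀ t ∈ Ω, ∑ t' ∈ Ω.filter (fun t' => Bad t t'), w t' ≤ β) (m : ℕ)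
    (htot : (m : ℝ) * β < ∑ t ∈ Ω, w t) :
    ∃ s : ℕ → τ, (∀ i < m + 1, s i ∈ Ω) ∧
      ∀ i j, i < j → j < m + 1 → ¬ Bad (s j) (s i) := by
  obtain ⟨r, hr, hr2⟩ := greedy_fwd Ω w hw Bad β hβ0 hβ m htot (m + 1) le_rfl
  refine ⟨fun i => r (m - i), fun i _ => hr _ (by omega), fun i j hij hj => ?_⟩
  exact hr2 (m - j) (m - i) (by omega) (by omega)

/-- Few generators approximate everything. -/
theorem exists_generators {R A A' : Set (Euc d)} (hA' : A' ⊆ A) {α : ℝ} {m : ℕ}
    (hm : ¬ TSep R A α (m + 1)) :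
    ∃ n ≤ m, ∃ s : ℕ → Euc d, (∀ i < n, s i ∈ A') ∧
      ∀ x ∈ A', ∃ u ∈ convexHull ℝ (s '' {i | i < n}),
        Close R (2 * α) x u ∧ Close R (2 * α) u x := by
  by_contra hcon
  push Not at hcon
  have key : ∀ n ≤ m + 1, ∃ s : ℕ → Euc d, (∀ i < n, s i ∈ A') ∧
      ∀ j < n, ∀ u ∈ convexHull ℝ (s '' {i | i < j}), Far R α (s j) u := by
    intro n
    induction n with
    | zero => intro _; exact ⟨fun _ => 0, by simp, by simp⟩
    | succ n ih =>
      intro hn
      obtain ⟨s, hs, hs2⟩ := ih (by omega)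
      obtain ⟨x, hx, hx2⟩ := hcon n (by omega) s hs
      have himg : ∀ j ≤ n, (fun a => if a = n then x else s a) '' {i | i < j}
          = s '' {i | i < j} := by
        intro j hj
        apply Set.image_congr
        intro a ha
        have : a ≠ n := by simp only [Set.mem_ofPred_eq] at ha; omega
        simp [this]
      refine ⟨fun a => if a = n then x else s a, ?_, ?_⟩
      · intro a ha
        by_cases h : a = n
        · simp [h, hx]
        · simp only [h, if_false]; exact hs a (by omega)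
      · intro j hj u hu
        rw [himg j (by omega)] at hu
        by_cases h : j = n
        · subst h
          simp only [if_true]
          by_contra hf
          have := not_far hf
          exact hx2 u hu this.1 this.2
        · simp only [h, if_false]
          exact hs2 j (by omega) u hu
  obtain ⟨s, hs, hs2⟩ := key (m + 1) le_rfl
  exact hm ⟨s, fun i hi => hA' (hs i hi), hs2⟩

/-- Diameter bound. -/
theorem close_diam {R A : Set (Euc d)} (hc : Ctx R A) {α : ℝ} (hα : 0 < α) {m : ℕ}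
    (hm : ¬ TSep R A α (m + 1)) {u v : Euc d} (hu : u ∈ A) (hv : v ∈ A) :
    Close R (3 * α * m) u v := by
  intro p hp
  by_contra hcon
  push Not at hcon
  have hpv := hc.pos p hp v hv
  set a := Hh p v with ha
  set b := Hh p u with hb
  have hm0 : (0 : ℝ) ≤ 3 * α * m := by positivity
  have h1 : 1 ≤ Real.exp (3 * α * m) := Real.one_le_exp hm0
  have hab : a < b := by nlinarith
  set t : ℕ → ℝ := fun i => (Real.exp (3 * α * i) * a - a) / (b - a) with ht
  have ht0 : ∀ i, 0 ≤ t i := by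
    intro i
    apply div_nonneg _ (by linarith)
    have : 1 ≤ Real.exp (3 * α * i) := Real.one_le_exp (by positivity)
    nlinarith
  have ht1 : ∀ i < m + 1, t i ≤ 1 := by
    intro i hi
    rw [ht, div_le_one (by linarith)]
    have : Real.exp (3 * α * i) ≤ Real.exp (3 * α * m) := by
      apply Real.exp_le_exp.2
      have : (i : ℝ) ≤ m := by exact_mod_cast (by omega : i ≤ m)
      nlinarith
    nlinarith
  have hval : ∀ i, Hh p ((1 - t i) • v + t i • u) = Real.exp (3 * α * i) * a := by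
    intro i
    rw [Hh_combo _ _ _ _ _ (by ring), ← ha, ← hb, ht]
    have : b - a ≠ 0 := by linarith
    field_simp
    ring
  apply hm
  apply tsep_of_rows (fun i => (1 - t i) • v + t i • u)
  · intro i hi
    exact hc.convA hv hu (by linarith [ht1 i hi]) (ht0 i) (by ring)
  · intro j _
    refine ⟨p, hp, Real.exp (3 * α * j - 3 * α) * a, Or.inl ⟨?_, ?_⟩⟩
    · intro i hi
      rw [hval]
      apply mul_le_mul_of_nonneg_right _ hpv.le
      apply Real.exp_le_exp.2
      have : (i : ℝ) + 1 ≤ j := by exact_mod_cast hi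
      nlinarith
    · rw [hval, ← mul_assoc, ← Real.exp_add]
      apply mul_lt_mul_of_pos_right _ hpv
      apply Real.exp_lt_exp.2
      linarith

end Pool.Agent.MP_dc1150_gt

end

-- part MP_dc1150_gt.Bridge
section

/-! From the row model to the Hilbert metric. -/

open scoped RealInnerProductSpace BigOperators
open Classical

namespace Pool.Agent.MP_dc1150_gt

variable {d : ℕ}

theorem convex_polarSet (K : Set (Euc d)) : Convex ℝ (polarSet K) := by
  intro u hu v hv a b ha hb hab x hx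
  rw [inner_add_right, inner_smul_right, inner_smul_right]
  have h1 := mul_le_mul_of_nonneg_left (hu x hx) ha
  have h2 := mul_le_mul_of_nonneg_left (hv x hx) hb
  linarith

theorem zero_mem_polarSet (K : Set (Euc d)) : (0 : Euc d) ∈ polarSet K := by
  intro x _; simp

theorem ratio_bound {B : Set (Euc d)} {v : Euc d} (hv : v ∈ interior B) (u : Euc d) :
    ∃ κ : ℝ, 0 < κ ∧ ∀ p ∈ polarSet B, Hh p u ≤ κ * Hh p v := by
  have hcont : Continuous fun t : ℝ => v + t • (v - u) := by fun_prop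
  have h0 : (fun t : ℝ => v + t • (v - u)) 0 ∈ interior B := by simpa using hv
  have hnh : (fun t : ℝ => v + t • (v - u)) ⁻¹' interior B ∈ nhds (0 : ℝ) :=
    (isOpen_interior.preimage hcont).mem_nhds h0
  obtain ⟨δ, hδ, hball⟩ := Metric.mem_nhds_iff.1 hnh
  have hmem : v + (δ / 2) • (v - u) ∈ B := by
    apply interior_subset
    apply hball
    rw [Metric.mem_ball, Real.dist_eq, sub_zero, abs_of_pos (by linarith)]
    linarith
  refine ⟨(1 + δ / 2) / (δ / 2), by positivity, fun p hp => ?_⟩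
  have h1 := hp _ hmem
  rw [inner_add_left, inner_smul_left, inner_sub_left, real_inner_comm p v,
    real_inner_comm p u] at h1
  simp only [conj_trivial] at h1
  unfold Hh
  rw [div_mul_eq_mul_div, le_div_iff₀ (by positivity)]
  linarith

theorem Hh_pos {B : Set (Euc d)} {v : Euc d} (hv : v ∈ interior B) {p : Euc d}
    (hp : p ∈ polarSet B) : 0 < Hh p v := by
  obtain ⟨κ, hκ, h⟩ := ratio_bound hv 0
  have h1 := h p hp
  have h2 : Hh p 0 = 1 := by simp [Hh]
  rw [h2] at h1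
  by_contra hcon
  have := mul_nonpos_of_nonneg_of_nonpos hκ.le (not_lt.1 hcon)
  linarith

theorem ctx_of {A B : Set (Euc d)} (hA : Convex ℝ A) (hAB : A ⊆ interior B) :
    Ctx (polarSet B) A :=
  ⟨convex_polarSet B, zero_mem_polarSet B, hA, fun _ hp _ hu => Hh_pos (hAB hu) hp⟩

theorem log_term_le {B : Set (Euc d)} {u v : Euc d} (hu : u ∈ interior B) (hv : v ∈ interior B)
    {a b : ℝ} (h1 : ∀ p ∈ polarSet B, Hh p u ≤ a * Hh p v)
    (h2 : ∀ p ∈ polarSet B, Hh p v ≤ b * Hh p u) {p q : Euc d} (hp : p ∈ polarSet B)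
    (hq : q ∈ polarSet B) :
    Real.log (((1 - ⟪p, u⟫) * (1 - ⟪q, v⟫)) / ((1 - ⟪p, v⟫) * (1 - ⟪q, u⟫)))
      ≤ Real.log (a * b) := by
  have k1 := Hh_pos hu hp
  have k2 := Hh_pos hv hq
  have k3 := Hh_pos hv hp
  have k4 := Hh_pos hu hq
  change Real.log ((Hh p u * Hh q v) / (Hh p v * Hh q u)) ≤ _
  apply Real.log_le_log (by positivity)
  rw [div_le_iff₀ (by positivity)]
  calc Hh p u * Hh q v ≤ (a * Hh p v) * (b * Hh q u) :=
        mul_le_mul (h1 p hp) (h2 q hq) k2.le (k1.le.trans (h1 p hp))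
    _ = _ := by ring

theorem le_hilbert {B : Set (Euc d)} {u v : Euc d} (hu : u ∈ interior B) (hv : v ∈ interior B)
    {p q : Euc d} (hp : p ∈ polarSet B) (hq : q ∈ polarSet B) :
    (1 / 2) * Real.log ((Hh p u * Hh q v) / (Hh p v * Hh q u)) ≤ hilbertDist B u v := by
  obtain ⟨a, -, h1⟩ := ratio_bound hv u
  obtain ⟨b, -, h2⟩ := ratio_bound hu v
  unfold hilbertDist
  apply mul_le_mul_of_nonneg_left _ (by norm_num)
  apply le_csSup
  · refine ⟨Real.log (a * b), ?_⟩
    rintro _ ⟨p', hp', q', hq', rfl⟩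
    exact log_term_le hu hv h1 h2 hp' hq'
  · exact ⟨p, hp, q, hq, rfl⟩

theorem hilbert_le {B : Set (Euc d)} {u v : Euc d} (hu : u ∈ interior B) (hv : v ∈ interior B)
    {θ : ℝ} (h1 : Close (polarSet B) θ u v) (h2 : Close (polarSet B) θ v u) :
    hilbertDist B u v ≤ θ := by
  unfold hilbertDist
  have : sSup {r : ℝ | ∃ p ∈ polarSet B, ∃ q ∈ polarSet B,
      r = Real.log (((1 - ⟪p, u⟫) * (1 - ⟪q, v⟫)) / ((1 - ⟪p, v⟫) * (1 - ⟪q, u⟫)))}
      ≤ 2 * θ := by
    apply csSup_le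
    · exact ⟨_, 0, zero_mem_polarSet B, 0, zero_mem_polarSet B, rfl⟩
    rintro _ ⟨p, hp, q, hq, rfl⟩
    refine (log_term_le hu hv h1 h2 hp hq).trans ?_
    rw [← Real.exp_add, Real.log_exp]; linarith
  linarith

theorem hilbert_of_far {B : Set (Euc d)} {x u : Euc d} (hx : x ∈ interior B)
    (hu : u ∈ interior B) {α : ℝ} (h : Far (polarSet B) α x u) : α ≤ hilbertDist B x u := by
  obtain ⟨p, hp, h | h⟩ := h
  · refine le_trans ?_ (le_hilbert hx hu hp (zero_mem_polarSet B))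
    have k1 := Hh_pos hu hp
    rw [Hh_zero, Hh_zero, mul_one, mul_one]
    have : 2 * α ≤ Real.log (Hh p x / Hh p u) := by
      rw [Real.le_log_iff_exp_le (div_pos (Hh_pos hx hp) k1), le_div_iff₀ k1]
      exact h.le
    linarith
  · refine le_trans ?_ (le_hilbert hx hu (zero_mem_polarSet B) hp)
    have k1 := Hh_pos hx hp
    rw [Hh_zero, Hh_zero, one_mul, one_mul]
    have : 2 * α ≤ Real.log (Hh p u / Hh p x) := by
      rw [Real.le_log_iff_exp_le (div_pos (Hh_pos hu hp) k1), le_div_iff₀ k1]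
      exact h.le
    linarith

theorem not_tsep {A B : Set (Euc d)} (hA : Convex ℝ A) (hAB : A ⊆ interior B) {α : ℝ} {m : ℕ}
    (hm : Mconv A B α ≤ m) : ¬ TSep (polarSet B) A α (m + 1) := by
  rintro ⟨x, hx, h⟩
  have h1 : ((m + 1 : ℕ) : ℕ∞) ≤ Mconv A B α := by
    apply le_sSup
    refine ⟨m + 1, rfl, fun i => x i, fun i => hx i i.2, fun j u hu => ?_⟩
    have hu' : u ∈ convexHull ℝ (x '' {i | i < (j : ℕ)}) := by
      refine convexHull_mono ?_ hu
      rintro _ ⟨i, hi, rfl⟩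
      exact ⟨i, hi, rfl⟩
    exact hilbert_of_far (hAB (hx j j.2))
      (hAB (hull_sub (ctx_of hA hAB) hx j.2 hu')) (h j j.2 u hu')
  have h2 := h1.trans hm
  have h3 : m + 1 ≤ m := by exact_mod_cast h2
  omega

theorem polar_sub_interior {G K : Set (Euc d)} (h : Admissible G K) :
    polarSet K ⊆ interior (polarSet G) := by
  obtain ⟨⟨hGc, -, -⟩, -, -, hGK⟩ := h
  obtain ⟨δ, hδ, hth⟩ := hGc.exists_thickening_subset_open isOpen_interior hGK
  obtain ⟨r, hr0, hr⟩ := hGc.isBounded.exists_pos_norm_le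
  intro y hy
  set t := δ / (2 * r) with ht
  have ht0 : 0 < t := by positivity
  have hxy : ∀ x ∈ G, (1 + t) * ⟪x, y⟫ ≤ 1 := by
    intro x hx
    have hmem : (1 + t) • x ∈ K := by
      apply interior_subset
      apply hth
      rw [Metric.mem_thickening_iff]
      refine ⟨x, hx, ?_⟩
      rw [dist_eq_norm, add_smul, one_smul, add_sub_cancel_left, norm_smul,
        Real.norm_of_nonneg ht0.le]
      calc t * ‖x‖ ≤ t * r := mul_le_mul_of_nonneg_left (hr x hx) ht0.le
        _ = δ / 2 := by rw [ht]; field_simp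
        _ < δ := by linarith
    have := hy _ hmem
    rwa [inner_smul_left, conj_trivial] at this
  rw [mem_interior_iff_mem_nhds, Metric.mem_nhds_iff]
  refine ⟨t / (1 + t) / r, by positivity, fun w hw x hx => ?_⟩
  rw [Metric.mem_ball, dist_eq_norm] at hw
  have h1 : ⟪x, w⟫ = ⟪x, y⟫ + ⟪x, w - y⟫ := by rw [inner_sub_right]; ring
  have h2 : ⟪x, w - y⟫ ≤ r * (t / (1 + t) / r) :=
    (real_inner_le_norm _ _).trans (mul_le_mul (hr x hx) hw.le (norm_nonneg _) hr0.le)
  have h3 : r * (t / (1 + t) / r) = 1 - 1 / (1 + t) := by field_simp; ring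
  have h4 : ⟪x, y⟫ ≤ 1 / (1 + t) := by
    rw [le_div_iff₀ (by linarith), mul_comm]; exact hxy x hx
  linarith

theorem exists_of_le_Mdiag {A B : Set (Euc d)} {η : ℝ} {N : ℕ} (hN0 : N ≠ 0)
    (hN : (N : ℕ∞) ≤ Mdiag A B η) :
    ∃ N' : ℕ, N ≤ N' ∧ ∃ y z : Fin N' → Euc d, (∀ i, y i ∈ A) ∧ (∀ i, z i ∈ A) ∧
    ∀ j, ∀ w : Fin N' → ℝ, (∀ i, 0 ≤ w i) → (∀ i, j ≤ i → w i = 0) → ∑ i, w i = 1 →
      η ≤ hilbertDist B (∑ i, w i • y i) (y j) + hilbertDist B (∑ i, w i • z i) (z j) := by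
  obtain ⟨M, rfl⟩ := Nat.exists_eq_succ_of_ne_zero hN0
  have h1 : (M : ℕ∞) < Mdiag A B η := lt_of_lt_of_le (by exact_mod_cast Nat.lt_succ_self M) hN
  obtain ⟨n, ⟨N', rfl, h⟩, hlt⟩ := lt_sSup_iff.1 h1
  exact ⟨N', by exact_mod_cast hlt, h⟩

theorem one_le_of_mem {A B : Set (Euc d)} {α : ℝ} {m : ℕ} {a : Euc d} (ha : a ∈ A)
    (hm : Mconv A B α ≤ m) : 1 ≤ m := by
  have h1 : ((1 : ℕ) : ℕ∞) ≤ Mconv A B α := by
    apply le_sSup
    refine ⟨1, rfl, fun _ => a, fun _ => ha, fun j u hu => ?_⟩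
    have : {i : Fin 1 | i < j} = ∅ := by
      ext i; simp [Subsingleton.elim i j]
    rw [this] at hu; simp at hu
  exact_mod_cast h1.trans hm

end Pool.Agent.MP_dc1150_gt

end
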