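import Pool.Agent.MP_dc1150_gt.Mg.Bridge
import Mathlib

-- part MP_dc1150_gt.Barrier
section

/-! A determinant potential, sorting lemmas and nets. -/

open scoped RealInnerProductSpace BigOperators
open Classical

namespace Pool.Agent.MP_dc1150_gt

variable {d : ℕ}

/-- Maximal determinant selection. -/
theorem exists_maxdet {X ι : Type*} [TopologicalSpace X] [Fintype ι] [DecidableEq ι]
    {P : Set X} (hP : IsCompact P) (v : X → ι → ℝ) (hv : ContinuousOn v P) (M0 : ι → X)
    (hM0 : ∀ i, M0 i ∈ P) (h0 : (Matrix.of fun i => v (M0 i)).det ≠ 0) :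
    ∃ M : ι → X, (∀ i, M i ∈ P) ∧ (Matrix.of fun i => v (M i)).det ≠ 0 ∧
      (∀ M' : ι → X, (∀ i, M' i ∈ P) →
        |(Matrix.of fun i => v (M' i)).det| ≤ |(Matrix.of fun i => v (M i)).det|) ∧
      ∀ p : X, ∃ c : ι → ℝ, v p = ∑ k, c k • v (M k) ∧
        ∀ k, (Matrix.of fun i => v (Function.update M k p i)).det
          = c k * (Matrix.of fun i => v (M i)).det := by
  have hK : IsCompact (Set.univ.pi fun _ : ι => P) := isCompact_univ_pi fun _ => hP
  have hcont : ContinuousOn (fun M : ι → X => |(Matrix.of fun i => v (M i)).det|)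
      (Set.univ.pi fun _ : ι => P) := by
    have h1 : Continuous fun A : Matrix ι ι ℝ => |A.det| :=
      (continuous_id.matrix_det).abs
    have h2 : ContinuousOn (fun M : ι → X => (Matrix.of fun i => v (M i) : Matrix ι ι ℝ))
        (Set.univ.pi fun _ : ι => P) := by
      apply continuousOn_pi.2
      intro i
      exact hv.comp (continuous_apply i).continuousOn fun M hM => hM i (Set.mem_univ i)
    exact h1.comp_continuousOn h2
  obtain ⟨M, hM, hmax⟩ := hK.exists_isMaxOn ⟨M0, fun i _ => hM0 i⟩ hcont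
  have hmax' : ∀ M' : ι → X, (∀ i, M' i ∈ P) →
      |(Matrix.of fun i => v (M' i)).det| ≤ |(Matrix.of fun i => v (M i)).det| :=
    fun M' h => hmax (fun i _ => h i)
  have hne : (Matrix.of fun i => v (M i)).det ≠ 0 := by
    intro h
    have := hmax' M0 hM0
    rw [h, abs_zero] at this
    exact h0 (abs_nonpos_iff.1 this)
  refine ⟨M, fun i => hM i (Set.mem_univ i), hne, hmax', fun p => ?_⟩
  have hu : IsUnit (Matrix.of fun i => v (M i)) :=
    (Matrix.isUnit_iff_isUnit_det _).2 (isUnit_iff_ne_zero.2 hne)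
  obtain ⟨c, hc⟩ := Matrix.vecMul_surjective_iff_isUnit.2 hu (v p)
  have hc' : v p = ∑ k, c k • v (M k) := by
    rw [← hc]
    ext j
    simp [Matrix.vecMul, dotProduct, Finset.sum_apply]
  refine ⟨c, hc', fun k => ?_⟩
  have h3 := Matrix.det_updateRow_sum (Matrix.of fun i => v (M i)) k c
  have h4 : (Matrix.of fun i => v (Function.update M k p i))
      = (Matrix.of fun i => v (M i)).updateRow k (∑ k, c k • (Matrix.of fun i => v (M i)) k) := by
    ext i j
    by_cases h : i = k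
    · subst h
      simp only [Matrix.of_apply, Function.update_self, Matrix.updateRow_self]
      rw [hc']; rfl
    · simp [h]
  rw [h4, h3, smul_eq_mul]

/-- The fixed-dimension hypotheses. -/
structure Ctx2 (R A : Set (Euc d)) : Prop extends Ctx R A where
  cR : IsCompact R
  cA : IsCompact A
  bR : ∃ ε : ℝ, 0 < ε ∧ Metric.closedBall (0 : Euc d) ε ⊆ R
  bA : ∃ ε : ℝ, 0 < ε ∧ Metric.closedBall (0 : Euc d) ε ⊆ A

/-- Homogeneous coordinates of a normalised row. -/
noncomputable def nv (x p : Euc d) : Option (Fin d) → ℝ :=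
  fun o => (Hh p x)⁻¹ * o.elim 1 (fun i => p i)

theorem nv_pair (x p y : Euc d) :
    ∑ o, nv x p o * o.elim 1 (fun i => -y i) = Hh p y / Hh p x := by
  rw [Fintype.sum_option]
  simp only [nv, Option.elim, mul_one]
  rw [div_eq_inv_mul]
  have : Hh p y = 1 + ∑ i, p i * -y i := by
    unfold Hh
    rw [PiLp.inner_apply]
    simp only [mul_neg, Finset.sum_neg_distrib]
    rw [sub_eq_add_neg]
    congr 2
    exact Finset.sum_congr rfl fun i _ => by simp [mul_comm]
  rw [this, mul_add, mul_one, Finset.mul_sum]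
  congr 1
  exact Finset.sum_congr rfl fun i _ => by ring

theorem continuous_Hh_left (x : Euc d) : Continuous fun p : Euc d => Hh p x := by
  unfold Hh; fun_prop

theorem det_nv_change {R A : Set (Euc d)} (hc : Ctx R A) {x y : Euc d} (hx : x ∈ A) (hy : y ∈ A)
    (q : Option (Fin d) → Euc d) (hq : ∀ k, q k ∈ R) :
    (Matrix.of fun k => nv x (q k)).det
      = (∏ k, Hh (q k) y / Hh (q k) x) * (Matrix.of fun k => nv y (q k)).det := by
  rw [← Matrix.det_mul_column]
  congr 1
  ext k o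
  have h1 := (hc.pos _ (hq k) _ hx).ne'
  have h2 := (hc.pos _ (hq k) _ hy).ne'
  simp only [Matrix.of_apply, nv]
  field_simp

/-- Barrier rows and the determinant potential. -/
structure Barrier (R A : Set (Euc d)) (P : Euc d → Option (Fin d) → Euc d) (V : Euc d → ℝ) :
    Prop where
  mem : ∀ x ∈ A, ∀ k, P x k ∈ R
  prod : ∀ x ∈ A, ∀ y ∈ A, V y ≤ V x → 1 ≤ ∏ k, Hh (P x k) y / Hh (P x k) x
  repr : ∀ x ∈ A, ∀ p ∈ R, ∃ c : Option (Fin d) → ℝ, (∀ k, |c k| ≤ 1) ∧
    (∀ y, Hh p y / Hh p x = ∑ k, c k * (Hh (P x k) y / Hh (P x k) x)) ∧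
    ∀ y ∈ A, V y ≤ V x → ∀ k, |c k| ≤
      Hh p y / Hh p x * ∏ k' ∈ Finset.univ.erase k, Hh (P x k') y / Hh (P x k') x

theorem exists_barrier {R A : Set (Euc d)} (hc : Ctx2 R A) : ∃ P V, Barrier R A P V := by
  obtain ⟨ε, hε, hball⟩ := hc.bR
  have key : ∀ x ∈ A, ∃ M : Option (Fin d) → Euc d, (∀ i, M i ∈ R) ∧
      (Matrix.of fun i => nv x (M i)).det ≠ 0 ∧
      (∀ M' : Option (Fin d) → Euc d, (∀ i, M' i ∈ R) →
        |(Matrix.of fun i => nv x (M' i)).det| ≤ |(Matrix.of fun i => nv x (M i)).det|) ∧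
      ∀ p : Euc d, ∃ c : Option (Fin d) → ℝ, nv x p = ∑ k, c k • nv x (M k) ∧
        ∀ k, (Matrix.of fun i => nv x (Function.update M k p i)).det
          = c k * (Matrix.of fun i => nv x (M i)).det := by
    intro x hx
    set M0 : Option (Fin d) → Euc d := fun o => o.elim 0 (fun i => EuclideanSpace.single i ε)
      with hM0def
    have hM0 : ∀ o, M0 o ∈ R := by
      intro o
      cases o with
      | none => exact hc.zeroR
      | some i =>
        apply hball
        simp [hM0def, abs_of_pos hε]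
    apply exists_maxdet hc.cR (nv x) _ M0 hM0
    · have h1 : (Matrix.of fun o => nv x (M0 o)) = Matrix.of fun o o' => (Hh (M0 o) x)⁻¹ *
          (Matrix.of fun o o' : Option (Fin d) => o'.elim 1 (fun i => M0 o i)) o o' := rfl
      rw [h1, Matrix.det_mul_column]
      apply mul_ne_zero
      · exact Finset.prod_ne_zero_iff.2 fun o _ => inv_ne_zero (hc.pos _ (hM0 o) _ hx).ne'
      · intro hdet
        obtain ⟨w, hw, hw2⟩ := Matrix.exists_vecMul_eq_zero_iff.2 hdet
        have hs : ∀ i, w (some i) = 0 := by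
          intro i
          have := congrFun hw2 (some i)
          simp [Matrix.vecMul, dotProduct, Fintype.sum_option, hM0def] at this
          rcases this with h | h
          · exact h
          · exact absurd h hε.ne'
        have hn : w none = 0 := by
          have := congrFun hw2 none
          simpa [Matrix.vecMul, dotProduct, Fintype.sum_option, hs] using this
        apply hw
        ext o
        cases o with
        | none => exact hn
        | some i => exact hs i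
    · apply continuousOn_pi.2
      intro o
      apply ContinuousOn.mul
      · exact (continuous_Hh_left x).continuousOn.inv₀ fun p hp => (hc.pos p hp x hx).ne'
      · cases o with
        | none => exact continuousOn_const
        | some i => exact Continuous.continuousOn (by simp only [Option.elim]; fun_prop)
  choose! P hP hdet hmax hrep using key
  refine ⟨P, fun x => |(Matrix.of fun i => nv x (P x i)).det|, hP, ?_, ?_⟩
  · intro x hx y hy hV
    have h1 := det_nv_change hc.toCtx hx hy (P x) (hP x hx)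
    have h2 := hmax y hy (P x) (hP x hx)
    have h3 : 0 < |(Matrix.of fun i => nv x (P x i)).det| := abs_pos.2 (hdet x hx)
    have h4 : 0 < ∏ k, Hh (P x k) y / Hh (P x k) x := Finset.prod_pos fun k _ =>
      div_pos (hc.pos _ (hP x hx k) _ hy) (hc.pos _ (hP x hx k) _ hx)
    have h5 : |(Matrix.of fun i => nv x (P x i)).det| ≤ (∏ k, Hh (P x k) y / Hh (P x k) x) *
        |(Matrix.of fun i => nv x (P x i)).det| := by
      conv_lhs => rw [h1, abs_mul, abs_of_pos h4]
      exact mul_le_mul_of_nonneg_left (h2.trans hV) h4.le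
    exact (le_mul_iff_one_le_left h3).1 h5
  · intro x hx p hp
    obtain ⟨c, hc1, hc2⟩ := hrep x hx p
    have h3 : 0 < |(Matrix.of fun i => nv x (P x i)).det| := abs_pos.2 (hdet x hx)
    have hup : ∀ k i, Function.update (P x) k p i ∈ R := by
      intro k i
      by_cases h : i = k
      · subst h; simpa using hp
      · simpa [h] using hP x hx i
    refine ⟨c, fun k => ?_, fun y => ?_, fun y hy hV k => ?_⟩
    · have := hmax x hx _ (hup k)
      rw [hc2, abs_mul] at this
      exact (mul_le_iff_le_one_left h3).1 this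
    · rw [← nv_pair, hc1]
      simp only [Finset.sum_apply, Pi.smul_apply, smul_eq_mul, Finset.sum_mul, ← nv_pair,
        Finset.mul_sum]
      rw [Finset.sum_comm]
      exact Finset.sum_congr rfl fun k _ => Finset.sum_congr rfl fun o _ => by ring
    · have h1 := det_nv_change hc.toCtx hx hy _ (hup k)
      have h2 := hmax y hy _ (hup k)
      have h4 : 0 < ∏ i, Hh (Function.update (P x) k p i) y / Hh (Function.update (P x) k p i) x :=
        Finset.prod_pos fun i _ => div_pos (hc.pos _ (hup k i) _ hy) (hc.pos _ (hup k i) _ hx)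
      have h5 : |c k| * |(Matrix.of fun i => nv x (P x i)).det| ≤
          (∏ i, Hh (Function.update (P x) k p i) y / Hh (Function.update (P x) k p i) x) *
          |(Matrix.of fun i => nv x (P x i)).det| := by
        rw [← abs_mul, ← hc2, h1, abs_mul, abs_of_pos h4]
        exact mul_le_mul_of_nonneg_left (h2.trans hV) h4.le
      have h6 := le_of_mul_le_mul_right h5 h3
      refine h6.trans (le_of_eq ?_)
      rw [← Finset.mul_prod_erase _ _ (Finset.mem_univ k), Function.update_self]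
      congr 1
      apply Finset.prod_congr rfl
      intro i hi
      rw [Function.update_of_ne (Finset.ne_of_mem_erase hi)]

/-- Deviation of an arbitrary row is controlled by the barrier rows. -/
theorem Barrier.dev {R A : Set (Euc d)} {P V} (hb : Barrier R A P V) {x : Euc d}
    (hx : x ∈ A) {p : Euc d} (hp : p ∈ R) (y y' : Euc d) :
    |Hh p y / Hh p x - Hh p y' / Hh p x| ≤
      ∑ k, |Hh (P x k) y / Hh (P x k) x - Hh (P x k) y' / Hh (P x k) x| := by
  obtain ⟨c, h1, h2, -⟩ := hb.repr x hx p hp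
  rw [h2 y, h2 y', ← Finset.sum_sub_distrib]
  refine (Finset.abs_sum_le_sum_abs _ _).trans (Finset.sum_le_sum fun k _ => ?_)
  rw [← mul_sub, abs_mul]
  exact mul_le_of_le_one_left (abs_nonneg _) (h1 k)

/-- Strong form of the arithmetic-geometric mean inequality. -/
theorem amgm_gap {ι : Type*} [Fintype ι] (ψ : ι → ℝ) (hψ : ∀ k, 0 < ψ k) (hprod : 1 ≤ ∏ k, ψ k)
    {r : ℝ} (hr : 0 < r) (hZ : r ≤ ∑ k, |ψ k - 1|) :
    ∑ k, |ψ k - 1| ≤ (2 + 4 * Fintype.card ι / r) * ∑ k, (ψ k - 1) := by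
  set D : ℝ := (Fintype.card ι : ℝ) with hD
  have hD0 : 0 < D := by
    rcases (Nat.cast_nonneg (α := ℝ) (Fintype.card ι)).lt_or_eq with h | h
    · exact h
    · have : Fintype.card ι = 0 := by exact_mod_cast h.symm
      have : IsEmpty ι := Fintype.card_eq_zero_iff.1 this
      simp at hZ; linarith
  set lam := r / (2 * D) with hlam
  have hlam0 : 0 < lam := by positivity
  have hlog : 0 ≤ ∑ k, Real.log (ψ k) := by
    rw [← Real.log_prod (fun k _ => (hψ k).ne')]
    exact Real.log_nonneg hprod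
  have h1 : ∀ k, (Real.sqrt (ψ k) - 1) ^ 2 ≤ (ψ k - 1) - Real.log (ψ k) := by
    intro k
    have hs := Real.sqrt_pos.2 (hψ k)
    have h2 := Real.log_le_sub_one_of_pos hs
    rw [Real.log_sqrt (hψ k).le] at h2
    have h3 := Real.sq_sqrt (hψ k).le
    nlinarith
  have h2 : ∀ k, |ψ k - 1| ≤ (1 + 1 / lam) * (Real.sqrt (ψ k) - 1) ^ 2 + lam := by
    intro k
    set s := Real.sqrt (ψ k) - 1 with hs
    have h3 : ψ k - 1 = s ^ 2 + 2 * s := by
      have := Real.sq_sqrt (hψ k).le
      rw [hs]; nlinarith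
    have h4 : 2 * |s| ≤ s ^ 2 / lam + lam := by
      rw [div_add' _ _ _ hlam0.ne', le_div_iff₀ hlam0, ← sq_abs s]
      nlinarith [sq_nonneg (|s| - lam)]
    rw [h3]
    calc |s ^ 2 + 2 * s| ≤ |s ^ 2| + |2 * s| := abs_add_le _ _
      _ = s ^ 2 + 2 * |s| := by rw [abs_mul, abs_of_nonneg (sq_nonneg s)]; norm_num
      _ ≤ s ^ 2 + (s ^ 2 / lam + lam) := by linarith
      _ = _ := by ring
  have h3 : ∑ k, (Real.sqrt (ψ k) - 1) ^ 2 ≤ ∑ k, (ψ k - 1) := by
    have := Finset.sum_le_sum fun k (_ : k ∈ Finset.univ) => h1 k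
    rw [Finset.sum_sub_distrib] at this
    linarith
  have h4 : ∑ k, |ψ k - 1| ≤ (1 + 1 / lam) * ∑ k, (Real.sqrt (ψ k) - 1) ^ 2 + D * lam := by
    have := Finset.sum_le_sum fun k (_ : k ∈ Finset.univ) => h2 k
    rw [Finset.sum_add_distrib, ← Finset.mul_sum] at this
    simpa [hD] using this
  have h5 : D * lam = r / 2 := by rw [hlam]; field_simp
  have h6 : 2 + 4 * D / r = 2 * (1 + 1 / lam) := by rw [hlam]; field_simp; ring
  have h7 := mul_le_mul_of_nonneg_left h3 (by positivity : 0 ≤ 1 + 1 / lam)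
  rw [h6]; linarith

/-- A positive combination of normalised rows is a multiple of a row. -/
theorem exists_row {R A : Set (Euc d)} (hc : Ctx R A) {ι : Type*} [Fintype ι] [Nonempty ι]
    {x : Euc d} (hx : x ∈ A) (q : ι → Euc d) (hq : ∀ k, q k ∈ R) (κ : ι → ℝ)
    (hκ : ∀ k, 0 < κ k) :
    ∃ p ∈ R, ∃ t : ℝ, 0 < t ∧ ∀ y, t * Hh p y = ∑ k, κ k * (Hh (q k) y / Hh (q k) x) := by
  have hpos : ∀ k, 0 < κ k / Hh (q k) x := fun k => div_pos (hκ k) (hc.pos _ (hq k) _ hx)
  set t := ∑ k, κ k / Hh (q k) x with ht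
  have ht0 : 0 < t := Finset.sum_pos (fun k _ => hpos k) Finset.univ_nonempty
  have hsum : ∑ k, κ k / Hh (q k) x / t = 1 := by rw [← Finset.sum_div, div_self ht0.ne']
  refine ⟨∑ k, (κ k / Hh (q k) x / t) • q k,
    hc.convR.sum_mem (fun k _ => (div_pos (hpos k) ht0).le) hsum (fun k _ => hq k), t, ht0, ?_⟩
  intro y
  have gen : ∀ w : ι → ℝ, ∑ k, w k = 1 → Hh (∑ k, w k • q k) y = ∑ k, w k * Hh (q k) y := by
    intro w hw
    unfold Hh
    rw [sum_inner]
    simp only [inner_smul_left, conj_trivial, mul_sub, mul_one, Finset.sum_sub_distrib, hw]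
  rw [gen _ hsum, Finset.mul_sum]
  exact Finset.sum_congr rfl fun k _ => by field_simp

/-- A family sorted by a key and separated by rows is row-separated. -/
theorem card_le_of_sorted {R A : Set (Euc d)} (hc : Ctx R A) {α μ : ℝ} {m : ℕ}
    (hm : ¬ TSep R A α (m + 1)) (hμ : Real.exp (2 * α) < μ) {Ω κ : Type*} [Fintype Ω]
    [LinearOrder κ] (X : Ω → Euc d) (hX : ∀ w, X w ∈ A) (key : Ω → κ)
    (h : ∀ w, ∃ p ∈ R, ∀ w', w' ≠ w → key w' ≤ key w → μ * Hh p (X w) ≤ Hh p (X w')) :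
    Fintype.card Ω ≤ m := by
  by_contra hcon
  push Not at hcon
  set n := Fintype.card Ω with hn
  let e : Fin n ≃ Ω := (Fintype.equivFin Ω).symm
  let σ : Fin n ≃ Ω := (Tuple.sort (key ∘ e)).trans e
  have hmono : Monotone (key ∘ σ) := Tuple.monotone_sort (key ∘ e)
  let s : ℕ → Ω := fun i => if hi : i < n then σ ⟨i, hi⟩ else σ ⟨0, by omega⟩
  apply hm
  apply tsep_of_rows (fun i => X (s i)) (fun i _ => hX _)
  intro j hj
  obtain ⟨p, hp, hp2⟩ := h (s j)
  refine ⟨p, hp, μ * Hh p (X (s j)), Or.inr ⟨fun i hi => ?_, ?_⟩⟩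
  · have hi' : i < n := by omega
    have hj' : j < n := by omega
    apply hp2
    · simp only [s, hi', hj', dif_pos]
      intro h'
      have := σ.injective h'
      simp at this; omega
    · simp only [s, hi', hj', dif_pos]
      exact hmono (show (⟨i, hi'⟩ : Fin n) ≤ ⟨j, hj'⟩ from hi.le)
  · exact mul_lt_mul_of_pos_right hμ (hc.pos p hp _ (hX _))

/-- Two-sided closeness. -/
def Near (R : Set (Euc d)) (r : ℝ) (u v : Euc d) : Prop := Close R r u v ∧ Close R r v u

theorem Near.symm {R : Set (Euc d)} {r : ℝ} {u v : Euc d} (h : Near R r u v) : Near R r v u :=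
  ⟨h.2, h.1⟩

theorem near_self {R A : Set (Euc d)} (hc : Ctx R A) {r : ℝ} (hr : 0 ≤ r) {u : Euc d}
    (hu : u ∈ A) : Near R r u u := by
  have : Close R r u u := fun p hp =>
    le_mul_of_one_le_left (hc.pos p hp u hu).le (Real.one_le_exp hr)
  exact ⟨this, this⟩

/-- Nets. -/
theorem exists_net {R A : Set (Euc d)} (hc : Ctx R A) {r : ℝ} (hr : 0 ≤ r) (Y : Finset (Euc d))
    (hY : ∀ y ∈ Y, y ∈ A) :
    ∃ X ⊆ Y, (∀ a ∈ X, ∀ b ∈ X, a ≠ b → ¬ Near R r a b) ∧ ∀ y ∈ Y, ∃ a ∈ X, Near R r y a := by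
  let good : Finset (Euc d) → Prop := fun X => ∀ a ∈ X, ∀ b ∈ X, a ≠ b → ¬ Near R r a b
  have hdec : DecidablePred good := fun _ => Classical.propDecidable _
  obtain ⟨X, hX, hmax⟩ := Finset.exists_max_image (Y.powerset.filter good) Finset.card
    ⟨∅, Finset.mem_filter.2 ⟨by simp, by simp [good]⟩⟩
  obtain ⟨hX1, hX2⟩ := Finset.mem_filter.1 hX
  have hX1' := Finset.mem_powerset.1 hX1
  refine ⟨X, hX1', hX2, fun y hy => ?_⟩
  by_contra hcon
  push Not at hcon
  have hyX : y ∉ X := fun h => hcon y h (near_self hc hr (hY y hy))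
  have := hmax (insert y X) (Finset.mem_filter.2 ⟨Finset.mem_powerset.2
    (Finset.insert_subset hy hX1'), ?_⟩)
  · rw [Finset.card_insert_of_notMem hyX] at this; omega
  · intro a ha b hb hab
    rcases Finset.mem_insert.1 ha with rfl | ha' <;> rcases Finset.mem_insert.1 hb with rfl | hb'
    · exact absurd rfl hab
    · exact hcon b hb'
    · exact fun h => hcon a ha' h.symm
    · exact hX2 a ha' b hb' hab

theorem dev_of_not_near {R A : Set (Euc d)} (hc : Ctx R A) {P V} (hb : Barrier R A P V)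
    {x y : Euc d} (hx : x ∈ A) {s : ℝ} (h : ¬ Near R s x y) :
    1 - Real.exp (-s) ≤ ∑ k, |Hh (P x k) y / Hh (P x k) x - 1| := by
  have key : ∀ p ∈ R, |Hh p y / Hh p x - 1| ≤ ∑ k, |Hh (P x k) y / Hh (P x k) x - 1| := by
    intro p hp
    have := hb.dev hx hp y x
    rw [div_self (hc.pos p hp x hx).ne'] at this
    refine this.trans (le_of_eq (Finset.sum_congr rfl fun k _ => ?_))
    rw [div_self (hc.pos _ (hb.mem x hx k) x hx).ne']
  by_contra hcon
  push Not at hcon
  apply h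
  have h1 := Real.add_one_le_exp s
  have h2 := Real.add_one_le_exp (-s)
  constructor
  · intro p hp
    have h3 := (abs_le.1 ((key p hp).trans hcon.le)).1
    have hpx := hc.pos p hp x hx
    have h4 : Real.exp (-s) ≤ Hh p y / Hh p x := by linarith
    rwa [le_div_iff₀ hpx, Real.exp_neg, inv_mul_le_iff₀ (Real.exp_pos _)] at h4
  · intro p hp
    have h3 := (abs_le.1 ((key p hp).trans hcon.le)).2
    have hpx := hc.pos p hp x hx
    have h4 : Hh p y / Hh p x ≤ Real.exp s := by linarith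
    rwa [div_le_iff₀ hpx] at h4

/-- Large-scale gain of the averaged barrier row. -/
theorem large_gain {R A : Set (Euc d)} (hc : Ctx R A) {P V} (hb : Barrier R A P V)
    {x y : Euc d} (hx : x ∈ A) (hy : y ∈ A) (hV : V y ≤ V x) {s : ℝ} (hs : 1 / 8 ≤ s)
    (h : ¬ Near R s x y) :
    (d + 1) * Real.exp (s / (4000 * (d + 1) ^ 4)) ≤ ∑ k, Hh (P x k) y / Hh (P x k) x := by
  set D : ℝ := d + 1 with hD
  have hD1 : 1 ≤ D := by rw [hD]; linarith [Nat.cast_nonneg (α := ℝ) d]
  have hcard : (Fintype.card (Option (Fin d)) : ℝ) = D := by simp [hD]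
  set ψ : Option (Fin d) → ℝ := fun k => Hh (P x k) y / Hh (P x k) x with hψ
  have hψ0 : ∀ k, 0 < ψ k := fun k =>
    div_pos (hc.pos _ (hb.mem x hx k) y hy) (hc.pos _ (hb.mem x hx k) x hx)
  have hD2 : D ≤ D ^ 2 := by nlinarith
  have hD4 : D ^ 2 ≤ D ^ 4 := pow_le_pow_right₀ hD1 (by norm_num)
  rcases le_or_gt s (4 * D ^ 2) with hs2 | hs2
  · have h1 := dev_of_not_near hc hb hx h
    have h2 : (1 : ℝ) / 10 ≤ 1 - Real.exp (-s) := by
      have h3 : Real.exp (-s) ≤ Real.exp (-(1 / 8)) := Real.exp_le_exp.2 (by linarith)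
      have h4 : Real.exp (-(1 / 8)) ≤ 9 / 10 := by
        rw [Real.exp_neg, inv_le_comm₀ (Real.exp_pos _) (by norm_num)]
        linarith [Real.add_one_le_exp (1 / 8 : ℝ)]
      linarith
    have h3 := amgm_gap ψ hψ0 (hb.prod x hx y hy hV) (by norm_num : (0 : ℝ) < 1 / 10) (h2.trans h1)
    rw [hcard, Finset.sum_sub_distrib] at h3
    simp only [Finset.sum_const, Finset.card_univ, nsmul_eq_mul, mul_one, hcard] at h3
    set t := s / (4000 * D ^ 4) with ht
    have ht0 : 0 ≤ t := by positivity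
    have ht1 : t ≤ 1 / (1000 * D ^ 2) := by
      rw [ht, div_le_div_iff₀ (by positivity) (by positivity)]
      have := mul_le_mul_of_nonneg_right hs2 (by positivity : 0 ≤ 1000 * D ^ 2)
      linarith
    have ht2 : t ≤ 1 / 1000 := ht1.trans (by
      rw [div_le_div_iff₀ (by positivity) (by positivity)]; linarith)
    have h5 : Real.exp t ≤ 1 + 2 * t := by
      have := (abs_le.1 (Real.abs_exp_sub_one_le (x := t) (by rw [abs_of_nonneg ht0]; linarith))).2
      rw [abs_of_nonneg ht0] at this; linarith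
    have h6 : 1 / (420 * D) ≤ ∑ k, ψ k - D := by
      have h7 : (2 + 4 * D / (1 / 10)) ≤ 42 * D := by linarith
      by_contra hcon
      push Not at hcon
      have h8 : (2 + 4 * D / (1 / 10)) * (∑ k, ψ k - D) < (2 + 4 * D / (1 / 10)) * (1 / (420 * D)) :=
        mul_lt_mul_of_pos_left hcon (by positivity)
      have h9 : (2 + 4 * D / (1 / 10)) * (1 / (420 * D)) ≤ 42 * D * (1 / (420 * D)) :=
        mul_le_mul_of_nonneg_right h7 (by positivity)
      have h10 : 42 * D * (1 / (420 * D)) = 1 / 10 := by field_simp; norm_num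
      linarith
    have h11 : D * (2 * t) ≤ 1 / (420 * D) := by
      calc D * (2 * t) ≤ D * (2 * (1 / (1000 * D ^ 2))) := by gcongr
        _ = 1 / (500 * D) := by field_simp; norm_num
        _ ≤ 1 / (420 * D) := by
          rw [div_le_div_iff₀ (by positivity) (by positivity)]; linarith
    have h12 := mul_le_mul_of_nonneg_left h5 (by linarith : 0 ≤ D)
    linarith
  · set t := s / (4000 * D ^ 4) with ht
    have ht0 : 0 ≤ t := by positivity
    have htD : t * D ≤ s / 4000 := by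
      rw [ht, div_mul_eq_mul_div, div_le_div_iff₀ (by positivity) (by positivity)]
      have := mul_le_mul_of_nonneg_left (hD2.trans hD4) (by positivity : 0 ≤ s * 4000)
      linarith
    have htD' : t ≤ t * D := le_mul_of_one_le_right ht0 hD1
    have hDe : D ≤ Real.exp D := by linarith [Real.add_one_le_exp D]
    have hDt : D * Real.exp t ≤ Real.exp (D + t) := by
      rw [Real.exp_add]; exact mul_le_mul_of_nonneg_right hDe (Real.exp_pos _).le
    by_contra hcon
    push Not at hcon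
    apply h
    constructor
    · intro p hp
      by_contra h1
      push Not at h1
      have hpx := hc.pos p hp x hx
      obtain ⟨c, hc1, hc2, hc3⟩ := hb.repr x hx p hp
      have hsum : ∑ k, c k = 1 := by
        have := hc2 x
        rw [div_self hpx.ne'] at this
        rw [this]
        exact Finset.sum_congr rfl fun k _ => by
          rw [div_self (hc.pos _ (hb.mem x hx k) x hx).ne', mul_one]
      obtain ⟨k, -, hk⟩ := Finset.exists_le_of_sum_le (s := Finset.univ) (f := fun _ => 1 / D)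
        (g := c) Finset.univ_nonempty (by
          simp only [Finset.sum_const, Finset.card_univ, nsmul_eq_mul, hcard, hsum]
          rw [mul_one_div_cancel (by linarith)])
      have h2 := (hk.trans (le_abs_self _)).trans (hc3 y hy hV k)
      have h3 : Hh p y / Hh p x ≤ Real.exp (-s) := by
        rw [div_le_iff₀ hpx, Real.exp_neg, le_inv_mul_iff₀ (Real.exp_pos _)]; exact h1.le
      have h4 : ∏ k' ∈ Finset.univ.erase k, ψ k' ≤ Real.exp (D + t) ^ d := by
        have h5 : ∀ k' ∈ Finset.univ.erase k, ψ k' ≤ Real.exp (D + t) := fun k' _ =>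
          (Finset.single_le_sum (f := ψ) (fun i _ => (hψ0 i).le) (Finset.mem_univ k')).trans
            (hcon.le.trans hDt)
        have := Finset.prod_le_prod (fun k' _ => (hψ0 k').le) h5
        simpa using this
      have h5 : 1 / D ≤ Real.exp (-s) * Real.exp (D + t) ^ d :=
        h2.trans (mul_le_mul h3 h4 (Finset.prod_nonneg fun k' _ => (hψ0 k').le)
          (Real.exp_pos _).le)
      have h6 : Real.exp (-D) ≤ 1 / D := by
        rw [Real.exp_neg, one_div]; exact inv_anti₀ (by linarith) hDe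
      rw [← Real.exp_nat_mul, ← Real.exp_add] at h5
      have h7 := Real.exp_le_exp.1 (h6.trans h5)
      have h8 : (d : ℝ) * (D + t) ≤ D * (D + t) :=
        mul_le_mul_of_nonneg_right (by linarith) (by linarith)
      have h9 : D * (D + t) = D ^ 2 + t * D := by ring
      linarith
    · intro p hp
      have hpx := hc.pos p hp x hx
      obtain ⟨c, hc1, hc2, -⟩ := hb.repr x hx p hp
      rw [← div_le_iff₀ hpx, hc2 y]
      calc ∑ k, c k * ψ k ≤ ∑ k, ψ k := Finset.sum_le_sum fun k _ =>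
            mul_le_of_le_one_left (hψ0 k).le ((le_abs_self _).trans (hc1 k))
        _ ≤ Real.exp (D + t) := hcon.le.trans hDt
        _ ≤ Real.exp s := Real.exp_le_exp.2 (by linarith)

/-- At large scales nets are convexly separated. -/
theorem large_net {R A : Set (Euc d)} (hc : Ctx2 R A) {s : ℝ} (hs : 1 / 8 ≤ s) {m : ℕ}
    (hm : ¬ TSep R A (s / (16000 * (d + 1) ^ 4)) (m + 1)) (X : Finset (Euc d))
    (hX : ∀ a ∈ X, a ∈ A) (hsep : ∀ a ∈ X, ∀ b ∈ X, a ≠ b → ¬ Near R s a b) : X.card ≤ m := by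
  obtain ⟨P, V, hb⟩ := exists_barrier hc
  rw [← Fintype.card_coe]
  apply card_le_of_sorted hc.toCtx hm (μ := Real.exp (s / (4000 * (d + 1) ^ 4))) _
    (fun a : X => (a : Euc d)) (fun a => hX a a.2) (fun a => V a)
  · intro a
    have ha := hX a a.2
    obtain ⟨p, hp, t, ht, h⟩ := exists_row hc.toCtx ha (P a) (hb.mem a ha) (fun _ => 1)
      (fun _ => one_pos)
    refine ⟨p, hp, fun b hba hV => ?_⟩
    have h1 := large_gain hc.toCtx hb ha (hX b b.2) hV hs
      (hsep a a.2 b b.2 fun h' => hba (Subtype.ext h'.symm))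
    have h2 : t * Hh p a = d + 1 := by
      rw [h]
      have : ∀ k, 1 * (Hh (P a k) a / Hh (P a k) a) = 1 := fun k => by
        rw [div_self (hc.pos _ (hb.mem a ha k) a ha).ne', mul_one]
      simp [this]
    apply le_of_mul_le_mul_left _ ht
    rw [h b, mul_left_comm, h2, mul_comm]
    simpa using h1
  · apply Real.exp_lt_exp.2
    have : (0 : ℝ) < s / (d + 1) ^ 4 := by positivity
    have e1 : 2 * (s / (16000 * (d + 1) ^ 4)) = s / (d + 1) ^ 4 / 8000 := by field_simp; norm_num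
    have e2 : s / (4000 * (d + 1) ^ 4) = s / (d + 1) ^ 4 / 4000 := by field_simp
    rw [e1, e2]; linarith

end Pool.Agent.MP_dc1150_gt

end

-- part MP_dc1150_gt.Frame
section

/-! Local frames adapted to the local norm and to the body. -/

open scoped RealInnerProductSpace BigOperators
open Classical

namespace Pool.Agent.MP_dc1150_gt

variable {d : ℕ}

/-- Local coordinates given by the barrier rows. -/
noncomputable def Tm (q : Option (Fin d) → Euc d) (x : Euc d) :
    Euc d →ₗ[ℝ] EuclideanSpace ℝ (Option (Fin d)) where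
  toFun v := WithLp.toLp 2 fun k => ⟪q k, v⟫ / Hh (q k) x
  map_add' u v := by ext k; simp [inner_add_right, add_div]
  map_smul' c v := by ext k; simp [inner_smul_right, mul_div_assoc]

theorem Tm_sub (q : Option (Fin d) → Euc d) (x y y' : Euc d) (k : Option (Fin d)) :
    Tm q x (y - y') k = Hh (q k) y' / Hh (q k) x - Hh (q k) y / Hh (q k) x := by
  change ⟪q k, y - y'⟫ / Hh (q k) x = _
  rw [← sub_div, inner_sub_right]
  congr 1
  unfold Hh; ring

theorem abs_coord_le {ι : Type*} [Fintype ι] (v : EuclideanSpace ℝ ι) (k : ι) : |v k| ≤ ‖v‖ := by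
  simpa using PiLp.norm_apply_le v k

theorem norm_le_sum_abs {ι : Type*} [Fintype ι] (v : EuclideanSpace ℝ ι) : ‖v‖ ≤ ∑ k, |v k| := by
  have h : v = ∑ k, EuclideanSpace.single k (v k) := by
    ext j; simp [Finset.sum_apply, Pi.single_apply]
  conv_lhs => rw [h]
  refine (norm_sum_le _ _).trans (le_of_eq ?_)
  simp

theorem dev_Tm {R A : Set (Euc d)} (hc : Ctx R A) {P V} (hb : Barrier R A P V) {x : Euc d}
    (hx : x ∈ A) {p : Euc d} (hp : p ∈ R) (y y' : Euc d) :
    |Hh p y - Hh p y'| ≤ Hh p x * ∑ k, |Tm (P x) x (y - y') k| := by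
  have h := hb.dev hx hp y y'
  have hpx := hc.pos p hp x hx
  rw [← sub_div, abs_div, abs_of_pos hpx, div_le_iff₀ hpx, mul_comm] at h
  refine h.trans (le_of_eq ?_)
  congr 1
  exact Finset.sum_congr rfl fun k _ => by rw [Tm_sub, abs_sub_comm]

/-- The unit cell around a point. -/
def Cell (R A : Set (Euc d)) (x : Euc d) : Set (Euc d) := {y | y ∈ A ∧ Near R 1 y x}

theorem convex_Cell {R A : Set (Euc d)} (hc : Ctx R A) (x : Euc d) : Convex ℝ (Cell R A x) := by
  intro u hu v hv a b ha hb hab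
  refine ⟨hc.convA hu.1 hv.1 ha hb hab, fun p hp => ?_, fun p hp => ?_⟩
  · exact convex_Hh_le p _ (hu.2.1 p hp) (hv.2.1 p hp) ha hb hab
  · rw [← inv_mul_le_iff₀ (Real.exp_pos _)]
    apply convex_le_Hh p _ _ _ ha hb hab
    · exact (inv_mul_le_iff₀ (Real.exp_pos _)).2 (hu.2.2 p hp)
    · exact (inv_mul_le_iff₀ (Real.exp_pos _)).2 (hv.2.2 p hp)

theorem compact_Cell {R A : Set (Euc d)} (hc : Ctx2 R A) (x : Euc d) :
    IsCompact (Cell R A x) := by
  have h : Cell R A x = A ∩ ((⋂ p ∈ R, {y | Hh p y ≤ Real.exp 1 * Hh p x}) ∩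
      ⋂ p ∈ R, {y | Hh p x ≤ Real.exp 1 * Hh p y}) := by
    ext y
    simp only [Cell, Near, Close, Set.mem_ofPred_eq, Set.mem_inter_iff, Set.mem_iInter]
  have hcont : ∀ p : Euc d, Continuous fun y : Euc d => Hh p y := fun p => by
    unfold Hh; fun_prop
  rw [h]
  apply hc.cA.inter_right
  apply IsClosed.inter
  · exact isClosed_biInter fun p _ => isClosed_le (hcont p) continuous_const
  · exact isClosed_biInter fun p _ => isClosed_le continuous_const (continuous_const.mul (hcont p))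

theorem mem_Cell_of_small {R A : Set (Euc d)} (hc : Ctx R A) {P V} (hb : Barrier R A P V)
    {x y : Euc d} (hx : x ∈ A) (hy : y ∈ A) (h : ∑ k, |Tm (P x) x (y - x) k| ≤ 1 / 2) :
    y ∈ Cell R A x := by
  have he : (2 : ℝ) ≤ Real.exp 1 := by linarith [Real.add_one_le_exp 1]
  refine ⟨hy, fun p hp => ?_, fun p hp => ?_⟩
  · have hpx := hc.pos p hp x hx
    have h1 := (abs_le.1 ((dev_Tm hc hb hx hp y x).trans
      (mul_le_mul_of_nonneg_left h hpx.le))).2
    have := mul_le_mul_of_nonneg_right he hpx.le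
    linarith
  · have hpx := hc.pos p hp x hx
    have h1 := (abs_le.1 ((dev_Tm hc hb hx hp y x).trans
      (mul_le_mul_of_nonneg_left h hpx.le))).1
    have := mul_le_mul_of_nonneg_right he (hc.pos p hp y hy).le
    linarith

theorem Cell_dev {R A : Set (Euc d)} (hc : Ctx R A) {x y : Euc d} (hx : x ∈ A)
    (hy : y ∈ Cell R A x) {p : Euc d} (hp : p ∈ R) : |Hh p y - Hh p x| ≤ 2 * Hh p x := by
  have h1 := hy.2.1 p hp
  have h2 := hc.pos p hp y hy.1
  have h3 := hc.pos p hp x hx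
  have he : Real.exp 1 ≤ 3 := by linarith [Real.exp_one_lt_d9]
  have := mul_le_mul_of_nonneg_right he h3.le
  rw [abs_le]; constructor <;> linarith

theorem seg_mem_Cell {R A : Set (Euc d)} (hc : Ctx R A) {P V} (hb : Barrier R A P V)
    {x w : Euc d} (hx : x ∈ A) (hw : w ∈ A) {t : ℝ} (ht0 : 0 ≤ t) (ht1 : t ≤ 1)
    (h : t * ∑ k, |Tm (P x) x (w - x) k| ≤ 1 / 2) : x + t • (w - x) ∈ Cell R A x := by
  apply mem_Cell_of_small hc hb hx (hc.convA.add_smul_sub_mem hx hw ⟨ht0, ht1⟩)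
  rw [add_sub_cancel_left, map_smul]
  simp only [PiLp.smul_apply, smul_eq_mul, abs_mul, abs_of_nonneg ht0, ← Finset.mul_sum]
  exact h

theorem Tm_inj {R A : Set (Euc d)} (hc : Ctx2 R A) {P V} (hb : Barrier R A P V) {x : Euc d}
    (hx : x ∈ A) {v : Euc d} (hv : Tm (P x) x v = 0) : v = 0 := by
  by_contra hne
  obtain ⟨ε, hε, hball⟩ := hc.bR
  have hn : 0 < ‖v‖ := norm_pos_iff.2 hne
  have hp : (ε / ‖v‖) • v ∈ R := by
    apply hball
    rw [mem_closedBall_zero_iff, norm_smul, Real.norm_of_nonneg (by positivity)]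
    field_simp; exact le_rfl
  have h := dev_Tm hc.toCtx hb hx hp v 0
  rw [sub_zero, hv] at h
  simp only [PiLp.zero_apply, abs_zero, Finset.sum_const_zero, mul_zero, abs_nonpos_iff, Hh,
    inner_zero_right, inner_smul_left, real_inner_self_eq_norm_sq, conj_trivial] at h
  have : 0 < ε / ‖v‖ * ‖v‖ ^ 2 := by positivity
  linarith

/-- A frame at a point. -/
structure Frame (R A : Set (Euc d)) (q : Option (Fin d) → Euc d) (x : Euc d)
    (b : Fin d → Euc d) (z : Euc d) (σ : Fin d → ℝ)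
    (e : Fin d → EuclideanSpace ℝ (Option (Fin d))) : Prop where
  pos : ∀ i, 0 < σ i
  le : ∀ i, σ i ≤ 2 * d * (d + 1)
  on : Orthonormal ℝ e
  map : ∀ i, Tm q x (b i) = σ i • e i
  outer : ∀ y ∈ Cell R A x, ∃ s : Fin d → ℝ, (∀ i, |s i| ≤ d) ∧ y = x + ∑ i, s i • b i
  inner : ∀ s : Fin d → ℝ, (∀ i, 0 ≤ s i ∧ s i ≤ 1 / (2 * d ^ 2)) →
    z + ∑ i, s i • b i ∈ Cell R A x

theorem exists_nondeg {R A : Set (Euc d)} (hc : Ctx2 R A) {P V} (hb : Barrier R A P V)
    {x : Euc d} (hx : x ∈ A) : ∃ M0 : Fin d → Euc d, (∀ i, M0 i ∈ Cell R A x) ∧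
      (Matrix.of fun i => (fun j => (M0 i - x) j)).det ≠ 0 := by
  obtain ⟨ε, hε, hball⟩ := hc.bA
  obtain ⟨ε', h1, h2⟩ : ∃ ε' : ℝ, |ε'| = ε ∧ ε' ≠ ∑ j, x j := by
    by_cases h : ε = ∑ j, x j
    · exact ⟨-ε, by rw [abs_neg, abs_of_pos hε], by rw [← h]; linarith⟩
    · exact ⟨ε, abs_of_pos hε, h⟩
  have hε' : ε' ≠ 0 := by rintro rfl; simp at h1; linarith
  set w : Fin d → Euc d := fun i => EuclideanSpace.single i ε' with hw
  have hwA : ∀ i, w i ∈ A := fun i => hball (by simp [hw, h1])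
  set Z : Fin d → ℝ := fun i => ∑ k, |Tm (P x) x (w i - x) k| with hZ
  have hZ0 : ∀ i, 0 ≤ Z i := fun i => Finset.sum_nonneg fun k _ => abs_nonneg _
  refine ⟨fun i => x + (1 / (2 * Z i + 2)) • (w i - x), fun i => ?_, ?_⟩
  · have := hZ0 i
    apply seg_mem_Cell hc.toCtx hb hx (hwA i) (by positivity)
    · rw [div_le_one (by positivity)]; linarith
    · change 1 / (2 * Z i + 2) * Z i ≤ 1 / 2
      rw [one_div_mul_eq_div, div_le_div_iff₀ (by positivity) (by positivity)]; linarith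
  · have h3 : (Matrix.of fun i => (fun j => (x + (1 / (2 * Z i + 2)) • (w i - x) - x) j))
        = Matrix.of fun i j => (1 / (2 * Z i + 2)) *
          (Matrix.of fun i j : Fin d => (w i - x) j) i j := by
      ext i j; simp
    rw [h3, Matrix.det_mul_column]
    apply mul_ne_zero
    · exact Finset.prod_ne_zero_iff.2 fun i _ => by have := hZ0 i; positivity
    · intro hdet
      obtain ⟨c, hc0, hc2⟩ := Matrix.exists_vecMul_eq_zero_iff.2 hdet
      have h4 : ∀ j, c j * ε' = (∑ i, c i) * x j := by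
        intro j
        have := congrFun hc2 j
        simp only [Matrix.vecMul, dotProduct, Matrix.of_apply, hw, PiLp.sub_apply,
          PiLp.single_apply, mul_sub, Finset.sum_sub_distrib, mul_ite, mul_zero,
          Finset.sum_ite_eq, Finset.mem_univ, if_true, Pi.zero_apply] at this
        rw [Finset.sum_mul]; linarith
      have h5 : (∑ i, c i) * ε' = (∑ i, c i) * ∑ j, x j := by
        rw [Finset.sum_mul, Finset.mul_sum]
        exact Finset.sum_congr rfl fun j _ => h4 j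
      have h6 : ∑ i, c i = 0 := by
        by_contra h
        exact h2 (mul_left_cancel₀ h h5)
      apply hc0
      ext j
      have := h4 j
      rw [h6, zero_mul] at this
      exact (mul_eq_zero.1 this).resolve_right hε'

/-- Linear combination map. -/
noncomputable def Mlin (a : Fin d → Euc d) : Euc d →ₗ[ℝ] Euc d where
  toFun t := ∑ k, t k • a k
  map_add' u v := by simp [add_smul, Finset.sum_add_distrib]
  map_smul' c v := by simp [mul_smul, Finset.smul_sum]

theorem exists_frame {R A : Set (Euc d)} (hc : Ctx2 R A) (hd : 1 ≤ d) {P V}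
    (hb : Barrier R A P V) {x : Euc d} (hx : x ∈ A) :
    ∃ b z σ e, Frame R A (P x) x b z σ e := by
  obtain ⟨M0, hM0, hdet0⟩ := exists_nondeg hc hb hx
  obtain ⟨a, ha, hdet, hmax, hrep⟩ := exists_maxdet (compact_Cell hc x)
    (fun y : Euc d => (fun j => (y - x) j)) (Continuous.continuousOn (by fun_prop)) M0 hM0 hdet0
  have hd' : (1 : ℝ) ≤ d := by exact_mod_cast hd
  set M := Mlin (fun k => a k - x) with hM
  have hMapp : ∀ t : Euc d, M t = ∑ k, t k • (a k - x) := fun t => rfl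
  set L := (Tm (P x) x).comp M with hL
  have hsym : (L.adjoint.comp L).IsSymmetric := by
    intro u v
    simp only [LinearMap.comp_apply]
    rw [LinearMap.adjoint_inner_left, LinearMap.adjoint_inner_right]
  set u := hsym.eigenvectorBasis (finrank_euclideanSpace_fin (𝕜 := ℝ) (n := d)) with hu
  have horth : ∀ i j, i ≠ j → ⟪L (u i), L (u j)⟫ = 0 := by
    intro i j hij
    rw [← LinearMap.adjoint_inner_right]
    have := hsym.apply_eigenvectorBasis (finrank_euclideanSpace_fin (𝕜 := ℝ) (n := d)) j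
    rw [LinearMap.comp_apply, ← hu] at this
    rw [this, inner_smul_right, u.orthonormal.inner_eq_zero hij, mul_zero]
  have hLinj : ∀ t, L t = 0 → t = 0 := by
    intro t ht
    have h1 : M t = 0 := Tm_inj hc hb hx ht
    by_contra hne
    apply hdet
    apply Matrix.exists_vecMul_eq_zero_iff.1
    refine ⟨fun k => t k, fun h => hne (by ext k; exact congrFun h k), ?_⟩
    ext j
    have := congrArg (fun v : Euc d => v j) h1
    simpa [hMapp, Matrix.vecMul, dotProduct, Finset.sum_apply] using this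
  have hu1 : ∀ i k, |u i k| ≤ 1 := fun i k => (abs_coord_le _ k).trans (u.orthonormal.1 i).le
  have hσ : ∀ i, 0 < ‖L (u i)‖ := fun i => norm_pos_iff.2 fun h => by
    have := u.orthonormal.1 i
    rw [hLinj _ h] at this; simp at this
  refine ⟨fun i => M (u i), x + M (WithLp.toLp 2 fun _ => 1 / (2 * (d : ℝ))),
    fun i => ‖L (u i)‖, fun i => ‖L (u i)‖⁻¹ • L (u i), hσ, fun i => ?_, ?_, fun i => ?_, ?_, ?_⟩
  · have h1 : ∀ k, ‖Tm (P x) x (a k - x)‖ ≤ 2 * (d + 1) := by
      intro k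
      refine (norm_le_sum_abs _).trans ?_
      have h2 : ∀ o, |Tm (P x) x (a k - x) o| ≤ 2 := by
        intro o
        have hpo := hb.mem x hx o
        have hpos := hc.pos _ hpo x hx
        rw [Tm_sub, ← sub_div, abs_div, abs_of_pos hpos, div_le_iff₀ hpos, abs_sub_comm]
        exact Cell_dev hc.toCtx hx (ha k) hpo
      refine (Finset.sum_le_sum fun o _ => h2 o).trans (le_of_eq ?_)
      simp; ring
    have h3 : L (u i) = ∑ k, u i k • Tm (P x) x (a k - x) := by
      rw [hL, LinearMap.comp_apply, hMapp, map_sum]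
      simp only [map_smul]
    rw [h3]
    refine (norm_sum_le _ _).trans ?_
    have h4 : ∀ k, ‖u i k • Tm (P x) x (a k - x)‖ ≤ 2 * (d + 1) := fun k => by
      rw [norm_smul, Real.norm_eq_abs]
      exact (mul_le_of_le_one_left (norm_nonneg _) (hu1 i k)).trans (h1 k)
    refine (Finset.sum_le_sum fun k _ => h4 k).trans (le_of_eq ?_)
    simp; ring
  · constructor
    · intro i
      rw [norm_smul, norm_inv, norm_norm, inv_mul_cancel₀ (hσ i).ne']
    · intro i j hij
      simp only [inner_smul_left, inner_smul_right, horth i j hij, mul_zero]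
  · rw [smul_smul, mul_inv_cancel₀ (hσ i).ne', one_smul]; rfl
  · intro y hy
    obtain ⟨c, hc1, hc2⟩ := hrep y
    have hc3 : ∀ k, |c k| ≤ 1 := by
      intro k
      have := hmax (Function.update a k y) (fun i => by
        by_cases h : i = k
        · subst h; simpa using hy
        · simpa [h] using ha i)
      rw [hc2, abs_mul] at this
      exact (mul_le_iff_le_one_left (abs_pos.2 hdet)).1 this
    set t : Euc d := WithLp.toLp 2 c with ht
    refine ⟨fun i => ⟪u i, t⟫, fun i => ?_, ?_⟩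
    · dsimp only
      rw [PiLp.inner_apply]
      refine (Finset.abs_sum_le_sum_abs _ _).trans ?_
      have h5 : ∀ k, |⟪u i k, t k⟫| ≤ 1 := fun k => by
        simp only [RCLike.inner_apply, conj_trivial, abs_mul]
        exact mul_le_one₀ (hc3 k) (abs_nonneg _) (hu1 i k)
      refine (Finset.sum_le_sum fun k _ => h5 k).trans (le_of_eq ?_)
      simp
    · have h6 : ∑ i, ⟪u i, t⟫ • M (u i) = M t := by
        conv_rhs => rw [← u.sum_repr' t, map_sum]
        simp only [map_smul]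
      rw [h6, hMapp, ← sub_eq_iff_eq_add']
      ext j
      have := congrFun hc1 j
      simpa [Finset.sum_apply, ht] using this
  · intro s hs
    set t : Euc d := (WithLp.toLp 2 fun _ => 1 / (2 * (d : ℝ))) + ∑ i, s i • u i with ht
    have h1 : x + M (WithLp.toLp 2 fun _ => 1 / (2 * (d : ℝ))) + ∑ i, s i • M (u i)
        = x + M t := by
      rw [ht, map_add, map_sum, add_assoc]; simp only [map_smul]
    have h2 : ∀ k, 0 ≤ t k ∧ t k ≤ 1 / d := by
      intro k
      have h3 : t k = 1 / (2 * (d : ℝ)) + ∑ i, s i * u i k := by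
        simp [ht, Finset.sum_apply]
      have h4 : |∑ i, s i * u i k| ≤ 1 / (2 * d) := by
        refine (Finset.abs_sum_le_sum_abs _ _).trans ?_
        have h5 : ∀ i, |s i * u i k| ≤ 1 / (2 * d ^ 2) := fun i => by
          rw [abs_mul, abs_of_nonneg (hs i).1]
          exact (mul_le_of_le_one_right (hs i).1 (hu1 i k)).trans (hs i).2
        refine (Finset.sum_le_sum fun i _ => h5 i).trans (le_of_eq ?_)
        simp only [Finset.sum_const, Finset.card_univ, Fintype.card_fin, nsmul_eq_mul]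
        field_simp
      have h6 := abs_le.1 h4
      have h7 : 1 / (d : ℝ) = 1 / (2 * d) + 1 / (2 * d) := by field_simp; norm_num
      rw [h3, h7]
      constructor <;> linarith [h6.1, h6.2]
    have h3 : ∑ k, t k ≤ 1 := by
      refine (Finset.sum_le_sum fun k _ => (h2 k).2).trans (le_of_eq ?_)
      simp only [Finset.sum_const, Finset.card_univ, Fintype.card_fin, nsmul_eq_mul]
      field_simp
    rw [h1, hMapp]
    have h4 : x + ∑ k, t k • (a k - x)
        = ∑ o : Option (Fin d), o.elim (1 - ∑ k, t k) (fun k => t k) • o.elim x a := by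
      rw [Fintype.sum_option]
      simp only [Option.elim, smul_sub, Finset.sum_sub_distrib, sub_smul, one_smul,
        Finset.sum_smul]
      abel
    rw [h4]
    apply (convex_Cell hc.toCtx x).sum_mem
    · intro o _
      cases o with
      | none => simp only [Option.elim]; linarith
      | some k => exact (h2 k).1
    · rw [Fintype.sum_option]; simp
    · intro o _
      cases o with
      | none => exact ⟨hx, near_self hc.toCtx zero_le_one hx⟩
      | some k => exact ha k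

end Pool.Agent.MP_dc1150_gt

end

-- part MP_dc1150_gt.Family
section

/-! Large convexly separated families built cell by cell. -/

open scoped RealInnerProductSpace BigOperators
open Classical

namespace Pool.Agent.MP_dc1150_gt

variable {d : ℕ}

/-- Square root of the truncated ratio. -/
noncomputable def rr (σ η : ℝ) : ℝ := Real.sqrt (max σ η / η)

theorem rr_sq {σ η : ℝ} (hη : 0 < η) : rr σ η ^ 2 = max σ η / η :=
  Real.sq_sqrt (div_nonneg (hη.le.trans (le_max_right _ _)) hη.le)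

theorem one_le_rr {σ η : ℝ} (hη : 0 < η) : 1 ≤ rr σ η :=
  Real.one_le_sqrt.2 ((one_le_div hη).2 (le_max_right _ _))

theorem nat_gap {a b : ℕ} (h : a ≠ b) {t : ℝ} (ht : 0 ≤ t) : t ≤ |(a : ℝ) * t - b * t| := by
  rw [← sub_mul, abs_mul, abs_of_nonneg ht]
  apply le_mul_of_one_le_left ht
  have : (1 : ℤ) ≤ |(a : ℤ) - b| := Int.one_le_abs (sub_ne_zero.2 (by exact_mod_cast h))
  exact_mod_cast this

theorem gap_scalar {ι : Type*} [Fintype ι] [DecidableEq ι] (i0 : ι) (lam ω h : ι → ℝ)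
    {θ η ε : ℝ} (hθ : 0 < θ) (hε : θ ≤ |lam i0 + θ * ε|) (hω : ∀ i, 0 < ω i) (hh0 : ∀ i, 0 ≤ h i)
    (h0 : η ≤ h i0) (h1 : ∀ i, i ≠ i0 → 2 * η * ω i ≤ h i ^ 2) (n n' : ι → ℕ) (hne : n' ≠ n)
    (hG : ∑ i, (lam i * (n' i * h i) +
        θ * if i = i0 then ε * (n' i * h i) else (n' i * h i) ^ 2 / (2 * ω i)) ≤
      ∑ i, (lam i * (n i * h i) +
        θ * if i = i0 then ε * (n i * h i) else (n i * h i) ^ 2 / (2 * ω i))) :
    θ * η ≤ ∑ i, (n i * h i - n' i * h i) *
      (lam i + θ * if i = i0 then ε else n i * h i / ω i) := by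
  set Q : ι → ℝ := fun i => if i = i0 then 0 else θ * ((n i * h i - n' i * h i) ^ 2 / (2 * ω i))
    with hQ
  have hQ0 : ∀ i, 0 ≤ Q i := fun i => by
    have := hω i
    simp only [hQ]; split_ifs <;> positivity
  have hid : ∑ i, (n i * h i - n' i * h i) * (lam i + θ * if i = i0 then ε else n i * h i / ω i)
      = ∑ i, (lam i * (n i * h i) +
        θ * if i = i0 then ε * (n i * h i) else (n i * h i) ^ 2 / (2 * ω i))
        - ∑ i, (lam i * (n' i * h i) +
        θ * if i = i0 then ε * (n' i * h i) else (n' i * h i) ^ 2 / (2 * ω i)) + ∑ i, Q i := by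
    rw [← Finset.sum_sub_distrib, ← Finset.sum_add_distrib]
    refine Finset.sum_congr rfl fun i _ => ?_
    have := (hω i).ne'
    simp only [hQ]
    split_ifs
    · ring
    · field_simp; ring
  by_cases hc : ∃ i, i ≠ i0 ∧ n i ≠ n' i
  · obtain ⟨i, hi, hi2⟩ := hc
    have h2 := Finset.single_le_sum (fun i _ => hQ0 i) (Finset.mem_univ i)
    have h3 : θ * η ≤ Q i := by
      simp only [hQ, hi, if_false]
      apply mul_le_mul_of_nonneg_left _ hθ.le
      rw [le_div_iff₀ (by have := hω i; positivity), ← sq_abs]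
      have h4 := pow_le_pow_left₀ (hh0 i) (nat_gap hi2 (hh0 i)) 2
      linarith [h1 i hi]
    rw [hid]; linarith
  · push Not at hc
    have hi0 : n i0 ≠ n' i0 := by
      intro h'
      apply hne
      ext i
      by_cases hi : i = i0
      · rw [hi, h']
      · exact (hc i hi).symm
    have h2 : 0 ≤ ∑ i, (n i * h i - n' i * h i) *
        (lam i + θ * if i = i0 then ε else n i * h i / ω i) := by
      rw [hid]; linarith [Finset.sum_nonneg fun i (_ : i ∈ Finset.univ) => hQ0 i]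
    rw [Finset.sum_eq_single i0 (fun i _ hi => by rw [hc i hi, sub_self, zero_mul])
      (by simp)] at h2 ⊢
    rw [if_pos rfl] at h2 ⊢
    rw [← abs_of_nonneg h2, abs_mul, mul_comm θ η]
    exact mul_le_mul (h0.trans (nat_gap hi0 (hh0 i0))) hε hθ.le (abs_nonneg _)

theorem count_scalar {σ η c r f h : ℝ} (hη : 0 < η) (hc0 : 0 < c) (hc1 : c ≤ 1)
    (hr : r ^ 2 = max σ η / η) (hr1 : 1 ≤ r) (hf : f = r ^ 2 ∨ f = r)
    (hh : h * f = 2 * η * r ^ 2) : c / 2 * f ≤ ((⌊c * σ / h⌋₊ + 1 : ℕ) : ℝ) := by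
  have hf0 : 0 < f := by rcases hf with rfl | rfl <;> positivity
  have hh0 : 0 < h := by
    have : 0 < h * f := by rw [hh]; positivity
    exact (pos_iff_pos_of_mul_pos this).2 hf0
  push_cast
  rcases le_total σ η with h1 | h1
  · rw [max_eq_right h1, div_self hη.ne'] at hr
    have h2 : r = 1 := by nlinarith
    have h3 : f = 1 := by rcases hf with rfl | rfl <;> simp [h2]
    have : (0 : ℝ) ≤ ⌊c * σ / h⌋₊ := Nat.cast_nonneg _
    rw [h3]; linarith
  · rw [max_eq_left h1] at hr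
    have h2 : c * σ / h = c / 2 * f := by
      rw [div_eq_iff hh0.ne', mul_assoc, mul_comm f h, hh, hr]; field_simp
    rw [← h2]
    exact (Nat.lt_floor_add_one _).le

theorem local_family {R A : Set (Euc d)} {q x b z σ e} (hf : Frame R A q x b z σ e)
    (hd : 1 ≤ d) (i0 : Fin d) {τ θ η : ℝ} (hτ0 : 0 < τ) (hτ1 : τ ≤ 1) (hθ : 0 < θ) (hη : 0 < η) :
    ∃ (Ω : Finset (Fin d → ℕ)) (X : (Fin d → ℕ) → Euc d) (G : (Fin d → ℕ) → ℝ)
      (κ : (Fin d → ℕ) → Option (Fin d) → ℝ),
      (∀ n ∈ Ω, ∃ w ∈ Cell R A x, X n = x + τ • (w - x)) ∧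
      (∀ n ∈ Ω, ∀ k, |κ n k - 1 / (d + 1)| ≤ θ * d) ∧
      (∀ n n', n' ≠ n → G n' ≤ G n → θ * η ≤ ∑ k, κ n k * Tm q x (X n - X n') k) ∧
      (τ / (4 * d ^ 2)) ^ d * (rr (σ i0) η * ∏ i, rr (σ i) η) ≤ Ω.card := by
  have hd' : (1 : ℝ) ≤ d := by exact_mod_cast hd
  set r : Fin d → ℝ := fun i => rr (σ i) η with hr
  have hr1 : ∀ i, 1 ≤ r i := fun i => one_le_rr hη
  have hr2 : ∀ i, r i ^ 2 = max (σ i) η / η := fun i => rr_sq hη
  set h : Fin d → ℝ := fun i => if i = i0 then 2 * η else 2 * η * r i with hh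
  have hh0 : ∀ i, 0 < h i := fun i => by
    have := hr1 i
    simp only [hh]; split_ifs <;> positivity
  set c : ℝ := τ / (2 * d ^ 2) with hc
  have hc0 : 0 < c := by positivity
  have hc1 : c ≤ 1 := by
    rw [hc, div_le_one (by positivity)]; nlinarith
  set ω : Fin d → ℝ := fun i => max (σ i) η with hω
  have hω0 : ∀ i, 0 < ω i := fun i => hη.trans_le (le_max_right _ _)
  set lam : Fin d → ℝ := fun i => ∑ k, 1 / ((d : ℝ) + 1) * e i k with hlam
  set ε : ℝ := if 0 ≤ lam i0 then 1 else -1 with hε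
  have hε1 : |ε| ≤ 1 := by simp only [hε]; split_ifs <;> simp
  have hε2 : θ ≤ |lam i0 + θ * ε| := by
    simp only [hε]; split_ifs with h'
    · exact le_trans (by linarith) (le_abs_self _)
    · exact le_trans (by linarith) (neg_le_abs _)
  have he1 : ∀ i k, |e i k| ≤ 1 := fun i k => (abs_coord_le _ k).trans (hf.on.1 i).le
  set Ω := Fintype.piFinset fun i => Finset.range (⌊c * σ i / h i⌋₊ + 1) with hΩ
  have hY : ∀ n ∈ Ω, ∀ i, (n i : ℝ) * h i ≤ c * σ i := by
    intro n hn i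
    have h1 := Finset.mem_range.1 (Fintype.mem_piFinset.1 hn i)
    have h2 : n i ≤ ⌊c * σ i / h i⌋₊ := by omega
    have := hf.pos i
    have := hh0 i
    rwa [Nat.le_floor_iff (by positivity), le_div_iff₀ (hh0 i)] at h2
  refine ⟨Ω, fun n => x + τ • (z + ∑ i, (n i * h i / (τ * σ i)) • b i - x),
    fun n => ∑ i, (lam i * (n i * h i) +
        θ * if i = i0 then ε * (n i * h i) else (n i * h i) ^ 2 / (2 * ω i)),
    fun n k => 1 / (d + 1) + θ * ∑ i, (if i = i0 then ε else n i * h i / ω i) * e i k,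
    fun n hn => ⟨_, hf.inner _ fun i => ?_, rfl⟩, fun n hn k => ?_, fun n n' hne hG => ?_, ?_⟩
  · have := hf.pos i
    have := hh0 i
    refine ⟨by positivity, ?_⟩
    rw [div_le_iff₀ (by positivity)]
    refine (hY n hn i).trans (le_of_eq ?_)
    rw [hc]; field_simp
  · rw [add_sub_cancel_left, abs_mul, abs_of_pos hθ]
    apply mul_le_mul_of_nonneg_left _ hθ.le
    refine (Finset.abs_sum_le_sum_abs _ _).trans ?_
    have h1 : ∀ i, |(if i = i0 then ε else n i * h i / ω i) * e i k| ≤ 1 := by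
      intro i
      rw [abs_mul]
      refine mul_le_one₀ ?_ (abs_nonneg _) (he1 i k)
      split_ifs
      · exact hε1
      · have := hω0 i
        have := hh0 i
        rw [abs_of_nonneg (by positivity), div_le_one (hω0 i)]
        exact (hY n hn i).trans ((mul_le_of_le_one_left (hf.pos i).le hc1).trans (le_max_left _ _))
    refine (Finset.sum_le_sum fun i _ => h1 i).trans (le_of_eq ?_)
    simp
  · have h1 : x + τ • (z + ∑ i, (n i * h i / (τ * σ i)) • b i - x) -
        (x + τ • (z + ∑ i, (n' i * h i / (τ * σ i)) • b i - x))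
        = ∑ i, ((n i * h i - n' i * h i) / σ i) • b i := by
      rw [add_sub_add_left_eq_sub, ← smul_sub, sub_sub_sub_cancel_right, add_sub_add_left_eq_sub,
        ← Finset.sum_sub_distrib, Finset.smul_sum]
      refine Finset.sum_congr rfl fun i _ => ?_
      rw [← sub_smul, smul_smul]
      congr 1
      have := (hf.pos i).ne'
      field_simp
    have h2 : ∀ k, Tm q x (∑ i, ((n i * h i - n' i * h i) / σ i) • b i) k
        = ∑ i, (n i * h i - n' i * h i) * e i k := by
      intro k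
      rw [map_sum]
      simp only [map_smul, hf.map, smul_smul, div_mul_cancel₀ _ (hf.pos _).ne']
      simp [Finset.sum_apply]
    have h3 : ∀ i j, ∑ k, e j k * e i k = if j = i then 1 else 0 := by
      intro i j
      have := orthonormal_iff_ite.1 hf.on j i
      rw [PiLp.inner_apply] at this
      rw [← this]
      exact Finset.sum_congr rfl fun k _ => by simp [mul_comm]
    dsimp only
    rw [h1]
    refine (gap_scalar i0 lam ω h hθ hε2 hω0 (fun i => (hh0 i).le) ?_ ?_ n n' hne hG).trans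
      (le_of_eq ?_)
    · simp only [hh, if_true]; linarith
    · intro i hi
      simp only [hh, hi, if_false]
      rw [mul_pow, hr2]
      have := hω0 i
      have h4 : (2 * η) ^ 2 * (max (σ i) η / η) = 2 * (2 * η * ω i) := by
        simp only [hω]; field_simp
      rw [h4]
      have : 0 ≤ 2 * η * ω i := by positivity
      linarith
    · simp only [h2, Finset.mul_sum]
      rw [Finset.sum_comm]
      refine Finset.sum_congr rfl fun i _ => ?_
      have h4 : ∀ k, (1 / (d + 1) + ∑ j, θ * ((if j = i0 then ε else n j * h j / ω j) * e j k)) *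
          ((n i * h i - n' i * h i) * e i k) = (n i * h i - n' i * h i) *
          (1 / ((d : ℝ) + 1) * e i k +
            θ * ∑ j, (if j = i0 then ε else n j * h j / ω j) * (e j k * e i k)) := by
        intro k
        rw [← Finset.mul_sum]
        simp only [← mul_assoc, ← Finset.sum_mul]
        ring
      simp only [h4]
      rw [← Finset.mul_sum, Finset.sum_add_distrib, ← Finset.mul_sum Finset.univ _ θ,
        Finset.sum_comm]
      simp only [hlam, ← Finset.mul_sum, h3]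
      simp
  · have h1 : ∀ i, c / 2 * (if i = i0 then r i ^ 2 else r i)
        ≤ ((⌊c * σ i / h i⌋₊ + 1 : ℕ) : ℝ) := by
      intro i
      apply count_scalar hη hc0 hc1 (hr2 i) (hr1 i)
      · split_ifs <;> simp
      · simp only [hh]; split_ifs <;> ring
    have h2 := Finset.prod_le_prod (s := Finset.univ) (fun i _ => by
      have := hr1 i
      split_ifs <;> positivity) (fun i _ => h1 i)
    rw [hΩ, Fintype.card_piFinset]
    simp only [Finset.card_range]
    rw [Nat.cast_prod]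
    refine le_trans (le_of_eq ?_) h2
    rw [Finset.prod_mul_distrib, Finset.prod_const, Finset.card_univ, Fintype.card_fin]
    congr 1
    · rw [hc]; congr 1; field_simp; norm_num
    · have h3 : ∀ i, (if i = i0 then r i ^ 2 else r i) = (if i = i0 then r i else 1) * r i := by
        intro i; split_ifs <;> ring
      simp only [h3, Finset.prod_mul_distrib, Finset.prod_ite_eq', Finset.mem_univ, if_true]
      rfl

theorem cross_gain {ι : Type*} [Fintype ι] {D : ℝ} (hD : (Fintype.card ι : ℝ) = D) (hD1 : 1 ≤ D)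
    (ψ κ : ι → ℝ) (hψ : ∀ k, 0 < ψ k) (hprod : 1 ≤ ∏ k, ψ k) (hZ : 1 / 2 ≤ ∑ k, |ψ k - 1|)
    (hκ : ∀ k, |κ k - 1 / D| ≤ 1 / (20 * D ^ 2)) :
    ∑ k, κ k + 1 / (40 * D ^ 2) ≤ ∑ k, κ k * ψ k := by
  have h1 := amgm_gap ψ hψ hprod (by norm_num : (0 : ℝ) < 1 / 2) hZ
  rw [hD] at h1
  have h2 : ∀ k, κ k + (1 / D * (ψ k - 1) - 1 / (20 * D ^ 2) * |ψ k - 1|) ≤ κ k * ψ k := by
    intro k
    have h3 : |(κ k - 1 / D) * (ψ k - 1)| ≤ 1 / (20 * D ^ 2) * |ψ k - 1| := by
      rw [abs_mul]; exact mul_le_mul_of_nonneg_right (hκ k) (abs_nonneg _)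
    have h4 := (abs_le.1 h3).1
    linarith
  have h3 := Finset.sum_le_sum fun k (_ : k ∈ Finset.univ) => h2 k
  rw [Finset.sum_add_distrib, Finset.sum_sub_distrib, ← Finset.mul_sum, ← Finset.mul_sum] at h3
  refine le_trans ?_ h3
  generalize ∑ k, |ψ k - 1| = Z at *
  generalize ∑ k, (ψ k - 1) = S at *
  have hS : 0 ≤ S := by
    by_contra h
    have := mul_neg_of_pos_of_neg (by positivity : 0 < 2 + 4 * D / (1 / 2)) (not_le.1 h)
    linarith
  have h4 : Z ≤ 10 * D * S := h1.trans (mul_le_mul_of_nonneg_right (by linarith) hS)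
  have h5 : 1 / (10 * D ^ 2) * Z ≤ 1 / D * S := by
    refine (mul_le_mul_of_nonneg_left h4 (by positivity)).trans (le_of_eq ?_)
    field_simp
  have h6 : 1 / (20 * D ^ 2) * (1 / 2) ≤ 1 / (20 * D ^ 2) * Z :=
    mul_le_mul_of_nonneg_left hZ (by positivity)
  have h7 : 1 / (10 * D ^ 2) * Z = 2 * (1 / (20 * D ^ 2) * Z) := by field_simp; norm_num
  have h8 : 1 / (40 * D ^ 2) = 1 / (20 * D ^ 2) * (1 / 2) := by field_simp; norm_num
  linarith

theorem cross_scalar {u μ K H H' H'' : ℝ} (hu0 : 0 < u) (hu1 : u ≤ 1) (hμ : μ ≤ 1 + u / 120)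
    (hK : K ≤ 3 / 2) (hH0 : 0 ≤ H) (hH : H ≤ (1 + 2 * (u / 600)) * K) (hH' : K + u / 40 ≤ H')
    (hH'' : (1 - u / 600) * H' ≤ H'') : μ * H ≤ H'' := by
  have hK0 : 0 ≤ K := by
    by_contra h
    have := mul_neg_of_pos_of_neg (by positivity : 0 < 1 + 2 * (u / 600)) (not_le.1 h)
    linarith
  have h1 : μ * H ≤ (1 + u / 120) * ((1 + 2 * (u / 600)) * K) :=
    mul_le_mul hμ hH hH0 (by positivity)
  have h2 : (1 - u / 600) * (K + u / 40) ≤ (1 - u / 600) * H' :=
    mul_le_mul_of_nonneg_left hH' (by linarith)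
  have h3 : u * K ≤ u * (3 / 2) := mul_le_mul_of_nonneg_left hK hu0.le
  have h4 : u * u ≤ u := mul_le_of_le_one_right hu0.le hu1
  have h5 : u * (u * K) ≤ u * K := mul_le_of_le_one_left (by positivity) hu1
  linarith

theorem sum_kappa {κ : Option (Fin d) → ℝ}
    (hκ : ∀ k, |κ k - 1 / ((d : ℝ) + 1)| ≤ 1 / (20 * ((d : ℝ) + 1) ^ 2)) :
    (∀ k, 0 < κ k) ∧ ∑ k, κ k ≤ 3 / 2 := by
  have hD : (1 : ℝ) ≤ d + 1 := by linarith [Nat.cast_nonneg (α := ℝ) d]
  have h1 : 1 / (20 * ((d : ℝ) + 1) ^ 2) ≤ 1 / (2 * ((d : ℝ) + 1)) := by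
    apply one_div_le_one_div_of_le (by positivity); nlinarith
  have h2 : 1 / ((d : ℝ) + 1) = 2 * (1 / (2 * ((d : ℝ) + 1))) := by field_simp
  have h3 : 0 < 1 / (2 * ((d : ℝ) + 1)) := by positivity
  refine ⟨fun k => by linarith [(abs_le.1 (hκ k)).1], ?_⟩
  have h4 : ∀ k, κ k ≤ 3 * (1 / (2 * ((d : ℝ) + 1))) := fun k => by
    linarith [(abs_le.1 (hκ k)).2]
  refine (Finset.sum_le_sum fun k _ => h4 k).trans (le_of_eq ?_)
  simp only [Finset.sum_const, Finset.card_univ, Fintype.card_option, Fintype.card_fin,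
    nsmul_eq_mul]
  push_cast
  field_simp

theorem Hh_seg (p x w : Euc d) (τ : ℝ) :
    Hh p (x + τ • (w - x)) = (1 - τ) * Hh p x + τ * Hh p w := by
  unfold Hh
  rw [inner_add_right, inner_smul_right, inner_sub_right]; ring

theorem global_family {R A : Set (Euc d)} (hc : Ctx R A) (hd : 1 ≤ d) {P V}
    (hb : Barrier R A P V) (X : Finset (Euc d)) (hX : ∀ a ∈ X, a ∈ A)
    (hsep : ∀ a ∈ X, ∀ a' ∈ X, a ≠ a' → ¬ Near R 1 a a') {b : Euc d → Fin d → Euc d}
    {z : Euc d → Euc d} {σ : Euc d → Fin d → ℝ}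
    {e : Euc d → Fin d → EuclideanSpace ℝ (Option (Fin d))}
    (hf : ∀ a ∈ A, Frame R A (P a) a (b a) (z a) (σ a) (e a)) (i0 : Euc d → Fin d) {η : ℝ}
    (hη : 0 < η) (hη1 : η ≤ 1) {m : ℕ}
    (hm : ¬ TSep R A (η / (960 * (d + 1) ^ 3)) (m + 1)) :
    (1 / (d + 1) ^ 2 / 600 / (4 * d ^ 2)) ^ d *
      ∑ a ∈ X, (rr (σ a (i0 a)) η * ∏ i, rr (σ a i) η) ≤ m := by
  have hD : (1 : ℝ) ≤ d + 1 := by linarith [Nat.cast_nonneg (α := ℝ) d]
  obtain ⟨u, hu⟩ : ∃ u : ℝ, u = 1 / (d + 1) ^ 2 := ⟨_, rfl⟩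
  obtain ⟨θ, hθ⟩ : ∃ θ : ℝ, θ = 1 / (20 * (d + 1) ^ 3) := ⟨_, rfl⟩
  have hu0 : 0 < u := by rw [hu]; positivity
  have hu1 : u ≤ 1 := by rw [hu, div_le_one (by positivity)]; exact one_le_pow₀ hD
  have hθ0 : 0 < θ := by rw [hθ]; positivity
  have hθd : θ * (d + 1) = 1 / (20 * (d + 1) ^ 2) := by rw [hθ]; field_simp
  have hθu : θ * (d + 1) = u / 20 := by rw [hθ, hu]; field_simp
  have hθ1 : θ * η ≤ u / 20 := by
    rw [← hθu]; exact mul_le_mul_of_nonneg_left (by linarith) hθ0.le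
  have hθη : 0 < θ * η := by positivity
  rw [← hu]
  have key := fun a (ha : a ∈ A) => local_family (hf a ha) hd (i0 a)
    (by positivity : 0 < u / 600) (by linarith) hθ0 hη
  choose! Om Xf G κ h1 h2 h3 h4 using key
  have hXf : ∀ a ∈ A, ∀ n ∈ Om a, Xf a n ∈ A := by
    intro a ha n hn
    obtain ⟨w, hw, hw2⟩ := h1 a ha n hn
    rw [hw2]
    exact hc.convA.add_smul_sub_mem ha hw.1 ⟨by positivity, by linarith⟩
  have hcard : Fintype.card (Σ a : X, Om a) ≤ m := by
    apply card_le_of_sorted hc hm (μ := 1 + θ * η / 6) _ (fun w : Σ a : X, Om a => Xf w.1 w.2)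
      (fun w => hXf _ (hX _ w.1.2) _ w.2.2) (fun w => toLex (V w.1, G w.1 w.2))
    · rintro ⟨⟨a, haX⟩, ⟨n, hn⟩⟩
      have ha := hX a haX
      have hκ : ∀ k, |κ a n k - 1 / ((d : ℝ) + 1)| ≤ 1 / (20 * ((d : ℝ) + 1) ^ 2) := fun k => by
        refine (h2 a ha n hn k).trans ?_
        rw [← hθd]; exact mul_le_mul_of_nonneg_left (by linarith) hθ0.le
      obtain ⟨hκ0, hK⟩ := sum_kappa hκ
      obtain ⟨p, hp, t, ht, hrow⟩ := exists_row hc ha (P a) (hb.mem a ha) (κ a n) hκ0
      have hta : t * Hh p a = ∑ k, κ a n k := by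
        rw [hrow]
        exact Finset.sum_congr rfl fun k _ => by
          rw [div_self (hc.pos _ (hb.mem a ha k) a ha).ne', mul_one]
      have hH0 : 0 ≤ t * Hh p (Xf a n) := (mul_pos ht (hc.pos p hp _ (hXf a ha n hn))).le
      have hH : t * Hh p (Xf a n) ≤ (1 + 2 * (u / 600)) * ∑ k, κ a n k := by
        obtain ⟨w, hw, hw2⟩ := h1 a ha n hn
        rw [← hta, mul_left_comm, hw2, Hh_seg]
        apply mul_le_mul_of_nonneg_left _ ht.le
        have h5 := mul_le_mul_of_nonneg_left (abs_le.1 (Cell_dev hc ha hw hp)).2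
          (by positivity : 0 ≤ u / 600)
        linarith
      refine ⟨p, hp, ?_⟩
      rintro ⟨⟨a', haX'⟩, ⟨n', hn'⟩⟩ hne hkey
      have ha' := hX a' haX'
      dsimp only at hkey ⊢
      rw [Prod.Lex.toLex_le_toLex] at hkey
      dsimp only at hkey
      apply le_of_mul_le_mul_left _ ht
      rw [mul_left_comm]
      by_cases haa : a' = a
      · subst haa
        have hnn : n' ≠ n := by rintro rfl; exact hne rfl
        have hG : G a' n' ≤ G a' n := by
          rcases hkey with h | h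
          · exact absurd h (lt_irrefl _)
          · exact h.2
        have h5 := h3 a' ha n n' hnn hG
        have h6 : ∑ k, κ a' n k * Tm (P a') a' (Xf a' n - Xf a' n') k
            = t * Hh p (Xf a' n') - t * Hh p (Xf a' n) := by
          rw [hrow, hrow, ← Finset.sum_sub_distrib]
          exact Finset.sum_congr rfl fun k _ => by rw [Tm_sub, mul_sub]
        have h7 : t * Hh p (Xf a' n) ≤ 6 := by
          refine hH.trans ?_
          calc (1 + 2 * (u / 600)) * ∑ k, κ a' n k ≤ 2 * (3 / 2) :=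
                mul_le_mul (by linarith) hK (Finset.sum_nonneg fun k _ => (hκ0 k).le) (by norm_num)
            _ ≤ 6 := by norm_num
        have h8 := mul_le_mul_of_nonneg_left h7 (by positivity : 0 ≤ θ * η / 6)
        linarith
      · have hV : V a' ≤ V a := by
          rcases hkey with h | h
          · exact h.le
          · exact h.1.le
        have hZ := dev_of_not_near hc hb ha (hsep a haX a' haX' (Ne.symm haa))
        have he : Real.exp (-1) ≤ 1 / 2 := by
          rw [Real.exp_neg, inv_le_comm₀ (Real.exp_pos _) (by norm_num)]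
          linarith [Real.add_one_le_exp (1 : ℝ)]
        have h5 := cross_gain (D := d + 1) (by simp) hD _ (κ a n) (fun k =>
          div_pos (hc.pos _ (hb.mem a ha k) a' ha') (hc.pos _ (hb.mem a ha k) a ha))
          (hb.prod a ha a' ha' hV) (by linarith) hκ
        rw [← hrow, show 1 / (40 * ((d : ℝ) + 1) ^ 2) = u / 40 by rw [hu]; field_simp] at h5
        refine cross_scalar hu0 hu1 (by linarith) hK hH0 hH h5 ?_
        obtain ⟨w, hw, hw2⟩ := h1 a' ha' n' hn'
        rw [mul_left_comm, hw2, Hh_seg]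
        apply mul_le_mul_of_nonneg_left _ ht.le
        have : 0 ≤ u / 600 * Hh p w := (mul_pos (by positivity) (hc.pos p hp w hw.1)).le
        linarith
    · have h5 : 2 * (η / (960 * ((d : ℝ) + 1) ^ 3)) = θ * η / 24 := by rw [hθ]; field_simp; norm_num
      rw [h5]
      have h6 := (abs_le.1 (Real.abs_exp_sub_one_le (x := θ * η / 24)
        (by rw [abs_of_pos (by positivity)]; linarith))).2
      rw [abs_of_pos (by positivity)] at h6
      linarith
  rw [Fintype.card_sigma] at hcard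
  simp only [Fintype.card_coe] at hcard
  rw [Finset.sum_coe_sort X (fun a => (Om a).card)] at hcard
  have h5 : ((∑ a ∈ X, (Om a).card : ℕ) : ℝ) ≤ m := by exact_mod_cast hcard
  rw [Nat.cast_sum] at h5
  rw [Finset.mul_sum]
  exact (Finset.sum_le_sum fun a ha => h4 a (hX a ha)).trans h5

end Pool.Agent.MP_dc1150_gt

end

-- part MP_dc1150_gt.Minty
section

/-! Upper bound for convexly separated sequences in a box. -/

open scoped RealInnerProductSpace BigOperators
open Classical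

namespace Pool.Agent.MP_dc1150_gt

theorem exists_sepvec {ι : Type*} [Fintype ι] {N : ℕ} (x : Fin N → EuclideanSpace ℝ ι)
    (T : Set (Fin N)) (a : EuclideanSpace ℝ ι) {η : ℝ} (hη : 0 < η)
    (h : ∀ w : Fin N → ℝ, (∀ i, 0 ≤ w i) → (∀ i, i ∉ T → w i = 0) → ∑ i, w i = 1 →
      η ≤ ‖a - ∑ i, w i • x i‖) :
    ∃ f : EuclideanSpace ℝ ι, ‖f‖ ≤ 1 ∧ ∀ i ∈ T, η ≤ ⟪f, a - x i⟫ := by
  rcases T.eq_empty_or_nonempty with hT | ⟨i0, hi0⟩
  · exact ⟨0, by simp, by simp [hT]⟩
  set W : Set (Fin N → ℝ) := stdSimplex ℝ (Fin N) ∩ {w | ∀ i, i ∉ T → w i = 0} with hW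
  have hWc : IsCompact W := by
    apply (isCompact_stdSimplex ℝ (Fin N)).inter_right
    have : {w : Fin N → ℝ | ∀ i, i ∉ T → w i = 0} = ⋂ i, ⋂ (_ : i ∉ T), {w | w i = 0} := by
      ext w; simp
    rw [this]
    exact isClosed_iInter fun i => isClosed_iInter fun _ =>
      isClosed_eq (continuous_apply i) continuous_const
  set K : Set (EuclideanSpace ℝ ι) := (fun w : Fin N → ℝ => ∑ i, w i • x i) '' W with hK
  have hKc : IsCompact K := hWc.image (by fun_prop)
  have hmem : ∀ i ∈ T, x i ∈ K := by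
    intro i hi
    refine ⟨fun j => if j = i then 1 else 0, ⟨⟨fun j => by dsimp only; split_ifs <;> norm_num,
      by simp⟩, fun j hj => ?_⟩, by simp [ite_smul]⟩
    have : j ≠ i := by rintro rfl; exact hj hi
    simp [this]
  have hKv : Convex ℝ K := by
    rintro _ ⟨w1, h1, rfl⟩ _ ⟨w2, h2, rfl⟩ s t hs ht hst
    refine ⟨s • w1 + t • w2, ⟨convex_stdSimplex ℝ _ h1.1 h2.1 hs ht hst, fun i hi => ?_⟩, ?_⟩
    · simp [h1.2 i hi, h2.2 i hi]
    · simp only [Pi.add_apply, Pi.smul_apply, smul_eq_mul, add_smul, mul_smul,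
        Finset.sum_add_distrib, Finset.smul_sum]
  obtain ⟨v, hv, hv2⟩ := exists_norm_eq_iInf_of_complete_convex ⟨_, hmem i0 hi0⟩
    hKc.isComplete hKv a
  have hv3 := (norm_eq_iInf_iff_real_inner_le_zero hKv hv).1 hv2
  have hav : η ≤ ‖a - v‖ := by
    obtain ⟨w, hw, rfl⟩ := hv
    exact h w hw.1.1 hw.2 hw.1.2
  have hpos : 0 < ‖a - v‖ := hη.trans_le hav
  refine ⟨(‖a - v‖)⁻¹ • (a - v), ?_, fun i hi => ?_⟩
  · rw [norm_smul, norm_inv, norm_norm, inv_mul_cancel₀ hpos.ne']
  · rw [inner_smul_left, conj_trivial, le_inv_mul_iff₀ hpos]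
    have e : a - x i = (a - v) - (x i - v) := by abel
    rw [e, inner_sub_right, real_inner_self_eq_norm_sq]
    have := hv3 _ (hmem i hi)
    nlinarith

theorem card_Icc_floor {b : ℝ} (hb : 2 ≤ b) : ((Finset.Icc ⌊-b⌋ ⌊b⌋).card : ℝ) ≤ 3 * b := by
  have h4 := Int.floor_le b
  have h5 := Int.lt_floor_add_one (-b)
  have h6 : ⌊-b⌋ ≤ ⌊b⌋ + 1 := by
    have : ⌊-b⌋ ≤ ⌊b⌋ := Int.floor_le_floor (by linarith)
    omega
  have h7 : ((Finset.Icc ⌊-b⌋ ⌊b⌋).card : ℝ) = ⌊b⌋ + 1 - ⌊-b⌋ := by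
    exact_mod_cast Int.card_Icc_of_le _ _ h6
  rw [h7]; linarith

theorem floor_cell {z κ : ℝ} (hκ0 : 0 < κ) : (z - κ * ⌊z / κ⌋) ^ 2 ≤ κ ^ 2 := by
  have h1 := Int.floor_le (z / κ)
  have h2 := Int.lt_floor_add_one (z / κ)
  rw [le_div_iff₀ hκ0] at h1
  rw [div_lt_iff₀ hκ0] at h2
  apply sq_le_sq' <;> linarith

theorem minty_aux1 {a φ κ c : ℝ} (h : (a + φ - c) ^ 2 ≤ κ ^ 2) :
    (a - c) ^ 2 ≤ 2 * κ ^ 2 + 2 * φ ^ 2 := by
  nlinarith [sq_nonneg (a + φ - c + φ)]

theorem minty_aux2 {a a' φ κ c : ℝ} (h : (a + φ - c) ^ 2 ≤ κ ^ 2) :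
    (a - c) ^ 2 - κ ^ 2 + 2 * (φ * (a - a')) ≤ (a' - c) ^ 2 := by
  nlinarith [sq_nonneg (a' - a + (a + φ - c))]

theorem minty_card {ι : Type*} [Fintype ι] (r : ι → ℝ) {η W κ : ℝ} (hη : 0 < η) (hκ0 : 0 < κ)
    (hκr : ∀ i, κ ≤ r i) (hηW : η ≤ W) :
    (((Fintype.piFinset fun i => Finset.Icc ⌊-(2 * (r i / κ))⌋ ⌊2 * (r i / κ)⌋) ×ˢ
      Finset.range (⌊4 * W / η⌋₊ + 1)).card : ℝ) ≤ (5 * W / η) * ∏ i, (6 * (r i / κ)) := by
  rw [Finset.card_product, Fintype.card_piFinset, Finset.card_range, Nat.cast_mul, Nat.cast_prod,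
    Nat.cast_add, Nat.cast_one, mul_comm]
  have hWη : 1 ≤ W / η := (one_le_div hη).2 hηW
  have hW0 := hη.le.trans hηW
  apply mul_le_mul
  · have := Nat.floor_le (a := 4 * W / η) (by positivity)
    have e1 : 5 * W / η = 4 * W / η + W / η := by ring
    linarith
  · apply Finset.prod_le_prod (fun i _ => Nat.cast_nonneg _)
    intro i _
    have h1 : 1 ≤ r i / κ := (one_le_div hκ0).2 (hκr i)
    have := card_Icc_floor (b := 2 * (r i / κ)) (by linarith)
    linarith
  · exact Finset.prod_nonneg fun i _ => Nat.cast_nonneg _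
  · positivity

/-- Counting in rescaled coordinates. -/
theorem minty_core {ι : Type*} [Fintype ι] {N : ℕ} (u φ : Fin N → ι → ℝ) (I : Finset (Fin N))
    (r : ι → ℝ) {η W κ : ℝ} (hη : 0 < η) (hκ0 : 0 < κ)
    (hκ2 : (Fintype.card ι : ℝ) * κ ^ 2 ≤ η) (hκr : ∀ i, κ ≤ r i) (hηW : η ≤ W)
    (hu : ∀ j ∈ I, ∀ i, |u j i| ≤ r i) (hφ : ∀ j ∈ I, ∀ i, |φ j i| ≤ r i)
    (hφW : ∀ j ∈ I, ∑ i, φ j i ^ 2 ≤ W)
    (hsep : ∀ i ∈ I, ∀ j ∈ I, i < j → η ≤ ∑ k, φ j k * (u j k - u i k)) :
    (I.card : ℝ) ≤ (5 * W / η) * ∏ i, (6 * (r i / κ)) := by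
  obtain ⟨cell, hcell⟩ : ∃ cell : Fin N → ι → ℤ, ∀ j i, cell j i = ⌊(u j i + φ j i) / κ⌋ :=
    ⟨_, fun _ _ => rfl⟩
  obtain ⟨En, hEn⟩ : ∃ En : Fin N → ℝ, ∀ j, En j = ∑ i, (u j i - κ * cell j i) ^ 2 :=
    ⟨_, fun _ => rfl⟩
  have hδ : ∀ j i, (u j i + φ j i - κ * cell j i) ^ 2 ≤ κ ^ 2 := fun j i => by
    rw [hcell]; exact floor_cell hκ0
  have hEn1 : ∀ j ∈ I, En j ≤ 4 * W := by
    intro j hj
    have h2 := Finset.sum_le_sum fun i (_ : i ∈ Finset.univ) => minty_aux1 (hδ j i)
    rw [Finset.sum_add_distrib, ← Finset.mul_sum, ← Finset.mul_sum, ← hEn] at h2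
    simp only [Finset.sum_const, Finset.card_univ, nsmul_eq_mul] at h2
    linarith [hφW j hj]
  have hdrop : ∀ i ∈ I, ∀ j ∈ I, i < j → cell i = cell j → En j + η ≤ En i := by
    intro i hi j hj hij hc
    have h1 := hsep i hi j hj hij
    have h4 := Finset.sum_le_sum fun k (_ : k ∈ Finset.univ) => minty_aux2 (a' := u i k) (hδ j k)
    rw [Finset.sum_add_distrib, Finset.sum_sub_distrib, ← Finset.mul_sum, ← hEn, ← hc,
      ← hEn] at h4
    simp only [Finset.sum_const, Finset.card_univ, nsmul_eq_mul] at h4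
    linarith
  set T : Finset ((ι → ℤ) × ℕ) :=
    (Fintype.piFinset fun i => Finset.Icc ⌊-(2 * (r i / κ))⌋ ⌊2 * (r i / κ)⌋) ×ˢ
      Finset.range (⌊4 * W / η⌋₊ + 1) with hT
  have hcard : I.card ≤ T.card := by
    apply Finset.card_le_card_of_injOn (fun j => (cell j, ⌊En j / η⌋₊))
    · intro j hj
      have hj' : j ∈ I := hj
      simp only [hT, Finset.coe_product, Set.mem_prod, Finset.mem_coe, Fintype.mem_piFinset,
        Finset.mem_Icc, Finset.mem_range]
      constructor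
      · intro i
        have h3 := abs_le.1 (hu j hj' i)
        have h4 := abs_le.1 (hφ j hj' i)
        rw [hcell, ← mul_div_assoc, ← neg_div]
        exact ⟨Int.floor_le_floor (div_le_div_of_nonneg_right (by linarith) hκ0.le),
          Int.floor_le_floor (div_le_div_of_nonneg_right (by linarith) hκ0.le)⟩
      · exact Nat.lt_succ_of_le (Nat.floor_le_floor
          (div_le_div_of_nonneg_right (hEn1 j hj') hη.le))
    · have key : ∀ i ∈ I, ∀ j ∈ I, i < j → cell i = cell j → ⌊En i / η⌋₊ ≠ ⌊En j / η⌋₊ := by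
        intro i hi j hj hij hc
        have h1 := hdrop i hi j hj hij hc
        have h0 : 0 ≤ En j / η := by
          rw [hEn]; exact div_nonneg (Finset.sum_nonneg fun k _ => sq_nonneg _) hη.le
        have h2 : En j / η + 1 ≤ En i / η := by
          rw [div_add_one hη.ne']; exact div_le_div_of_nonneg_right h1 hη.le
        have h3 := Nat.floor_le_floor h2
        rw [Nat.floor_add_one h0] at h3
        omega
      intro i hi j hj hij
      simp only [Prod.mk.injEq] at hij
      rcases lt_trichotomy i j with h' | h' | h'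
      · exact absurd hij.2 (key i hi j hj h' hij.1)
      · exact h'
      · exact absurd hij.2.symm (key j hj i hi h' hij.1.symm)
  exact (Nat.cast_le.2 hcard).trans (minty_card r hη hκ0 hκr hηW)

/-- Minty-type counting bound. -/
theorem minty_count {ι : Type*} [Fintype ι] {N : ℕ} (x : Fin N → EuclideanSpace ℝ ι)
    (I : Finset (Fin N)) (ω : ι → ℝ) {η W : ℝ} (hη : 0 < η) (hω : ∀ i, η ≤ ω i)
    (hW : ∀ i, ω i ≤ W) (hηW : η ≤ W) (hx : ∀ j ∈ I, ∀ i, |x j i| ≤ ω i)
    (h : ∀ j ∈ I, ∀ w : Fin N → ℝ, (∀ i, 0 ≤ w i) → (∀ i, ¬ (i ∈ I ∧ i < j) → w i = 0) →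
      ∑ i, w i = 1 → η ≤ ‖x j - ∑ i, w i • x i‖) :
    (I.card : ℝ) ≤ (5 * W / η) *
      ∏ i, (6 * Real.sqrt (Fintype.card ι + 1) * Real.sqrt (ω i / η)) := by
  have hf : ∀ j ∈ I, ∃ f : EuclideanSpace ℝ ι, ‖f‖ ≤ 1 ∧
      ∀ i ∈ {i | i ∈ I ∧ i < j}, η ≤ ⟪f, x j - x i⟫ :=
    fun j hj => exists_sepvec x _ (x j) hη (h j hj)
  choose! f hf1 hf2 using hf
  have hn0 : (0 : ℝ) ≤ Fintype.card ι := Nat.cast_nonneg _
  have hω0 : ∀ i, 0 < ω i := fun i => hη.trans_le (hω i)
  have hr0 : ∀ i, 0 < Real.sqrt (ω i) := fun i => Real.sqrt_pos.2 (hω0 i)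
  have hfi : ∀ j ∈ I, ∑ i, f j i ^ 2 ≤ 1 := by
    intro j hj
    rw [← EuclideanSpace.real_norm_sq_eq (f j)]
    exact pow_le_one₀ (norm_nonneg _) (hf1 j hj)
  have hle : η / (Fintype.card ι + 1) ≤ η := div_le_self hη.le (by linarith)
  have key := minty_core (fun j i => x j i / Real.sqrt (ω i)) (fun j i => f j i * Real.sqrt (ω i))
    I (fun i => Real.sqrt (ω i)) (W := W) (κ := Real.sqrt (η / (Fintype.card ι + 1))) hη
    (Real.sqrt_pos.2 (by positivity))
    (by
      rw [Real.sq_sqrt (by positivity), ← mul_div_assoc, div_le_iff₀ (by positivity)]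
      linarith)
    (fun i => Real.sqrt_le_sqrt (hle.trans (hω i))) hηW
    (fun j hj i => by
      rw [abs_div, abs_of_pos (hr0 i), div_le_iff₀ (hr0 i), Real.mul_self_sqrt (hω0 i).le]
      exact hx j hj i)
    (fun j hj i => by
      rw [abs_mul, abs_of_pos (hr0 i)]
      apply mul_le_of_le_one_left (hr0 i).le
      rw [← sq_le_one_iff_abs_le_one]
      exact (Finset.single_le_sum (f := fun i => f j i ^ 2) (fun i _ => sq_nonneg _)
        (Finset.mem_univ i)).trans (hfi j hj))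
    (fun j hj => by
      calc ∑ i, (f j i * Real.sqrt (ω i)) ^ 2 ≤ ∑ i, f j i ^ 2 * W :=
            Finset.sum_le_sum fun i _ => by
              rw [mul_pow, Real.sq_sqrt (hω0 i).le]
              exact mul_le_mul_of_nonneg_left (hW i) (sq_nonneg _)
        _ ≤ W := by
            rw [← Finset.sum_mul]
            exact mul_le_of_le_one_left (hη.le.trans hηW) (hfi j hj))
    (fun i hi j hj hij => by
      refine (hf2 j hj i ⟨hi, hij⟩).trans (le_of_eq ?_)
      rw [PiLp.inner_apply]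
      refine Finset.sum_congr rfl fun k _ => ?_
      have := (hr0 k).ne'
      simp only [PiLp.sub_apply, RCLike.inner_apply, conj_trivial]
      field_simp)
  refine key.trans (le_of_eq ?_)
  congr 1
  refine Finset.prod_congr rfl fun i _ => ?_
  rw [Real.sqrt_div hη.le, Real.sqrt_div (hω0 i).le]
  have := Real.sqrt_pos.2 hη
  have := Real.sqrt_pos.2 (by positivity : (0 : ℝ) < Fintype.card ι + 1)
  field_simp

end Pool.Agent.MP_dc1150_gt

end

-- part MP_dc1150_gt.Fixed
section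

/-! The quadratic bound in fixed dimension. -/

open scoped RealInnerProductSpace BigOperators
open Classical

namespace Pool.Agent.MP_dc1150_gt

variable {d : ℕ}

/-- Diagonal separation in the row model. -/
def DSep (R : Set (Euc d)) (η : ℝ) {N : ℕ} (y z : Fin N → Euc d) : Prop :=
  ∀ j, ∀ w : Fin N → ℝ, (∀ i, 0 ≤ w i) → (∀ i, j ≤ i → w i = 0) → ∑ i, w i = 1 →
    ∀ θ φ : ℝ, Near R θ (∑ i, w i • y i) (y j) → Near R φ (∑ i, w i • z i) (z j) → η ≤ θ + φ

theorem sum_abs_Tm {R A : Set (Euc d)} {q x b z σ e} (hf : Frame R A q x b z σ e)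
    (s : Fin d → ℝ) {δ : ℝ} (hδ : ∀ i, |σ i * s i| ≤ δ) :
    ∑ k, |Tm q x (∑ i, s i • b i) k| ≤ (d + 1) * (d * δ) := by
  have he1 : ∀ i k, |e i k| ≤ 1 := fun i k => (abs_coord_le _ k).trans (hf.on.1 i).le
  have h1 : ∀ k, |Tm q x (∑ i, s i • b i) k| ≤ d * δ := by
    intro k
    have h2 : Tm q x (∑ i, s i • b i) k = ∑ i, (σ i * s i) * e i k := by
      rw [map_sum]
      simp only [map_smul, hf.map, smul_smul]
      simp [Finset.sum_apply, mul_comm]
    rw [h2]
    refine (Finset.abs_sum_le_sum_abs _ _).trans ?_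
    have h3 : ∀ i, |(σ i * s i) * e i k| ≤ δ := fun i => by
      rw [abs_mul]
      exact (mul_le_of_le_one_right (abs_nonneg _) (he1 i k)).trans (hδ i)
    refine (Finset.sum_le_sum fun i _ => h3 i).trans (le_of_eq ?_)
    simp
  refine (Finset.sum_le_sum fun k _ => h1 k).trans (le_of_eq ?_)
  simp

theorem close_of_dev {R A : Set (Euc d)} (hc : Ctx R A) {x y y' : Euc d}
    (hy' : y' ∈ Cell R A x) {δ : ℝ} (hδ : 0 ≤ δ)
    (h : ∀ p ∈ R, |Hh p y - Hh p y'| ≤ Hh p x * δ) : Close R (3 * δ) y y' := by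
  intro p hp
  have h1 := (abs_le.1 (h p hp)).2
  have h2 := hy'.2.2 p hp
  have h3 := hc.pos p hp y' hy'.1
  have he : Real.exp 1 ≤ 3 := by linarith [Real.exp_one_lt_d9]
  have h4 := mul_le_mul_of_nonneg_right (h2.trans (mul_le_mul_of_nonneg_right he h3.le)) hδ
  have h5 := mul_le_mul_of_nonneg_right (Real.add_one_le_exp (3 * δ)) h3.le
  linarith

theorem near_combo {R A : Set (Euc d)} (hc : Ctx R A) {P V} (hb : Barrier R A P V) {a : Euc d}
    (ha : a ∈ A) {b z σ e} (hf : Frame R A (P a) a b z σ e) {N : ℕ} (I : Finset (Fin N))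
    (y : Fin N → Euc d) (s : Fin N → Fin d → ℝ) (hy : ∀ j ∈ I, y j ∈ Cell R A a)
    (hs : ∀ j ∈ I, y j = a + ∑ i, s j i • b i) (w : Fin N → ℝ) (hw0 : ∀ i, 0 ≤ w i)
    (hwI : ∀ i, i ∉ I → w i = 0) (hw1 : ∑ i, w i = 1) {j : Fin N} (hj : j ∈ I) {δ : ℝ}
    (hδ0 : 0 ≤ δ) (hδ : ∀ k, |σ k * s j k - ∑ i, w i * (σ k * s i k)| ≤ δ) :
    Near R (3 * ((d + 1) * (d * δ))) (∑ i, w i • y i) (y j) := by
  have hu : ∑ i, w i • y i ∈ Cell R A a := by
    rw [← Finset.sum_subset (Finset.subset_univ I) (fun i _ hi => by rw [hwI i hi, zero_smul])]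
    apply (convex_Cell hc a).sum_mem (fun i _ => hw0 i) _ hy
    rw [Finset.sum_subset (Finset.subset_univ I) (fun i _ hi => hwI i hi), hw1]
  have h1 : ∑ i, w i • y i = a + ∑ k, (∑ i, w i * s i k) • b k := by
    have h2 : ∀ i, w i • y i = w i • a + ∑ k, (w i * s i k) • b k := by
      intro i
      by_cases hi : i ∈ I
      · rw [hs i hi, smul_add, Finset.smul_sum]; simp only [smul_smul]
      · simp [hwI i hi]
    simp only [h2]
    rw [Finset.sum_add_distrib, ← Finset.sum_smul, hw1, one_smul, Finset.sum_comm]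
    simp only [Finset.sum_smul]
  have h2 : y j - ∑ i, w i • y i = ∑ k, (s j k - ∑ i, w i * s i k) • b k := by
    rw [h1, hs j hj, add_sub_add_left_eq_sub, ← Finset.sum_sub_distrib]
    simp only [sub_smul]
  have h3 := sum_abs_Tm hf (fun k => s j k - ∑ i, w i * s i k) (δ := δ) (fun k => by
    refine le_trans (le_of_eq ?_) (hδ k)
    rw [mul_sub, Finset.mul_sum]
    simp only [mul_left_comm])
  have h4 : ∀ p ∈ R, |Hh p (y j) - Hh p (∑ i, w i • y i)| ≤ Hh p a * ((d + 1) * (d * δ)) := by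
    intro p hp
    refine (dev_Tm hc hb ha hp _ _).trans ?_
    rw [h2]
    exact mul_le_mul_of_nonneg_left h3 (hc.pos p hp a ha).le
  exact ⟨close_of_dev hc (hy j hj) (by positivity) (fun p hp => by
    rw [abs_sub_comm]; exact h4 p hp), close_of_dev hc hu (by positivity) h4⟩

/-- The constant of the pair count. -/
noncomputable def cP (d : ℕ) : ℝ :=
  30 * (d + 1) * d ^ 2 * (6 * Real.sqrt (2 * d + 1) * Real.sqrt (6 * (d + 1) * d ^ 2)) ^ (2 * d)

theorem pair_count {R A : Set (Euc d)} (hc : Ctx R A) (hd : 1 ≤ d) {P V} (hb : Barrier R A P V)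
    {a a' : Euc d} (ha : a ∈ A) (ha' : a' ∈ A) {b z σ e b' z' σ' e'}
    (hf : Frame R A (P a) a b z σ e) (hf' : Frame R A (P a') a' b' z' σ' e') {η U : ℝ}
    (hη : 0 < η) (hU : ∀ i, rr (σ i) η ^ 2 ≤ U) (hU' : ∀ i, rr (σ' i) η ^ 2 ≤ U) {N : ℕ}
    {y y' : Fin N → Euc d} (hsep : DSep R η y y') (I : Finset (Fin N))
    (hy : ∀ j ∈ I, y j ∈ Cell R A a) (hy' : ∀ j ∈ I, y' j ∈ Cell R A a') :
    (I.card : ℝ) ≤ cP d * U * ((∏ i, rr (σ i) η) * ∏ i, rr (σ' i) η) := by
  have hd' : (1 : ℝ) ≤ d := by exact_mod_cast hd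
  choose! s hs1 hs2 using fun j (hj : j ∈ I) => hf.outer _ (hy j hj)
  choose! s' hs1' hs2' using fun j (hj : j ∈ I) => hf'.outer _ (hy' j hj)
  obtain ⟨η', hη'⟩ : ∃ η' : ℝ, η' = η / (6 * (d + 1) * d) := ⟨_, rfl⟩
  have hη'0 : 0 < η' := by rw [hη']; positivity
  have hη'1 : η' ≤ d * η := by
    rw [hη', div_le_iff₀ (by positivity), mul_comm (d : ℝ) η, mul_assoc]
    apply le_mul_of_one_le_right hη.le
    apply one_le_mul_of_one_le_of_one_le hd'
    apply one_le_mul_of_one_le_of_one_le _ hd'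
    linarith
  have hlow : ∀ t : ℝ, η' ≤ d * η * rr t η ^ 2 := fun t =>
    hη'1.trans (le_mul_of_one_le_right (by positivity) (one_le_pow₀ (one_le_rr hη)))
  have hbox : ∀ t u : ℝ, 0 < t → |u| ≤ d → |t * u| ≤ d * η * rr t η ^ 2 := by
    intro t u ht hu
    rw [abs_mul, abs_of_pos ht, rr_sq hη, mul_assoc, mul_div_cancel₀ _ hη.ne', mul_comm]
    exact mul_le_mul hu (le_max_left _ _) ht.le (by positivity)
  have h := minty_count (ι := Fin d ⊕ Fin d)
    (fun j => WithLp.toLp 2 (Sum.elim (fun i => σ i * s j i) (fun i => σ' i * s' j i))) I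
    (Sum.elim (fun i => d * η * rr (σ i) η ^ 2) (fun i => d * η * rr (σ' i) η ^ 2))
    (η := η') (W := d * η * U) hη'0 ?_ ?_ ?_ ?_ ?_
  · refine h.trans (le_of_eq ?_)
    have h1 : ∀ t : ℝ, Real.sqrt (d * η * rr t η ^ 2 / η')
        = Real.sqrt (6 * (d + 1) * d ^ 2) * rr t η := by
      intro t
      have h2 : d * η * rr t η ^ 2 / η' = 6 * (d + 1) * d ^ 2 * rr t η ^ 2 := by
        rw [hη']; field_simp
      rw [h2, Real.sqrt_mul (by positivity),
        Real.sqrt_sq (zero_le_one.trans (one_le_rr hη))]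
    have h2 : 5 * (d * η * U) / η' = 30 * (d + 1) * d ^ 2 * U := by
      rw [hη']; field_simp; ring
    have h3 : ((Fintype.card (Fin d ⊕ Fin d) : ℕ) : ℝ) + 1 = 2 * d + 1 := by simp; ring
    rw [Fintype.prod_sum_type, h2, h3]
    simp only [Sum.elim_inl, Sum.elim_inr, h1, ← mul_assoc, Finset.prod_mul_distrib,
      Finset.prod_const, Finset.card_univ, Fintype.card_fin, cP]
    ring
  · rintro (i | i) <;> exact hlow _
  · rintro (i | i)
    · exact mul_le_mul_of_nonneg_left (hU i) (by positivity)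
    · exact mul_le_mul_of_nonneg_left (hU' i) (by positivity)
  · exact (hlow _).trans (mul_le_mul_of_nonneg_left (hU ⟨0, hd⟩) (by positivity))
  · rintro j hj (i | i)
    · exact hbox _ _ (hf.pos i) (hs1 j hj i)
    · exact hbox _ _ (hf'.pos i) (hs1' j hj i)
  · intro j hj w hw0 hwI hw1
    set v : EuclideanSpace ℝ (Fin d ⊕ Fin d) :=
      WithLp.toLp 2 (Sum.elim (fun i => σ i * s j i) (fun i => σ' i * s' j i)) -
      ∑ i', w i' • WithLp.toLp 2 (Sum.elim (fun i => σ i * s i' i) (fun i => σ' i * s' i' i))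
      with hv
    have hwI' : ∀ i, i ∉ I → w i = 0 := fun i hi => hwI i fun h => hi h.1
    have h1 := near_combo hc hb ha hf I y s hy hs2 w hw0 hwI' hw1 hj (norm_nonneg v) (fun k => by
      have := abs_coord_le v (Sum.inl k)
      simpa [hv, Finset.sum_apply] using this)
    have h2 := near_combo hc hb ha' hf' I y' s' hy' hs2' w hw0 hwI' hw1 hj (norm_nonneg v)
      (fun k => by
        have := abs_coord_le v (Sum.inr k)
        simpa [hv, Finset.sum_apply] using this)
    have h3 := hsep j w hw0 (fun i hi => hwI i fun h => absurd h.2 (not_lt.2 hi)) hw1 _ _ h1 h2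
    rw [hη', div_le_iff₀ (by positivity)]
    linarith

theorem sigma_lower {R A : Set (Euc d)} (hc : Ctx R A) {P V} (hb : Barrier R A P V)
    {a a' : Euc d} (ha : a ∈ A) (ha' : a' ∈ A) (hn : ¬ Near R 1 a a') {b z σ e}
    (hf : Frame R A (P a) a b z σ e) {M : ℝ} (hM : ∀ i, σ i ≤ M) :
    1 / 2 ≤ (d + 1) * (d * (M * d)) := by
  have hZ := dev_of_not_near hc hb ha hn
  have he : Real.exp (-1) ≤ 1 / 2 := by
    rw [Real.exp_neg, inv_le_comm₀ (Real.exp_pos _) (by norm_num)]
    linarith [Real.add_one_le_exp (1 : ℝ)]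
  have h1 : ∑ k, |Hh (P a k) a' / Hh (P a k) a - 1| = ∑ k, |Tm (P a) a (a' - a) k| :=
    Finset.sum_congr rfl fun k _ => by
      rw [Tm_sub, div_self (hc.pos _ (hb.mem a ha k) a ha).ne', abs_sub_comm]
  rw [h1] at hZ
  obtain ⟨Z, hZd⟩ : ∃ Z, Z = ∑ k, |Tm (P a) a (a' - a) k| := ⟨_, rfl⟩
  rw [← hZd] at hZ
  have hZ0 : 0 < Z := by linarith
  have ht : 1 / (2 * Z) * Z = 1 / 2 := by field_simp
  have h2 := seg_mem_Cell hc hb ha ha' (t := 1 / (2 * Z)) (by positivity)
    (by rw [div_le_one (by positivity)]; linarith) (by rw [← hZd, ht])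
  obtain ⟨s, hs, hs2⟩ := hf.outer _ h2
  have h3 := sum_abs_Tm hf s (δ := M * d) (fun i => by
    rw [abs_mul, abs_of_pos (hf.pos i)]
    exact mul_le_mul (hM i) (hs i) (abs_nonneg _) ((hf.pos i).le.trans (hM i)))
  rw [← add_left_cancel hs2, map_smul] at h3
  simp only [PiLp.smul_apply, smul_eq_mul, abs_mul,
    abs_of_pos (by positivity : 0 < 1 / (2 * Z)), ← Finset.mul_sum] at h3
  rwa [← hZd, ht] at h3

theorem rr_mono {σ σ' η : ℝ} (hη : 0 < η) (h : σ ≤ σ') : rr σ η ≤ rr σ' η :=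
  Real.sqrt_le_sqrt (div_le_div_of_nonneg_right (max_le_max_right _ h) hη.le)

theorem rr_cross {σ M M' η B L : ℝ} (hη : 0 < η) (hη1 : η ≤ 1) (hB : 1 ≤ B) (hσ : σ ≤ B)
    (hL : 0 < L) (hM : 1 ≤ L * M) (hM' : 1 ≤ L * M') :
    rr σ η ^ 2 ≤ B * L * (rr M η * rr M' η) := by
  have h1 : ∀ t, 1 ≤ L * t → Real.sqrt (1 / (L * η)) ≤ rr t η := by
    intro t ht
    apply Real.sqrt_le_sqrt
    rw [← div_div]
    apply div_le_div_of_nonneg_right _ hη.le
    refine le_trans ?_ (le_max_left _ _)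
    rw [div_le_iff₀ hL, mul_comm]; exact ht
  have h2 := mul_le_mul (h1 M hM) (h1 M' hM') (Real.sqrt_nonneg _)
    (zero_le_one.trans (one_le_rr hη))
  rw [Real.mul_self_sqrt (by positivity)] at h2
  refine le_trans ?_ (mul_le_mul_of_nonneg_left h2 (by positivity))
  rw [rr_sq hη, show B * L * (1 / (L * η)) = B / η by field_simp]
  exact div_le_div_of_nonneg_right (max_le hσ (hη1.trans hB)) hη.le

theorem const_bound (hd : 1 ≤ d) :
    cP d * (2 * d * (d + 1) * (2 * d ^ 2 * (d + 1))) /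
      ((1 / (d + 1) ^ 2 / 600 / (4 * d ^ 2)) ^ d) ^ 2 ≤ (4 * ((d : ℝ) + 1)) ^ (20 * d) := by
  have hd' : (1 : ℝ) ≤ d := by exact_mod_cast hd
  obtain ⟨D, hD⟩ : ∃ D : ℝ, D = d + 1 := ⟨_, rfl⟩
  have hdD : (d : ℝ) ≤ D := by linarith
  have hD1 : 1 ≤ D := by linarith
  have h1 : cP d ≤ 30 * D * D ^ 2 * (432 * D ^ 4) ^ d := by
    unfold cP
    rw [← hD, pow_mul, mul_pow _ _ 2, mul_pow _ _ 2, Real.sq_sqrt (by positivity),
      Real.sq_sqrt (by positivity)]
    have h2 : (6 : ℝ) ^ 2 * (2 * d + 1) * (6 * D * d ^ 2) ≤ 6 ^ 2 * (2 * D) * (6 * D * D ^ 2) := by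
      gcongr; linarith
    have h3 : (6 : ℝ) ^ 2 * (2 * D) * (6 * D * D ^ 2) = 432 * D ^ 4 := by ring
    rw [h3] at h2
    gcongr
  have h2 : (2 * d * D * (2 * d ^ 2 * D) : ℝ) ≤ 2 * D * D * (2 * D ^ 2 * D) := by gcongr
  have h3 : 1 / ((1 / D ^ 2 / 600 / (4 * d ^ 2)) ^ d) ^ 2 ≤ (5760000 * D ^ 8) ^ d := by
    rw [← pow_mul, mul_comm d 2, pow_mul, one_div, ← inv_pow]
    apply pow_le_pow_left₀ (by positivity)
    have h4 : ((1 / D ^ 2 / 600 / (4 * (d : ℝ) ^ 2)) ^ 2)⁻¹ = 5760000 * (D ^ 4 * d ^ 4) := by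
      field_simp; norm_num
    rw [h4, show D ^ 8 = D ^ 4 * D ^ 4 by ring]
    gcongr
  have h4 : 120 * D ^ 8 ≤ (120 * D ^ 8) ^ d :=
    le_self_pow₀ (one_le_mul_of_one_le_of_one_le (by norm_num) (one_le_pow₀ hD1)) (by omega)
  rw [← hD, div_eq_mul_one_div]
  calc _ ≤ 30 * D * D ^ 2 * (432 * D ^ 4) ^ d * (2 * D * D * (2 * D ^ 2 * D)) *
        (5760000 * D ^ 8) ^ d := by gcongr
    _ = 120 * D ^ 8 * ((432 * D ^ 4) ^ d * (5760000 * D ^ 8) ^ d) := by ring
    _ ≤ (120 * D ^ 8) ^ d * ((432 * D ^ 4) ^ d * (5760000 * D ^ 8) ^ d) := by gcongr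
    _ = (298598400000 * D ^ 20) ^ d := by rw [← mul_pow, ← mul_pow]; congr 1; ring
    _ ≤ (4 ^ 20 * D ^ 20) ^ d := by gcongr; norm_num
    _ = _ := by rw [pow_mul, mul_pow 4 D]

theorem fixed_small (hd : 1 ≤ d) : ∀ R A : Set (Euc d), Ctx2 R A →
    ∀ η : ℝ, 0 < η → η ≤ 1 → ∀ m : ℕ, ¬ TSep R A (η / (960 * (d + 1) ^ 3)) (m + 1) →
    ∀ (N : ℕ) (y z : Fin N → Euc d), (∀ i, y i ∈ A) → (∀ i, z i ∈ A) → DSep R η y z →
    (N : ℝ) ≤ (4 * ((d : ℝ) + 1)) ^ (20 * d) * m ^ 2 := by
  have hd' : (1 : ℝ) ≤ d := by exact_mod_cast hd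
  obtain ⟨c, hcd⟩ : ∃ c : ℝ, c = (1 / (d + 1) ^ 2 / 600 / (4 * d ^ 2)) ^ d := ⟨_, rfl⟩
  have hc0 : 0 < c := by rw [hcd]; positivity
  obtain ⟨B, hB⟩ : ∃ B : ℝ, B = 2 * d * (d + 1) := ⟨_, rfl⟩
  obtain ⟨L, hL⟩ : ∃ L : ℝ, L = 2 * d ^ 2 * (d + 1) := ⟨_, rfl⟩
  have hB1 : 1 ≤ B := by rw [hB]; nlinarith
  have hL1 : 1 ≤ L := by
    rw [hL]
    exact one_le_mul_of_one_le_of_one_le (by nlinarith) (by linarith)
  have hP0 : 0 < cP d := by unfold cP; positivity
  have hC := const_bound hd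
  rw [← hcd, ← hB, ← hL] at hC
  intro R A hc η hη hη1 m hm N y z hy hz hsep
  refine le_trans ?_ (mul_le_mul_of_nonneg_right hC (by positivity))
  obtain ⟨P, V, hb⟩ := exists_barrier hc
  choose! b zz σ e hf using fun a (ha : a ∈ A) => exists_frame hc hd hb ha
  choose i0 hi0 using fun a : Euc d =>
    Finset.exists_max_image Finset.univ (σ a) ⟨⟨0, hd⟩, Finset.mem_univ _⟩
  obtain ⟨X, hXY, hX1, hX2⟩ := exists_net hc.toCtx zero_le_one
    (Finset.univ.image y ∪ Finset.univ.image z) (by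
      intro u hu
      simp only [Finset.mem_union, Finset.mem_image, Finset.mem_univ, true_and] at hu
      rcases hu with ⟨i, rfl⟩ | ⟨i, rfl⟩
      exacts [hy i, hz i])
  have hX : ∀ a ∈ X, a ∈ A := by
    intro u hu
    have := hXY hu
    simp only [Finset.mem_union, Finset.mem_image, Finset.mem_univ, true_and] at this
    rcases this with ⟨i, rfl⟩ | ⟨i, rfl⟩
    exacts [hy i, hz i]
  have hlow := global_family hc.toCtx hd hb X hX hX1 hf i0 hη hη1 hm
  rw [← hcd] at hlow
  set F : Euc d → ℝ := fun a => rr (σ a (i0 a)) η * ∏ i, rr (σ a i) η with hF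
  choose cy hcy1 hcy2 using fun j => hX2 (y j) (by simp)
  choose cz hcz1 hcz2 using fun j => hX2 (z j) (by simp)
  have hr0 : ∀ t, 0 ≤ rr t η := fun t => zero_le_one.trans (one_le_rr hη)
  have hU : ∀ a ∈ X, ∀ a' ∈ X, ∀ i,
      rr (σ a i) η ^ 2 ≤ B * L * (rr (σ a (i0 a)) η * rr (σ a' (i0 a')) η) := by
    intro a ha a' ha' i
    by_cases haa : a = a'
    · subst haa
      have h1 := rr_mono hη ((hi0 a).2 i (Finset.mem_univ _))
      refine (pow_le_pow_left₀ (hr0 _) h1 2).trans ?_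
      rw [sq]
      exact le_mul_of_one_le_left (mul_nonneg (hr0 _) (hr0 _))
        (one_le_mul_of_one_le_of_one_le hB1 hL1)
    · have h1 := sigma_lower hc.toCtx hb (hX a ha) (hX a' ha') (hX1 a ha a' ha' haa)
        (hf a (hX a ha)) (fun i => (hi0 a).2 i (Finset.mem_univ _))
      have h2 := sigma_lower hc.toCtx hb (hX a' ha') (hX a ha) (hX1 a' ha' a ha (Ne.symm haa))
        (hf a' (hX a' ha')) (fun i => (hi0 a').2 i (Finset.mem_univ _))
      apply rr_cross hη hη1 hB1 (hB ▸ (hf a (hX a ha)).le i) (by linarith)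
      · rw [hL]; linarith
      · rw [hL]; linarith
  have hfib : ∀ q ∈ X ×ˢ X, (((Finset.univ.filter fun j => (cy j, cz j) = q).card : ℕ) : ℝ)
      ≤ cP d * (B * L) * (F q.1 * F q.2) := by
    rintro ⟨a, a'⟩ hq
    obtain ⟨ha, ha'⟩ := Finset.mem_product.1 hq
    refine (pair_count hc.toCtx hd hb (hX a ha) (hX a' ha') (hf a (hX a ha)) (hf a' (hX a' ha'))
      hη (hU a ha a' ha') (fun i => (hU a' ha' a ha i).trans (le_of_eq (by ring))) hsep _
      (fun j hj => ?_) (fun j hj => ?_)).trans (le_of_eq ?_)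
    · have h1 := (Prod.ext_iff.1 (Finset.mem_filter.1 hj).2).1
      exact ⟨hy j, (show cy j = a from h1) ▸ hcy2 j⟩
    · have h1 := (Prod.ext_iff.1 (Finset.mem_filter.1 hj).2).2
      exact ⟨hz j, (show cz j = a' from h1) ▸ hcz2 j⟩
    · simp only [hF]; ring
  have hsum := Finset.card_eq_sum_card_fiberwise (s := Finset.univ) (t := X ×ˢ X)
    (f := fun j => (cy j, cz j)) (fun j _ => Finset.mem_product.2 ⟨hcy1 j, hcz1 j⟩)
  rw [Finset.card_univ, Fintype.card_fin] at hsum
  have h1 : (N : ℝ) ≤ cP d * (B * L) * (∑ a ∈ X, F a) ^ 2 := by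
    rw [hsum, Nat.cast_sum]
    refine (Finset.sum_le_sum hfib).trans (le_of_eq ?_)
    rw [← Finset.mul_sum, sq, Finset.sum_mul_sum, Finset.sum_product]
  have h2 : ∑ a ∈ X, F a ≤ m / c := by rw [le_div_iff₀ hc0, mul_comm]; exact hlow
  have h3 := pow_le_pow_left₀ (Finset.sum_nonneg fun a _ =>
    mul_nonneg (hr0 _) (Finset.prod_nonneg fun i _ => hr0 _)) h2 2
  refine h1.trans ((mul_le_mul_of_nonneg_left h3 (by positivity)).trans (le_of_eq ?_))
  field_simp

theorem fixed_large {R A : Set (Euc d)} (hc : Ctx2 R A) {η : ℝ} (hη : 1 ≤ η) {m : ℕ}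
    (hm : ¬ TSep R A (η / 8 / (16000 * (d + 1) ^ 4)) (m + 1)) {N : ℕ} {y z : Fin N → Euc d}
    (hy : ∀ i, y i ∈ A) (hz : ∀ i, z i ∈ A) (hsep : DSep R η y z) : N ≤ m ^ 2 := by
  obtain ⟨X, hXY, hX1, hX2⟩ := exists_net hc.toCtx (by linarith : 0 ≤ η / 8)
    (Finset.univ.image y ∪ Finset.univ.image z) (by
      intro u hu
      simp only [Finset.mem_union, Finset.mem_image, Finset.mem_univ, true_and] at hu
      rcases hu with ⟨i, rfl⟩ | ⟨i, rfl⟩
      exacts [hy i, hz i])
  have hX : ∀ a ∈ X, a ∈ A := by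
    intro u hu
    have := hXY hu
    simp only [Finset.mem_union, Finset.mem_image, Finset.mem_univ, true_and] at this
    rcases this with ⟨i, rfl⟩ | ⟨i, rfl⟩
    exacts [hy i, hz i]
  have hcard := large_net hc (by linarith) hm X hX hX1
  choose cy hcy1 hcy2 using fun j => hX2 (y j) (by simp)
  choose cz hcz1 hcz2 using fun j => hX2 (z j) (by simp)
  have key : ∀ i j, (cy i, cz i) = (cy j, cz j) → ¬ i < j := by
    intro i j hij hlt
    obtain ⟨h1, h2⟩ := Prod.ext_iff.1 hij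
    dsimp only at h1 h2
    have h := hsep j (fun a => if a = i then 1 else 0) (fun a => by split_ifs <;> norm_num)
      (fun a ha => by
        have : a ≠ i := by rintro rfl; exact absurd hlt (not_lt.2 ha)
        simp [this]) (by simp) (η / 8 + η / 8) (η / 8 + η / 8)
    simp only [ite_smul, one_smul, zero_smul, Finset.sum_ite_eq', Finset.mem_univ, if_true] at h
    have := h ⟨(hcy2 i).1.trans (h1 ▸ (hcy2 j).2), (hcy2 j).1.trans (h1 ▸ (hcy2 i).2)⟩
      ⟨(hcz2 i).1.trans (h2 ▸ (hcz2 j).2), (hcz2 j).1.trans (h2 ▸ (hcz2 i).2)⟩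
    linarith
  have h1 := Finset.card_le_card_of_injOn (s := Finset.univ) (t := X ×ˢ X)
    (fun j => (cy j, cz j)) (fun j _ => Finset.mem_product.2 ⟨hcy1 j, hcz1 j⟩)
    (fun i _ j _ hij => le_antisymm (not_lt.1 (key j i hij.symm)) (not_lt.1 (key i j hij)))
  rw [Finset.card_univ, Fintype.card_fin, Finset.card_product] at h1
  rw [sq]
  exact h1.trans (Nat.mul_le_mul hcard hcard)

theorem compact_polar {K : Set (Euc d)} {ε : ℝ} (hε : 0 < ε)
    (h : Metric.closedBall (0 : Euc d) ε ⊆ K) : IsCompact (polarSet K) := by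
  apply Metric.isCompact_of_isClosed_isBounded
  · have : polarSet K = ⋂ x ∈ K, {y | ⟪x, y⟫ ≤ 1} := by ext y; simp [polarSet]
    rw [this]
    exact isClosed_biInter fun x _ => isClosed_le (by fun_prop) continuous_const
  · rw [isBounded_iff_forall_norm_le]
    refine ⟨1 / ε, fun y hy => ?_⟩
    rcases (norm_nonneg y).eq_or_lt with h0 | h0
    · rw [← h0]; positivity
    · have h1 := hy ((ε / ‖y‖) • y) (h (by
        rw [mem_closedBall_zero_iff, norm_smul, Real.norm_of_nonneg (by positivity),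
          div_mul_cancel₀ _ h0.ne']))
      rw [inner_smul_left, real_inner_self_eq_norm_sq, conj_trivial] at h1
      rw [le_div_iff₀ hε]
      refine le_trans (le_of_eq ?_) h1
      field_simp

theorem ball_polar {K : Set (Euc d)} (hK : Bornology.IsBounded K) :
    ∃ ε : ℝ, 0 < ε ∧ Metric.closedBall (0 : Euc d) ε ⊆ polarSet K := by
  obtain ⟨r, hr0, hr⟩ := hK.exists_pos_norm_le
  refine ⟨1 / r, by positivity, fun y hy x hx => ?_⟩
  rw [mem_closedBall_zero_iff] at hy
  refine (real_inner_le_norm _ _).trans ((mul_le_mul (hr x hx) hy (norm_nonneg _) hr0.le).trans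
    (le_of_eq ?_))
  field_simp

theorem ctx2_of {G K : Set (Euc d)} (h : Admissible G K) :
    Ctx2 (polarSet (polarSet G)) (polarSet K) := by
  obtain ⟨ε, hε, hball⟩ := Metric.nhds_basis_closedBall.mem_iff.1
    (mem_interior_iff_mem_nhds.1 h.2.2.1)
  obtain ⟨ε', hε', hball'⟩ := ball_polar h.1.1.isBounded
  exact ⟨ctx_of (convex_polarSet K) (polar_sub_interior h), compact_polar hε' hball',
    compact_polar hε (hball.trans (h.2.2.2.trans interior_subset)),
    ball_polar (compact_polar hε hball).isBounded, ball_polar h.2.1.1.isBounded⟩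

end Pool.Agent.MP_dc1150_gt

end
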