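import Pool.Agent.MP_dc1150_gt.Mg.Bridge

-- part MP_dc1150_gt.Sample
section

/-! Sparse approximation by empirical means and dyadic halving. -/

open scoped RealInnerProductSpace BigOperators
open Classical

namespace Pool.Agent.MP_dc1150_gt

variable {d : ℕ}

/-- Finite Chernoff bound. -/
theorem chernoff {n k : ℕ} (lam X : Fin n → ℝ) (hl : ∀ i, 0 ≤ lam i) (hs : ∑ i, lam i = 1)
    (hmean : ∑ i, lam i * X i = 0) (V s τ : ℝ) (hs0 : 0 ≤ s) (hX : ∀ i, |s * X i| ≤ 1)
    (hV : ∑ i, lam i * X i ^ 2 ≤ V) :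
    ∑ t ∈ (Finset.univ : Finset (Fin k → Fin n)).filter (fun t => (k : ℝ) * τ < ∑ a, X (t a)),
      ∏ a, lam (t a) ≤ Real.exp (k * (s ^ 2 * V - s * τ)) := by
  have h1 : ∑ i, lam i * Real.exp (s * X i) ≤ Real.exp (s ^ 2 * V) := by
    have h2 : ∀ i, lam i * Real.exp (s * X i) ≤ lam i * (1 + s * X i + (s * X i) ^ 2) := by
      intro i
      apply mul_le_mul_of_nonneg_left _ (hl i)
      have := Real.abs_exp_sub_one_sub_id_le (hX i)
      have := (abs_le.1 this).2
      linarith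
    calc ∑ i, lam i * Real.exp (s * X i) ≤ ∑ i, lam i * (1 + s * X i + (s * X i) ^ 2) :=
          Finset.sum_le_sum fun i _ => h2 i
      _ = ∑ i, lam i + s * ∑ i, lam i * X i + s ^ 2 * ∑ i, lam i * X i ^ 2 := by
          rw [Finset.mul_sum, Finset.mul_sum, ← Finset.sum_add_distrib, ← Finset.sum_add_distrib]
          exact Finset.sum_congr rfl fun i _ => by ring
      _ ≤ 1 + s ^ 2 * V := by
          rw [hs, hmean]
          have := mul_le_mul_of_nonneg_left hV (sq_nonneg s)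
          linarith
      _ ≤ Real.exp (s ^ 2 * V) := by linarith [Real.add_one_le_exp (s ^ 2 * V)]
  have h0 : 0 ≤ ∑ i, lam i * Real.exp (s * X i) :=
    Finset.sum_nonneg fun i _ => mul_nonneg (hl i) (Real.exp_pos _).le
  have hprod : ∑ t : Fin k → Fin n, ∏ a, (lam (t a) * Real.exp (s * X (t a)))
      = (∑ i, lam i * Real.exp (s * X i)) ^ k := by
    have := Finset.prod_univ_sum (fun _ : Fin k => (Finset.univ : Finset (Fin n)))
      (fun _ i => lam i * Real.exp (s * X i))
    rw [Fintype.piFinset_univ] at this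
    rw [← this]; simp
  calc ∑ t ∈ (Finset.univ : Finset (Fin k → Fin n)).filter
          (fun t => (k : ℝ) * τ < ∑ a, X (t a)), ∏ a, lam (t a)
      ≤ ∑ t ∈ (Finset.univ : Finset (Fin k → Fin n)).filter
          (fun t => (k : ℝ) * τ < ∑ a, X (t a)),
          Real.exp (-(s * (k * τ))) * ∏ a, (lam (t a) * Real.exp (s * X (t a))) := by
        apply Finset.sum_le_sum
        intro t ht
        have ht' := (Finset.mem_filter.1 ht).2
        rw [Finset.prod_mul_distrib, ← Real.exp_sum, ← Finset.mul_sum]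
        have hp : 0 ≤ ∏ a, lam (t a) := Finset.prod_nonneg fun a _ => hl _
        have he : 1 ≤ Real.exp (-(s * (k * τ))) * Real.exp (s * ∑ a, X (t a)) := by
          rw [← Real.exp_add]
          apply Real.one_le_exp
          have := mul_le_mul_of_nonneg_left ht'.le hs0
          linarith
        calc ∏ a, lam (t a) = (∏ a, lam (t a)) * 1 := by ring
          _ ≤ (∏ a, lam (t a)) * (Real.exp (-(s * (k * τ))) * Real.exp (s * ∑ a, X (t a))) :=
              mul_le_mul_of_nonneg_left he hp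
          _ = _ := by ring
    _ ≤ ∑ t : Fin k → Fin n,
          Real.exp (-(s * (k * τ))) * ∏ a, (lam (t a) * Real.exp (s * X (t a))) := by
        apply Finset.sum_le_sum_of_subset_of_nonneg (Finset.filter_subset _ _)
        intro t _ _
        exact mul_nonneg (Real.exp_pos _).le
          (Finset.prod_nonneg fun a _ => mul_nonneg (hl _) (Real.exp_pos _).le)
    _ = Real.exp (-(s * (k * τ))) * (∑ i, lam i * Real.exp (s * X i)) ^ k := by
        rw [← Finset.mul_sum, hprod]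
    _ ≤ Real.exp (-(s * (k * τ))) * Real.exp (s ^ 2 * V) ^ k :=
        mul_le_mul_of_nonneg_left (pow_le_pow_left₀ h0 h1 k) (Real.exp_pos _).le
    _ = Real.exp (k * (s ^ 2 * V - s * τ)) := by
        rw [← Real.exp_nat_mul, ← Real.exp_add]; congr 1; ring

theorem prod_weights_sum {n k : ℕ} (lam : Fin n → ℝ) (hs : ∑ i, lam i = 1) :
    ∑ t : Fin k → Fin n, ∏ a, lam (t a) = 1 := by
  have := Finset.prod_univ_sum (fun _ : Fin k => (Finset.univ : Finset (Fin n)))
    (fun _ i => lam i)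
  rw [Fintype.piFinset_univ] at this
  rw [← this]; simp [hs]

/-- Two-sided tail bound for ratios in `[e^(-Δ), e^Δ]` with mean one. -/
theorem ratio_tail {n k : ℕ} (lam Y : Fin n → ℝ) (hl : ∀ i, 0 ≤ lam i) (hs : ∑ i, lam i = 1)
    (hmean : ∑ i, lam i * Y i = 1) {Δ : ℝ} (hΔ : 0 < Δ)
    (hY1 : ∀ i, Real.exp (-Δ) ≤ Y i) (hY2 : ∀ i, Y i ≤ Real.exp Δ) :
    ∑ t ∈ (Finset.univ : Finset (Fin k → Fin n)).filter
        (fun t => (k : ℝ) * (1 - Real.exp (-(Δ / 16))) < |∑ a, (Y (t a) - 1)|),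
      ∏ a, lam (t a) ≤ 2 * Real.exp (-(k / (1024 * Real.exp Δ))) := by
  set τ := 1 - Real.exp (-(Δ / 16)) with hτ
  set b := 1 - Real.exp (-Δ) with hb
  set M := Real.exp Δ - 1 with hM
  have hE : 0 < Real.exp Δ := Real.exp_pos _
  have hb0 : 0 < b := by
    have : Real.exp (-Δ) < 1 := Real.exp_lt_one_iff.2 (by linarith)
    linarith
  have hτ0 : 0 < τ := by
    have : Real.exp (-(Δ / 16)) < 1 := Real.exp_lt_one_iff.2 (by linarith)
    linarith
  have hτb : τ ≤ b := by
    have : Real.exp (-Δ) ≤ Real.exp (-(Δ / 16)) := Real.exp_le_exp.2 (by linarith)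
    linarith
  have hMb : M = Real.exp Δ * b := by
    rw [hM, hb, mul_sub, ← Real.exp_add]; simp
  have hM0 : 0 < M := by rw [hMb]; positivity
  have hE1 : 1 ≤ Real.exp Δ := Real.one_le_exp hΔ.le
  have hbM : b ≤ M := by rw [hMb]; nlinarith
  have hb16 : b ≤ 16 * τ := by
    have h1 := one_add_mul_le_pow (a := Real.exp (-(Δ / 16)) - 1)
      (by linarith [Real.exp_pos (-(Δ / 16))]) 16
    have h2 : (1 + (Real.exp (-(Δ / 16)) - 1)) ^ 16 = Real.exp (-Δ) := by
      rw [add_sub_cancel, ← Real.exp_nat_mul]; congr 1; push_cast; ring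
    rw [h2] at h1
    push_cast at h1
    linarith
  set s := τ / (2 * M * b) with hsdef
  have hs0 : 0 ≤ s := by positivity
  have hsM : s * M ≤ 1 := by
    rw [hsdef, div_mul_eq_mul_div, div_le_one (by positivity)]
    nlinarith
  have habs : ∀ i, |Y i - 1| ≤ M := by
    intro i
    rw [abs_le]
    constructor
    · linarith [hY1 i]
    · linarith [hY2 i]
  have hV : ∑ i, lam i * (Y i - 1) ^ 2 ≤ M * b := by
    have h2 : ∀ i, lam i * (Y i - 1) ^ 2 ≤ lam i * (M * b + (M - b) * (Y i - 1)) := by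
      intro i
      apply mul_le_mul_of_nonneg_left _ (hl i)
      have h3 : 0 ≤ (Y i - 1) + b := by linarith [hY1 i]
      have h4 : 0 ≤ M - (Y i - 1) := by linarith [hY2 i]
      nlinarith [mul_nonneg h3 h4]
    calc ∑ i, lam i * (Y i - 1) ^ 2 ≤ ∑ i, lam i * (M * b + (M - b) * (Y i - 1)) :=
          Finset.sum_le_sum fun i _ => h2 i
      _ = M * b * ∑ i, lam i + (M - b) * (∑ i, lam i * Y i - ∑ i, lam i) := by
          rw [← Finset.sum_sub_distrib, Finset.mul_sum, Finset.mul_sum, ← Finset.sum_add_distrib]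
          exact Finset.sum_congr rfl fun i _ => by ring
      _ = M * b := by rw [hs, hmean]; ring
  have hm0 : ∑ i, lam i * (Y i - 1) = 0 := by
    simp only [mul_sub, mul_one, Finset.sum_sub_distrib, hs, hmean, sub_self]
  have hexp : s ^ 2 * (M * b) - s * τ ≤ -(1 / (1024 * Real.exp Δ)) := by
    have h1 : s ^ 2 * (M * b) - s * τ = -(τ ^ 2 / (4 * (M * b))) := by
      rw [hsdef]; field_simp; ring
    rw [h1, neg_le_neg_iff, div_le_div_iff₀ (by positivity) (by positivity), hMb]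
    have h2 : b * b ≤ (16 * τ) * (16 * τ) := mul_self_le_mul_self hb0.le hb16
    nlinarith
  have hexp2 : Real.exp (k * (s ^ 2 * (M * b) - s * τ))
      ≤ Real.exp (-(k / (1024 * Real.exp Δ))) := by
    apply Real.exp_le_exp.2
    have := mul_le_mul_of_nonneg_left hexp (Nat.cast_nonneg (α := ℝ) k)
    calc _ ≤ _ := this
      _ = _ := by ring
  have hA := chernoff (k := k) lam (fun i => Y i - 1) hl hs hm0 (M * b) s τ hs0
    (fun i => by
      rw [abs_mul, abs_of_nonneg hs0]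
      exact (mul_le_mul_of_nonneg_left (habs i) hs0).trans hsM) hV
  have hB := chernoff (k := k) lam (fun i => -(Y i - 1)) hl hs
    (by simp only [mul_neg, Finset.sum_neg_distrib, hm0, neg_zero]) (M * b) s τ hs0
    (fun i => by
      rw [abs_mul, abs_of_nonneg hs0, abs_neg]
      exact (mul_le_mul_of_nonneg_left (habs i) hs0).trans hsM)
    (by simpa only [neg_sq] using hV)
  have hw : ∀ t : Fin k → Fin n, 0 ≤ ∏ a, lam (t a) := fun t =>
    Finset.prod_nonneg fun a _ => hl _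
  calc _ ≤ ∑ t ∈ (Finset.univ.filter (fun t : Fin k → Fin n => (k : ℝ) * τ < ∑ a, (Y (t a) - 1)))
        ∪ (Finset.univ.filter (fun t : Fin k → Fin n => (k : ℝ) * τ < ∑ a, -(Y (t a) - 1))),
        ∏ a, lam (t a) := by
        apply Finset.sum_le_sum_of_subset_of_nonneg _ (fun t _ _ => hw t)
        intro t ht
        have ht' := (Finset.mem_filter.1 ht).2
        rw [Finset.mem_union, Finset.mem_filter, Finset.mem_filter, Finset.sum_neg_distrib]
        rcases lt_abs.1 ht' with h | h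
        · exact Or.inl ⟨Finset.mem_univ _, h⟩
        · exact Or.inr ⟨Finset.mem_univ _, h⟩
    _ ≤ _ := by
        have := Finset.sum_union_inter (f := fun t : Fin k → Fin n => ∏ a, lam (t a))
          (s₁ := Finset.univ.filter (fun t : Fin k → Fin n => (k : ℝ) * τ < ∑ a, (Y (t a) - 1)))
          (s₂ := Finset.univ.filter (fun t : Fin k → Fin n => (k : ℝ) * τ < ∑ a, -(Y (t a) - 1)))
        have h0 := Finset.sum_nonneg (s := (Finset.univ.filter
          (fun t : Fin k → Fin n => (k : ℝ) * τ < ∑ a, (Y (t a) - 1))) ∩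
          (Finset.univ.filter (fun t : Fin k → Fin n => (k : ℝ) * τ < ∑ a, -(Y (t a) - 1))))
          (fun t _ => hw t)
        linarith

/-- The empirical mean of a tuple of generators. -/
noncomputable def emp {n k : ℕ} (s : Fin n → Euc d) (t : Fin k → Fin n) : Euc d :=
  ∑ a, ((k : ℝ)⁻¹) • s (t a)

theorem Hh_emp {n k : ℕ} (hk : 0 < k) (s : Fin n → Euc d) (t : Fin k → Fin n) (p : Euc d) :
    Hh p (emp s t) = (k : ℝ)⁻¹ * ∑ a, Hh p (s (t a)) := by
  unfold emp
  have hk' : (k : ℝ) ≠ 0 := by positivity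
  rw [Hh_sum _ _ _ _ (by simp [hk']), Finset.mul_sum]

theorem emp_mem {A : Set (Euc d)} (hA : Convex ℝ A) {n k : ℕ} (hk : 0 < k) (s : Fin n → Euc d)
    (hs : ∀ i, s i ∈ A) (t : Fin k → Fin n) : emp s t ∈ A := by
  unfold emp
  have hk' : (k : ℝ) ≠ 0 := by positivity
  exact hA.sum_mem (fun a _ => by positivity) (by simp [hk']) (fun a _ => hs _)

/-- Sparse approximation of a convex combination. -/
theorem exists_sparse {R A : Set (Euc d)} (hc : Ctx R A) {Δ : ℝ} (hΔ : 0 < Δ) {m : ℕ}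
    (hm : ¬ TSep R A (Δ / 32) (m + 1)) {n k : ℕ} (hk : 0 < k)
    (hkm : (m : ℝ) * (2 * Real.exp (-(k / (1024 * Real.exp Δ)))) < 1)
    (s : Fin n → Euc d) (hs : ∀ i, s i ∈ A) (lam : Fin n → ℝ) (hl : ∀ i, 0 ≤ lam i)
    (hsum : ∑ i, lam i = 1) (hcl : ∀ i j, Close R Δ (s i) (s j)) :
    ∃ t : Fin k → Fin n, Close R (Δ / 8) (emp s t) (∑ i, lam i • s i) ∧
      Close R (Δ / 8) (∑ i, lam i • s i) (emp s t) := by
  set x := ∑ i, lam i • s i with hx
  have hxA : x ∈ A := hc.convA.sum_mem (fun i _ => hl i) hsum (fun i _ => hs i)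
  by_contra hcon
  have hfar : ∀ t : Fin k → Fin n, Far R (Δ / 16) (emp s t) x := by
    intro t
    by_contra h
    have := not_far h
    have e : 2 * (Δ / 16) = Δ / 8 := by ring
    rw [e] at this
    exact hcon ⟨t, this⟩
  choose p hp hp2 using hfar
  have hk' : (0 : ℝ) < k := by positivity
  have hHx : ∀ q, Hh q x = ∑ i, lam i * Hh q (s i) := fun q => Hh_sum _ _ _ _ hsum
  have hup : ∀ q ∈ R, ∀ i, Hh q (s i) ≤ Real.exp Δ * Hh q x := by
    intro q hq i
    rw [hHx, Finset.mul_sum]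
    calc Hh q (s i) = ∑ j, lam j * Hh q (s i) := by rw [← Finset.sum_mul, hsum, one_mul]
      _ ≤ _ := Finset.sum_le_sum fun j _ => by
          have := mul_le_mul_of_nonneg_left (hcl i j q hq) (hl j)
          linarith
  have hlow : ∀ q ∈ R, ∀ i, Hh q x ≤ Real.exp Δ * Hh q (s i) := by
    intro q hq i
    rw [hHx]
    calc ∑ j, lam j * Hh q (s j) ≤ ∑ j, lam j * (Real.exp Δ * Hh q (s i)) :=
          Finset.sum_le_sum fun j _ => mul_le_mul_of_nonneg_left (hcl j i q hq) (hl j)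
      _ = _ := by rw [← Finset.sum_mul, hsum, one_mul]
  obtain ⟨σ, -, hσ⟩ := greedy_rev (Finset.univ : Finset (Fin k → Fin n))
    (fun t => ∏ a, lam (t a)) (fun t _ => Finset.prod_nonneg fun a _ => hl _)
    (fun t t' => (k : ℝ) * (1 - Real.exp (-(Δ / 16))) <
      |∑ a, (Hh (p t) (s (t' a)) / Hh (p t) x - 1)|)
    (2 * Real.exp (-(k / (1024 * Real.exp Δ)))) (by positivity)
    (fun t _ => by
      have hpx := hc.pos _ (hp t) x hxA
      apply ratio_tail lam (fun i => Hh (p t) (s i) / Hh (p t) x) hl hsum _ hΔ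
      · intro i
        rw [le_div_iff₀ hpx, Real.exp_neg, inv_mul_le_iff₀ (Real.exp_pos _)]
        exact hlow _ (hp t) i
      · intro i
        rw [div_le_iff₀ hpx]
        exact hup _ (hp t) i
      · simp only [← mul_div_assoc]
        rw [← Finset.sum_div, ← hHx, div_self hpx.ne'])
    m (by rw [prod_weights_sum lam hsum]; exact hkm)
  apply hm
  apply tsep_of_rows (fun i => emp s (σ i)) (fun i _ => emp_mem hc.convA hk s hs _)
  intro j hj
  have hpx := hc.pos _ (hp (σ j)) x hxA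
  have hgood : ∀ i < j, Real.exp (-(Δ / 16)) * Hh (p (σ j)) x ≤ Hh (p (σ j)) (emp s (σ i)) ∧
      Hh (p (σ j)) (emp s (σ i)) ≤ Real.exp (Δ / 16) * Hh (p (σ j)) x := by
    intro i hi
    have h1 := not_lt.1 (hσ i j hi hj)
    have h2 : ∑ a, (Hh (p (σ j)) (s (σ i a)) / Hh (p (σ j)) x - 1)
        = k * (Hh (p (σ j)) (emp s (σ i)) / Hh (p (σ j)) x - 1) := by
      rw [Hh_emp hk, Finset.sum_sub_distrib, ← Finset.sum_div]
      simp only [Finset.sum_const, Finset.card_univ, Fintype.card_fin, nsmul_eq_mul, mul_one]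
      field_simp
    rw [h2, abs_mul, abs_of_pos hk'] at h1
    have h3 := abs_le.1 (le_of_mul_le_mul_left h1 hk')
    constructor
    · rw [← le_div_iff₀ hpx]; linarith [h3.1]
    · rw [← div_le_iff₀ hpx]
      have h4 := Real.add_one_le_exp (Δ / 16)
      have h5 := Real.add_one_le_exp (-(Δ / 16))
      linarith [h3.2]
  have e1 : 2 * (Δ / 32) = Δ / 16 := by ring
  have e2 : 2 * (Δ / 16) = Δ / 16 + Δ / 16 := by ring
  refine ⟨p (σ j), hp _, ?_⟩
  rcases hp2 (σ j) with h | h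
  · refine ⟨Real.exp (Δ / 16) * Hh (p (σ j)) x, Or.inl ⟨fun i hi => (hgood i hi).2, ?_⟩⟩
    rw [e1, ← mul_assoc, ← Real.exp_add, ← e2]
    exact h
  · refine ⟨Real.exp (-(Δ / 16)) * Hh (p (σ j)) x, Or.inr ⟨fun i hi => (hgood i hi).1, ?_⟩⟩
    rw [e1, Real.exp_neg, lt_inv_mul_iff₀ (Real.exp_pos _), ← mul_assoc, ← Real.exp_add, ← e2]
    exact h

end Pool.Agent.MP_dc1150_gt

end

-- part MP_dc1150_gt.Local
section

/-! Localisation to subfamilies of small diameter. -/

open scoped RealInnerProductSpace BigOperators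
open Classical

namespace Pool.Agent.MP_dc1150_gt

variable {d : ℕ}

/-- Pairwise closeness of a finite family. -/
def PClose {ι : Type*} (R : Set (Euc d)) (θ : ℝ) (x : ι → Euc d) (I : Finset ι) : Prop :=
  ∀ i ∈ I, ∀ j ∈ I, Close R θ (x i) (x j)

theorem close_hull {R S : Set (Euc d)} {Δ : ℝ} (h : ∀ u ∈ S, ∀ v ∈ S, Close R Δ u v) :
    ∀ u ∈ convexHull ℝ S, ∀ v ∈ convexHull ℝ S, Close R Δ u v := by
  intro u hu v hv p hp
  have h1 : ∀ v' ∈ S, (Real.exp Δ)⁻¹ * Hh p u ≤ Hh p v' := by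
    intro v' hv'
    rw [inv_mul_le_iff₀ (Real.exp_pos _)]
    exact hull_Hh_le (fun s hs => h s hs v' hv' p hp) u hu
  have := hull_le_Hh h1 v hv
  rwa [inv_mul_le_iff₀ (Real.exp_pos _)] at this

theorem exists_big_fiber {ι τ : Type*} [Fintype τ] (I : Finset ι) (f : ι → τ) :
    ∃ I' ⊆ I, I.card ≤ Fintype.card τ * I'.card ∧ ∀ i ∈ I', ∀ j ∈ I', f i = f j := by
  rcases I.eq_empty_or_nonempty with h | ⟨i0, _⟩
  · exact ⟨∅, by simp, by simp [h], by simp⟩
  · obtain ⟨t, -, ht⟩ := Finset.exists_max_image (Finset.univ : Finset τ)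
      (fun t => (I.filter (fun i => f i = t)).card) ⟨f i0, Finset.mem_univ _⟩
    refine ⟨I.filter (fun i => f i = t), Finset.filter_subset _ _, ?_, ?_⟩
    · rw [← Finset.card_univ]
      exact Finset.card_le_mul_card_image_of_maps_to (fun i _ => Finset.mem_univ (f i)) _
        (fun b hb => ht b hb) |>.trans (by rw [mul_comm])
    · intro i hi j hj
      rw [(Finset.mem_filter.1 hi).2, (Finset.mem_filter.1 hj).2]

theorem hull_repr {n : ℕ} {s : ℕ → Euc d} {u : Euc d}
    (hu : u ∈ convexHull ℝ (s '' {i | i < n})) :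
    ∃ lam : Fin n → ℝ, (∀ i, 0 ≤ lam i) ∧ ∑ i, lam i = 1 ∧ ∑ i : Fin n, lam i • s i = u := by
  have hconv : Convex ℝ {u : Euc d | ∃ lam : Fin n → ℝ, (∀ i, 0 ≤ lam i) ∧ ∑ i, lam i = 1 ∧
      ∑ i : Fin n, lam i • s i = u} := by
    rintro _ ⟨l1, h1, h2, rfl⟩ _ ⟨l2, h3, h4, rfl⟩ a b ha hb hab
    refine ⟨fun i => a * l1 i + b * l2 i, fun i => by have := h1 i; have := h3 i; positivity,
      ?_, ?_⟩
    · rw [Finset.sum_add_distrib, ← Finset.mul_sum, ← Finset.mul_sum, h2, h4]; linarith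
    · simp only [add_smul, mul_smul, Finset.sum_add_distrib, Finset.smul_sum]
  refine convexHull_min ?_ hconv hu
  rintro _ ⟨i, hi, rfl⟩
  refine ⟨fun j => if j = ⟨i, hi⟩ then 1 else 0, fun j => by dsimp only; split_ifs <;> norm_num, by simp, ?_⟩
  simp [ite_smul]

/-- One halving step. -/
theorem halving {R A : Set (Euc d)} (hc : Ctx R A) {Δ : ℝ} (hΔ : 0 < Δ) {m : ℕ} (hm1 : 1 ≤ m)
    (hm : ¬ TSep R A (Δ / 32) (m + 1)) {ι : Type*} (x : ι → Euc d) (I : Finset ι)
    (hx : ∀ i ∈ I, x i ∈ A) (hcl : PClose R Δ x I) :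
    ∃ I' ⊆ I, (I.card : ℝ) ≤
      Real.exp (Real.log (2 * m) * (1024 * Real.log (2 * m) + 1) * Real.exp Δ) * I'.card ∧
      PClose R (Δ / 2) x I' := by
  set l := Real.log (2 * m) with hl
  have hm' : (1 : ℝ) ≤ m := by exact_mod_cast hm1
  have hl0 : 0 < l := Real.log_pos (by linarith)
  have hE : 0 < Real.exp Δ := Real.exp_pos _
  have hE1 : 1 ≤ Real.exp Δ := Real.one_le_exp hΔ.le
  set k : ℕ := ⌊1024 * Real.exp Δ * l⌋₊ + 1 with hk
  have hk0 : 0 < k := Nat.succ_pos _
  have hk1 : 1024 * Real.exp Δ * l < k := by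
    rw [hk]; push_cast; exact Nat.lt_floor_add_one _
  have hk2 : (k : ℝ) ≤ 1024 * Real.exp Δ * l + 1 := by
    rw [hk]; push_cast
    have := Nat.floor_le (a := 1024 * Real.exp Δ * l) (by positivity)
    linarith
  have hkm : (m : ℝ) * (2 * Real.exp (-(k / (1024 * Real.exp Δ)))) < 1 := by
    have h1 : l < k / (1024 * Real.exp Δ) := by
      rw [lt_div_iff₀ (by positivity)]; linarith
    have h2 : Real.exp (-(k / (1024 * Real.exp Δ))) < Real.exp (-l) :=
      Real.exp_lt_exp.2 (by linarith)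
    have h3 : Real.exp (-l) = (2 * m : ℝ)⁻¹ := by
      rw [Real.exp_neg, hl, Real.exp_log (by linarith)]
    rw [h3] at h2
    calc (m : ℝ) * (2 * Real.exp (-(k / (1024 * Real.exp Δ))))
        = (2 * m) * Real.exp (-(k / (1024 * Real.exp Δ))) := by ring
      _ < (2 * m) * (2 * m : ℝ)⁻¹ := mul_lt_mul_of_pos_left h2 (by linarith)
      _ = 1 := mul_inv_cancel₀ (by linarith)
  set A' := convexHull ℝ (x '' (I : Set ι)) with hA'
  have hA'A : A' ⊆ A := by
    apply convexHull_min _ hc.convA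
    rintro _ ⟨i, hi, rfl⟩; exact hx i hi
  have hclA' : ∀ u ∈ A', ∀ v ∈ A', Close R Δ u v := by
    apply close_hull
    rintro _ ⟨i, hi, rfl⟩ _ ⟨j, hj, rfl⟩
    exact hcl i hi j hj
  have hm2 : ¬ TSep R A (Δ / 16) (m + 1) := fun h => hm (h.mono hc (by linarith))
  obtain ⟨n, hn, s, hs, hs2⟩ := exists_generators hA'A hm2
  have hall : ∀ i ∈ I, ∃ t : Fin k → Fin n,
      Close R (Δ / 4) (x i) (emp (fun a : Fin n => s a) t) ∧
      Close R (Δ / 4) (emp (fun a : Fin n => s a) t) (x i) := by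
    intro i hi
    obtain ⟨u, hu, hu1, hu2⟩ := hs2 (x i) (subset_convexHull ℝ _ ⟨i, hi, rfl⟩)
    obtain ⟨lam, h1, h2, h3⟩ := hull_repr hu
    obtain ⟨t, ht1, ht2⟩ := exists_sparse hc hΔ hm hk0 hkm (fun a : Fin n => s a)
      (fun a => hA'A (hs a a.2)) lam h1 h2 (fun a b => hclA' _ (hs a a.2) _ (hs b b.2))
    rw [h3] at ht1 ht2
    refine ⟨t, ?_, ?_⟩
    · have := hu1.trans ht2
      rwa [show 2 * (Δ / 16) + Δ / 8 = Δ / 4 by ring] at this
    · have := ht1.trans hu2
      rwa [show Δ / 8 + 2 * (Δ / 16) = Δ / 4 by ring] at this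
  rcases I.eq_empty_or_nonempty with h | ⟨i0, hi0⟩
  · exact ⟨∅, by simp, by simp [h], by intro i hi; simp at hi⟩
  obtain ⟨t0, -⟩ := hall i0 hi0
  have : Nonempty (Fin k → Fin n) := ⟨t0⟩
  choose! f hf using hall
  obtain ⟨I', hI', hcard, hfib⟩ := exists_big_fiber I f
  refine ⟨I', hI', ?_, ?_⟩
  · have h1 : (I.card : ℝ) ≤ (n : ℝ) ^ k * I'.card := by
      have := hcard
      simp only [Fintype.card_fun, Fintype.card_fin] at this
      exact_mod_cast this
    refine h1.trans (mul_le_mul_of_nonneg_right ?_ (by positivity))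
    have h2 : (n : ℝ) ≤ Real.exp l := by
      rw [hl, Real.exp_log (by linarith)]
      have : (n : ℝ) ≤ m := by exact_mod_cast hn
      linarith
    calc (n : ℝ) ^ k ≤ Real.exp l ^ k := pow_le_pow_left₀ (by positivity) h2 k
      _ = Real.exp (k * l) := by rw [Real.exp_nat_mul]
      _ ≤ _ := by
        apply Real.exp_le_exp.2
        have h3 : (k : ℝ) ≤ (1024 * l + 1) * Real.exp Δ := by linarith
        have := mul_le_mul_of_nonneg_right h3 hl0.le
        linarith
  · intro i hi j hj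
    have h1 := (hf i (hI' hi)).1
    have h2 := (hf j (hI' hj)).2
    rw [hfib i hi j hj] at h1
    have := h1.trans h2
    rwa [show Δ / 4 + Δ / 4 = Δ / 2 by ring] at this

/-- Iterated halving. -/
theorem iter_halving {R A : Set (Euc d)} (hc : Ctx R A) {θ : ℝ} (hθ : 0 < θ) {m : ℕ}
    (hm1 : 1 ≤ m) (hm : ¬ TSep R A (θ / 32) (m + 1)) {ι : Type*} (x : ι → Euc d) (J : ℕ) :
    ∀ (Δ : ℝ) (I : Finset ι), 0 ≤ Δ → Δ ≤ θ * 2 ^ J → (∀ i ∈ I, x i ∈ A) → PClose R Δ x I →
    ∃ I' ⊆ I, (I.card : ℝ) ≤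
      Real.exp (Real.log (2 * m) * (1024 * Real.log (2 * m) + 1) *
        (J + 2 * (Real.exp Δ - 1))) * I'.card ∧ PClose R θ x I' := by
  set κ := Real.log (2 * m) * (1024 * Real.log (2 * m) + 1) with hκ
  have hm' : (1 : ℝ) ≤ m := by exact_mod_cast hm1
  have hl0 : 0 < Real.log (2 * m) := Real.log_pos (by linarith)
  have hκ0 : 0 < κ := by positivity
  have triv : ∀ (J : ℕ) (Δ : ℝ) (I : Finset ι), 0 ≤ Δ → Δ ≤ θ → (∀ i ∈ I, x i ∈ A) →
      PClose R Δ x I → ∃ I' ⊆ I, (I.card : ℝ) ≤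
        Real.exp (κ * (J + 2 * (Real.exp Δ - 1))) * I'.card ∧ PClose R θ x I' := by
    intro J Δ I h0 h1 hx hcl
    refine ⟨I, le_rfl, ?_, fun i hi j hj => (hcl i hi j hj).mono hc h1 (hx j hj)⟩
    have h2 : 1 ≤ Real.exp Δ := Real.one_le_exp h0
    have h3 : 1 ≤ Real.exp (κ * (J + 2 * (Real.exp Δ - 1))) := by
      apply Real.one_le_exp
      have : 0 ≤ Real.exp Δ - 1 := by linarith
      positivity
    exact le_mul_of_one_le_left (by positivity) h3
  induction J with
  | zero =>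
    intro Δ I h0 h1 hx hcl
    exact triv 0 Δ I h0 (by simpa using h1) hx hcl
  | succ J ih =>
    intro Δ I h0 h1 hx hcl
    rcases le_or_gt Δ θ with h | h
    · exact triv _ Δ I h0 h hx hcl
    · have hm2 : ¬ TSep R A (Δ / 32) (m + 1) := fun h' => hm (h'.mono hc (by linarith))
      obtain ⟨I1, hI1, hc1, hcl1⟩ := halving hc (by linarith) hm1 hm2 x I hx hcl
      obtain ⟨I2, hI2, hc2, hcl2⟩ := ih (Δ / 2) I1 (by linarith)
        (by rw [pow_succ] at h1; linarith) (fun i hi => hx i (hI1 hi)) hcl1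
      refine ⟨I2, hI2.trans hI1, ?_, hcl2⟩
      refine hc1.trans ((mul_le_mul_of_nonneg_left hc2 (Real.exp_pos _).le).trans ?_)
      rw [← mul_assoc, ← Real.exp_add]
      apply mul_le_mul_of_nonneg_right _ (by positivity)
      apply Real.exp_le_exp.2
      rw [← hκ, ← mul_add]
      apply mul_le_mul_of_nonneg_left _ hκ0.le
      have e : Real.exp Δ = Real.exp (Δ / 2) * Real.exp (Δ / 2) := by
        rw [← Real.exp_add]; congr 1; ring
      have h2 : 1 ≤ Real.exp (Δ / 2) := Real.one_le_exp (by linarith)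
      push_cast
      nlinarith [mul_self_nonneg (Real.exp (Δ / 2) - 1)]

/-- Lower quantile of finitely many values. -/
theorem exists_quantile {ι : Type*} (I : Finset ι) (f : ι → ℝ) (r : ℝ) (hr0 : 0 < r)
    (hr : r ≤ I.card) :
    ∃ i0 ∈ I, r ≤ (I.filter (fun i => f i ≤ f i0)).card ∧
      ((I.filter (fun i => f i < f i0)).card : ℝ) < r := by
  have hne : I.Nonempty := by
    rw [← Finset.card_pos]
    have : (0 : ℝ) < I.card := lt_of_lt_of_le hr0 hr
    exact_mod_cast this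
  obtain ⟨iM, hiM, hM⟩ := Finset.exists_max_image I f hne
  have hT : (I.filter (fun i0 => r ≤ (I.filter (fun i => f i ≤ f i0)).card)).Nonempty := by
    refine ⟨iM, Finset.mem_filter.2 ⟨hiM, ?_⟩⟩
    rw [Finset.filter_true_of_mem hM]; exact hr
  obtain ⟨i0, hi0, hmin⟩ := Finset.exists_min_image _ f hT
  refine ⟨i0, (Finset.mem_filter.1 hi0).1, (Finset.mem_filter.1 hi0).2, ?_⟩
  rcases (I.filter (fun i => f i < f i0)).eq_empty_or_nonempty with h | h
  · rw [h]; simpa using hr0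
  · obtain ⟨i1, hi1, hmax⟩ := Finset.exists_max_image _ f h
    by_contra hcon
    push Not at hcon
    have h1 : r ≤ (I.filter (fun i => f i ≤ f i1)).card := by
      refine hcon.trans ?_
      exact_mod_cast Finset.card_le_card fun i hi =>
        Finset.mem_filter.2 ⟨(Finset.mem_filter.1 hi).1, hmax i hi⟩
    have := hmin i1 (Finset.mem_filter.2 ⟨(Finset.mem_filter.1 hi1).1, h1⟩)
    linarith [(Finset.mem_filter.1 hi1).2]

/-- The splitting lemma. -/
theorem splitting {R A : Set (Euc d)} (hc : Ctx R A) {α g : ℝ} {m : ℕ} (hm1 : 1 ≤ m)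
    (hm : ¬ TSep R A α (m + 1)) {ι : Type*} (x : ι → Euc d) (I : Finset ι)
    (hx : ∀ i ∈ I, x i ∈ A) (n0 : ℝ) (hn0 : 0 ≤ n0)
    (hcore : ∀ I' ⊆ I, PClose R (2 * g + 4 * α) x I' → (I'.card : ℝ) ≤ n0)
    (hI : 2 * n0 < I.card) :
    ∃ p ∈ R, ∃ a : ℝ, 0 < a ∧ (I.card : ℝ) / (4 * m) ≤ (I.filter (fun i => Hh p (x i) ≤ a)).card ∧
      (I.card : ℝ) / (4 * m) ≤ (I.filter (fun i => a * Real.exp (2 * g) ≤ Hh p (x i))).card := by
  by_contra hcon
  push Not at hcon
  have hm' : (1 : ℝ) ≤ m := by exact_mod_cast hm1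
  have hI0 : (0 : ℝ) < I.card := by linarith
  set r := (I.card : ℝ) / (4 * m) with hr
  have hr0 : 0 < r := by positivity
  have hrI : r ≤ I.card := by
    rw [hr, div_le_iff₀ (by positivity)]; nlinarith
  have hq : ∀ p ∈ R, ∃ a : ℝ, 0 < a ∧ ((I.filter (fun i => ¬ (a ≤ Hh p (x i) ∧
      Hh p (x i) ≤ a * Real.exp (2 * g)))).card : ℝ) ≤ 2 * r := by
    intro p hp
    obtain ⟨i0, hi0, h1, h2⟩ := exists_quantile I (fun i => Hh p (x i)) r hr0 hrI
    have ha := hc.pos p hp _ (hx i0 hi0)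
    have h3 := hcon p hp _ ha h1
    refine ⟨Hh p (x i0), ha, ?_⟩
    have h4 : (I.filter (fun i => ¬ (Hh p (x i0) ≤ Hh p (x i) ∧
        Hh p (x i) ≤ Hh p (x i0) * Real.exp (2 * g)))).card ≤
        (I.filter (fun i => Hh p (x i) < Hh p (x i0))).card +
        (I.filter (fun i => Hh p (x i0) * Real.exp (2 * g) ≤ Hh p (x i))).card := by
      refine le_trans (Finset.card_le_card ?_) (Finset.card_union_le _ _)
      intro i hi
      rw [Finset.mem_filter] at hi
      rw [Finset.mem_union, Finset.mem_filter, Finset.mem_filter]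
      by_cases h : Hh p (x i0) ≤ Hh p (x i)
      · right
        refine ⟨hi.1, ?_⟩
        by_contra h'
        exact hi.2 ⟨h, (not_le.1 h').le⟩
      · exact Or.inl ⟨hi.1, not_le.1 h⟩
    have h5 : ((I.filter (fun i => ¬ (Hh p (x i0) ≤ Hh p (x i) ∧
        Hh p (x i) ≤ Hh p (x i0) * Real.exp (2 * g)))).card : ℝ) ≤
        (I.filter (fun i => Hh p (x i) < Hh p (x i0))).card +
        (I.filter (fun i => Hh p (x i0) * Real.exp (2 * g) ≤ Hh p (x i))).card := by
      exact_mod_cast h4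
    linarith
  choose! a ha ha2 using hq
  set core : ι → Prop := fun i => ∀ p ∈ R, a p ≤ Real.exp (2 * α) * Hh p (x i) ∧
    Hh p (x i) ≤ Real.exp (2 * α) * (a p * Real.exp (2 * g)) with hcoredef
  have hC : ((I.filter core).card : ℝ) ≤ n0 := by
    apply hcore _ (Finset.filter_subset _ _)
    intro i hi j hj p hp
    have h1 := ((Finset.mem_filter.1 hi).2 p hp).2
    have h2 := ((Finset.mem_filter.1 hj).2 p hp).1
    calc Hh p (x i) ≤ Real.exp (2 * α) * (a p * Real.exp (2 * g)) := h1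
      _ ≤ Real.exp (2 * α) * ((Real.exp (2 * α) * Hh p (x j)) * Real.exp (2 * g)) := by
          gcongr
      _ = Real.exp (2 * g + 4 * α) * Hh p (x j) := by
          rw [show 2 * g + 4 * α = 2 * α + 2 * α + 2 * g by ring, Real.exp_add, Real.exp_add]
          ring
  have hout : ∀ i ∈ I.filter (fun i => ¬ core i), ∃ p ∈ R,
      Real.exp (2 * α) * Hh p (x i) < a p ∨
      Real.exp (2 * α) * (a p * Real.exp (2 * g)) < Hh p (x i) := by
    intro i hi
    have h := (Finset.mem_filter.1 hi).2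
    simp only [hcoredef] at h
    push Not at h
    obtain ⟨p, hp, h⟩ := h
    refine ⟨p, hp, ?_⟩
    by_cases h' : a p ≤ Real.exp (2 * α) * Hh p (x i)
    · exact Or.inr (h h')
    · exact Or.inl (not_le.1 h')
  choose! P hP hP2 using hout
  have hcard : ((I.filter (fun i => ¬ core i)).card : ℝ) = I.card - (I.filter core).card := by
    have := Finset.card_filter_add_card_filter_not (s := I) core
    have h2 : ((I.filter core).card : ℝ) + (I.filter (fun i => ¬ core i)).card = I.card := by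
      exact_mod_cast this
    linarith
  obtain ⟨σ, hσ, hσ2⟩ := greedy_rev (I.filter (fun i => ¬ core i)) (fun _ => (1 : ℝ))
    (fun _ _ => zero_le_one)
    (fun i i' => ¬ (a (P i) ≤ Hh (P i) (x i') ∧ Hh (P i) (x i') ≤ a (P i) * Real.exp (2 * g)))
    (2 * r) (by positivity)
    (fun i hi => by
      refine le_trans ?_ (ha2 _ (hP i hi))
      simp only [Finset.sum_const, nsmul_eq_mul, mul_one]
      exact_mod_cast Finset.card_le_card
        (Finset.filter_subset_filter _ (Finset.filter_subset _ _)))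
    m (by
      simp only [Finset.sum_const, nsmul_eq_mul, mul_one]
      have : (m : ℝ) * (2 * r) = I.card / 2 := by rw [hr]; field_simp; ring
      rw [this, hcard]; linarith)
  apply hm
  apply tsep_of_rows (fun i => x (σ i))
    (fun i hi => hx _ (Finset.mem_filter.1 (hσ i hi)).1)
  intro j hj
  refine ⟨P (σ j), hP _ (hσ j hj), ?_⟩
  rcases hP2 _ (hσ j hj) with h | h
  · exact ⟨_, Or.inr ⟨fun i hi => (not_not.1 (hσ2 i j hi hj)).1, h⟩⟩
  · exact ⟨_, Or.inl ⟨fun i hi => (not_not.1 (hσ2 i j hi hj)).2, h⟩⟩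

/-- The splitting tree. -/
theorem tree {R A : Set (Euc d)} (hc : Ctx R A) {α g : ℝ} {m : ℕ} (hm1 : 1 ≤ m)
    (hm : ¬ TSep R A α (m + 1)) {ι : Type*} (x : ι → Euc d) (n0 : ℝ) (hn0 : 0 ≤ n0) (l : ℕ) :
    ∀ I : Finset ι, (∀ i ∈ I, x i ∈ A) →
      (∀ I' ⊆ I, PClose R (2 * g + 4 * α) x I' → (I'.card : ℝ) ≤ n0) →
      2 * n0 * (4 * m) ^ l < I.card →
      ∃ (σ : ℕ → ι) (c : ℕ → ℝ) (p : ℕ → Euc d), ∀ j < 2 ^ l, σ j ∈ I ∧ 0 ≤ c j ∧ p j ∈ R ∧
        c j * Hh (p j) (x (σ j)) ≤ l * Real.exp (-g) ∧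
        ∀ i < j, Real.exp g ≤ c j * Hh (p j) (x (σ i)) := by
  have hm' : (1 : ℝ) ≤ m := by exact_mod_cast hm1
  induction l with
  | zero =>
    intro I _ _ hI
    have : (0 : ℝ) < I.card := lt_of_le_of_lt (by positivity) hI
    have hne : I.Nonempty := by
      rw [← Finset.card_pos]; exact_mod_cast this
    obtain ⟨i0, hi0⟩ := hne
    refine ⟨fun _ => i0, fun _ => 0, fun _ => 0, fun j hj => ⟨hi0, le_rfl, hc.zeroR, by simp, ?_⟩⟩
    intro i hi
    simp at hj; omega
  | succ l ih =>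
    intro I hx hcore hI
    have h4 : (1 : ℝ) ≤ (4 * m) ^ (l + 1) := one_le_pow₀ (by linarith)
    have hI2 : 2 * n0 < I.card := lt_of_le_of_lt (le_mul_of_one_le_right (by positivity) h4) hI
    obtain ⟨q, hq, a, ha, hlo, hhi⟩ := splitting hc hm1 hm x I hx n0 hn0 hcore hI2
    have hdiv : 2 * n0 * (4 * m) ^ l < (I.card : ℝ) / (4 * m) := by
      rw [lt_div_iff₀ (by positivity)]
      rw [pow_succ] at hI; linarith
    obtain ⟨σ1, c1, p1, h1⟩ := ih (I.filter (fun i => a * Real.exp (2 * g) ≤ Hh q (x i)))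
      (fun i hi => hx i (Finset.mem_filter.1 hi).1)
      (fun I' hI' => hcore I' (hI'.trans (Finset.filter_subset _ _))) (hdiv.trans_le hhi)
    obtain ⟨σ2, c2, p2, h2⟩ := ih (I.filter (fun i => Hh q (x i) ≤ a))
      (fun i hi => hx i (Finset.mem_filter.1 hi).1)
      (fun I' hI' => hcore I' (hI'.trans (Finset.filter_subset _ _))) (hdiv.trans_le hlo)
    set e := (a * Real.exp g)⁻¹ with he
    have he0 : 0 < e := by positivity
    have hEg : 0 < Real.exp (-g) := Real.exp_pos _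
    refine ⟨fun j => if j < 2 ^ l then σ1 j else σ2 (j - 2 ^ l),
      fun j => if j < 2 ^ l then c1 j else c2 (j - 2 ^ l) + e,
      fun j => if j < 2 ^ l then p1 j else
        (c2 (j - 2 ^ l) / (c2 (j - 2 ^ l) + e)) • p2 (j - 2 ^ l)
          + (e / (c2 (j - 2 ^ l) + e)) • q, ?_⟩
    intro j hj
    by_cases hjl : j < 2 ^ l
    · obtain ⟨k1, k2, k3, k4, k5⟩ := h1 j hjl
      simp only [hjl, if_true]
      refine ⟨(Finset.mem_filter.1 k1).1, k2, k3, ?_, ?_⟩
      · push_cast; linarith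
      · intro i hi
        have : i < 2 ^ l := lt_trans hi hjl
        simp only [this, if_true]
        exact k5 i hi
    · have hj' : j - 2 ^ l < 2 ^ l := by rw [pow_succ] at hj; omega
      obtain ⟨k1, k2, k3, k4, k5⟩ := h2 _ hj'
      simp only [hjl, if_false]
      set c := c2 (j - 2 ^ l) with hcdef
      have hce : 0 < c + e := by linarith
      have hsum : c / (c + e) + e / (c + e) = 1 := by field_simp
      have hval : ∀ u, (c + e) * Hh ((c / (c + e)) • p2 (j - 2 ^ l) + (e / (c + e)) • q) u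
          = c * Hh (p2 (j - 2 ^ l)) u + e * Hh q u := by
        intro u
        rw [Hh_combo_left _ _ _ _ _ hsum]
        field_simp
      refine ⟨(Finset.mem_filter.1 k1).1, hce.le,
        hc.convR k3 hq (by positivity) (by positivity) hsum, ?_, ?_⟩
      · rw [hval]
        have h3 := mul_le_mul_of_nonneg_left (Finset.mem_filter.1 k1).2 he0.le
        have h5 : e * a = Real.exp (-g) := by
          rw [he, Real.exp_neg]; field_simp
        push_cast; linarith
      · intro i hi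
        rw [hval]
        by_cases hil : i < 2 ^ l
        · simp only [hil, if_true]
          have k6 := (h1 i hil).1
          have h3 := mul_le_mul_of_nonneg_left (Finset.mem_filter.1 k6).2 he0.le
          have h5 : e * (a * Real.exp (2 * g)) = Real.exp g := by
            rw [he, two_mul, Real.exp_add]; field_simp
          have h6 := mul_nonneg k2 (hc.pos _ k3 _ (hx _ (Finset.mem_filter.1 k6).1)).le
          linarith
        · simp only [hil, if_false]
          have hi' : i - 2 ^ l < j - 2 ^ l := by omega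
          have k6 := (h2 _ (lt_trans hi' hj')).1
          have h6 := mul_nonneg he0.le (hc.pos _ hq _ (hx _ (Finset.mem_filter.1 k6).1)).le
          linarith [k5 _ hi']

/-- Large scale localisation. -/
theorem large_scale {R A : Set (Euc d)} (hc : Ctx R A) {α : ℝ} (hα : 0 < α) {m L : ℕ}
    (hm1 : 1 ≤ m) (hL : m < 2 ^ L) (hm : ¬ TSep R A α (m + 1)) {ι : Type*} (x : ι → Euc d)
    (I : Finset ι) (hx : ∀ i ∈ I, x i ∈ A) (n0 : ℝ) (hn0 : 0 ≤ n0)
    (hcore : ∀ I' ⊆ I, PClose R (Real.log L + 7 * α) x I' → (I'.card : ℝ) ≤ n0) :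
    (I.card : ℝ) ≤ 2 * n0 * (4 * m) ^ L := by
  by_contra hcon
  push Not at hcon
  have hL0 : 0 < L := by
    rcases Nat.eq_zero_or_pos L with h | h
    · subst h; simp at hL; omega
    · exact h
  have hL' : (0 : ℝ) < L := by exact_mod_cast hL0
  set g := (Real.log L + 3 * α) / 2 with hg
  obtain ⟨σ, c, p, h⟩ := tree hc (g := g) hm1 hm x n0 hn0 L I hx
    (by rwa [show 2 * g + 4 * α = Real.log L + 7 * α by rw [hg]; ring]) hcon
  apply hm
  apply tsep_of_rows (fun i => x (σ i)) (fun i hi => hx _ (h i (by omega)).1)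
  intro j hj
  obtain ⟨k1, k2, k3, k4, k5⟩ := h j (by omega)
  have hpos := hc.pos _ k3 _ (hx _ k1)
  refine ⟨p j, k3, Real.exp (3 * α) * Hh (p j) (x (σ j)), Or.inr ⟨?_, ?_⟩⟩
  · intro i hi
    have h5 := k5 i hi
    have hcpos : 0 < c j := by
      rcases k2.lt_or_eq with h' | h'
      · exact h'
      · rw [← h'] at h5; linarith [Real.exp_pos g]
    have e1 : Real.exp (3 * α) * (L * Real.exp (-g)) = Real.exp g := by
      rw [← Real.exp_log hL', ← Real.exp_add, ← Real.exp_add]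
      congr 1; rw [hg]; ring
    have h6 := mul_le_mul_of_nonneg_left k4 (Real.exp_pos (3 * α)).le
    apply le_of_mul_le_mul_left _ hcpos
    linarith
  · apply mul_lt_mul_of_pos_right _ hpos
    exact Real.exp_lt_exp.2 (by linarith)

theorem final_ineq {u v κ : ℝ} (hu1 : 1 ≤ u) (hv : 1 ≤ v) (hκ : κ = 256 * u ^ 2 + u / 2) :
    1 + κ * (3 * (u * v)) + u * u ≤ 800 * (u ^ 3 * v) := by
  have hκu : κ ≤ 257 * u ^ 2 := by nlinarith
  have h1 : κ * (3 * (u * v)) ≤ 257 * u ^ 2 * (3 * (u * v)) :=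
    mul_le_mul_of_nonneg_right hκu (by positivity)
  have h2 : u * u ≤ u ^ 3 := by nlinarith
  have h3 : u ^ 3 ≤ u ^ 3 * v := le_mul_of_one_le_right (by positivity) hv
  have h4 : 1 ≤ u * u := by nlinarith
  have h5 : 257 * u ^ 2 * (3 * (u * v)) = 771 * (u ^ 3 * v) := by ring
  linarith

/-- The localisation theorem. -/
theorem localise {ε : ℝ} (hε : 0 < ε) {R A : Set (Euc d)} (hc : Ctx R A) {θ : ℝ} (hθ : 0 < θ)
    {m : ℕ} (hm1 : 1 ≤ m) (hm : ¬ TSep R A (min (1 / 32) (ε / 14) * θ) (m + 1))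
    {ι : Type*} (x : ι → Euc d) (I : Finset ι) (hx : ∀ i ∈ I, x i ∈ A) :
    ∃ I' ⊆ I, (I.card : ℝ) ≤ Real.exp (800 * (2 * Real.log (2 * m)) ^ (3 + ε)) * I'.card ∧
      PClose R θ x I' := by
  set c := min (1 / 32 : ℝ) (ε / 14) with hcdef
  have hc0 : 0 < c := lt_min (by norm_num) (by positivity)
  have hc1 : c ≤ 1 / 32 := min_le_left _ _
  have hc2 : c ≤ ε / 14 := min_le_right _ _
  set α := c * θ with hαdef
  have hα : 0 < α := by positivity
  have hα2 : α ≤ θ / 32 := by
    have := mul_le_mul_of_nonneg_right hc1 hθ.le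
    linarith
  have hm2 : ¬ TSep R A (θ / 32) (m + 1) := fun h => hm (h.mono hc hα2)
  have hm' : (1 : ℝ) ≤ m := by exact_mod_cast hm1
  set l := Real.log (2 * m) with hl
  have hlog2 : (1 : ℝ) / 2 < Real.log 2 := by linarith [Real.log_two_gt_d9]
  have hl2 : Real.log 2 ≤ l := Real.log_le_log (by norm_num) (by linarith)
  set u := 2 * l with hu
  have hu1 : 1 ≤ u := by linarith
  set L := Nat.log 2 m + 1 with hLdef
  have hL : m < 2 ^ L := Nat.lt_pow_succ_log_self (by norm_num) m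
  have hL1 : (1 : ℝ) ≤ L := by rw [hLdef]; push_cast; linarith [Nat.cast_nonneg (α := ℝ) (Nat.log 2 m)]
  have hLu : (L : ℝ) ≤ u := by
    have h1 : 2 ^ L ≤ 2 * m := by
      rw [hLdef, pow_succ, mul_comm]
      exact Nat.mul_le_mul_left 2 (Nat.pow_log_le_self 2 (by omega))
    have h2 : (2 : ℝ) ^ L ≤ 2 * m := by exact_mod_cast h1
    have h3 := Real.log_le_log (by positivity) h2
    rw [Real.log_pow, ← hl] at h3
    have h5 := mul_le_mul_of_nonneg_left hlog2.le (Nat.cast_nonneg (α := ℝ) L)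
    linarith
  obtain ⟨I', hI', hmax⟩ := Finset.exists_max_image
    (I.powerset.filter (fun J => PClose R θ x J)) Finset.card
    ⟨∅, Finset.mem_filter.2 ⟨by simp, by intro i hi; simp at hi⟩⟩
  have hI'1 : I' ⊆ I := Finset.mem_powerset.1 (Finset.mem_filter.1 hI').1
  refine ⟨I', hI'1, ?_, (Finset.mem_filter.1 hI').2⟩
  have hmax' : ∀ J ⊆ I, PClose R θ x J → (J.card : ℝ) ≤ I'.card := fun J hJ hJ2 => by
    exact_mod_cast hmax J (Finset.mem_filter.2 ⟨Finset.mem_powerset.2 hJ, hJ2⟩)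
  set κ := l * (1024 * l + 1) with hκ
  have hκ0 : 0 ≤ κ := by rw [hκ]; apply mul_nonneg <;> linarith
  have hue : 1 ≤ u ^ ε := Real.one_le_rpow hu1 hε.le
  have hE : 1 ≤ Real.exp (κ * (3 * (u * u ^ ε))) := Real.one_le_exp (by positivity)
  have hcore : ∀ J ⊆ I, PClose R (Real.log L + 7 * α) x J →
      (J.card : ℝ) ≤ Real.exp (κ * (3 * (u * u ^ ε))) * I'.card := by
    intro J hJ hJ2
    rcases le_or_gt (Real.log L + 7 * α) θ with h | h
    · have := hmax' J hJ (fun i hi j hj => (hJ2 i hi j hj).mono hc h (hx j (hJ hj)))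
      exact this.trans (le_mul_of_one_le_left (by positivity) hE)
    · have hlogL : 0 ≤ Real.log L := Real.log_nonneg hL1
      have h7 : 7 * α ≤ ε * Real.log L := by
        have h1 : θ ≤ 2 * Real.log L := by linarith
        have h2 : α ≤ ε / 14 * θ := mul_le_mul_of_nonneg_right hc2 hθ.le
        have h3 := mul_le_mul_of_nonneg_left h1 hε.le
        linarith
      have hexp : Real.exp (Real.log L + 7 * α) ≤ u * u ^ ε := by
        rw [Real.exp_add, Real.exp_log (by linarith)]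
        apply mul_le_mul hLu _ (Real.exp_pos _).le (by linarith)
        calc Real.exp (7 * α) ≤ Real.exp (Real.log L * ε) := Real.exp_le_exp.2 (by linarith)
          _ = (L : ℝ) ^ ε := by rw [Real.rpow_def_of_pos (by linarith)]
          _ ≤ u ^ ε := Real.rpow_le_rpow (by linarith) hLu hε.le
      set Δ := min (Real.log L + 7 * α) (3 * α * m) with hΔ
      have hΔ0 : 0 ≤ Δ := le_min (by linarith) (by positivity)
      have hΔ1 : Δ ≤ θ * 2 ^ L := by
        refine (min_le_right _ _).trans ?_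
        have h1 : (m : ℝ) ≤ 2 ^ L := by exact_mod_cast hL.le
        apply mul_le_mul (by linarith) h1 (by linarith) hθ.le
      have hΔ2 : PClose R Δ x J := by
        intro i hi j hj
        rcases min_choice (Real.log L + 7 * α) (3 * α * m) with h' | h'
        · rw [hΔ, h']; exact hJ2 i hi j hj
        · rw [hΔ, h']; exact close_diam hc hα hm (hx i (hJ hi)) (hx j (hJ hj))
      obtain ⟨J', hJ', hc1, hc2⟩ := iter_halving hc hθ hm1 hm2 x L Δ J hΔ0 hΔ1
        (fun i hi => hx i (hJ hi)) hΔ2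
      refine hc1.trans (mul_le_mul ?_ (hmax' J' (hJ'.trans hJ) hc2) (by positivity)
        (Real.exp_pos _).le)
      apply Real.exp_le_exp.2
      rw [← hl, ← hκ]
      apply mul_le_mul_of_nonneg_left _ hκ0
      have h1 : Real.exp Δ ≤ u * u ^ ε :=
        (Real.exp_le_exp.2 (min_le_left _ _)).trans hexp
      have h2 : u ≤ u * u ^ ε := le_mul_of_one_le_right (by linarith) hue
      linarith
  have hmain := large_scale hc hα hm1 hL hm x I hx _ (by positivity) hcore
  refine hmain.trans ?_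
  have hpow : u ^ (3 + ε) = u ^ 3 * u ^ ε := by
    rw [Real.rpow_add (by linarith)]; norm_cast
  have h4m : (4 * m : ℝ) ^ L ≤ Real.exp (u * u) := by
    have h1 : (4 * m : ℝ) ≤ Real.exp u := by
      rw [hu, two_mul, Real.exp_add, hl, Real.exp_log (by linarith)]
      have := mul_le_mul_of_nonneg_left hm' (by positivity : (0 : ℝ) ≤ 4 * m)
      linarith
    calc (4 * m : ℝ) ^ L ≤ Real.exp u ^ L := pow_le_pow_left₀ (by positivity) h1 L
      _ = Real.exp (L * u) := by rw [Real.exp_nat_mul]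
      _ ≤ _ := Real.exp_le_exp.2 (mul_le_mul_of_nonneg_right hLu (by linarith))
  have h2e : (2 : ℝ) ≤ Real.exp 1 := by linarith [Real.add_one_le_exp 1]
  have hfin : 1 + κ * (3 * (u * u ^ ε)) + u * u ≤ 800 * u ^ (3 + ε) := by
    rw [hpow]
    exact final_ineq hu1 hue (by rw [hκ, hu]; ring)
  calc 2 * (Real.exp (κ * (3 * (u * u ^ ε))) * I'.card) * (4 * m) ^ L
      ≤ Real.exp 1 * (Real.exp (κ * (3 * (u * u ^ ε))) * I'.card) * Real.exp (u * u) := by
        gcongr
    _ = Real.exp (1 + κ * (3 * (u * u ^ ε)) + u * u) * I'.card := by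
        rw [Real.exp_add, Real.exp_add]; ring
    _ ≤ _ := mul_le_mul_of_nonneg_right (Real.exp_le_exp.2 hfin) (by positivity)

end Pool.Agent.MP_dc1150_gt

end
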