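import Mathlib

attribute [-instance] AddQuantale.instAddLeftMono RKHS.instFunLike
  IdemSemiring.toCanonicallyOrderedAdd AddQuantale.instAddRightMono List.instDecidableMemOfLawfulBEq
  Nontrivial.to_nonempty Quantale.instMulRightMono Zero.instNonempty bot_nonempty
  NumberField.to_charZero Vector.instDecidableForallForallMemOfDecidablePred instCoeTCOfCoe
  instCoeHTCTOfCoeTailOfCoeHTC Group.IsPerfect.subsingleton_of_isMulCommutative
  Order.Coframe.toCompleteLattice NeZero.of_gt' Multiset.decidableDforallMultiset One.instNonempty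
  TestFunctionClass.toDFunLike instCoeHTCOfCoeHeadOfCoeOTC Int.decidableLTLE AddCommGroup.toAddGroup
  instCoeTOfCoeDep Order.Frame.toCompleteLattice

-- part MP_dc1150_gt.Neg.Base
section

/-! Shared definitions for the disproof of the diagonal product bound. -/

namespace Pool.Agent.MP_dc1150_gt.Neg

open Finset

/-- Labels: a flag (`true` for counting labels), a point and a set of points. -/
abbrev Lab : Type := Bool × ℕ × Finset ℕ

instance instDecEqLab : DecidableEq Lab := inferInstance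

/-- `x` beats `y`. -/
def Bt (x y : Lab) : Prop := y.2.1 ∈ x.2.2

instance (x y : Lab) : Decidable (Bt x y) := inferInstanceAs (Decidable (y.2.1 ∈ x.2.2))

/-- Items: lists of typed labels. -/
abbrev Item : Type := List (ℕ × Lab)

instance instDecEqItem : DecidableEq Item := inferInstance

/-- The label system. -/
structure Sys where
  K : ℕ
  J : ℕ
  d : ℕ → ℕ
  qq : ℕ → ℕ
  l : ℕ → ℕ

namespace Sys

variable (σ : Sys)

/-- Counting labels. -/
def Cnt (c : ℕ) : Finset Lab := (range (σ.d c + 1)).image fun i => (true, i, ∅)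

/-- Stamp labels. -/
def St (c : ℕ) : Finset Lab :=
  (range (σ.qq c) ×ˢ ((range (σ.qq c)).powerset.filter fun Z => Z.card ≤ σ.l c)).image
    fun a => (false, a.1, a.2)

/-- All labels of a type. -/
def Lam (c : ℕ) : Finset Lab := σ.Cnt c ∪ σ.St c

/-- Items using only types below `c`. -/
def DD : ℕ → Finset Item
  | 0 => {[]}
  | c + 1 => DD c ∪ (DD c ×ˢ σ.Lam c).image fun a => (c, a.2) :: a.1

theorem Cnt_sub (c : ℕ) : σ.Cnt c ⊆ σ.Lam c := subset_union_left

theorem St_sub (c : ℕ) : σ.St c ⊆ σ.Lam c := subset_union_right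

theorem card_Cnt (c : ℕ) : (σ.Cnt c).card = σ.d c + 1 := by
  rw [Cnt, card_image_of_injective _ (fun a b h => by simpa using h), card_range]

theorem mem_St {c : ℕ} {x : Lab} :
    x ∈ σ.St c ↔ x.1 = false ∧ x.2.1 < σ.qq c ∧ x.2.2 ⊆ range (σ.qq c) ∧ x.2.2.card ≤ σ.l c := by
  obtain ⟨b, P, Z⟩ := x
  simp only [St, mem_image, mem_product, mem_range, mem_filter, mem_powerset, Prod.mk.injEq,
    Prod.exists]
  constructor
  · rintro ⟨a, W, ⟨h1, h2, h3⟩, rfl, rfl, rfl⟩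
    exact ⟨rfl, h1, h2, h3⟩
  · rintro ⟨rfl, h1, h2, h3⟩
    exact ⟨P, Z, ⟨h1, h2, h3⟩, rfl, rfl, rfl⟩

theorem card_Lam (c : ℕ) : (σ.Lam c).card ≤ σ.d c + 1 + σ.qq c * 2 ^ σ.qq c := by
  refine (card_union_le _ _).trans ?_
  rw [card_Cnt]
  refine Nat.add_le_add_left (card_image_le.trans ?_) _
  rw [card_product, card_range]
  refine Nat.mul_le_mul_left _ ((card_filter_le _ _).trans ?_)
  rw [card_powerset, card_range]

theorem DD_succ (c : ℕ) : σ.DD c ⊆ σ.DD (c + 1) := subset_union_left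

theorem DD_mono {a b : ℕ} (h : a ≤ b) : σ.DD a ⊆ σ.DD b := by
  induction h with
  | refl => exact Subset.refl _
  | step _ ih => exact ih.trans (σ.DD_succ _)

theorem nil_mem (c : ℕ) : ([] : Item) ∈ σ.DD c := σ.DD_mono (Nat.zero_le c) (by simp [DD])

theorem cons_mem {c : ℕ} {S : Item} {x : Lab} (hS : S ∈ σ.DD c) (hx : x ∈ σ.Lam c) :
    (c, x) :: S ∈ σ.DD (c + 1) :=
  mem_union_right _ (mem_image.2 ⟨(S, x), mem_product.2 ⟨hS, hx⟩, rfl⟩)

theorem head_lt {c : ℕ} {a : ℕ × Lab} {S : Item} (h : a :: S ∈ σ.DD c) : a.1 < c := by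
  induction c with
  | zero => simp [DD] at h
  | succ c ih =>
    rcases mem_union.1 h with h | h
    · exact (ih h).trans (Nat.lt_succ_self c)
    · obtain ⟨b, -, hb⟩ := mem_image.1 h
      have := (List.cons.inj hb).1
      rw [← this]; exact Nat.lt_succ_self c

theorem card_DD_succ (c : ℕ) :
    (σ.DD (c + 1)).card ≤ (σ.DD c).card * (σ.d c + 2 + σ.qq c * 2 ^ σ.qq c) := by
  refine (card_union_le _ _).trans ?_
  have h1 : ((σ.DD c ×ˢ σ.Lam c).image fun a => ((c, a.2) :: a.1 : Item)).card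
      ≤ (σ.DD c).card * (σ.d c + 1 + σ.qq c * 2 ^ σ.qq c) :=
    card_image_le.trans (by rw [card_product]; exact Nat.mul_le_mul_left _ (σ.card_Lam c))
  linarith only [h1]

end Sys

/-! ### The game -/

section Game

variable (σ : Sys) (p : ℕ → ℕ)

/-- A level function on the items of types below `c`. -/
def Valid (z : Finset Item) (k c : ℕ) (lev : Item → ℕ) : Prop :=
  (∀ S ∈ σ.DD c, (S ∈ z → lev S = σ.J) ∧ (S ∉ z → lev S < k)) ∧ ∀ S, S ∉ σ.DD c → lev S = 0

/-- A monotone extension of a level function to the next type. -/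
def Child (z : Finset Item) (k c : ℕ) (lev lev' : Item → ℕ) : Prop :=
  Valid σ z k (c + 1) lev' ∧ (∀ S ∈ σ.DD c, lev' S = lev S) ∧
    ∀ S ∈ σ.DD c, ∀ x ∈ σ.Lam c, lev' S ≤ lev' ((c, x) :: S)

/-- Labels raising the level of `S`. -/
def LL (c : ℕ) (lev' : Item → ℕ) (S : Item) : Finset Lab :=
  (σ.Lam c).filter fun x => lev' S < lev' ((c, x) :: S)

/-- Stamps raising the level of some item of layer `j`. -/
def MM (c : ℕ) (lev' : Item → ℕ) (j : ℕ) : Finset Lab :=
  (σ.St c).filter fun x => ∃ S ∈ σ.DD c, lev' S = j ∧ j < lev' ((c, x) :: S)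

/-- The local conditions. -/
def Loc (c : ℕ) (lev' : Item → ℕ) (dd : Finset ℕ) : Prop :=
  ∀ j < σ.J, j ∉ dd →
    (∀ S ∈ σ.DD c, lev' S = j →
      p c ∣ (LL σ c lev' S ∩ σ.Cnt c).card + 1 ∧ (LL σ c lev' S).card ≤ σ.d c) ∧
    ∃ F ⊆ σ.St c, (∀ f ∈ F, ∀ S ∈ σ.DD c, lev' S = j → j < lev' ((c, f) :: S)) ∧
      (∀ i < j, i ∉ dd → ∀ f ∈ F, ∀ x ∈ MM σ c lev' j, x ∈ MM σ c lev' i → Bt f x) ∧
      ∀ x ∈ MM σ c lev' j, ∃ f ∈ F, ¬ Bt x f

/-- Winning states. -/
inductive Win (z : Finset Item) (k : ℕ) : ℕ → (Item → ℕ) → Finset ℕ → ℕ → Prop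
  | done (lev : Item → ℕ) (dd : Finset ℕ) (e : ℕ) : Win z k σ.K lev dd e
  | skip (c : ℕ) (lev : Item → ℕ) (dd : Finset ℕ) (e : ℕ) (lev' : Item → ℕ) (dd' : Finset ℕ)
      (hc : c < σ.K) (hch : Child σ z k c lev lev') (hdd : dd ⊆ dd') (hk : dd' ⊆ range k)
      (hw : Win z k (c + 1) lev' dd' e) : Win z k c lev dd (e + 1)
  | one (c : ℕ) (lev : Item → ℕ) (dd : Finset ℕ) (e : ℕ) (lev' : Item → ℕ)
      (hc : c < σ.K) (hdem : c % σ.J ∉ dd) (hch : Child σ z k c lev lev')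
      (hloc : Loc σ p c lev' dd) (hw : Win z k (c + 1) lev' dd e) : Win z k c lev dd e
  | rich (c : ℕ) (lev : Item → ℕ) (dd : Finset ℕ) (e : ℕ) (X : Finset Lab)
      (ch : Lab → Item → ℕ) (hc : c < σ.K) (hdem : c % σ.J ∈ dd) (hX : X ⊆ σ.Lam c)
      (hcard : σ.d c < X.card) (hch : ∀ x ∈ X, Child σ z k c lev (ch x))
      (hloc : ∀ x ∈ X, Loc σ p c (ch x) dd) (hw : ∀ x ∈ X, Win z k (c + 1) (ch x) dd e)
      (hup : ∀ x ∈ X, ∀ S ∈ σ.DD c, lev S = c % σ.J → c % σ.J < ch x ((c, x) :: S)) :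
      Win z k c lev dd e

/-- Skip budgets. -/
def beta (J : ℕ) : ℕ → ℕ
  | 0 => 0
  | k + 1 => (J + 1) * (beta J k + J + 1)

/-- Patterns winning with `k` layers. -/
def HH (k : ℕ) (z : Finset Item) : Prop :=
  ∃ (lev : Item → ℕ) (dd : Finset ℕ), dd ⊆ range k ∧ Valid σ z k 0 lev ∧
    Win σ p z k 0 lev dd (beta σ.J k)

open Classical in
/-- The smoothed indicator. -/
noncomputable def phi (z : Finset Item) : ℝ :=
  (((range σ.J).filter fun k => HH σ p k z).card : ℝ) / σ.J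

/-- Closed patterns. -/
def Cl (z : Finset Item) : Prop :=
  ∀ c < σ.K, ∀ S ∈ σ.DD c, S ∈ z → ∀ x ∈ σ.Lam c, (c, x) :: S ∈ z

/-- Labels leading from `U` into `z`. -/
def Lt (z : Finset Item) (c : ℕ) (U : Item) : Finset Lab :=
  (σ.Lam c).filter fun x => (c, x) :: U ∈ z

/-- Sparse patterns. -/
def Sparse (z : Finset Item) : Prop :=
  ∀ c < σ.K, ∀ S ∈ σ.DD c, S ∉ z → (Lt σ z c S).card ≤ σ.d c

/-- Stamps leading from `y \ z'` into `z'`. -/
def Mt (y z' : Finset Item) (c : ℕ) : Finset Lab :=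
  (σ.St c).filter fun x => ∃ U ∈ σ.DD c, U ∈ y ∧ U ∉ z' ∧ (c, x) :: U ∈ z'

/-- A true move from `y` to `z'`. -/
structure TM (y z' : Finset Item) (F : ℕ → Finset Lab) : Prop where
  sub : z' ⊆ y
  cly : Cl σ y
  clz : Cl σ z'
  Fst : ∀ c < σ.K, F c ⊆ σ.St c
  Fne : ∀ c < σ.K, (F c).Nonempty
  cnt : ∀ c < σ.K, ∀ U ∈ σ.DD c, U ∈ y → U ∉ z' →
    p c ∣ (Lt σ z' c U ∩ σ.Cnt c).card + 1 ∧ (Lt σ z' c U).card ≤ σ.d c ∧
      ∀ f ∈ F c, (c, f) :: U ∈ z'
  nb : ∀ c < σ.K, ∀ x ∈ Mt σ y z' c, ∃ f ∈ F c, ¬ Bt x f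

/-- The fresh stamps of the move avoid `W`. -/
def Avoid (y z' : Finset Item) (F W : ℕ → Finset Lab) : Prop :=
  ∀ c < σ.K, ∀ x ∈ Mt σ y z' c, x ∈ W c → ∀ f ∈ F c, Bt f x

/-- Bound for the number of states. -/
def nst (J Δ : ℕ) : ℕ := (J + 1) ^ Δ * 2 ^ J * (beta J J + 1)

/-- Bound for the avoided sets. -/
def bav (J Δ d : ℕ) : ℕ := J * (nst J Δ * ((d + 1) * (Δ * d)) + nst J Δ * d)

end Game

/-! ### Parameters -/

/-- All numerical parameters. -/
structure Par extends Sys where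
  p : ℕ → ℕ
  q : ℕ → ℕ
  P : ℕ → ℕ
  Δ : ℕ → ℕ
  r : ℕ → ℕ
  w : ℕ → ℕ
  n : ℕ → ℕ
  n' : ℕ → ℕ
  ρ : ℕ → ℝ

/-- Bound for the number of small relations. -/
def Par.rr (π : Par) (c : ℕ) : ℕ := (π.w c * (π.d c + 1) + 1) ^ (π.w c * π.P c)

/-- The inequalities used in the stage construction. -/
structure Par.Num (π : Par) : Prop where
  hn : ∀ c < π.K, π.rr c * (π.w c * π.d c) + 1 < 2 ^ π.n c
  hq : ∀ c < π.K, π.rr c * 2 ^ π.n c * π.n c * (π.w c * π.d c * π.l c) < π.qq c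
  hl : ∀ c < π.K, π.n' c * (π.w c * π.d c) ≤ π.l c
  hn' : ∀ c < π.K, 0 < π.n' c
  hρ : ∀ c, 0 ≤ π.ρ c
  hρs : ∀ c < π.K, ((π.w c * π.P c + π.n c * π.w c : ℕ) : ℝ) / (π.d c + 1) +
    ((2 ^ π.n c + 1) * π.w (c + 1) + 1 : ℝ) * π.ρ (c + 1) ≤ π.ρ c
  hρ0 : (π.w 0 + 1 : ℝ) * π.ρ 0 ≤ 1 / 4

/-- An admissible modulus. -/
def Par.Modu (π : Par) (p : ℕ → ℕ) : Prop :=
  ∀ c < π.K, (p c).Prime ∧ p c ≤ π.P c ∧ p c ∣ π.d c + 2

/-- All inequalities between the parameters. -/
structure Par.Good (π : Par) (ε : ℝ) : Prop where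
  num : π.Num
  hJ : 0 < π.J
  hJε : (1 : ℝ) / π.J ≤ ε
  hK : (π.J + 1) * (2 * π.J + 2 * beta π.J π.J) + π.J < π.K
  hp : π.Modu π.p
  hq : π.Modu π.q
  hpq : ∀ c < π.K, π.p c ≠ π.q c ∧ π.d c + 2 = π.p c * π.q c
  hΔ : ∀ c, (π.toSys.DD c).card ≤ π.Δ c
  hr : ∀ c, 0 < π.r c
  hrm : Monotone π.r
  hw : ∀ c, π.Δ c * ((c + 1) * (π.Δ c * π.r c)) ≤ π.w c
  hb : ∑ c ∈ range π.K, (bav π.J (π.Δ c) (π.d c) : ℝ) / π.n' c ≤ ε
  hθ : ∑ c ∈ range (π.K + 1), (π.Δ c : ℝ) / π.r c ≤ ε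

/-! ### Closure systems -/

/-- An abstract closure system on slots. -/
structure CS (π : Par) (Γ : Type) [Fintype Γ] [DecidableEq Γ] where
  BB : ℕ → Finset Γ
  ex : Γ → ℕ → Lab → Γ
  κ : Γ → ℝ
  Closed : Finset Γ → Prop
  Proper : Finset Γ → Prop
  BB_mono : ∀ c < π.K, BB c ⊆ BB (c + 1)
  BB_card : ∀ c ≤ π.K, (BB c).card ≤ π.w c
  ex_mem : ∀ c < π.K, ∀ g ∈ BB c, ∀ x ∈ π.toSys.Lam c, ex g c x ∈ BB (c + 1)
  κ_nonneg : ∀ g, 0 ≤ κ g
  κ_ex : ∀ c < π.K, ∀ g ∈ BB c, ∀ x ∈ π.toSys.Lam c, κ (ex g c x) ≤ 1 / (π.d c + 1 : ℝ)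
  closed_univ : Closed univ
  closed_inter : ∀ I I', Closed I → Closed I' → Closed (I ∩ I')
  proper_anti : ∀ I I', I ⊆ I' → Proper I' → Proper I
  small : ∀ Z : Finset Γ, ∑ g ∈ Z, κ g ≤ 1 / 4 → ∃ I, Z ⊆ I ∧ Closed I ∧ Proper I
  sparse : ∀ I, Closed I → ∀ c < π.K, ∀ g ∈ BB c, g ∉ I →
    ((π.toSys.Lam c).filter fun x => ex g c x ∈ I).card ≤ π.d c

namespace CS

variable {π : Par} {Γ : Type} [Fintype Γ] [DecidableEq Γ] (C : CS π Γ)

/-- The conditions on the closed set at one type. -/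
def GoodAt (p : ℕ → ℕ) (c : ℕ) (I : Finset Γ) (F : Finset Lab) : Prop :=
  F ⊆ π.toSys.St c ∧ F.Nonempty ∧
    (∀ g ∈ C.BB c, g ∉ I →
      p c ∣ ((π.toSys.Cnt c).filter fun x => C.ex g c x ∈ I).card + 1 ∧
        ∀ f ∈ F, C.ex g c f ∈ I) ∧
    ∀ x ∈ π.toSys.St c, ∀ g ∈ C.BB c, g ∉ I → C.ex g c x ∈ I → ∃ f ∈ F, ¬ Bt x f

/-- A fresh stamp lies in `W`. -/
def Hit (c : ℕ) (I : Finset Γ) (F W : Finset Lab) : Prop :=
  ∃ x ∈ W, x ∈ π.toSys.St c ∧ (∃ g ∈ C.BB c, g ∉ I ∧ C.ex g c x ∈ I) ∧ ∃ f ∈ F, ¬ Bt f x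

/-- Operators valid at a stage. -/
def ValidOp (c : ℕ) (Φ : Finset Γ → Finset Γ) : Prop :=
  Monotone Φ ∧ (∀ Z, Z ⊆ Φ Z) ∧ (∀ Z, C.Closed (Φ Z)) ∧
    ∀ Z, ∑ g ∈ Z, C.κ g ≤ π.ρ c → C.Proper (Φ Z) ∧ Φ Z ∩ C.BB c = Φ ∅ ∩ C.BB c

end CS

/-! ### Ladders -/

/-- A linear ladder. -/
def Ladder {V : Type} [Fintype V] (A : V → V → ℝ) (c : ℝ) (M : ℕ) : Prop :=
  ∃ μ ν : Fin M → V → ℝ, (∀ j, ∑ s, |μ j s| ≤ 1) ∧ (∀ j t, 0 ≤ ν j t) ∧ (∀ j, ∑ t, ν j t = 1) ∧
    ∀ i j, i < j → c ≤ ∑ s, μ j s * (∑ t, A s t * ν j t - ∑ t, A s t * ν i t)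

/-- The approximation form of the absence of ladders. -/
def Approx {V : Type} [Fintype V] (A : V → V → ℝ) (c : ℝ) (M : ℕ) : Prop :=
  ∀ ν : Fin M → V → ℝ, (∀ j t, 0 ≤ ν j t) → (∀ j, ∑ t, ν j t = 1) →
    ∃ (j : Fin M) (lam : Fin M → ℝ), (∀ i, 0 ≤ lam i) ∧ (∀ i, j ≤ i → lam i = 0) ∧
      ∑ i, lam i = 1 ∧ ∀ s, |∑ t, A s t * ν j t - ∑ i, lam i * ∑ t, A s t * ν i t| ≤ c

/-- Restriction of a word at an item. -/
def res {V : Type} (ev : ℕ → Lab → V → V) : Item → V → V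
  | [], t => t
  | a :: S, t => ev a.1 a.2 (res ev S t)

/-- Agreement pattern of two words. -/
def pat {V : Type} [DecidableEq V] (σ : Sys) (ev : ℕ → Lab → V → V) (s t : V) : Finset Item :=
  (σ.DD σ.K).filter fun S => res ev S s = res ev S t

/-- The two properties of the code. -/
def IsCode {V : Type} [Fintype V] [DecidableEq V] (σ : Sys) (ev : ℕ → Lab → V → V)
    (Q D : ℕ) : Prop :=
  (∀ c < σ.K, ∀ s t : V, s ≠ t →
    ((σ.Lam c).filter fun x => ev c x s = ev c x t).card ≤ σ.d c) ∧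
  ∀ c < σ.K, ∀ x, ∃ E, E * (σ.d c + 1) = D ∧ (univ.image (ev c x)).card ≤ Q ^ E

/-- Restriction of a slot assignment. -/
def rs {Γ W : Type} [DecidableEq Γ] (Z : Finset Γ) (u : Γ → W) : Γ → Option W :=
  fun g => if g ∈ Z then some (u g) else none

end Pool.Agent.MP_dc1150_gt.Neg

end

-- part MP_dc1150_gt.Neg.Tools
section

section
namespace Pool.Agent.MP_dc1150_gt.H76

open Finset

section Homog

variable {G I W : Type} [DecidableEq G] [DecidableEq W]

/-- The restriction of `f` to `Z`, as a function on all of `G`. -/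
def hKey (Z : Finset G) (f : G → W) : G → Option W := fun g => if g ∈ Z then some (f g) else none

omit [DecidableEq W] in
theorem hKey_eq {Z : Finset G} {f f' : G → W} :
    hKey Z f = hKey Z f' ↔ ∀ g ∈ Z, f g = f' g := by
  constructor
  · intro h g hg
    have := congrFun h g
    simpa [hKey, hg] using this
  · intro h
    funext g
    by_cases hg : g ∈ Z
    · simp [hKey, hg, h g hg]
    · simp [hKey, hg]

variable [Fintype G]

/-- The `Z`-fibre of `i` inside `S`. -/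
def hFib (v : I → G → W) (S : Finset I) (Z : Finset G) (i : I) : Finset I :=
  S.filter fun i' => hKey Z (v i') = hKey Z (v i)

/-- The number of `Z`-fibres of `S`. -/
def hNf (v : I → G → W) (S : Finset I) (Z : Finset G) : ℕ :=
  (S.image fun i => hKey Z (v i)).card

theorem mem_hFib {v : I → G → W} {S : Finset I} {Z : Finset G} {i i' : I} :
    i' ∈ hFib v S Z i ↔ i' ∈ S ∧ ∀ g ∈ Z, v i' g = v i g := by
  simp only [hFib, hKey_eq, mem_filter]

theorem hFib_mono {v : I → G → W} {S S' : Finset I} (h : S ⊆ S') {Z Z' : Finset G}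
    (hZ : Z' ⊆ Z) (i : I) : hFib v S Z i ⊆ hFib v S' Z' i := by
  intro x hx
  rw [mem_hFib] at hx ⊢
  exact ⟨h hx.1, fun g hg => hx.2 g (hZ hg)⟩

theorem h_class (J0 : Finset I) (v : I → G → W) (B h : ℕ) (hB : 2 ≤ B) (hh : 1 ≤ h)
    (hJ : J0.card < B ^ h) :
    ∃ (J1 : Finset I) (D : Finset G → ℕ), J1 ⊆ J0 ∧
      J0.card ≤ h ^ (2 ^ Fintype.card G) * J1.card ∧
      ∀ i ∈ J1, ∀ Z, D Z ≤ (hFib v J0 Z i).card ∧ (hFib v J0 Z i).card < B * D Z := by
  classical
  have hlt : ∀ i Z, Nat.log B (hFib v J0 Z i).card < h := by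
    intro i Z
    have h1 : (hFib v J0 Z i).card < B ^ h :=
      lt_of_le_of_lt (card_le_card (filter_subset _ _)) hJ
    exact Nat.log_lt_of_lt_pow' (by omega) h1
  let cls : I → Finset G → Fin h := fun i Z => ⟨_, hlt i Z⟩
  have : Nonempty (Fin h) := ⟨⟨0, by omega⟩⟩
  obtain ⟨e, -, he⟩ := exists_max_image (univ : Finset (Finset G → Fin h))
    (fun e => (J0.filter fun i => cls i = e).card) univ_nonempty
  refine ⟨J0.filter fun i => cls i = e, fun Z => B ^ (e Z : ℕ), filter_subset _ _, ?_, ?_⟩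
  · have h1 : J0.card = ∑ b ∈ (univ : Finset (Finset G → Fin h)),
        (J0.filter fun i => cls i = b).card :=
      card_eq_sum_card_fiberwise (fun _ _ => mem_coe.2 (mem_univ _))
    have h2 := sum_le_card_nsmul (univ : Finset (Finset G → Fin h))
      (fun b => (J0.filter fun i => cls i = b).card) _ (fun b hb => he b hb)
    rw [h1]
    simpa only [ge_iff_le, card_univ, Fintype.card_pi, Fintype.card_fin, prod_const, Fintype.card_finset, smul_eq_mul] using h2
  · intro i hi Z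
    rw [mem_filter] at hi
    have h1 : (e Z : ℕ) = Nat.log B (hFib v J0 Z i).card := by rw [← hi.2]
    have hpos : (hFib v J0 Z i).card ≠ 0 :=
      card_ne_zero.2 ⟨i, mem_hFib.2 ⟨hi.1, fun _ _ => rfl⟩⟩
    simp only [h1]
    refine ⟨Nat.pow_log_le_self _ hpos, ?_⟩
    have := Nat.lt_pow_succ_log_self (b := B) (by omega) (hFib v J0 Z i).card
    rwa [Nat.pow_succ, mul_comm] at this

theorem h_nf_le (J0 J1 : Finset I) (v : I → G → W) (h01 : J1 ⊆ J0) (Z : Finset G) (d : ℕ)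
    (hd : ∀ i ∈ J1, d ≤ (hFib v J0 Z i).card) : d * hNf v J1 Z ≤ J0.card := by
  classical
  have h1 : J0.card = ∑ b ∈ J0.image (fun i => hKey Z (v i)),
      (J0.filter fun i => hKey Z (v i) = b).card := card_eq_sum_card_image _ _
  have h2 : ∑ b ∈ J1.image (fun i => hKey Z (v i)), (J0.filter fun i => hKey Z (v i) = b).card ≤
      ∑ b ∈ J0.image (fun i => hKey Z (v i)), (J0.filter fun i => hKey Z (v i) = b).card :=
    sum_le_sum_of_subset (image_subset_image h01)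
  have h3 := card_nsmul_le_sum (J1.image fun i => hKey Z (v i))
    (fun b => (J0.filter fun i => hKey Z (v i) = b).card) d (by
      intro b hb
      obtain ⟨i, hi, rfl⟩ := mem_image.1 hb
      exact hd i hi)
  rw [smul_eq_mul, mul_comm] at h3
  unfold hNf
  omega

theorem h_prune (J1 : Finset I) (v : I → G → W) (D : Finset G → ℕ) (R : ℕ) :
    ∃ J ⊆ J1, R * J1.card ≤ R * J.card + ∑ Z, D Z * hNf v J1 Z ∧
      ∀ i ∈ J, ∀ Z, D Z ≤ R * (hFib v J Z i).card := by
  classical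
  obtain ⟨J, hJ, hmax⟩ := exists_max_image J1.powerset
    (fun S => (R * S.card : ℤ) - ∑ Z, (D Z * hNf v S Z : ℤ)) ⟨∅, empty_mem_powerset _⟩
  rw [mem_powerset] at hJ
  refine ⟨J, hJ, ?_, ?_⟩
  · have h1 := hmax J1 (mem_powerset_self _)
    have h2 : (0 : ℤ) ≤ ∑ Z, (D Z * hNf v J Z : ℤ) := sum_nonneg fun Z _ => by positivity
    have h3 : (R * J1.card : ℤ) ≤ R * J.card + ∑ Z, (D Z * hNf v J1 Z : ℤ) := by linarith
    exact_mod_cast h3
  · intro i hi Z
    set J' := J.filter fun i' => ¬ hKey Z (v i') = hKey Z (v i) with hJ'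
    have hsub : J' ⊆ J := filter_subset _ _
    have h1 := hmax J' (mem_powerset.2 (hsub.trans hJ))
    have hc : (hFib v J Z i).card + J'.card = J.card := card_filter_add_card_filter_not _
    have hle : ∀ Z', hNf v J' Z' ≤ hNf v J Z' := fun Z' => card_le_card (image_subset_image hsub)
    have hlt : hNf v J' Z + 1 ≤ hNf v J Z := by
      apply card_lt_card
      refine ⟨image_subset_image hsub, fun hs => ?_⟩
      have hm : hKey Z (v i) ∈ J.image fun i => hKey Z (v i) := mem_image_of_mem _ hi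
      obtain ⟨x, hx, hxe⟩ := mem_image.1 (hs hm)
      exact (mem_filter.1 hx).2 hxe
    have hs : ∑ Z', (D Z' * hNf v J' Z' : ℤ) + D Z ≤ ∑ Z', (D Z' * hNf v J Z' : ℤ) := by
      rw [← add_sum_erase _ _ (mem_univ Z), ← add_sum_erase _ _ (mem_univ Z)]
      have ha : ∑ Z' ∈ univ.erase Z, (D Z' * hNf v J' Z' : ℤ) ≤
          ∑ Z' ∈ univ.erase Z, (D Z' * hNf v J Z' : ℤ) :=
        sum_le_sum fun Z' _ => by exact_mod_cast Nat.mul_le_mul_left _ (hle Z')
      have hb : (D Z * hNf v J' Z : ℤ) + D Z ≤ D Z * hNf v J Z := by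
        have := Nat.mul_le_mul_left (D Z) hlt
        rw [mul_add, mul_one] at this
        exact_mod_cast this
      linarith only [ha, hb]
    have hc' : ((hFib v J Z i).card : ℤ) + J'.card = J.card := by exact_mod_cast hc
    have h4 : (D Z : ℤ) ≤ R * (hFib v J Z i).card := by
      have : (R * J.card : ℤ) = R * (hFib v J Z i).card + R * J'.card := by rw [← hc']; ring
      linarith only [h1, hs, this]
    exact_mod_cast h4

theorem h_pick [LinearOrder I] (J : Finset I) (hne : J.Nonempty) (v : I → G → W) :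
    ∃ j ∈ J, ∀ Z, (hFib v J Z j).card <
      2 ^ (Fintype.card G + 1) * (((hFib v J Z j).filter fun i => i < j).card + 1) := by
  classical
  set m := 2 ^ (Fintype.card G + 1) with hm
  let bad : Finset G → Finset I := fun Z => J.filter fun j =>
    m * (((hFib v J Z j).filter fun i => i < j).card + 1) ≤ (hFib v J Z j).card
  have hbad : ∀ Z, m * (bad Z).card ≤ J.card := by
    intro Z
    have h1 : J.card = ∑ b ∈ J.image (fun i => hKey Z (v i)),
        (J.filter fun i => hKey Z (v i) = b).card := card_eq_sum_card_image _ _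
    have h2 : (bad Z).card = ∑ b ∈ J.image (fun i => hKey Z (v i)),
        ((bad Z).filter fun i => hKey Z (v i) = b).card :=
      card_eq_sum_card_fiberwise fun x hx =>
        mem_coe.2 (mem_image_of_mem _ (mem_filter.1 (mem_coe.1 hx)).1)
    rw [h1, h2, mul_sum]
    refine sum_le_sum fun b _ => ?_
    rcases ((bad Z).filter fun i => hKey Z (v i) = b).eq_empty_or_nonempty with he | hn
    · simp [he]
    · set T := (bad Z).filter fun i => hKey Z (v i) = b with hT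
      have hx : T.max' hn ∈ T := max'_mem _ _
      set x := T.max' hn with hxdef
      have hx1 := mem_filter.1 hx
      have hx2 := mem_filter.1 hx1.1
      have hfib : hFib v J Z x = J.filter fun i => hKey Z (v i) = b := by
        unfold hFib; rw [hx1.2]
      have hsub : T.erase x ⊆ (hFib v J Z x).filter fun i => i < x := by
        intro y hy
        have hy1 := mem_erase.1 hy
        have hy2 := mem_filter.1 hy1.2
        refine mem_filter.2 ⟨?_, lt_of_le_of_ne (le_max' _ _ hy1.2) hy1.1⟩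
        rw [hfib]
        exact mem_filter.2 ⟨(mem_filter.1 hy2.1).1, hy2.2⟩
      have hc := card_le_card hsub
      have hc2 := card_erase_add_one hx
      have h3 := hx2.2
      rw [← hfib]
      calc m * T.card ≤ m * (((hFib v J Z x).filter fun i => i < x).card + 1) :=
            Nat.mul_le_mul_left _ (by omega)
        _ ≤ _ := h3
  by_contra hcon
  push Not at hcon
  have hsub : J ⊆ (univ : Finset (Finset G)).biUnion bad := by
    intro j hj
    obtain ⟨Z, hZ⟩ := hcon j hj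
    exact mem_biUnion.2 ⟨Z, mem_univ _, mem_filter.2 ⟨hj, hZ⟩⟩
  have h1 := (card_le_card hsub).trans card_biUnion_le
  have h2 : m * ∑ Z, (bad Z).card ≤ 2 ^ Fintype.card G * J.card := by
    rw [mul_sum]
    have := sum_le_card_nsmul (univ : Finset (Finset G)) (fun Z => m * (bad Z).card) _
      (fun Z _ => hbad Z)
    simpa only [ge_iff_le, card_univ, Fintype.card_finset, smul_eq_mul] using this
  have h3 := (Nat.mul_le_mul_left m h1).trans h2
  have h4 : 0 < J.card := card_pos.2 hne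
  have h5 : 0 < 2 ^ Fintype.card G := by positivity
  rw [hm, pow_succ] at h3
  nlinarith only [h3, h4, h5]

/-- Homogenisation of a long sequence of `W`-valued functions on a finite set `G`. -/
theorem homog [LinearOrder I] (J0 : Finset I) (v : I → G → W) (B h Y k R : ℕ) (hB : 2 ≤ B)
    (hY : 1 ≤ Y) (hh : 1 ≤ h) (hJ : J0.card < B ^ h) (hk : k = Fintype.card G)
    (hR : R = 2 ^ (k + 1) * h ^ (2 ^ k))
    (hbig : 2 ^ (k + 2) * R ^ (k + 2) * B ^ (3 * k + 1) * Y ≤ J0.card) :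
    ∃ j ∈ J0, ∃ Closed Proper : Finset G → Prop,
      Closed univ ∧ (∀ A A', Closed A → Closed A' → Closed (A ∩ A')) ∧
      (∀ A A', A ⊆ A' → Proper A' → Proper A) ∧
      (∀ Z : Finset G, (∃ T : Finset (G → W), T.card ≤ Y ∧
          ∀ i ∈ J0, ∃ t ∈ T, ∀ g ∈ Z, v i g = t g) → ∃ A, Z ⊆ A ∧ Closed A ∧ Proper A) ∧
      (∀ A g, Closed A → g ∉ A → ∃ i ∈ J0, (∀ g' ∈ A, v i g' = v j g') ∧ v i g ≠ v j g) ∧
      (∀ A, Closed A → Proper A → ∃ E ⊆ J0, E.Nonempty ∧
        (∀ i ∈ E, i < j ∧ ∀ g ∈ A, v i g = v j g) ∧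
        ∀ g ∉ A, ∀ w, B * (E.filter fun i => v i g = w).card ≤ 2 ^ (k + 2) * R * E.card) := by
  classical
  obtain ⟨J1, D, h10, hJ1, hD⟩ := h_class J0 v B h hB hh hJ
  obtain ⟨J, hJ1', hcard, hDR⟩ := h_prune J1 v D R
  have hJ0 : J ⊆ J0 := hJ1'.trans h10
  rw [← hk] at hJ1
  have hRpos : 0 < R := by rw [hR]; positivity
  have hBpos : 0 < B := by omega
  have hJ0pos : 0 < J0.card := lt_of_lt_of_le (by positivity) hbig
  have hRJ : J0.card ≤ R * J.card := by
    have h1 : ∑ Z, D Z * hNf v J1 Z ≤ 2 ^ k * J0.card := by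
      have := sum_le_card_nsmul (univ : Finset (Finset G)) (fun Z => D Z * hNf v J1 Z) _
        (fun Z _ => h_nf_le J0 J1 v h10 Z (D Z) fun i hi => (hD i hi Z).1)
      simpa only [ge_iff_le, card_univ, Fintype.card_finset, ← hk, smul_eq_mul] using this
    have h2 : 2 ^ (k + 1) * J0.card ≤ R * J1.card := by
      rw [hR, mul_assoc]; exact Nat.mul_le_mul_left _ hJ1
    have h3 : 1 ≤ 2 ^ k := Nat.one_le_two_pow
    rw [pow_succ] at h2
    nlinarith only [hcard, h1, h2, h3]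
  have hJne : J.Nonempty := by
    rw [← card_pos]
    rcases Nat.eq_zero_or_pos J.card with h0 | h0
    · rw [h0] at hRJ; omega
    · exact h0
  obtain ⟨j, hj, hrank⟩ := h_pick J hJne v
  rw [← hk] at hrank
  have hup : ∀ i ∈ J, ∀ Z, (hFib v J Z i).card ≤ B * D Z := fun i hi Z =>
    (card_le_card (hFib_mono hJ0 Subset.rfl i)).trans (hD i (hJ1' hi) Z).2.le
  have hcls : ∀ A g, ∀ i ∈ hFib v J A j,
      ((hFib v J A j).filter fun x => v x g = v i g) = hFib v J (insert g A) i := by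
    intro A g i hi
    ext x
    rw [mem_filter, mem_hFib, mem_hFib]
    rw [mem_hFib] at hi
    constructor
    · rintro ⟨⟨h1, h2⟩, h3⟩
      refine ⟨h1, fun g' hg' => ?_⟩
      rcases mem_insert.1 hg' with rfl | hg'
      · exact h3
      · rw [h2 g' hg', hi.2 g' hg']
    · rintro ⟨h1, h2⟩
      exact ⟨⟨h1, fun g' hg' => by rw [h2 g' (mem_insert_of_mem hg'), hi.2 g' hg']⟩,
        h2 g (mem_insert_self _ _)⟩
  let n : Finset G → G → ℕ := fun A g => ((hFib v J A j).image fun i => v i g).card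
  have hK1 : ∀ A g, (hFib v J A j).card ≤ B * D (insert g A) * n A g := by
    intro A g
    refine card_le_mul_card_image _ _ fun a ha => ?_
    obtain ⟨i, hi, rfl⟩ := mem_image.1 ha
    rw [hcls A g i hi]
    exact hup i (mem_hFib.1 hi).1 _
  have hK2 : ∀ A g, n A g * D (insert g A) ≤ R * (hFib v J A j).card := by
    intro A g
    have h1 : (hFib v J A j).card = ∑ b ∈ (hFib v J A j).image (fun i => v i g),
        ((hFib v J A j).filter fun i => v i g = b).card := card_eq_sum_card_image _ _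
    rw [h1, mul_sum]
    refine card_nsmul_le_sum _ _ _ fun b hb => ?_
    obtain ⟨i, hi, rfl⟩ := mem_image.1 hb
    rw [hcls A g i hi]
    exact hDR i (mem_hFib.1 hi).1 _
  refine ⟨j, hJ0 hj, fun A => ∀ g ∉ A, B ^ 2 ≤ n A g,
    fun A => 2 ^ (k + 2) ≤ (hFib v J A j).card, fun g hg => absurd (mem_univ g) hg, ?_, ?_, ?_,
    ?_, ?_⟩
  · intro A A' hA hA' g hg
    by_cases h1 : g ∈ A
    · have h2 : g ∉ A' := fun h2 => hg (mem_inter.2 ⟨h1, h2⟩)
      exact (hA' g h2).trans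
        (card_le_card (image_subset_image (hFib_mono Subset.rfl inter_subset_right j)))
    · exact (hA g h1).trans
        (card_le_card (image_subset_image (hFib_mono Subset.rfl inter_subset_left j)))
  · intro A A' hAA hA'
    exact hA'.trans (card_le_card (hFib_mono Subset.rfl hAA j))
  · rintro Z ⟨T, hT, hTZ⟩
    have hgrow : ∀ m : ℕ, ∀ A : Finset G, Aᶜ.card ≤ m →
        2 ^ (k + 2) * (B ^ 3 * R) ^ m ≤ (hFib v J A j).card →
        ∃ A', A ⊆ A' ∧ (∀ g ∉ A', B ^ 2 ≤ n A' g) ∧ 2 ^ (k + 2) ≤ (hFib v J A' j).card := by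
      intro m
      induction m with
      | zero =>
        intro A hA hdeg
        refine ⟨A, Subset.rfl, fun g hg => ?_, by simpa using hdeg⟩
        have : g ∈ Aᶜ := mem_compl.2 hg
        rw [card_eq_zero.1 (Nat.le_zero.1 hA)] at this
        exact absurd this (notMem_empty _)
      | succ m ih =>
        intro A hA hdeg
        have hq : 0 < B ^ 3 * R := by positivity
        by_cases hcl : ∀ g ∉ A, B ^ 2 ≤ n A g
        · refine ⟨A, Subset.rfl, hcl, le_trans ?_ hdeg⟩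
          exact Nat.le_mul_of_pos_right _ (by positivity)
        · push Not at hcl
          obtain ⟨g, hg, hn⟩ := hcl
          have h1 : (insert g A)ᶜ.card ≤ m := by
            rw [compl_insert, card_erase_of_mem (mem_compl.2 hg)]; omega
          have h2 : (hFib v J A j).card ≤ B ^ 3 * R * (hFib v J (insert g A) j).card := by
            calc (hFib v J A j).card ≤ B * D (insert g A) * n A g := hK1 A g
              _ ≤ B * (R * (hFib v J (insert g A) j).card) * B ^ 2 :=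
                Nat.mul_le_mul (Nat.mul_le_mul_left _ (hDR j hj _)) hn.le
              _ = _ := by ring
          have h3 : 2 ^ (k + 2) * (B ^ 3 * R) ^ m ≤ (hFib v J (insert g A) j).card := by
            refine Nat.le_of_mul_le_mul_left (le_trans (le_of_eq ?_) (hdeg.trans h2)) hq
            ring
          obtain ⟨A', h4, h5⟩ := ih _ h1 h3
          exact ⟨A', (subset_insert _ _).trans h4, h5⟩
    refine hgrow k Z (by rw [hk]; exact card_le_univ _) ?_
    have h1 : (J.image fun i => hKey Z (v i)).card ≤ Y := by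
      refine le_trans (card_le_card ?_) ((card_image_le (f := hKey Z) (s := T)).trans hT)
      intro b hb
      obtain ⟨i, hi, rfl⟩ := mem_image.1 hb
      obtain ⟨t, ht, hti⟩ := hTZ i (hJ0 hi)
      exact mem_image.2 ⟨t, ht, (hKey_eq.2 hti).symm⟩
    have h2 : J.card ≤ B * D Z * (J.image fun i => hKey Z (v i)).card := by
      refine card_le_mul_card_image _ _ fun a ha => ?_
      obtain ⟨i, hi, rfl⟩ := mem_image.1 ha
      exact hup i hi Z
    have h3 : J0.card ≤ R ^ 2 * B * Y * (hFib v J Z j).card := by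
      calc J0.card ≤ R * J.card := hRJ
        _ ≤ R * (B * (R * (hFib v J Z j).card) * Y) := Nat.mul_le_mul_left _
            (h2.trans (Nat.mul_le_mul (Nat.mul_le_mul_left _ (hDR j hj Z)) h1))
        _ = _ := by ring
    have hq : 0 < R ^ 2 * B * Y := by positivity
    refine Nat.le_of_mul_le_mul_left (le_trans (le_of_eq ?_) (hbig.trans h3)) hq
    ring
  · intro A g hA hg
    have h1 : 1 < n A g := lt_of_lt_of_le (by nlinarith only [hB]) (hA g hg)
    obtain ⟨b, hb, hbj⟩ := exists_mem_ne h1 (v j g)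
    obtain ⟨i, hi, rfl⟩ := mem_image.1 hb
    rw [mem_hFib] at hi
    exact ⟨i, hJ0 hi.1, hi.2, hbj⟩
  · intro A hA hP
    set E := (hFib v J A j).filter fun i => i < j with hE
    have h1 := hrank A
    rw [← hE] at h1
    have h2 : 1 ≤ E.card := by
      by_contra h0
      have h0' : E.card = 0 := by omega
      rw [h0'] at h1
      have : 2 ^ (k + 2) = 2 ^ (k + 1) * 2 := pow_succ _ _
      omega
    have h3 : (hFib v J A j).card ≤ 2 ^ (k + 2) * E.card := by
      calc (hFib v J A j).card ≤ 2 ^ (k + 1) * (E.card + 1) := h1.le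
        _ ≤ 2 ^ (k + 1) * (2 * E.card) := Nat.mul_le_mul_left _ (by omega)
        _ = _ := by ring
    have hEs : E ⊆ hFib v J A j := filter_subset _ _
    refine ⟨E, fun i hi => hJ0 (mem_hFib.1 (hEs hi)).1, card_pos.1 h2,
      fun i hi => ⟨(mem_filter.1 hi).2, (mem_hFib.1 (hEs hi)).2⟩, fun g hg w => ?_⟩
    rcases (E.filter fun i => v i g = w).eq_empty_or_nonempty with he | ⟨i, hi⟩
    · simp [he]
    · obtain ⟨hi1, rfl⟩ := mem_filter.1 hi
      have h4 : (E.filter fun x => v x g = v i g).card ≤ B * D (insert g A) := by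
        refine le_trans (card_le_card (filter_subset_filter _ hEs)) ?_
        rw [hcls A g i (hEs hi1)]
        exact hup i (mem_hFib.1 (hEs hi1)).1 _
      calc B * (E.filter fun x => v x g = v i g).card ≤ B * (B * D (insert g A)) :=
            Nat.mul_le_mul_left _ h4
        _ = B ^ 2 * D (insert g A) := by ring
        _ ≤ n A g * D (insert g A) := Nat.mul_le_mul_right _ (hA g hg)
        _ ≤ R * (hFib v J A j).card := hK2 A g
        _ ≤ R * (2 ^ (k + 2) * E.card) := Nat.mul_le_mul_left _ h3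
        _ = _ := by ring

end Homog

end Pool.Agent.MP_dc1150_gt.H76

end

section
namespace Pool.Agent.MP_dc1150_gt.Neg

open Finset

lemma c1_few {F Lab : Type} [Field F] [DecidableEq F] {m : ℕ} (L : Finset Lab) (io : Lab → F)
    (hio : Set.InjOn io L) (u : Fin (m + 1) → F) (hu : u ≠ 0) :
    (L.filter fun x => ∑ j, u j * io x ^ (j : ℕ) = 0).card ≤ m := by
  classical
  let P : Polynomial F := ∑ j : Fin (m + 1), Polynomial.monomial (j : ℕ) (u j)
  have hc : ∀ j : Fin (m + 1), P.coeff j = u j := fun j => by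
    simp only [P, Polynomial.finsetSum_coeff, Polynomial.coeff_monomial]
    rw [sum_eq_single j (fun i _ hi => if_neg fun h => hi (Fin.ext h)) (by simp), if_pos rfl]
  have hP : P ≠ 0 := fun h => hu (funext fun j => by rw [← hc j, h]; simp)
  have hd : P.natDegree ≤ m := Polynomial.natDegree_sum_le_of_forall_le _ _ fun j _ =>
    (Polynomial.natDegree_monomial_le _).trans (Nat.lt_succ_iff.1 j.2)
  refine le_trans (card_le_card_of_injOn io (t := P.roots.toFinset) (fun x hx => ?_)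
    (hio.mono (coe_subset.2 (filter_subset _ _)))) ((Multiset.toFinset_card_le _).trans
      ((Polynomial.card_roots' P).trans hd))
  have hx' := (mem_filter.1 (mem_coe.1 hx)).2
  simp only [mem_coe, Multiset.mem_toFinset, Polynomial.mem_roots hP, Polynomial.IsRoot.def, P,
    Polynomial.eval_finsetSum, Polynomial.eval_monomial]
  exact hx'

theorem c1_code {Lab : Type} (K : ℕ) (d : ℕ → ℕ) (Lam : ℕ → Finset Lab) (n : ℕ) (hn : n ≠ 0)
    (hL : ∀ c < K, (Lam c).card ≤ 2 ^ n) :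
    ∃ (V : Type) (_ : Fintype V) (_ : DecidableEq V) (ev : ℕ → Lab → V → V),
      Fintype.card V = (2 ^ n) ^ (∏ c ∈ range K, (d c + 1)) ∧
      (∀ c < K, ∀ s t, s ≠ t → ((Lam c).filter fun x => ev c x s = ev c x t).card ≤ d c) ∧
      ∀ c < K, ∀ x, (univ.image (ev c x)).card ^ (d c + 1) ≤ Fintype.card V := by
  classical
  let F := GaloisField 2 n
  let _ : Fintype F := Fintype.ofFinite F
  have hF : Fintype.card F = 2 ^ n := by
    rw [← Nat.card_eq_fintype_card]; exact GaloisField.card 2 n hn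
  have hio : ∀ c, ∃ io : Lab → F, c < K → Set.InjOn io (Lam c) := fun c => by
    by_cases hc : c < K
    · obtain ⟨f, -, hf⟩ := (Lam c).finite_toSet.exists_injOn_of_encard_le
        (t := ((univ : Finset F) : Set F)) (by
          rw [Set.encard_coe_eq_coe_finsetCard, Set.encard_coe_eq_coe_finsetCard, card_univ, hF]
          exact_mod_cast hL c hc)
      exact ⟨f, fun _ => hf⟩
    · exact ⟨fun _ => 0, fun h => absurd h hc⟩
  choose io hio using hio
  let Gr := ∀ c : Fin K, Fin (d c + 1)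
  have hG : Fintype.card Gr = ∏ c ∈ range K, (d c + 1) := by
    rw [Fintype.card_pi, ← Fin.prod_univ_eq_prod_range fun c => d c + 1]
    simp only [Fintype.card_fin]
  refine ⟨Gr → F, inferInstance, inferInstance, fun c x t e => if h : c < K then
    ∑ j : Fin (d c + 1), t (Function.update e ⟨c, h⟩ j) * io c x ^ (j : ℕ) else t e,
    by rw [Fintype.card_fun, hF, hG], fun c hc s t hst => ?_, fun c hc x => ?_⟩
  · obtain ⟨e, he⟩ := Function.ne_iff.1 hst
    refine le_trans (card_le_card fun x hx => ?_) (c1_few (Lam c) (io c) (hio c hc)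
      (fun j => s (Function.update e ⟨c, hc⟩ j) - t (Function.update e ⟨c, hc⟩ j)) fun h => he ?_)
    · have := congrFun (mem_filter.1 hx).2 e
      simp only [dif_pos hc] at this
      refine mem_filter.2 ⟨(mem_filter.1 hx).1, ?_⟩
      simp only [sub_mul, sum_sub_distrib, this, sub_self]
    · have := congrFun h (e ⟨c, hc⟩)
      simpa [sub_eq_zero] using this
  · rw [← Fintype.card_coe, ← Fintype.card_fin (d c + 1), ← Fintype.card_fun]
    refine Fintype.card_le_of_injective (fun φ e => (φ (e ⟨c, hc⟩)).1 e) fun φ ψ h => ?_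
    funext j
    refine Subtype.ext (funext fun e => ?_)
    have inv : ∀ y ∈ univ.image fun (t : Gr → F) (e : Gr) => if h : c < K then
        ∑ j : Fin (d c + 1), t (Function.update e ⟨c, h⟩ j) * io c x ^ (j : ℕ) else t e,
        y (Function.update e ⟨c, hc⟩ j) = y e := fun y hy => by
      obtain ⟨t, -, rfl⟩ := mem_image.1 hy
      simp only [dif_pos hc, Function.update_idem]
    have := congrFun h (Function.update e ⟨c, hc⟩ j)
    simp only [Function.update_self] at this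
    rw [← inv _ (φ j).2, ← inv _ (ψ j).2, this]

/-- The tensor Reed-Solomon code. -/
theorem code (σ : Sys) :
    ∃ D n0 : ℕ, 0 < D ∧ ∀ n, n0 ≤ n → ∃ (V : Type) (_ : Fintype V) (_ : DecidableEq V)
      (ev : ℕ → Lab → V → V), Fintype.card V = (2 ^ n) ^ D ∧ IsCode σ ev (2 ^ n) D := by
  refine ⟨∏ c ∈ range σ.K, (σ.d c + 1), (range σ.K).sup (fun c => (σ.Lam c).card) + 1,
    prod_pos fun _ _ => Nat.succ_pos _, fun n hn => ?_⟩
  obtain ⟨V, i1, i2, ev, h1, h2, h3⟩ := c1_code σ.K σ.d σ.Lam n (by omega) fun c hc =>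
    ((le_sup (f := fun c => (σ.Lam c).card) (mem_range.2 hc)).trans (by omega)).trans
      (Nat.lt_two_pow_self (n := n)).le
  refine ⟨V, i1, i2, ev, h1, h2, fun c hc x => ⟨∏ c' ∈ (range σ.K).erase c, (σ.d c' + 1),
    prod_erase_mul _ (fun c => σ.d c + 1) (mem_range.2 hc), ?_⟩⟩
  have := h3 c hc x
  rw [h1, ← prod_erase_mul _ (fun c => σ.d c + 1) (mem_range.2 hc), pow_mul] at this
  exact (Nat.pow_le_pow_iff_left (Nat.succ_ne_zero _)).1 this

end Pool.Agent.MP_dc1150_gt.Neg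

end

section
namespace Pool.Agent.MP_dc1150_gt.Neg

open Finset

lemma p1_rec {A : Type} (a : A) (g : ℕ → A → A) :
    ∃ f : ℕ → A, f 0 = a ∧ ∀ c, f (c + 1) = g c (f c) :=
  ⟨fun c => Nat.rec a g c, rfl, fun _ => rfl⟩

lemma p1_step (w : ℕ) (ρ : ℝ) : ∃ p q P d n : ℕ, p.Prime ∧ q.Prime ∧ p ≠ q ∧ p ≤ P ∧ q ≤ P ∧
    d + 2 = p * q ∧ (w * (d + 1) + 1) ^ (w * P) * (w * d) + 1 < 2 ^ n ∧
    (0 < ρ → ((w * P + n * w : ℕ) : ℝ) / (d + 1) ≤ ρ / 2) := by
  obtain ⟨C, hC⟩ : ∃ C : ℕ, C = 4 * w + w * (12 * w + 4) + 1 := ⟨_, rfl⟩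
  have C0 : (0 : ℝ) < C := by rw [hC]; positivity
  obtain ⟨t, h1, h2, h3⟩ : ∃ t : ℕ, 1 ≤ t ∧ w ≤ t ∧ (0 < ρ → (t : ℝ) / 2 ^ t ≤ ρ / (2 * C)) := by
    by_cases h : 0 < ρ
    · obtain ⟨t, a, b, c⟩ := ((Filter.eventually_ge_atTop 1).and ((Filter.eventually_ge_atTop w).and
        ((tendsto_pow_const_div_const_pow_of_one_lt 1 (one_lt_two (α := ℝ))).eventually_le_const
          (show 0 < ρ / (2 * C) by positivity)))).exists
      exact ⟨t, a, b, fun _ => by simpa only [pow_one] using c⟩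
    · exact ⟨w + 1, by omega, by omega, fun h' => absurd h' h⟩
  obtain ⟨N, hN⟩ : ∃ N, N = 2 ^ t := ⟨_, rfl⟩
  have N0 : 0 < N := by rw [hN]; positivity
  have hw : w ≤ N := h2.trans (hN ▸ Nat.lt_two_pow_self.le)
  obtain ⟨p, p1, p2, p3⟩ := Nat.exists_prime_lt_and_le_two_mul N N0.ne'
  obtain ⟨q, q1, q2, q3⟩ := Nat.exists_prime_lt_and_le_two_mul (2 * N) (by omega)
  have lo : N * (2 * N) < p * q := Nat.mul_lt_mul'' p2 q2
  have hi : p * q ≤ 2 * N * (2 * (2 * N)) := Nat.mul_le_mul p3 q3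
  have l2 : 2 ≤ N * (2 * N) := by nlinarith only [N0]
  obtain ⟨d, hd⟩ : ∃ d, d + 2 = p * q := ⟨p * q - 2, by omega⟩
  refine ⟨p, q, 4 * N, d, (3 * t + 3) * (w * (4 * N) + 1) + 1, p1, q1, by omega, by omega,
    by omega, hd, ?_, fun h => ?_⟩
  · have A : w * (d + 1) + 1 ≤ 2 ^ (3 * t + 3) := by
      rw [pow_add, mul_comm 3 t, pow_mul, ← hN]
      have := Nat.mul_le_mul_right (d + 1) hw
      have := Nat.mul_le_mul_left N (hd.le.trans hi)
      nlinarith
    have B : 0 < (w * (d + 1) + 1) ^ (w * (4 * N)) := by positivity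
    calc _ ≤ (w * (d + 1) + 1) ^ (w * (4 * N)) * (w * (d + 1) + 1) := by nlinarith only [B]
      _ ≤ (2 ^ (3 * t + 3)) ^ (w * (4 * N) + 1) := by
          rw [← pow_succ]; exact Nat.pow_le_pow_left A _
      _ < _ := by rw [← pow_mul]; exact Nat.pow_lt_pow_right one_lt_two (Nat.lt_succ_self _)
  · have A : w * (4 * N) + ((3 * t + 3) * (w * (4 * N) + 1) + 1) * w ≤ C * (2 * t) * N := by
      have a1 : (3 * t + 3) * (w * (4 * N) + 1) + 1 ≤ 2 * t * ((12 * w + 4) * N) := by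
        have b1 : (3 * t + 3) * (w * (4 * N) + 1) ≤ 6 * t * (w * (4 * N) + N) :=
          Nat.mul_le_mul (by omega) (by omega)
        have b2 : 1 * 1 ≤ t * N := Nat.mul_le_mul h1 N0
        linarith only [b1, b2]
      have a2 := Nat.mul_le_mul_right w a1
      have a3 := Nat.mul_le_mul_left (w * (4 * N)) h1
      rw [hC]
      nlinarith only [a2, a3]
    have B : ((N * (2 * N) : ℕ) : ℝ) ≤ d + 1 := by exact_mod_cast (by omega : N * (2 * N) ≤ d + 1)
    have N1 : (0 : ℝ) < N := by exact_mod_cast N0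
    have h4 := h3 h
    rw [show (2 : ℝ) ^ t = N by rw [hN]; push_cast; rfl] at h4
    calc _ ≤ ((C * (2 * t) * N : ℕ) : ℝ) / ((N * (2 * N) : ℕ) : ℝ) := by
          gcongr
      _ = C * (t / N) := by push_cast; field_simp
      _ ≤ C * (ρ / (2 * C)) := by gcongr
      _ = _ := by field_simp

/-- The parameters can be chosen. -/
theorem params (ε : ℝ) (hε : 0 < ε) : ∃ π : Par, π.Good ε := by
  choose p q P d n h1 h2 h3 h4 h5 h6 h7 h8 using p1_step
  obtain ⟨J, hJ⟩ : ∃ J : ℕ, J = ⌈1 / ε⌉₊ + 1 := ⟨_, rfl⟩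
  obtain ⟨K, hK⟩ : ∃ K : ℕ, K = (J + 1) * (2 * J + 2 * beta J J) + J + 1 := ⟨_, rfl⟩
  obtain ⟨N, hN⟩ : ∃ N : ℕ, N = ⌈(K + 1 : ℝ) / ε⌉₊ + 1 := ⟨_, rfl⟩
  have up : ∀ x : ℝ, 0 ≤ x → ∀ y : ℝ, 0 < y → x / ((⌈x / y⌉₊ + 1 : ℕ) : ℝ) ≤ y := fun x _ y hy => by
    rw [div_le_iff₀ (by positivity), mul_comm, ← div_le_iff₀ hy]
    push_cast
    linarith only [Nat.le_ceil (x / y)]
  let W : ℕ → ℕ → ℕ := fun c Δ => Δ * ((c + 1) * (Δ * (Δ * N)))
  let n' : ℕ → ℕ × ℝ → ℕ := fun c s =>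
    ⌈(bav J s.1 (d (W c s.1) s.2) : ℝ) / (ε / (K + 1))⌉₊ + 1
  let l : ℕ → ℕ × ℝ → ℕ := fun c s => n' c s * (W c s.1 * d (W c s.1) s.2)
  let qq : ℕ → ℕ × ℝ → ℕ := fun c s =>
    (W c s.1 * (d (W c s.1) s.2 + 1) + 1) ^ (W c s.1 * P (W c s.1) s.2) * 2 ^ n (W c s.1) s.2 *
      n (W c s.1) s.2 * (W c s.1 * d (W c s.1) s.2 * l c s) + 1
  let D : ℕ → ℕ × ℝ → ℕ := fun c s => s.1 * (d (W c s.1) s.2 + 2 + qq c s * 2 ^ qq c s)
  obtain ⟨f, f0, fs⟩ := p1_rec (A := ℕ × ℝ) (1, 1 / (4 * ((W 0 1 : ℝ) + 1))) fun c s =>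
    (D c s, s.2 / (2 * ((2 ^ n (W c s.1) s.2 + 1) * (W (c + 1) (D c s) : ℝ) + 1)))
  have ρ0 : ∀ c, 0 < (f c).2 := fun c => by
    induction c with
    | zero => rw [f0]; positivity
    | succ c ih => rw [fs]; positivity
  have mono : Monotone fun c => (f c).1 := monotone_nat_of_le_succ fun c => by
    rw [fs]
    exact Nat.le_mul_of_pos_right _ (by omega)
  have Δ0 : ∀ c, 0 < (f c).1 := fun c =>
    lt_of_lt_of_le (show 0 < (f 0).1 by rw [f0]; exact one_pos)
    (mono (Nat.zero_le c))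
  have K0 : (0 : ℝ) < K + 1 := by positivity
  let π : Par :=
    { K := K, J := J, d := fun c => d (W c (f c).1) (f c).2, qq := fun c => qq c (f c),
      l := fun c => l c (f c), p := fun c => p (W c (f c).1) (f c).2,
      q := fun c => q (W c (f c).1) (f c).2, P := fun c => P (W c (f c).1) (f c).2,
      Δ := fun c => (f c).1, r := fun c => (f c).1 * N, w := fun c => W c (f c).1,
      n := fun c => n (W c (f c).1) (f c).2, n' := fun c => n' c (f c), ρ := fun c => (f c).2 }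
  refine ⟨π, ⟨fun c _ => h7 _ _, fun c _ => Nat.lt_succ_self _, fun c _ => le_rfl,
    fun c _ => Nat.succ_pos _, fun c => (ρ0 c).le, fun c _ => ?_, ?_⟩, show 0 < J by omega,
    show (1 : ℝ) / J ≤ ε from hJ ▸ up 1 zero_le_one ε hε, hK.ge, fun c _ => ⟨h1 _ _, h4 _ _, Dvd.intro _ (h6 _ _).symm⟩,
    fun c _ => ⟨h2 _ _, h5 _ _, Dvd.intro_left _ (h6 _ _).symm⟩, fun c _ => ⟨h3 _ _, h6 _ _⟩,
    fun c => ?_, fun c => Nat.mul_pos (Δ0 c) (hN ▸ Nat.succ_pos _),
    fun a b h => Nat.mul_le_mul_right _ (mono h), fun c => le_rfl, ?_, ?_⟩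
  · have a := h8 (W c (f c).1) _ (ρ0 c)
    have b : ((2 ^ π.n c + 1) * π.w (c + 1) + 1 : ℝ) * π.ρ (c + 1) = (f c).2 / 2 := by
      simp only [π, fs c]
      field_simp
    rw [b]
    exact (add_le_add a le_rfl).trans_eq (add_halves _)
  · simp only [π, f0]
    exact le_of_eq (by field_simp)
  · induction c with
    | zero => simp [π, f0, Sys.DD]
    | succ c ih =>
      refine (π.toSys.card_DD_succ c).trans ((Nat.mul_le_mul_right _ ih).trans_eq ?_)
      simp only [π, fs c, D]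
  · refine (sum_le_card_nsmul _ _ (ε / (K + 1)) fun c _ =>
      up _ (Nat.cast_nonneg _) _ (by positivity)).trans ?_
    rw [card_range, nsmul_eq_mul, ← mul_div_assoc, div_le_iff₀ K0]
    change (K : ℝ) * ε ≤ _
    linarith only [hε]
  · refine (sum_le_card_nsmul _ _ (ε / (K + 1)) fun c _ => ?_).trans (le_of_eq ?_)
    · have a : (0 : ℝ) < (f c).1 := by exact_mod_cast Δ0 c
      have b := up (K + 1) K0.le ε hε
      rw [← hN] at b
      change ((f c).1 : ℝ) / (((f c).1 * N : ℕ) : ℝ) ≤ _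
      rw [Nat.cast_mul, div_mul_cancel_left₀ a.ne', le_div_iff₀ K0, inv_mul_eq_div]
      exact b
    · rw [card_range, nsmul_eq_mul]
      change ((K + 1 : ℕ) : ℝ) * _ = _
      push_cast
      field_simp

end Pool.Agent.MP_dc1150_gt.Neg

end

section
namespace Pool.Agent.MP_dc1150_gt.Neg

open Finset

/-- Indices of listed columns. -/
def AA (π : Par) (c : ℕ) : Finset (ℕ × Item × ℕ) :=
  range (c + 1) ×ˢ π.toSys.DD c ×ˢ range (π.r c)

/-- An agreement of `s` and `t` at an unlisted value. -/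
def Err {V : Type} (π : Par) (ev : ℕ → Lab → V → V) (T : ℕ × Item × ℕ → V) (s t : V) : Prop :=
  ∃ c ≤ π.K, ∃ S ∈ π.toSys.DD c, res ev S t = res ev S s ∧
    ∀ a ∈ AA π c, res ev S (T a) ≠ res ev S s

/-- Heavy values can be listed. -/
theorem listing {V : Type} [Fintype V] [DecidableEq V] (ν : V → ℝ) (h0 : ∀ t, 0 ≤ ν t)
    (h1 : ∑ t, ν t = 1) (g : V → V) (r : ℕ) (hr : 0 < r) :
    ∃ T : ℕ → V, ∀ u, (∀ a < r, g (T a) ≠ u) → ∑ t with g t = u, ν t ≤ 1 / (r : ℝ) := by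
  classical
  have hr' : (0 : ℝ) < r := by exact_mod_cast hr
  obtain ⟨t0⟩ : Nonempty V := by
    by_contra h
    rw [not_nonempty_iff] at h
    simp at h1
  set H : Finset V := univ.filter fun u => 1 / (r : ℝ) < ∑ t with g t = u, ν t with hH
  have hcard : H.card ≤ r := by
    have a1 : (H.card : ℝ) * (1 / r) ≤ ∑ u ∈ H, ∑ t with g t = u, ν t := by
      rw [← nsmul_eq_mul]
      exact card_nsmul_le_sum _ _ _ fun u hu => (mem_filter.1 hu).2.le
    have a2 : ∑ u ∈ H, ∑ t with g t = u, ν t ≤ ∑ u, ∑ t with g t = u, ν t :=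
      sum_le_sum_of_subset_of_nonneg (subset_univ _) fun u _ _ => sum_nonneg fun t _ => h0 t
    rw [sum_fiberwise, h1] at a2
    have a3 : (H.card : ℝ) ≤ r := by
      have := a1.trans a2
      rwa [mul_one_div, div_le_one hr'] at this
    exact_mod_cast a3
  have hpre : ∀ u ∈ H, ∃ t, g t = u := by
    intro u hu
    by_contra hn
    push Not at hn
    have := (mem_filter.1 hu).2
    rw [filter_eq_empty_iff.2 fun t _ => hn t, sum_empty] at this
    exact absurd this (not_lt.2 (by positivity))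
  choose! pre hpre using hpre
  refine ⟨fun a => if h : a < H.card then pre (H.equivFin.symm ⟨a, h⟩) else t0, fun u hu => ?_⟩
  by_contra hn
  have huH : u ∈ H := mem_filter.2 ⟨mem_univ _, not_le.1 hn⟩
  have hlt := (H.equivFin ⟨u, huH⟩).2
  refine hu (H.equivFin ⟨u, huH⟩) (lt_of_lt_of_le hlt hcard) ?_
  simp [hpre u huH]

open Classical in
theorem lists {V : Type} [Fintype V] [DecidableEq V] (π : Par) (ε : ℝ) (hπ : π.Good ε)
    (ev : ℕ → Lab → V → V) (ν : V → ℝ) (h0 : ∀ t, 0 ≤ ν t) (h1 : ∑ t, ν t = 1) :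
    ∃ T : ℕ × Item × ℕ → V, ∀ s, ∑ t with Err π ev T s t, ν t ≤ ε := by
  choose T hT using fun (c : ℕ) (S : Item) => listing ν h0 h1 (res ev S) (π.r c) (hπ.hr c)
  refine ⟨fun a => T a.1 a.2.1 a.2.2, fun s => le_trans ?_ hπ.hθ⟩
  set P : ℕ → Item → Prop := fun c S => ∀ a < π.r c, res ev S (T c S a) ≠ res ev S s with hP
  calc ∑ t with Err π ev (fun a => T a.1 a.2.1 a.2.2) s t, ν t
      ≤ ∑ t, ∑ c ∈ range (π.K + 1), ∑ S ∈ π.toSys.DD c,
          if P c S ∧ res ev S t = res ev S s then ν t else 0 := by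
        rw [sum_filter]
        refine sum_le_sum fun t _ => ?_
        have hn : ∀ c S, 0 ≤ if P c S ∧ res ev S t = res ev S s then ν t else 0 := by
          intro c S
          split_ifs
          · exact h0 t
          · exact le_rfl
        split_ifs with h
        · obtain ⟨c, hc, S, hS, e, hu⟩ := h
          have hPc : P c S := fun a ha => hu (c, S, a) (by simp [AA, hS, ha])
          refine le_trans ?_ (single_le_sum (fun c _ => sum_nonneg fun S _ => hn c S)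
            (mem_range.2 (Nat.lt_succ_of_le hc)))
          refine le_trans ?_ (single_le_sum (fun S _ => hn c S) hS)
          rw [if_pos ⟨hPc, e⟩]
        · exact sum_nonneg fun c _ => sum_nonneg fun S _ => hn c S
    _ ≤ _ := by
        rw [sum_comm]
        refine sum_le_sum fun c _ => ?_
        rw [sum_comm]
        have hr' : (0 : ℝ) < π.r c := by exact_mod_cast hπ.hr c
        refine (sum_le_card_nsmul _ _ (1 / (π.r c : ℝ)) fun S _ => ?_).trans ?_
        · by_cases h : P c S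
          · simp only [h, true_and]
            rw [← sum_filter]
            exact hT c S _ h
          · simp only [h, false_and, ↓ reduceIte, sum_const_zero, one_div, inv_nonneg, Nat.cast_nonneg]
        · rw [nsmul_eq_mul, mul_one_div]
          have : ((π.toSys.DD c).card : ℝ) ≤ π.Δ c := by exact_mod_cast hπ.hΔ c
          gcongr

/-- A large class of indices with the same equality pattern and close type distributions. -/
theorem classes {Γ V W : Type} [Fintype Γ] [DecidableEq Γ] [Fintype V] (M : ℕ)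
    (ν : Fin M → V → ℝ) (h0 : ∀ j t, 0 ≤ ν j t) (h1 : ∀ j, ∑ t, ν j t = 1)
    (τ : Fin M → V → Finset Γ) (v : Fin M → Γ → W) (k g n0 : ℕ) (hk : k = Fintype.card Γ)
    (hg : 0 < g) (hn : 2 ^ (k * k) * (g + 1) ^ 2 ^ k * n0 ≤ M) :
    ∃ J0 : Finset (Fin M), n0 ≤ J0.card ∧ ∀ i ∈ J0, ∀ j ∈ J0,
      (∀ a b, v i a = v i b → v j a = v j b) ∧
      ∀ ψ : Finset Γ → ℝ, (∀ Z, 0 ≤ ψ Z ∧ ψ Z ≤ 1) →
        |∑ t, ν i t * ψ (τ i t) - ∑ t, ν j t * ψ (τ j t)| ≤ 2 ^ k / (g : ℝ) := by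
  classical
  have hg' : (0 : ℝ) < g := by exact_mod_cast hg
  set m : Fin M → Finset Γ → ℝ := fun i Z => ∑ t with τ i t = Z, ν i t with hm
  have hm0 : ∀ i Z, 0 ≤ m i Z := fun i Z => sum_nonneg fun t _ => h0 i t
  have hm1 : ∀ i Z, m i Z ≤ 1 := fun i Z => by
    rw [← h1 i]
    exact sum_le_sum_of_subset_of_nonneg (filter_subset _ _) fun t _ _ => h0 i t
  have hlt : ∀ i Z, ⌊g * m i Z⌋₊ < g + 1 := fun i Z => by
    refine Nat.lt_succ_of_le (Nat.floor_le_of_le ?_)
    nlinarith only [hm1 i Z]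
  let cls : Fin M → Finset (Γ × Γ) × (Finset Γ → Fin (g + 1)) := fun i =>
    (univ.filter fun a => v i a.1 = v i a.2, fun Z => ⟨_, hlt i Z⟩)
  obtain ⟨y, hy⟩ := Fintype.exists_le_card_fiber_of_mul_le_card (f := cls) (n := n0) (by
    simpa only [Fintype.card_prod, Fintype.card_finset, ← hk, Fintype.card_pi, Fintype.card_fin, prod_const, card_univ] using hn)
  refine ⟨_, hy, fun i hi j hj => ?_⟩
  have e : cls i = cls j := (mem_filter.1 hi).2.trans (mem_filter.1 hj).2.symm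
  have e1 : (univ.filter fun a : Γ × Γ => v i a.1 = v i a.2) =
      univ.filter fun a : Γ × Γ => v j a.1 = v j a.2 := congrArg Prod.fst e
  have e2 : ∀ Z, ⌊g * m i Z⌋₊ = ⌊g * m j Z⌋₊ := fun Z =>
    congrArg Fin.val (congrFun (congrArg Prod.snd e) Z)
  refine ⟨fun a b h => ?_, fun ψ hψ => ?_⟩
  · have : (a, b) ∈ univ.filter fun a : Γ × Γ => v j a.1 = v j a.2 := by
      rw [← e1]; simpa only [mem_filter, mem_univ, true_and] using h
    simpa only [mem_filter, mem_univ, true_and] using this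
  · have s1 : ∀ i, ∑ t, ν i t * ψ (τ i t) = ∑ Z, m i Z * ψ Z := fun i => by
      rw [← sum_fiberwise univ (τ i)]
      refine sum_congr rfl fun Z _ => ?_
      rw [hm, sum_mul]
      exact sum_congr rfl fun t ht => by rw [(mem_filter.1 ht).2]
    rw [s1, s1, ← sum_sub_distrib]
    refine (abs_sum_le_sum_abs _ _).trans
      ((sum_le_card_nsmul _ _ (1 / (g : ℝ)) fun Z _ => ?_).trans ?_)
    · have a1 := Nat.floor_le (mul_nonneg hg'.le (hm0 i Z))
      have a2 := Nat.lt_floor_add_one (g * m i Z)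
      have a3 := Nat.floor_le (mul_nonneg hg'.le (hm0 j Z))
      have a4 := Nat.lt_floor_add_one (g * m j Z)
      rw [e2 Z] at a1 a2
      have a5 : |m i Z - m j Z| ≤ 1 / g := by
        rw [le_div_iff₀ hg', ← abs_of_pos hg', ← abs_mul, abs_le]
        constructor <;> linarith only [a1, a4, a2, a3]
      rw [← sub_mul, abs_mul, abs_of_nonneg (hψ Z).1]
      nlinarith only [hψ Z, abs_nonneg (m i Z - m j Z), a5]
    · simp only [card_univ, Fintype.card_finset, ← hk, div_eq_mul_inv, one_mul, nsmul_eq_mul, Nat.cast_pow, Nat.cast_ofNat, Std.le_refl]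

end Pool.Agent.MP_dc1150_gt.Neg

end

end

-- part MP_dc1150_gt.Neg.Game
section

section
namespace Pool.Agent.MP_dc1150_gt.Neg

open Finset

namespace Bwd

/-- Number of steps until the demand is `i`. -/
def wait (J i c : ℕ) : ℕ := (i + J - c % J) % J

theorem wait_lt {J : ℕ} (hJ : 0 < J) (i c : ℕ) : wait J i c < J := Nat.mod_lt _ hJ

theorem wait_succ {J i : ℕ} (hi : i < J) (c : ℕ) (h : c % J ≠ i) :
    wait J i (c + 1) + 1 = wait J i c := by
  have hJ : 0 < J := by omega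
  have h1 : c % J < J := Nat.mod_lt _ hJ
  have aux : ∀ a, a < 2 * J → a % J = if a < J then a else a - J := by
    intro a ha
    split_ifs with h
    · exact Nat.mod_eq_of_lt h
    · rw [Nat.mod_eq_sub_mod (by omega), Nat.mod_eq_of_lt (by omega)]
  have h2 : (c + 1) % J = (c % J + 1) % J := by simp
  unfold wait
  rw [h2]
  generalize c % J = a at *
  rw [aux (a + 1) (by omega), aux (i + J - a) (by omega)]
  split_ifs with h3 h4 h4
  · rw [aux _ (by omega)]; split_ifs <;> omega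
  · rw [aux _ (by omega)]; split_ifs <;> omega
  · rw [aux _ (by omega)]; split_ifs <;> omega
  · rw [aux _ (by omega)]; split_ifs <;> omega

end Bwd

theorem Win.mono_e {σ : Sys} {p : ℕ → ℕ} {z : Finset Item} {k c : ℕ} {lev : Item → ℕ}
    {dd : Finset ℕ} {e e' : ℕ} (h : Win σ p z k c lev dd e) (he : e ≤ e') :
    Win σ p z k c lev dd e' := by
  induction h generalizing e' with
  | done lev dd e => exact Win.done _ _ _
  | skip c lev dd e lev' dd' hc hch hdd hk _ ih =>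
    obtain ⟨e'', rfl⟩ : ∃ e'', e' = e'' + 1 := ⟨e' - 1, by omega⟩
    exact Win.skip _ _ _ _ _ _ hc hch hdd hk (ih (by omega))
  | one c lev dd e lev' hc hdem hch hloc _ ih => exact Win.one _ _ _ _ _ hc hdem hch hloc (ih he)
  | rich c lev dd e X ch hc hdem hX hcard hch hloc _ hup ih =>
    exact Win.rich _ _ _ _ X ch hc hdem hX hcard hch hloc (fun x hx => ih x hx he) hup

theorem beta_mono (J : ℕ) : Monotone (beta J) := by
  refine monotone_nat_of_le_succ fun k => ?_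
  simp only [beta]
  linarith only [Nat.zero_le (J * (beta J k + J + 1))]

theorem phi_nonneg (σ : Sys) (p : ℕ → ℕ) (z : Finset Item) : 0 ≤ phi σ p z := by
  unfold phi
  positivity

theorem phi_le_one (σ : Sys) (p : ℕ → ℕ) (z : Finset Item) : phi σ p z ≤ 1 := by
  classical
  unfold phi
  refine div_le_one_of_le₀ ?_ (Nat.cast_nonneg _)
  exact_mod_cast (card_filter_le _ _).trans (card_range _).le

theorem phi_top (σ : Sys) (p : ℕ → ℕ) (hJ : 0 < σ.J) : phi σ p (σ.DD σ.K) = 1 := by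
  classical
  have hv : ∀ k c, c ≤ σ.K →
      Valid σ (σ.DD σ.K) k c fun S => if S ∈ σ.DD c then σ.J else 0 := fun k c hc =>
    ⟨fun S hS => ⟨fun _ => by simp [hS], fun h => absurd (σ.DD_mono hc hS) h⟩,
      fun S hS => by simp [hS]⟩
  have hw : ∀ k e n c, c + n = σ.K →
      Win σ p (σ.DD σ.K) k c (fun S => if S ∈ σ.DD c then σ.J else 0) ∅ e := by
    intro k e n
    induction n with
    | zero =>
      intro c hc
      obtain rfl : c = σ.K := by omega
      exact Win.done _ _ _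
    | succ n ih =>
      intro c hc
      refine Win.one _ _ _ _ _ (by omega) (by simp) ⟨hv k (c + 1) (by omega),
        fun S hS => by simp [hS, σ.DD_succ c hS],
        fun S hS x hx => by simp [σ.DD_succ c hS, σ.cons_mem hS hx]⟩ ?_ (ih (c + 1) (by omega))
      intro j hj _
      have E : ∀ S ∈ σ.DD c, (if S ∈ σ.DD (c + 1) then σ.J else 0) ≠ j := fun S hS => by
        rw [if_pos (σ.DD_succ c hS)]; omega
      refine ⟨fun S hS e => absurd e (E S hS), ∅, empty_subset _, by simp only [notMem_empty, IsEmpty.forall_iff, implies_true], by simp only [notMem_empty, not_false_eq_true, Prod.forall, Bool.forall_bool, IsEmpty.forall_iff, implies_true, imp_self],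
        fun x hx => ?_⟩
      obtain ⟨-, S, hS, e, -⟩ := mem_filter.1 hx
      exact absurd e (E S hS)
  unfold phi
  rw [filter_true_of_mem fun k _ => ⟨_, ∅, empty_subset _, hv k 0 (Nat.zero_le _),
    hw k _ σ.K 0 (by omega)⟩, card_range]
  exact div_self (by exact_mod_cast hJ.ne')

/-- What one move offers at a fixed item outside the pattern. -/
theorem step_at {σ : Sys} {p : ℕ → ℕ} {z : Finset Item} (hs : Sparse σ z) {k c : ℕ}
    (hc : c < σ.K) {lev : Item → ℕ} {dd : Finset ℕ} {e : ℕ} (hw : Win σ p z k c lev dd e)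
    {S : Item} (hS : S ∈ σ.DD c) (hz : S ∉ z) :
    (∃ e0 lev' dd', e = e0 + 1 ∧ Child σ z k c lev lev' ∧ Win σ p z k (c + 1) lev' dd' e0) ∨
    ∃ lev', Child σ z k c lev lev' ∧ Loc σ p c lev' dd ∧ Win σ p z k (c + 1) lev' dd e ∧
      (lev S ∈ dd → lev S = c % σ.J →
        ∃ x ∈ σ.Lam c, (c, x) :: S ∉ z ∧ lev S < lev' ((c, x) :: S)) := by
  cases hw with
  | done => omega
  | skip _ _ _ e lev' dd' _ hch hdd hk hw => exact Or.inl ⟨e, lev', dd', rfl, hch, hw⟩
  | one _ _ _ _ lev' _ hdem hch hloc hw =>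
    exact Or.inr ⟨lev', hch, hloc, hw, fun a b => absurd (b ▸ a) hdem⟩
  | rich _ _ _ _ X ch _ hdem hX hcard hch hloc hw hup =>
    obtain ⟨x, hx, hn⟩ := exists_mem_notMem_of_card_lt_card
      (lt_of_le_of_lt (hs c hc S hS hz) hcard)
    exact Or.inr ⟨ch x, hch x hx, hloc x hx, hw x hx, fun _ b => ⟨x, hX hx,
      fun h => hn (mem_filter.2 ⟨hX hx, h⟩), b ▸ hup x hx S hS b⟩⟩

/-- The measure used for disjointness. -/
def meas (J c i i' e e' : ℕ) (dd dd' : Finset ℕ) : ℕ :=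
  (J + 1) * (J - i + (J - i') + e + e') +
    if i ∈ dd then Bwd.wait J i c else if i' ∈ dd' then Bwd.wait J i' c else 0

theorem meas_drop {J c i i' e e' a a' f f' : ℕ} (hJ : 0 < J) {dd dd' gg gg' : Finset ℕ}
    (h : J - a + (J - a') + f + f' + 1 ≤ J - i + (J - i') + e + e') :
    meas J (c + 1) a a' f f' gg gg' + 1 ≤ meas J c i i' e e' dd dd' := by
  unfold meas
  have h1 := Bwd.wait_lt hJ a (c + 1)
  have h2 := Bwd.wait_lt hJ a' (c + 1)
  have h3 := Nat.mul_le_mul_left (J + 1) h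
  rw [mul_add_one] at h3
  split_ifs <;> omega

theorem disj_aux (σ : Sys) (p q : ℕ → ℕ) (hJ : 0 < σ.J)
    (hpq : ∀ c < σ.K, (p c).Coprime (q c) ∧ σ.d c + 2 = p c * q c)
    (z : Finset Item) (hs : Sparse σ z) (k k' : ℕ) (hk : k ≤ σ.J) (hk' : k' ≤ σ.J) (n : ℕ) :
    ∀ c lev lev' dd dd' e e' S, c + n = σ.K → S ∈ σ.DD c → S ∉ z → Valid σ z k c lev →
      Valid σ z k' c lev' → Win σ p z k c lev dd e → Win σ q z k' c lev' dd' e' →
      n ≤ meas σ.J c (lev S) (lev' S) e e' dd dd' := by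
  induction n with
  | zero => intros; exact Nat.zero_le _
  | succ n ih =>
    intro c lev lev' dd dd' e e' S hc hS hz hv hv' hw hw'
    have hcK : c < σ.K := by omega
    have hS1 := σ.DD_succ c hS
    have i1 := (hv.1 S hS).2 hz
    have i2 := (hv'.1 S hS).2 hz
    have keep : ∀ l l' g g' f f', Child σ z k c lev l → Child σ z k' c lev' l' →
        Win σ p z k (c + 1) l g f → Win σ q z k' (c + 1) l' g' f' →
        n ≤ meas σ.J (c + 1) (lev S) (lev' S) f f' g g' := by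
      intro l l' g g' f f' a a' b b'
      have := ih (c + 1) l l' g g' f f' S (by omega) hS1 hz a.1 a'.1 b b'
      rwa [a.2.1 S hS, a'.2.1 S hS] at this
    have mov : ∀ l l' x, Child σ z k c lev l → Child σ z k' c lev' l' →
        Win σ p z k (c + 1) l dd e → Win σ q z k' (c + 1) l' dd' e' → x ∈ σ.Lam c →
        (c, x) :: S ∉ z → (lev S < l ((c, x) :: S) ∨ lev' S < l' ((c, x) :: S)) →
        n + 1 ≤ meas σ.J c (lev S) (lev' S) e e' dd dd' := by
      intro l l' x a a' b b' hx hxz hlt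
      have hm := σ.cons_mem hS hx
      have h1 := ih (c + 1) l l' dd dd' e e' _ (by omega) hm hxz a.1 a'.1 b b'
      have h2 := a.2.2 S hS x hx
      have h3 := a'.2.2 S hS x hx
      rw [a.2.1 S hS] at h2
      rw [a'.2.1 S hS] at h3
      have h4 := (a.1.1 _ hm).2 hxz
      have h5 := (a'.1.1 _ hm).2 hxz
      exact le_trans (Nat.succ_le_succ h1) (meas_drop hJ (by omega))
    rcases step_at hs hcK hw hS hz with ⟨e0, l, g, rfl, a1, a2⟩ | ⟨l, a1, a2, a3, a4⟩ <;>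
      rcases step_at hs hcK hw' hS hz with ⟨e0', l', g', rfl, b1, b2⟩ | ⟨l', b1, b2, b3, b4⟩
    · exact le_trans (Nat.succ_le_succ (keep _ _ _ _ _ _ a1 b1 a2 b2)) (meas_drop hJ (by omega))
    · exact le_trans (Nat.succ_le_succ (keep _ _ _ _ _ _ a1 b1 a2 b3)) (meas_drop hJ (by omega))
    · exact le_trans (Nat.succ_le_succ (keep _ _ _ _ _ _ a1 b1 a3 b2)) (meas_drop hJ (by omega))
    have hk0 := keep _ _ _ _ _ _ a1 b1 a3 b3
    by_cases d1 : lev S ∈ dd
    · by_cases e1 : lev S = c % σ.J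
      · obtain ⟨x, hx, h1, h2⟩ := a4 d1 e1
        exact mov _ _ x a1 b1 a3 b3 hx h1 (Or.inl h2)
      · have := Bwd.wait_succ (by omega : lev S < σ.J) c (Ne.symm e1)
        simp only [meas, d1, if_true] at hk0 ⊢
        omega
    by_cases d2 : lev' S ∈ dd'
    · by_cases e1 : lev' S = c % σ.J
      · obtain ⟨x, hx, h1, h2⟩ := b4 d2 e1
        exact mov _ _ x a1 b1 a3 b3 hx h1 (Or.inr h2)
      · have := Bwd.wait_succ (by omega : lev' S < σ.J) c (Ne.symm e1)
        simp only [meas, d1, d2, if_true, if_false] at hk0 ⊢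
        omega
    have c1 := (a2 _ (by omega) d1).1 S hS (a1.2.1 S hS)
    have c2 := (b2 _ (by omega) d2).1 S hS (b1.2.1 S hS)
    have hne : LL σ c l S ≠ LL σ c l' S := by
      intro h
      rw [← h] at c2
      have h1 := Nat.le_of_dvd (Nat.succ_pos _)
        ((hpq c hcK).1.mul_dvd_of_dvd_of_dvd c1.1 c2.1)
      have h2 := card_le_card (inter_subset_left : LL σ c l S ∩ σ.Cnt c ⊆ _)
      have h3 := (hpq c hcK).2
      omega
    have : ∃ x ∈ σ.Lam c, ¬ (l S < l ((c, x) :: S) ↔ l' S < l' ((c, x) :: S)) := by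
      by_contra hn
      push Not at hn
      exact hne (filter_congr hn)
    obtain ⟨x, hx, hxn⟩ := this
    rw [a1.2.1 S hS, b1.2.1 S hS] at hxn
    refine mov _ _ x a1 b1 a3 b3 hx (fun hxz => ?_) (by tauto)
    rw [(a1.1.1 _ (σ.cons_mem hS hx)).1 hxz, (b1.1.1 _ (σ.cons_mem hS hx)).1 hxz] at hxn
    omega

/-- Disjointness of the two games. -/
theorem hh_disj (σ : Sys) (p q : ℕ → ℕ) (hJ : 0 < σ.J)
    (hK : (σ.J + 1) * (2 * σ.J + 2 * beta σ.J σ.J) + σ.J < σ.K)
    (hpq : ∀ c < σ.K, (p c).Coprime (q c) ∧ σ.d c + 2 = p c * q c)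
    (z : Finset Item) (hs : Sparse σ z) (h0 : ([] : Item) ∉ z) (k k' : ℕ) (hk : k ≤ σ.J)
    (hk' : k' ≤ σ.J) (h1 : HH σ p k z) (h2 : HH σ q k' z) : False := by
  obtain ⟨lev, dd, -, hv, hw⟩ := h1
  obtain ⟨lev', dd', -, hv', hw'⟩ := h2
  have h := disj_aux σ p q hJ hpq z hs k k' hk hk' σ.K 0 lev lev' dd dd' _ _ [] (by omega)
    (σ.nil_mem 0) h0 hv hv' hw hw'
  have b1 := beta_mono σ.J hk
  have b2 := beta_mono σ.J hk'
  have h3 : (σ.J + 1) * (σ.J - lev [] + (σ.J - lev' []) + beta σ.J k + beta σ.J k') ≤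
      (σ.J + 1) * (2 * σ.J + 2 * beta σ.J σ.J) := Nat.mul_le_mul_left _ (by omega)
  have h4 := Bwd.wait_lt hJ (lev []) 0
  have h5 := Bwd.wait_lt hJ (lev' []) 0
  unfold meas at h
  split_ifs at h <;> omega

theorem phi_add_le (σ : Sys) (p q : ℕ → ℕ) (hJ : 0 < σ.J)
    (hK : (σ.J + 1) * (2 * σ.J + 2 * beta σ.J σ.J) + σ.J < σ.K)
    (hpq : ∀ c < σ.K, (p c).Coprime (q c) ∧ σ.d c + 2 = p c * q c)
    (z : Finset Item) (hs : Sparse σ z) (h0 : ([] : Item) ∉ z) :
    phi σ p z + phi σ q z ≤ 1 := by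
  classical
  by_cases h : ∃ k < σ.J, HH σ p k z
  · obtain ⟨k, hk, h1⟩ := h
    have : phi σ q z = 0 := by
      unfold phi
      rw [filter_false_of_mem fun k' hk' h2 =>
        hh_disj σ p q hJ hK hpq z hs h0 k k' hk.le (mem_range.1 hk').le h1 h2]
      simp
    linarith only [phi_le_one σ p z, this]
  · have : phi σ p z = 0 := by
      unfold phi
      rw [filter_false_of_mem fun k hk h1 => h ⟨k, mem_range.1 hk, h1⟩]
      simp
    linarith only [phi_le_one σ q z, this]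

end Pool.Agent.MP_dc1150_gt.Neg

end

section
namespace Pool.Agent.MP_dc1150_gt.Neg

open Finset

namespace Bwd

variable {σ : Sys} {p : ℕ → ℕ} {y z' : Finset Item} {F : ℕ → Finset Lab} {k : ℕ}

/-- The level function after the backward move. -/
def bw (σ : Sys) (y : Finset Item) (c : ℕ) (lev : Item → ℕ) : Item → ℕ :=
  fun S => if S ∈ σ.DD c ∧ S ∈ y then σ.J else lev S

/-- Layers containing an item of `y`. -/
def YY (σ : Sys) (y z' : Finset Item) (c : ℕ) (lev : Item → ℕ) : Finset ℕ :=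
  ((σ.DD c).filter fun S => S ∈ y ∧ S ∉ z').image lev

/-- A conflict. -/
def Conf (Y dd : Finset ℕ) : Prop := ∃ i ∈ Y, i ∉ dd ∧ i < Y.sup id

open Classical in
/-- The potential. -/
noncomputable def mu (J k c e : ℕ) (Y dd : Finset ℕ) : ℕ :=
  (J + 1) * (e + (k - Y.card)) + if Conf Y dd then wait J (Y.sup id) c else 0

theorem mem_YY {c : ℕ} {lev : Item → ℕ} {j : ℕ} :
    j ∈ YY σ y z' c lev ↔ ∃ S ∈ σ.DD c, S ∈ y ∧ S ∉ z' ∧ lev S = j := by
  simp [YY, and_assoc]

theorem YY_sub {c : ℕ} {lev : Item → ℕ} (hv : Valid σ z' k c lev) :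
    YY σ y z' c lev ⊆ range k := by
  intro j hj
  obtain ⟨S, hS, -, h, rfl⟩ := mem_YY.1 hj
  exact mem_range.2 ((hv.1 S hS).2 h)

theorem YY_child {c : ℕ} {lev lev' : Item → ℕ} (h : Child σ z' k c lev lev') :
    YY σ y z' c lev ⊆ YY σ y z' (c + 1) lev' := by
  intro j hj
  obtain ⟨S, hS, h1, h2, rfl⟩ := mem_YY.1 hj
  exact mem_YY.2 ⟨S, σ.DD_succ c hS, h1, h2, h.2.1 S hS⟩

theorem valid_le {z : Finset Item} {c : ℕ} {lev : Item → ℕ} (hk : k ≤ σ.J)
    (hv : Valid σ z k c lev) (S : Item) : lev S ≤ σ.J := by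
  by_cases hS : S ∈ σ.DD c
  · by_cases hz : S ∈ z
    · exact ((hv.1 S hS).1 hz).le
    · exact ((hv.1 S hS).2 hz).le.trans hk
  · rw [hv.2 S hS]; exact Nat.zero_le _

theorem valid_bw {c : ℕ} {lev : Item → ℕ} (hsub : z' ⊆ y) (hv : Valid σ z' k c lev) :
    Valid σ y (k + 1) c (bw σ y c lev) := by
  refine ⟨fun S hS => ⟨fun h => by simp [bw, hS, h], fun h => ?_⟩, fun S hS => ?_⟩
  · simp only [bw, h, and_false, if_false]
    exact ((hv.1 S hS).2 fun h' => h (hsub h')).trans (Nat.lt_succ_self k)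
  · simp [bw, hS, hv.2 S hS]

theorem le_bw {c : ℕ} {lev : Item → ℕ} (hk : k ≤ σ.J) (hv : Valid σ z' k c lev) (S : Item) :
    lev S ≤ bw σ y c lev S := by
  unfold bw
  split_ifs
  · exact valid_le hk hv S
  · exact le_rfl

theorem child_bw (hT : TM σ p y z' F) (hk : k ≤ σ.J) {c : ℕ} (hc : c < σ.K)
    {lev lev' : Item → ℕ} (h : Child σ z' k c lev lev') :
    Child σ y (k + 1) c (bw σ y c lev) (bw σ y (c + 1) lev') := by
  refine ⟨valid_bw hT.sub h.1, fun S hS => ?_, fun S hS x hx => ?_⟩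
  · simp [bw, hS, σ.DD_succ c hS, h.2.1 S hS]
  · by_cases hy : S ∈ y
    · simp [bw, hy, σ.DD_succ c hS, σ.cons_mem hS hx, hT.cly c hc S hS hy x hx]
    · refine le_trans ?_ (le_bw hk h.1 _)
      simpa [bw, hy] using h.2.2 S hS x hx

theorem loc_bw (hT : TM σ p y z' F) (hk : k ≤ σ.J) {c : ℕ}
    {lev lev' : Item → ℕ} {dd : Finset ℕ} (h : Child σ z' k c lev lev')
    (hcl : YY σ y z' (c + 1) lev' = YY σ y z' c lev) (hl : Loc σ p c lev' dd) :
    Loc σ p c (bw σ y (c + 1) lev') (dd ∪ YY σ y z' c lev) := by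
  have A : ∀ j < σ.J, j ∉ YY σ y z' c lev → ∀ S ∈ σ.DD (c + 1),
      (bw σ y (c + 1) lev' S = j ↔ lev' S = j) := by
    intro j hj hY S hS
    by_cases hy : S ∈ y
    · simp only [bw, hS, hy, and_self, if_true]
      refine ⟨fun e => absurd e hj.ne', fun e => ?_⟩
      by_cases hz : S ∈ z'
      · rw [← e, (h.1.1 S hS).1 hz]
      · exact absurd (hcl ▸ mem_YY.2 ⟨S, hS, hy, hz, e⟩) hY
    · simp [bw, hy]
  have B : ∀ j < σ.J, j ∉ YY σ y z' c lev → ∀ S ∈ σ.DD c, lev' S = j → ∀ x ∈ σ.Lam c,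
      (j < bw σ y (c + 1) lev' ((c, x) :: S) ↔ j < lev' ((c, x) :: S)) := by
    intro j hj hY S hS e x hx
    have h1 := A j hj hY _ (σ.cons_mem hS hx)
    have h2 := h.2.2 S hS x hx
    have h3 := le_bw (y := y) hk h.1 ((c, x) :: S)
    omega
  have C : ∀ j < σ.J, j ∉ YY σ y z' c lev → MM σ c (bw σ y (c + 1) lev') j = MM σ c lev' j := by
    intro j hj hY
    refine filter_congr fun x hx => exists_congr fun S => and_congr_right fun hS => ?_
    rw [A j hj hY S (σ.DD_succ c hS)]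
    exact and_congr_right fun e => B j hj hY S hS e x (σ.St_sub c hx)
  intro j hj hjd
  rw [mem_union, not_or] at hjd
  obtain ⟨l1, G, hG, l2, l3, l4⟩ := hl j hj hjd.1
  refine ⟨fun S hS e => ?_, G, hG, fun f hf S hS e => ?_, fun i hi hid f hf x hx hx' => ?_, ?_⟩
  · have e' := (A j hj hjd.2 S (σ.DD_succ c hS)).1 e
    have : LL σ c (bw σ y (c + 1) lev') S = LL σ c lev' S := by
      refine filter_congr fun x hx => ?_
      rw [e, e']
      exact B j hj hjd.2 S hS e' x hx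
    rw [this]
    exact l1 S hS e'
  · have e' := (A j hj hjd.2 S (σ.DD_succ c hS)).1 e
    exact (B j hj hjd.2 S hS e' f (σ.St_sub c (hG hf))).2 (l2 f hf S hS e')
  · rw [mem_union, not_or] at hid
    rw [C j hj hjd.2] at hx
    rw [C i (hi.trans hj) hid.2] at hx'
    exact l3 i hi hid.1 f hf x hx hx'
  · rw [C j hj hjd.2]
    exact l4

theorem F_mem_MM (hT : TM σ p y z' F) (hk : k ≤ σ.J) {c : ℕ} (hc : c < σ.K)
    {lev lev' : Item → ℕ} (hv : Valid σ z' k c lev) (h : Child σ z' k c lev lev') {i : ℕ}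
    (hi : i ∈ YY σ y z' c lev) {f : Lab} (hf : f ∈ F c) : f ∈ MM σ c lev' i := by
  have hik := mem_range.1 (YY_sub hv hi)
  obtain ⟨U, hU, hy, hz, e⟩ := mem_YY.1 hi
  have hfs := hT.Fst c hc hf
  refine mem_filter.2 ⟨hfs, U, hU, (h.2.1 U hU).trans e, ?_⟩
  rw [(h.1.1 _ (σ.cons_mem hU (σ.St_sub c hfs))).1 ((hT.cnt c hc U hU hy hz).2.2 f hf)]
  omega

theorem cons_mem_of_clean (hT : TM σ p y z' F) {c : ℕ} (hc : c < σ.K)
    {lev lev' : Item → ℕ} (hcl : YY σ y z' (c + 1) lev' = YY σ y z' c lev) {U : Item}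
    (hU : U ∈ σ.DD c) (hy : U ∈ y) {x : Lab} (hx : x ∈ σ.Lam c)
    (hlt : (YY σ y z' c lev).sup id < lev' ((c, x) :: U)) : (c, x) :: U ∈ z' := by
  by_contra hn
  have : lev' ((c, x) :: U) ∈ YY σ y z' c lev :=
    hcl ▸ mem_YY.2 ⟨_, σ.cons_mem hU hx, hT.cly c hc U hU hy x hx, hn, rfl⟩
  exact absurd (le_sup (f := id) this) (not_le.2 hlt)

theorem sup_mem {Y : Finset ℕ} {i : ℕ} (hi : i ∈ Y) : Y.sup id ∈ Y := by
  obtain ⟨a, ha, e⟩ := exists_mem_eq_sup Y ⟨i, hi⟩ id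
  rw [e]; exact ha

theorem fresh (hT : TM σ p y z' F) (hk : k ≤ σ.J) {c : ℕ} (hc : c < σ.K)
    {lev lev' : Item → ℕ} (hv : Valid σ z' k c lev) (h : Child σ z' k c lev lev')
    (hcl : YY σ y z' (c + 1) lev' = YY σ y z' c lev) {G : Finset Lab} (hG : G ⊆ σ.St c)
    (hY : (YY σ y z' c lev).sup id ∈ YY σ y z' c lev)
    (l2 : ∀ f ∈ G, ∀ S ∈ σ.DD c, lev' S = (YY σ y z' c lev).sup id →
      (YY σ y z' c lev).sup id < lev' ((c, f) :: S))
    (l4 : ∀ x ∈ MM σ c lev' ((YY σ y z' c lev).sup id), ∃ f ∈ G, ¬ Bt x f) :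
    ∃ g ∈ G, g ∈ Mt σ y z' c ∧ ∃ f ∈ F c, ¬ Bt f g := by
  obtain ⟨f, hf⟩ := hT.Fne c hc
  obtain ⟨g, hg, hb⟩ := l4 f (F_mem_MM hT hk hc hv h hY hf)
  obtain ⟨U, hU, hy, hz, e⟩ := mem_YY.1 hY
  exact ⟨g, hg, mem_filter.2 ⟨hG hg, U, hU, hy, hz, cons_mem_of_clean hT hc hcl hU hy
    (σ.St_sub c (hG hg)) (l2 g hg U hU ((h.2.1 U hU).trans e))⟩, f, hf, hb⟩

theorem no_conf (hT : TM σ p y z' F) (hk : k ≤ σ.J) {c : ℕ} (hc : c < σ.K)
    {lev lev' : Item → ℕ} {dd : Finset ℕ} (hv : Valid σ z' k c lev)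
    (h : Child σ z' k c lev lev') (hcl : YY σ y z' (c + 1) lev' = YY σ y z' c lev)
    (hl : Loc σ p c lev' dd) (hcf : Conf (YY σ y z' c lev) dd) :
    (YY σ y z' c lev).sup id ∈ dd := by
  by_contra hn
  obtain ⟨i, hi, hid, hlt⟩ := hcf
  have hY := sup_mem hi
  obtain ⟨-, G, hG, l2, l3, l4⟩ := hl _ (lt_of_lt_of_le (mem_range.1 (YY_sub hv hY)) hk) hn
  obtain ⟨g, hg, hgM, -⟩ := fresh hT hk hc hv h hcl hG hY l2 l4
  obtain ⟨f, hf, hb⟩ := hT.nb c hc g hgM
  exact hb (l3 i hlt hid g hg f (F_mem_MM hT hk hc hv h hY hf) (F_mem_MM hT hk hc hv h hi hf))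

open Classical in
/-- The labels offering a raising child. -/
noncomputable def Ph (σ : Sys) (p : ℕ → ℕ) (y : Finset Item) (k c : ℕ) (lev : Item → ℕ)
    (dd : Finset ℕ) (e : ℕ) : Finset Lab :=
  (σ.Lam c).filter fun x => ∃ ch : Item → ℕ, Child σ y k c lev ch ∧ Loc σ p c ch dd ∧
    Win σ p y k (c + 1) ch dd e ∧
      ∀ S ∈ σ.DD c, lev S = c % σ.J → c % σ.J < ch ((c, x) :: S)

theorem mem_Ph {c : ℕ} {lev : Item → ℕ} {dd : Finset ℕ} {e : ℕ} {x : Lab} :
    x ∈ Ph σ p y k c lev dd e ↔ x ∈ σ.Lam c ∧ ∃ ch : Item → ℕ, Child σ y k c lev ch ∧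
      Loc σ p c ch dd ∧ Win σ p y k (c + 1) ch dd e ∧
        ∀ S ∈ σ.DD c, lev S = c % σ.J → c % σ.J < ch ((c, x) :: S) := by
  simp only [Ph, mem_filter]

theorem mu_drop {J k c e e0 : ℕ} (hJ : 0 < J) {Y Y' dd dd' : Finset ℕ}
    (h : e0 + (k - Y'.card) + 1 ≤ e + (k - Y.card)) :
    mu J k (c + 1) e0 Y' dd' + 1 ≤ mu J k c e Y dd := by
  unfold mu
  have h1 := wait_lt hJ (Y'.sup id) (c + 1)
  have h2 := Nat.mul_le_mul_left (J + 1) h
  rw [mul_add_one] at h2
  split_ifs <;> omega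

theorem main (hT : TM σ p y z' F) (hk : k < σ.J) (W : ℕ → Finset Lab) (hA : Avoid σ y z' F W)
    (hW : ∀ c lev dd e, Valid σ y (k + 1) c lev → dd ⊆ range σ.J → e ≤ beta σ.J σ.J →
      (Ph σ p y (k + 1) c lev dd e).card ≤ σ.d c → Ph σ p y (k + 1) c lev dd e ⊆ W c)
    {c : ℕ} {lev : Item → ℕ} {dd : Finset ℕ} {e : ℕ} (hw : Win σ p z' k c lev dd e) :
    Valid σ z' k c lev → dd ⊆ range k → ∀ e', mu σ.J k c e (YY σ y z' c lev) dd ≤ e' →
      e' ≤ beta σ.J σ.J →
      Win σ p y (k + 1) c (bw σ y c lev) (dd ∪ YY σ y z' c lev) e' := by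
  have hJ : 0 < σ.J := by omega
  have skp : ∀ (c : ℕ) (lev lev' : Item → ℕ) (dd dd' : Finset ℕ) (e e0 e' : ℕ), c < σ.K →
      Child σ z' k c lev lev' → dd ⊆ dd' → dd' ⊆ range k →
      mu σ.J k (c + 1) e0 (YY σ y z' (c + 1) lev') dd' + 1 ≤ mu σ.J k c e (YY σ y z' c lev) dd →
      mu σ.J k c e (YY σ y z' c lev) dd ≤ e' → e' ≤ beta σ.J σ.J →
      (∀ e', mu σ.J k (c + 1) e0 (YY σ y z' (c + 1) lev') dd' ≤ e' → e' ≤ beta σ.J σ.J →
        Win σ p y (k + 1) (c + 1) (bw σ y (c + 1) lev') (dd' ∪ YY σ y z' (c + 1) lev') e') →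
      Win σ p y (k + 1) c (bw σ y c lev) (dd ∪ YY σ y z' c lev) e' := by
    intro c lev lev' dd dd' e e0 e' hc hch h1 h2 h3 h4 h5 ih
    obtain ⟨e'', rfl⟩ : ∃ e'', e' = e'' + 1 := ⟨e' - 1, by omega⟩
    exact Win.skip _ _ _ _ _ _ hc (child_bw hT hk.le hc hch)
      (union_subset_union h1 (YY_child hch))
      ((union_subset h2 (YY_sub hch.1)).trans (range_mono (Nat.le_succ k)))
      (ih e'' (by omega) (by omega))
  have dirty : ∀ (c : ℕ) (lev lev' : Item → ℕ) (dd : Finset ℕ) (e : ℕ),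
      Child σ z' k c lev lev' → YY σ y z' (c + 1) lev' ≠ YY σ y z' c lev →
      mu σ.J k (c + 1) e (YY σ y z' (c + 1) lev') dd + 1 ≤ mu σ.J k c e (YY σ y z' c lev) dd := by
    intro c lev lev' dd e hch hne
    have h1 := card_lt_card (ssubset_of_subset_of_ne (YY_child (y := y) hch) hne.symm)
    have h2 := card_le_card (YY_sub (y := y) hch.1)
    rw [card_range] at h2
    exact mu_drop hJ (by omega)
  have waitc : ∀ (c : ℕ) (Y dd : Finset ℕ) (e : ℕ), Y ⊆ range k → Conf Y dd →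
      c % σ.J ≠ Y.sup id → mu σ.J k (c + 1) e Y dd + 1 ≤ mu σ.J k c e Y dd := by
    intro c Y dd e hY hcf hne
    have hcf' := hcf
    obtain ⟨i, hi, -⟩ := hcf'
    have := wait_succ ((mem_range.1 (hY (sup_mem hi))).trans hk) c hne
    simp only [mu, hcf, if_true]
    omega
  have same : ∀ (c : ℕ) (Y dd : Finset ℕ) (e : ℕ), ¬ Conf Y dd →
      mu σ.J k (c + 1) e Y dd = mu σ.J k c e Y dd := by
    intro c Y dd e h
    simp only [mu, h, if_false]
  induction hw with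
  | done lev dd e => intro _ _ e' _ _; exact Win.done _ _ _
  | skip c lev dd e lev' dd' hc hch hdd hk' _ ih =>
    intro hv hd e' h1 h2
    have := card_le_card (YY_child (y := y) hch)
    exact skp c lev lev' dd dd' _ e e' hc hch hdd hk' (mu_drop hJ (by omega)) h1 h2
      (ih hch.1 hk')
  | one c lev dd e lev' hc hdem hch hloc _ ih =>
    intro hv hd e' h1 h2
    have ih' := ih hch.1 hd
    by_cases hcl : YY σ y z' (c + 1) lev' = YY σ y z' c lev
    swap
    · exact skp c lev lev' dd dd e e e' hc hch Subset.rfl hd (dirty c lev lev' dd e hch hcl)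
        h1 h2 ih'
    by_cases hcf : Conf (YY σ y z' c lev) dd
    · have hδ := no_conf hT hk.le hc hv hch hcl hloc hcf
      refine skp c lev lev' dd dd e e e' hc hch Subset.rfl hd ?_ h1 h2 ih'
      rw [hcl]
      exact waitc c _ dd e (YY_sub hv) hcf fun h => hdem (h ▸ hδ)
    have hwin := ih' e' (by rw [hcl, same c _ dd e hcf]; exact h1) h2
    rw [hcl] at hwin
    have hch' := child_bw hT hk.le hc hch
    have hloc' := loc_bw hT hk.le hch hcl hloc
    by_cases hY : c % σ.J ∈ YY σ y z' c lev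
    swap
    · exact Win.one _ _ _ _ _ hc (by simp [hdem, hY]) hch' hloc' hwin
    have hδ : (YY σ y z' c lev).sup id = c % σ.J :=
      le_antisymm (not_lt.1 fun h => hcf ⟨_, hY, hdem, h⟩) (le_sup (f := id) hY)
    obtain ⟨-, G, hG, l2, -, l4⟩ := hloc _ (Nat.mod_lt c hJ) hdem
    obtain ⟨g, hg, hgM, f, hf, hb⟩ := fresh hT hk.le hc hv hch hcl hG (hδ ▸ hY)
      (hδ ▸ l2) (hδ ▸ l4)
    have hgP : g ∈ Ph σ p y (k + 1) c (bw σ y c lev) (dd ∪ YY σ y z' c lev) e' := by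
      refine mem_Ph.2 ⟨σ.St_sub c (hG hg), _, hch', hloc', hwin, fun S hS hS' => ?_⟩
      refine lt_of_lt_of_le (l2 g hg S hS ?_) (le_bw hk.le hch.1 _)
      rw [hch.2.1 S hS]
      have := Nat.mod_lt c hJ
      unfold bw at hS'
      split_ifs at hS' <;> omega
    have hbig : σ.d c < (Ph σ p y (k + 1) c (bw σ y c lev) (dd ∪ YY σ y z' c lev) e').card := by
      by_contra hn
      exact hb (hA c hc g hgM (hW c _ _ _ (valid_bw hT.sub hv)
        ((union_subset hd (YY_sub hv)).trans (range_mono hk.le)) h2 (not_lt.1 hn) hgP) f hf)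
    have hall : ∀ x ∈ Ph σ p y (k + 1) c (bw σ y c lev) (dd ∪ YY σ y z' c lev) e', _ :=
      fun x hx => (mem_Ph.1 hx).2
    choose! ch a1 a2 a3 a4 using hall
    exact Win.rich _ _ _ _ _ ch hc (mem_union_right _ hY) (fun x hx => (mem_Ph.1 hx).1) hbig a1 a2 a3 a4
  | rich c lev dd e X ch hc hdem hX hcard hch hloc _ hup ih =>
    intro hv hd e' h1 h2
    by_cases hcl : ∀ x ∈ X, YY σ y z' (c + 1) (ch x) = YY σ y z' c lev
    swap
    · push Not at hcl
      obtain ⟨x, hx, hne⟩ := hcl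
      exact skp c lev (ch x) dd dd e e e' hc (hch x hx) Subset.rfl hd
        (dirty c lev _ dd e (hch x hx) hne) h1 h2 (ih x hx (hch x hx).1 hd)
    by_cases hcf : Conf (YY σ y z' c lev) dd
    · obtain ⟨x0, hx0⟩ : X.Nonempty := card_pos.1 (by omega)
      refine skp c lev (ch x0) dd dd e e e' hc (hch x0 hx0) Subset.rfl hd ?_ h1 h2
        (ih x0 hx0 (hch x0 hx0).1 hd)
      rw [hcl x0 hx0]
      refine waitc c _ dd e (YY_sub hv) hcf fun h => ?_
      obtain ⟨i, hi, -⟩ := hcf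
      obtain ⟨U, hU, hy, hz, e1⟩ := mem_YY.1 (sup_mem hi)
      have : X ⊆ Lt σ z' c U := fun x hx => mem_filter.2 ⟨hX hx,
        cons_mem_of_clean hT hc (hcl x hx) hU hy (hX hx) (h ▸ hup x hx U hU (e1.trans h.symm))⟩
      have h3 := (card_le_card this).trans (hT.cnt c hc U hU hy hz).2.1
      omega
    refine Win.rich _ _ _ _ X (fun x => bw σ y (c + 1) (ch x)) hc (mem_union_left _ hdem) hX hcard
      (fun x hx => child_bw hT hk.le hc (hch x hx))
      (fun x hx => loc_bw hT hk.le (hch x hx) (hcl x hx) (hloc x hx)) (fun x hx => ?_)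
      fun x hx S hS hS' => ?_
    · have := ih x hx (hch x hx).1 hd e' (by rw [hcl x hx, same c _ dd e hcf]; exact h1) h2
      rwa [hcl x hx] at this
    · refine lt_of_lt_of_le (hup x hx S hS ?_) (le_bw hk.le (hch x hx).1 _)
      have := Nat.mod_lt c hJ
      unfold bw at hS'
      split_ifs at hS' <;> omega

/-- A union over all states. -/
theorem states (σ : Sys) (Δ : ℕ → ℕ) (hΔ : ∀ c, (σ.DD c).card ≤ Δ c) (c b : ℕ)
    (G : (Item → ℕ) → Finset ℕ → ℕ → Finset Lab) (hG : ∀ lev dd e, (G lev dd e).card ≤ b) :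
    ∃ W : Finset Lab, W.card ≤ nst σ.J (Δ c) * b ∧ ∀ lev dd e, (∀ S, lev S ≤ σ.J) →
      (∀ S, S ∉ σ.DD c → lev S = 0) → dd ⊆ range σ.J → e ≤ beta σ.J σ.J → G lev dd e ⊆ W := by
  classical
  refine ⟨((univ : Finset (σ.DD c → Fin (σ.J + 1))) ×ˢ (range σ.J).powerset ×ˢ
    range (beta σ.J σ.J + 1)).biUnion fun a =>
      G (fun S => if h : S ∈ σ.DD c then a.1 ⟨S, h⟩ else 0) a.2.1 a.2.2, ?_, ?_⟩
  · refine (card_biUnion_le_card_mul _ _ b fun a _ => hG _ _ _).trans
      (Nat.mul_le_mul_right _ ?_)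
    simp only [card_product, card_univ, Fintype.card_fun, Fintype.card_fin, Fintype.card_coe,
      card_powerset, card_range, nst, ← mul_assoc]
    gcongr
    · omega
    · exact hΔ c
  · intro lev dd e h1 h2 h3 h4 x hx
    refine mem_biUnion.2 ⟨(fun S => ⟨lev S, Nat.lt_succ_of_le (h1 S)⟩, dd, e), ?_, ?_⟩
    · simp only [mem_product, mem_univ, mem_powerset, mem_range, true_and]
      exact ⟨h3, by omega⟩
    · convert hx using 2
      funext S
      split_ifs with h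
      · rfl
      · exact (h2 S h).symm

end Bwd

open Bwd in
/-- Backward step. -/
theorem hh_bwd (σ : Sys) (p : ℕ → ℕ) (Δ : ℕ → ℕ) (hΔ : ∀ c, (σ.DD c).card ≤ Δ c)
    (k : ℕ) (hk : k < σ.J) (y : Finset Item) :
    ∃ W : ℕ → Finset Lab,
      (∀ c < σ.K, (W c).card ≤ nst σ.J (Δ c) * σ.d c) ∧
      ∀ z' F, TM σ p y z' F → Avoid σ y z' F W → HH σ p k z' → HH σ p (k + 1) y := by
  choose W hW1 hW2 using fun c => states σ Δ hΔ c (σ.d c)
    (fun lev dd e => if (Ph σ p y (k + 1) c lev dd e).card ≤ σ.d c then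
      Ph σ p y (k + 1) c lev dd e else ∅) (fun lev dd e => by split_ifs with h <;> simp [*])
  refine ⟨W, fun c _ => hW1 c, fun z' F hT hA => ?_⟩
  rintro ⟨lev, dd, hd, hv, hw⟩
  refine ⟨_, _, (union_subset hd (YY_sub hv)).trans (range_mono (Nat.le_succ k)),
    valid_bw hT.sub hv, main hT hk W hA (fun c lev dd e h1 h2 h3 h4 => ?_) hw hv hd _ ?_
      (beta_mono _ hk)⟩
  · have := hW2 c lev dd e (valid_le hk h1) h1.2 h2 h3
    rwa [if_pos h4] at this
  · have h1 := wait_lt (by omega : 0 < σ.J) ((YY σ y z' 0 lev).sup id) 0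
    have h2 : (σ.J + 1) * (beta σ.J k + (k - (YY σ y z' 0 lev).card)) ≤
        (σ.J + 1) * (beta σ.J k + σ.J) := Nat.mul_le_mul_left _ (by omega)
    simp only [mu, beta, mul_add_one]
    split_ifs <;> omega

end Pool.Agent.MP_dc1150_gt.Neg

end

section
namespace Pool.Agent.MP_dc1150_gt.Neg

open Finset

namespace Fwd

variable {σ : Sys} {p : ℕ → ℕ} {y z' : Finset Item} {F : ℕ → Finset Lab} {k : ℕ}

/-- The level function after the forward move. -/
def fw (σ : Sys) (z' : Finset Item) (k : ℕ) (lev : Item → ℕ) : Item → ℕ :=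
  fun S => if lev S = σ.J ∧ S ∉ z' then k else lev S

theorem fw_cases (hT : TM σ p y z' F) (hk : k < σ.J) {c : ℕ} {lev : Item → ℕ}
    (hv : Valid σ y k c lev) {S : Item} (hS : S ∈ σ.DD c) :
    (S ∈ z' ∧ S ∈ y ∧ lev S = σ.J ∧ fw σ z' k lev S = σ.J) ∨
    (S ∉ z' ∧ S ∈ y ∧ lev S = σ.J ∧ fw σ z' k lev S = k) ∨
    (S ∉ z' ∧ S ∉ y ∧ lev S < k ∧ fw σ z' k lev S = lev S) := by
  by_cases hy : S ∈ y
  · have := (hv.1 S hS).1 hy
    by_cases hz : S ∈ z' <;> simp [fw, *]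
  · have h1 := (hv.1 S hS).2 hy
    have hz : S ∉ z' := fun h => hy (hT.sub h)
    have h2 : lev S ≠ σ.J := by omega
    simp [fw, *]

theorem valid_fw (hT : TM σ p y z' F) (hk : k < σ.J) {c : ℕ} {lev : Item → ℕ}
    (hv : Valid σ y k c lev) : Valid σ z' (k + 1) c (fw σ z' k lev) := by
  refine ⟨fun S hS => ?_, fun S hS => ?_⟩
  · rcases fw_cases hT hk hv hS with h | h | h
    · exact ⟨fun _ => h.2.2.2, fun a => absurd h.1 a⟩
    · exact ⟨fun a => absurd a h.1, fun _ => by omega⟩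
    · exact ⟨fun a => absurd a h.1, fun _ => by omega⟩
  · have h1 := hv.2 S hS
    have h2 : lev S ≠ σ.J := by omega
    simp only [fw, h2, false_and, if_false]
    exact h1

theorem child_fw (hT : TM σ p y z' F) (hk : k < σ.J) {c : ℕ} (hc : c < σ.K)
    {lev lev' : Item → ℕ} (h : Child σ y k c lev lev') :
    Child σ z' (k + 1) c (fw σ z' k lev) (fw σ z' k lev') := by
  refine ⟨valid_fw hT hk h.1, fun S hS => by simp only [fw, h.2.1 S hS], fun S hS x hx => ?_⟩
  have h1 := h.2.2 S hS x hx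
  have h2 := hT.clz c hc S hS
  rcases fw_cases hT hk h.1 (σ.DD_succ c hS) with a | a | a <;>
    rcases fw_cases hT hk h.1 (σ.cons_mem hS hx) with b | b | b
  all_goals first | omega | exact absurd (h2 a.1 x hx) b.1

/-- All labels raising an undamaged layer. -/
def Mall (σ : Sys) (c : ℕ) (lev' : Item → ℕ) (dd : Finset ℕ) : Finset Lab :=
  ((σ.DD c).filter fun S => lev' S < σ.J ∧ lev' S ∉ dd).biUnion (LL σ c lev')

theorem card_Mall {c : ℕ} {lev' : Item → ℕ} {dd : Finset ℕ} (hl : Loc σ p c lev' dd) {Δ : ℕ}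
    (hΔ : (σ.DD c).card ≤ Δ) : (Mall σ c lev' dd).card ≤ Δ * σ.d c := by
  refine (card_biUnion_le_card_mul _ _ (σ.d c) fun S hS => ?_).trans
    (Nat.mul_le_mul_right _ ((card_filter_le _ _).trans hΔ))
  obtain ⟨h1, h2, h3⟩ := mem_filter.1 hS
  exact ((hl _ h2 h3).1 S h1 rfl).2

theorem loc_fw (hT : TM σ p y z' F) (hk : k < σ.J) {c : ℕ} (hc : c < σ.K)
    {lev lev' : Item → ℕ} {dd : Finset ℕ} (h : Child σ y k c lev lev') (hl : Loc σ p c lev' dd)
    (hA : ∀ x ∈ Mt σ y z' c, x ∈ Mall σ c lev' dd → ∀ f ∈ F c, Bt f x) :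
    Loc σ p c (fw σ z' k lev') dd := by
  have A : ∀ j < k, ∀ S ∈ σ.DD (c + 1),
      (fw σ z' k lev' S = j ↔ lev' S = j) ∧ (j < fw σ z' k lev' S ↔ j < lev' S) := by
    intro j hj S hS
    rcases fw_cases hT hk h.1 hS with a | a | a <;> omega
  have B : ∀ S ∈ σ.DD (c + 1),
      (fw σ z' k lev' S = k ↔ S ∈ y ∧ S ∉ z') ∧ (k < fw σ z' k lev' S ↔ S ∈ z') := by
    intro S hS
    rcases fw_cases hT hk h.1 hS with a | a | a <;> simp only [a.1, a.2.1, a.2.2.2] <;>
      simp <;> omega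
  have C : ∀ j < k, MM σ c (fw σ z' k lev') j = MM σ c lev' j := by
    intro j hj
    refine filter_congr fun x hx => exists_congr fun S => and_congr_right fun hS => ?_
    rw [(A j hj S (σ.DD_succ c hS)).1, (A j hj _ (σ.cons_mem hS (σ.St_sub c hx))).2]
  have D : MM σ c (fw σ z' k lev') k = Mt σ y z' c := by
    refine filter_congr fun x hx => exists_congr fun S => and_congr_right fun hS => ?_
    rw [(B S (σ.DD_succ c hS)).1, (B _ (σ.cons_mem hS (σ.St_sub c hx))).2, and_assoc]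
  intro j hj hjd
  rcases lt_trichotomy j k with hjk | rfl | hjk
  · obtain ⟨l1, G, hG, l2, l3, l4⟩ := hl j hj hjd
    refine ⟨fun S hS e => ?_, G, hG, fun f hf S hS e => ?_, fun i hi hid f hf x hx hx' => ?_, ?_⟩
    · have e' := (A j hjk S (σ.DD_succ c hS)).1.1 e
      have : LL σ c (fw σ z' k lev') S = LL σ c lev' S := by
        refine filter_congr fun x hx => ?_
        rw [e, e']
        exact (A j hjk _ (σ.cons_mem hS hx)).2
      rw [this]
      exact l1 S hS e'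
    · exact (A j hjk _ (σ.cons_mem hS (σ.St_sub c (hG hf)))).2.2
        (l2 f hf S hS ((A j hjk S (σ.DD_succ c hS)).1.1 e))
    · rw [C j hjk] at hx
      rw [C i (hi.trans hjk)] at hx'
      exact l3 i hi hid f hf x hx hx'
    · rw [C j hjk]
      exact l4
  · refine ⟨fun S hS e => ?_, F c, hT.Fst c hc, fun f hf S hS e => ?_,
      fun i hi hid f hf x hx hx' => ?_, ?_⟩
    · have e' := (B S (σ.DD_succ c hS)).1.1 e
      have : LL σ c (fw σ z' j lev') S = Lt σ z' c S := by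
        refine filter_congr fun x hx => ?_
        rw [e]
        exact (B _ (σ.cons_mem hS hx)).2
      rw [this]
      exact ⟨(hT.cnt c hc S hS e'.1 e'.2).1, (hT.cnt c hc S hS e'.1 e'.2).2.1⟩
    · have e' := (B S (σ.DD_succ c hS)).1.1 e
      exact (B _ (σ.cons_mem hS (σ.St_sub c (hT.Fst c hc hf)))).2.2
        ((hT.cnt c hc S hS e'.1 e'.2).2.2 f hf)
    · rw [D] at hx
      rw [C i hi] at hx'
      obtain ⟨h1, S, hS, h2, h3⟩ := mem_filter.1 hx'
      refine hA x hx (mem_biUnion.2 ⟨S, mem_filter.2 ⟨hS, by omega, h2 ▸ hid⟩, ?_⟩) f hf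
      exact mem_filter.2 ⟨σ.St_sub c h1, h2 ▸ h3⟩
    · rw [D]
      exact hT.nb c hc
  · have E : ∀ S ∈ σ.DD c, fw σ z' k lev' S ≠ j := by
      intro S hS
      rcases fw_cases hT hk h.1 (σ.DD_succ c hS) with a | a | a <;> omega
    refine ⟨fun S hS e => absurd e (E S hS), ∅, empty_subset _, by simp, by simp only [notMem_empty, Prod.forall, Bool.forall_bool, IsEmpty.forall_iff, implies_true], fun x hx => ?_⟩
    obtain ⟨-, S, hS, e, -⟩ := mem_filter.1 hx
    exact absurd e (E S hS)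

/-- One move of the game with all labels of its children inside `G`. -/
def Mv (σ : Sys) (p : ℕ → ℕ) (y : Finset Item) (k c : ℕ) (lev : Item → ℕ) (dd : Finset ℕ)
    (e : ℕ) (G : Finset Lab) : Prop :=
  (∃ e0 lev' dd', e = e0 + 1 ∧ Child σ y k c lev lev' ∧ dd ⊆ dd' ∧ dd' ⊆ range k ∧
    Win σ p y k (c + 1) lev' dd' e0) ∨
  (c % σ.J ∉ dd ∧ ∃ lev', Child σ y k c lev lev' ∧ Loc σ p c lev' dd ∧
    Win σ p y k (c + 1) lev' dd e ∧ Mall σ c lev' dd ⊆ G) ∨
  (c % σ.J ∈ dd ∧ ∃ (X : Finset Lab) (ch : Lab → Item → ℕ), X ⊆ σ.Lam c ∧ σ.d c < X.card ∧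
    ∀ x ∈ X, Child σ y k c lev (ch x) ∧ Loc σ p c (ch x) dd ∧ Win σ p y k (c + 1) (ch x) dd e ∧
      (∀ S ∈ σ.DD c, lev S = c % σ.J → c % σ.J < ch x ((c, x) :: S)) ∧ Mall σ c (ch x) dd ⊆ G)

theorem exists_mv {Δ c : ℕ} (hΔ : (σ.DD c).card ≤ Δ) (lev : Item → ℕ) (dd : Finset ℕ) (e : ℕ) :
    ∃ G : Finset Lab, G.card ≤ (σ.d c + 1) * (Δ * σ.d c) ∧
      (c < σ.K → Win σ p y k c lev dd e → Mv σ p y k c lev dd e G) := by
  by_cases h : c < σ.K ∧ Win σ p y k c lev dd e
  swap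
  · exact ⟨∅, by simp, fun a b => absurd ⟨a, b⟩ h⟩
  obtain ⟨hc, hw⟩ := h
  cases hw with
  | done => omega
  | skip _ _ _ e lev' dd' _ hch hdd hk hw =>
    exact ⟨∅, by simp, fun _ _ => Or.inl ⟨e, lev', dd', rfl, hch, hdd, hk, hw⟩⟩
  | one _ _ _ _ lev' _ hdem hch hloc hw =>
    exact ⟨_, (card_Mall hloc hΔ).trans (Nat.le_mul_of_pos_left _ (Nat.succ_pos _)),
      fun _ _ => Or.inr (Or.inl ⟨hdem, lev', hch, hloc, hw, Subset.rfl⟩)⟩
  | rich _ _ _ _ X ch _ hdem hX hcard hch hloc hw hup =>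
    obtain ⟨X', h1, h2⟩ := exists_subset_card_eq (s := X) (n := σ.d c + 1) hcard
    refine ⟨X'.biUnion fun x => Mall σ c (ch x) dd, ?_, fun _ _ => Or.inr (Or.inr
      ⟨hdem, X', ch, h1.trans hX, by omega, fun x hx => ⟨hch x (h1 hx), hloc x (h1 hx),
        hw x (h1 hx), hup x (h1 hx), subset_biUnion_of_mem (fun x => Mall σ c (ch x) dd) hx⟩⟩)⟩
    rw [← h2]
    exact card_biUnion_le_card_mul _ _ _ fun x hx => card_Mall (hloc x (h1 hx)) hΔ

theorem main (hT : TM σ p y z' F) (hk : k < σ.J) (W : ℕ → Finset Lab) (hA : Avoid σ y z' F W)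
    (hW : ∀ c < σ.K, ∀ lev dd e, Valid σ y k c lev → dd ⊆ range k → e ≤ beta σ.J σ.J →
      Win σ p y k c lev dd e → ∃ G ⊆ W c, Mv σ p y k c lev dd e G) (n : ℕ) :
    ∀ c lev dd e, c + n = σ.K → Valid σ y k c lev → dd ⊆ range k → e ≤ beta σ.J σ.J →
      Win σ p y k c lev dd e → Win σ p z' (k + 1) c (fw σ z' k lev) dd e := by
  induction n with
  | zero =>
    intro c lev dd e hc _ _ _ _
    obtain rfl : c = σ.K := by omega
    exact Win.done _ _ _
  | succ n ih =>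
    intro c lev dd e hc hv hd he hw
    have hcK : c < σ.K := by omega
    obtain ⟨G, hG, hm⟩ := hW c hcK lev dd e hv hd he hw
    rcases hm with ⟨e0, lev', dd', rfl, a1, a2, a3, a4⟩ | ⟨a0, lev', a1, a2, a3, a4⟩ |
      ⟨a0, X, ch, a1, a2, a3⟩
    · exact Win.skip _ _ _ _ _ _ hcK (child_fw hT hk hcK a1) a2
        (a3.trans (range_mono (Nat.le_succ k))) (ih _ _ _ _ (by omega) a1.1 a3 (by omega) a4)
    · exact Win.one _ _ _ _ _ hcK a0 (child_fw hT hk hcK a1)
        (loc_fw hT hk hcK a1 a2 fun x hx h => hA c hcK x hx (hG (a4 h)))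
        (ih _ _ _ _ (by omega) a1.1 hd he a3)
    · refine Win.rich _ _ _ _ X (fun x => fw σ z' k (ch x)) hcK a0 a1 a2
        (fun x hx => child_fw hT hk hcK (a3 x hx).1)
        (fun x hx => loc_fw hT hk hcK (a3 x hx).1 (a3 x hx).2.1 fun x' hx' h =>
          hA c hcK x' hx' (hG ((a3 x hx).2.2.2.2 h)))
        (fun x hx => ih _ _ _ _ (by omega) (a3 x hx).1.1 hd he (a3 x hx).2.2.1)
        fun x hx S hS e1 => ?_
      have h1 := mem_range.1 (hd a0)
      have h2 := (a3 x hx).2.2.2.1 S hS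
      rcases fw_cases hT hk hv hS with a | a | a <;>
        rcases fw_cases hT hk (a3 x hx).1.1 (σ.cons_mem hS (a1 hx)) with b | b | b <;> omega

end Fwd

open Fwd in
/-- Forward step. -/
theorem hh_fwd (σ : Sys) (p : ℕ → ℕ) (Δ : ℕ → ℕ) (hΔ : ∀ c, (σ.DD c).card ≤ Δ c)
    (k : ℕ) (hk : k < σ.J) (y : Finset Item) :
    ∃ W : ℕ → Finset Lab,
      (∀ c < σ.K, (W c).card ≤ nst σ.J (Δ c) * ((σ.d c + 1) * (Δ c * σ.d c))) ∧
      ∀ z' F, TM σ p y z' F → Avoid σ y z' F W → HH σ p k y → HH σ p (k + 1) z' := by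
  choose G hG1 hG2 using fun c lev dd e =>
    exists_mv (σ := σ) (p := p) (y := y) (k := k) (hΔ c) lev dd e
  choose W hW1 hW2 using fun c => Bwd.states σ Δ hΔ c _ (G c) (hG1 c)
  refine ⟨W, fun c _ => hW1 c, fun z' F hT hA => ?_⟩
  rintro ⟨lev, dd, hd, hv, hw⟩
  refine ⟨_, dd, hd.trans (range_mono (Nat.le_succ k)), valid_fw hT hk hv,
    (main hT hk W hA (fun c hc lev dd e h1 h2 h3 h4 => ⟨_, hW2 c lev dd e
      (Bwd.valid_le hk.le h1) h1.2 (h2.trans (range_mono hk.le)) h3, hG2 c lev dd e hc h4⟩) σ.K 0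
      lev dd _ (by omega) hv hd (beta_mono _ hk.le) hw).mono_e (beta_mono _ (Nat.le_succ k))⟩

end Pool.Agent.MP_dc1150_gt.Neg

end

section
namespace Pool.Agent.MP_dc1150_gt.Neg

open Finset

theorem count_shift (J : ℕ) (P Q : ℕ → Prop) [DecidablePred P] [DecidablePred Q]
    (h : ∀ k < J, P k → Q (k + 1)) :
    ((range J).filter P).card ≤ ((range J).filter Q).card + 1 := by
  have h1 : ((range J).filter P).card ≤ (insert J ((range J).filter Q)).card := by
    refine card_le_card_of_injOn (fun k => k + 1) (fun k hk => ?_) fun a _ b _ e => by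
      simpa using e
    simp only [coe_filter, mem_range, Set.mem_setOf_eq, coe_insert, Set.mem_insert_iff] at hk ⊢
    rcases Nat.lt_or_ge (k + 1) J with a | a
    · exact Or.inr ⟨a, h k hk.1 hk.2⟩
    · exact Or.inl (by omega)
  exact h1.trans (card_insert_le _ _)

/-- The smoothed indicator is Lipschitz along true moves. -/
theorem phi_lip (σ : Sys) (p : ℕ → ℕ) (Δ : ℕ → ℕ) (hΔ : ∀ c, (σ.DD c).card ≤ Δ c)
    (hJ : 0 < σ.J) (y : Finset Item) :
    ∃ W : ℕ → Finset Lab, (∀ c < σ.K, (W c).card ≤ bav σ.J (Δ c) (σ.d c)) ∧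
      ∀ z' F, TM σ p y z' F → Avoid σ y z' F W → |phi σ p y - phi σ p z'| ≤ 1 / σ.J := by
  classical
  choose! W1 a1 b1 using fun k hk => hh_fwd σ p Δ hΔ k hk y
  choose! W2 a2 b2 using fun k hk => hh_bwd σ p Δ hΔ k hk y
  refine ⟨fun c => (range σ.J).biUnion fun k => W1 k c ∪ W2 k c, fun c hc => ?_,
    fun z' F hT hA => ?_⟩
  · refine (card_biUnion_le_card_mul _ _ _ fun k hk => (card_union_le _ _).trans
      (Nat.add_le_add (a1 k (mem_range.1 hk) c hc) (a2 k (mem_range.1 hk) c hc))).trans ?_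
    rw [card_range, bav]
  · have h1 := count_shift σ.J (fun k => HH σ p k y) (fun k => HH σ p k z') fun k hk =>
      b1 k hk z' F hT fun c hc x hx hW => hA c hc x hx
        (mem_biUnion.2 ⟨k, mem_range.2 hk, mem_union_left _ hW⟩)
    have h2 := count_shift σ.J (fun k => HH σ p k z') (fun k => HH σ p k y) fun k hk =>
      b2 k hk z' F hT fun c hc x hx hW => hA c hc x hx
        (mem_biUnion.2 ⟨k, mem_range.2 hk, mem_union_right _ hW⟩)
    have hJ' : (0 : ℝ) < σ.J := by exact_mod_cast hJ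
    have h1' : (((range σ.J).filter fun k => HH σ p k y).card : ℝ) ≤
        ((range σ.J).filter fun k => HH σ p k z').card + 1 := by exact_mod_cast h1
    have h2' : (((range σ.J).filter fun k => HH σ p k z').card : ℝ) ≤
        ((range σ.J).filter fun k => HH σ p k y).card + 1 := by exact_mod_cast h2
    unfold phi
    rw [← sub_div, abs_div, abs_of_pos hJ']
    refine div_le_div_of_nonneg_right (abs_le.2 ⟨?_, ?_⟩) hJ'.le <;> linarith only [h2', h1']

end Pool.Agent.MP_dc1150_gt.Neg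

end

end
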