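import Pool.Agent.MP_dc1150_gt.Mg.Neg_Game
import Pool.Agent.MP_dc1150_gt.Mg.Bridge

attribute [-instance] ProperSMul.toContinuousSMul AddQuantale.instAddLeftMono RKHS.instFunLike
  NumberField.to_charZero IdemSemiring.toCanonicallyOrderedAdd AddQuantale.instAddRightMono
  Fintype.decidableForallFintype Quantale.instMulRightMono
  NonarchimedeanAddGroup.toIsTopologicalAddGroup RCLike.charZero_rclike TotallySeparatedSpace.t2Space
  LinearOrderedCommMonoidWithZero.toPosMulStrictMono instCoeTOfCoeDep instCoeHTCTOfCoeHTC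
  littleWedderburn CoalgHomClass.toSemilinearMapClass instCharZeroOfIsSemireal
  MonTypeEquivalenceMon.monMonoid TestFunctionClass.toDFunLike AddCommGroupWithOne.toAddGroupWithOne
  GrpTypeEquivalenceGrp.grpGroup CStarAlgebra.instOrderClosedTopology
  NonUnitalRing.toNonUnitalNonAssocRing IdemSemiring.toSemiring NeZero.of_gt' CStarModule.toInner
  NormedRing.toRing NonAssocSemiring.toNonUnitalNonAssocSemiring Invertible.toNeZero
  LieAdmissibleRing.toNonUnitalNonAssocRing Valued.toUniformSpace NormedCommRing.toCommRing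
  AddCommMonoidWithOne.toAddCommMonoid SeminormedCommRing.toCommRing
  IsTopologicalTorsor.toContinuousSMul IdemCommSemiring.toCommSemiring MulZeroOneClass.toMulZeroClass
  RingHomClass.toLinearMapClassNNRat RingHomClass.toLinearMapClassRat
  NonUnitalAlgSemiHomClass.toDistribMulActionSemiHomClass

-- part MP_dc1150_gt.Neg.Stage
section

section
namespace Pool.Agent.MP_dc1150_gt.Neg

open Finset

theorem s1_cost_union {Γ : Type} [DecidableEq Γ] (κ : Γ → ℝ) (hκ : ∀ g, 0 ≤ κ g)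
    (A B : Finset Γ) : ∑ g ∈ A ∪ B, κ g ≤ ∑ g ∈ A, κ g + ∑ g ∈ B, κ g := by
  have h1 := sum_union_inter (s₁ := A) (s₂ := B) (f := κ)
  have h2 : 0 ≤ ∑ g ∈ A ∩ B, κ g := sum_nonneg fun g _ => hκ g
  linarith

/-- Stabiliser lemma. -/
theorem stab {Γ : Type} [DecidableEq Γ] (κ : Γ → ℝ) (hκ : ∀ g, 0 ≤ κ g)
    (Φ : Finset Γ → Finset Γ) (hΦ : Monotone Φ) (BB : Finset Γ) (w : ℕ) (hw : BB.card ≤ w)
    (ρ : ℝ) (hρ : 0 ≤ ρ) (X : Finset Γ) :
    ∃ E : Finset Γ, ∑ g ∈ E, κ g ≤ w * ρ ∧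
      ∀ Z : Finset Γ, ∑ g ∈ Z, κ g ≤ ρ → Φ (X ∪ E ∪ Z) ∩ BB = Φ (X ∪ E) ∩ BB := by
  by_contra hcon
  push Not at hcon
  have key : ∀ m : ℕ, m ≤ w + 1 →
      ∃ E : Finset Γ, ∑ g ∈ E, κ g ≤ m * ρ ∧ m ≤ (Φ (X ∪ E) ∩ BB).card := by
    intro m
    induction m with
    | zero => intro _; exact ⟨∅, by simp, Nat.zero_le _⟩
    | succ m ih =>
      intro hm
      obtain ⟨E, hE, hc⟩ := ih (by omega)
      have hmw : (m : ℝ) ≤ w := by exact_mod_cast (by omega : m ≤ w)
      obtain ⟨Z, hZ, hne⟩ := hcon E (hE.trans (mul_le_mul_of_nonneg_right hmw hρ))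
      refine ⟨E ∪ Z, ?_, ?_⟩
      · have := s1_cost_union κ hκ E Z
        push_cast
        linarith only [hE, hZ, this]
      · have hsub : Φ (X ∪ E) ∩ BB ⊆ Φ (X ∪ E ∪ Z) ∩ BB :=
          inter_subset_inter (hΦ subset_union_left) Subset.rfl
        have hlt := card_lt_card (ssubset_of_subset_of_ne hsub hne.symm)
        rw [← union_assoc]
        omega
  obtain ⟨E, -, hc⟩ := key (w + 1) le_rfl
  have := card_le_card (inter_subset_right (s₁ := Φ (X ∪ E)) (s₂ := BB))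
  omega

/-- Number of small subsets. -/
theorem card_small {α : Type} [DecidableEq α] (s : Finset α) (D : ℕ) :
    (s.powerset.filter fun R => R.card ≤ D).card ≤ (s.card + 1) ^ D := by
  have hsub : (s.powerset.filter fun R => R.card ≤ D) ⊆
      (range (D + 1)).biUnion fun i => powersetCard i s := by
    intro R hR
    rw [mem_filter, mem_powerset] at hR
    exact mem_biUnion.2 ⟨R.card, mem_range.2 (by omega), mem_powersetCard.2 ⟨hR.1, rfl⟩⟩
  refine (card_le_card hsub).trans (card_biUnion_le.trans ?_)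
  rw [add_pow]
  refine sum_le_sum fun i hi => ?_
  rw [card_powersetCard, one_pow, mul_one, Nat.cast_id]
  have h1 : 0 < D.choose i := Nat.choose_pos (by have := mem_range.1 hi; omega)
  exact (Nat.choose_le_pow _ _).trans (Nat.le_mul_of_pos_right _ h1)

/-- Indicator of containing `R`. -/
def s1Ind {α : Type} [DecidableEq α] (k : Type) [Field k] (R : Finset α) : Finset α → k :=
  fun Y => if R ⊆ Y then 1 else 0

/-- Functions of low degree. -/
def s1Low {α : Type} [DecidableEq α] (k : Type) [Field k] (U : Finset α) (m : ℕ) :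
    Submodule k (Finset α → k) :=
  Submodule.span k {f | ∃ R ⊆ U, R.card ≤ m ∧ f = s1Ind k R}

theorem s1_low_mono {α : Type} [DecidableEq α] (k : Type) [Field k] (U : Finset α) {a b : ℕ}
    (h : a ≤ b) : s1Low k U a ≤ s1Low k U b :=
  Submodule.span_mono fun _ ⟨R, h1, h2, h3⟩ => ⟨R, h1, h2.trans h, h3⟩

theorem s1_low_one {α : Type} [DecidableEq α] (k : Type) [Field k] (U : Finset α) (a : ℕ) :
    (1 : Finset α → k) ∈ s1Low k U a :=
  Submodule.subset_span ⟨∅, empty_subset _, by simp, by funext Y; simp [s1Ind]⟩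

theorem s1_low_mul {α : Type} [DecidableEq α] (k : Type) [Field k] (U : Finset α) {a b : ℕ}
    {f g : Finset α → k} (hf : f ∈ s1Low k U a) (hg : g ∈ s1Low k U b) :
    f * g ∈ s1Low k U (a + b) := by
  induction hf using Submodule.span_induction with
  | mem f hf =>
    induction hg using Submodule.span_induction with
    | mem g hg =>
      obtain ⟨R, h1, h2, rfl⟩ := hf
      obtain ⟨R', h1', h2', rfl⟩ := hg
      refine Submodule.subset_span ⟨R ∪ R', union_subset h1 h1',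
        (card_union_le _ _).trans (by omega), ?_⟩
      funext Y
      by_cases h : R ⊆ Y <;> by_cases h' : R' ⊆ Y <;> simp [s1Ind, union_subset_iff, h, h']
    | zero => simp
    | add x y _ _ hx hy => rw [mul_add]; exact Submodule.add_mem _ hx hy
    | smul c x _ hx => rw [mul_smul_comm]; exact Submodule.smul_mem _ _ hx
  | zero => simp
  | add x y _ _ hx hy => rw [add_mul]; exact Submodule.add_mem _ hx hy
  | smul c x _ hx => rw [smul_mul_assoc]; exact Submodule.smul_mem _ _ hx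

theorem s1_low_pow {α : Type} [DecidableEq α] (k : Type) [Field k] (U : Finset α)
    {f : Finset α → k} (hf : f ∈ s1Low k U 1) (e : ℕ) : f ^ e ∈ s1Low k U e := by
  induction e with
  | zero => rw [pow_zero]; exact s1_low_one k U 0
  | succ e ih => rw [pow_succ]; exact s1_low_mul k U ih hf

theorem s1_low_prod {α β : Type} [DecidableEq α] [DecidableEq β] (k : Type) [Field k]
    (U : Finset α) (A : Finset β) (f : β → Finset α → k) (a : ℕ)
    (hf : ∀ b ∈ A, f b ∈ s1Low k U a) : ∏ b ∈ A, f b ∈ s1Low k U (A.card * a) := by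
  induction A using Finset.induction_on with
  | empty => rw [prod_empty]; exact s1_low_one k U _
  | insert b A hb ih =>
    rw [prod_insert hb, card_insert_of_notMem hb, add_mul, one_mul, add_comm]
    exact s1_low_mul k U (hf b (mem_insert_self _ _))
      (ih fun b' hb' => hf b' (mem_insert_of_mem hb'))

theorem s1_moebius {α : Type} [DecidableEq α] (k : Type) [Field k] (U : Finset α) (D : ℕ)
    (AA : Finset α → Finset α) (hAA : ∀ R ⊆ U, R.card ≤ D → R ⊆ AA R)
    {f : Finset α → k} (hf : f ∈ s1Low k U D) :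
    ∑ sg ∈ (U.powerset.filter fun R => R.card ≤ D).powerset,
      (-1 : k) ^ sg.card * f (U.filter fun r => ∀ R ∈ sg, r ∈ AA R) = 0 := by
  induction hf using Submodule.span_induction with
  | mem f hf =>
    obtain ⟨R0, h1, h2, rfl⟩ := hf
    have hm : R0 ∈ U.powerset.filter fun R => R.card ≤ D := mem_filter.2 ⟨mem_powerset.2 h1, h2⟩
    rw [← insert_erase hm, sum_powerset_insert (notMem_erase _ _), ← sum_add_distrib]
    refine sum_eq_zero fun sg hsg => ?_
    have hn : R0 ∉ sg := fun h => notMem_erase _ _ (mem_powerset.1 hsg h)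
    have he : s1Ind k R0 (U.filter fun r => ∀ R ∈ insert R0 sg, r ∈ AA R) =
        s1Ind k R0 (U.filter fun r => ∀ R ∈ sg, r ∈ AA R) := by
      unfold s1Ind
      refine if_congr ⟨fun h r hr => ?_, fun h r hr => ?_⟩ rfl rfl
      · have := mem_filter.1 (h hr)
        exact mem_filter.2 ⟨this.1, fun R hR => this.2 R (mem_insert_of_mem hR)⟩
      · have := mem_filter.1 (h hr)
        refine mem_filter.2 ⟨this.1, fun R hR => ?_⟩
        rcases mem_insert.1 hR with rfl | hR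
        · exact hAA _ h1 h2 hr
        · exact this.2 R hR
    rw [he, card_insert_of_notMem hn, pow_succ]
    ring
  | zero => simp only [Pi.zero_apply, mul_zero, sum_const_zero]
  | add x y _ _ hx hy =>
    simp only [Pi.add_apply, mul_add, sum_add_distrib, hx, hy, add_zero]
  | smul c x _ hx =>
    simp only [Pi.smul_apply, smul_eq_mul]
    have : ∀ sg : Finset (Finset α), (-1 : k) ^ sg.card *
        (c * x (U.filter fun r => ∀ R ∈ sg, r ∈ AA R)) =
        c * ((-1 : k) ^ sg.card * x (U.filter fun r => ∀ R ∈ sg, r ∈ AA R)) := fun sg => by ring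
    simp only [this, ← mul_sum, hx, mul_zero]

/-- The Frankl-Wilson type identity. -/
theorem fw {β γ : Type} [DecidableEq β] [DecidableEq γ] (p : ℕ) (hp : p.Prime)
    (A : Finset β) (T : Finset γ) (hT : p ∣ T.card + 1) (D : ℕ) (hD : A.card * p ≤ D)
    (AA : Finset (β × γ) → Finset (β × γ))
    (hAA : ∀ R ⊆ A ×ˢ T, R.card ≤ D → R ⊆ AA R) :
    ∃ sg : Finset (Finset (β × γ)), sg.Nonempty ∧ (∀ R ∈ sg, R ⊆ A ×ˢ T ∧ R.card ≤ D) ∧
      ∀ b ∈ A, p ∣ (T.filter fun x => ∀ R ∈ sg, (b, x) ∈ AA R).card + 1 := by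
  have : Fact p.Prime := ⟨hp⟩
  let cnt : β → Finset (β × γ) → ZMod p := fun b => ∑ x ∈ T, s1Ind (ZMod p) {(b, x)}
  have hcnt : ∀ b Y, cnt b Y = ((T.filter fun x => (b, x) ∈ Y).card : ZMod p) := by
    intro b Y
    simp only [cnt, Finset.sum_apply, s1Ind, singleton_subset_iff]
    rw [sum_boole]
  let Pol : Finset (β × γ) → ZMod p := ∏ b ∈ A, (1 - (cnt b + 1) ^ (p - 1))
  have hPol : ∀ Y, Pol Y =
      ∏ b ∈ A, (1 - (((T.filter fun x => (b, x) ∈ Y).card + 1 : ℕ) : ZMod p) ^ (p - 1)) := by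
    intro Y
    simp only [Pol, Finset.prod_apply, Pi.sub_apply, Pi.one_apply, Pi.pow_apply, Pi.add_apply,
      hcnt, Nat.cast_add, Nat.cast_one]
  have hlow : Pol ∈ s1Low (ZMod p) (A ×ˢ T) D := by
    refine s1_low_mono _ _ hD (s1_low_prod _ _ A _ p fun b hb => ?_)
    refine Submodule.sub_mem _ (s1_low_one _ _ _)
      (s1_low_mono _ _ (Nat.sub_le p 1) (s1_low_pow _ _ ?_ _))
    refine Submodule.add_mem _ (Submodule.sum_mem _ fun x hx => ?_) (s1_low_one _ _ _)
    exact Submodule.subset_span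
      ⟨{(b, x)}, singleton_subset_iff.2 (mem_product.2 ⟨hb, hx⟩), by simp, rfl⟩
  have hz := s1_moebius (ZMod p) (A ×ˢ T) D AA hAA hlow
  by_contra hcon
  push Not at hcon
  rw [sum_eq_single ∅] at hz
  · have h1 : ∀ b ∈ A, (T.filter fun x => (b, x) ∈
        (A ×ˢ T).filter fun r => ∀ R ∈ (∅ : Finset (Finset (β × γ))), r ∈ AA R) = T := by
      intro b hb
      refine filter_true_of_mem fun x hx => ?_
      exact mem_filter.2 ⟨mem_product.2 ⟨hb, hx⟩, fun R hR => absurd hR (notMem_empty _)⟩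
    rw [hPol, card_empty, pow_zero, one_mul, prod_eq_one] at hz
    · exact one_ne_zero hz
    · intro b hb
      rw [h1 b hb, (ZMod.natCast_eq_zero_iff _ _).2 hT,
        zero_pow (by have := hp.two_le; omega), sub_zero]
  · intro sg hsg hne
    obtain ⟨b, hb, hnd⟩ := hcon sg (nonempty_iff_ne_empty.2 hne) fun R hR => by
      have := mem_filter.1 (mem_powerset.1 hsg hR)
      exact ⟨mem_powerset.1 this.1, this.2⟩
    rw [hPol, prod_eq_zero hb, mul_zero]
    have h1 : (T.filter fun x => (b, x) ∈ (A ×ˢ T).filter fun r => ∀ R ∈ sg, r ∈ AA R) =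
        T.filter fun x => ∀ R ∈ sg, (b, x) ∈ AA R := by
      refine filter_congr fun x hx => ?_
      rw [mem_filter]
      exact ⟨fun h => h.2, fun h => ⟨mem_product.2 ⟨hb, hx⟩, h⟩⟩
    rw [h1, ZMod.pow_card_sub_one_eq_one, sub_self]
    exact fun h => hnd ((ZMod.natCast_eq_zero_iff _ _).1 h)
  · intro h
    exact absurd (empty_mem_powerset _) h

/-- Choosing a tuple of points avoiding sets that do not depend on the relevant coordinate. -/
theorem cnt_pt {ι : Type} (s : Finset ι) (n q b : ℕ) (co : ι → Fin n)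
    (Bad : ι → (Fin n → ℕ) → Finset ℕ)
    (hind : ∀ a ∈ s, ∀ (P : Fin n → ℕ) (v : ℕ), Bad a (Function.update P (co a) v) = Bad a P)
    (hb : ∀ a ∈ s, ∀ P : Fin n → ℕ, (∀ i, P i < q) → (Bad a P).card ≤ b)
    (hq : s.card * b < q) :
    ∃ P : Fin n → ℕ, (∀ i, P i < q) ∧ ∀ a ∈ s, P (co a) ∉ Bad a P := by
  classical
  set W : Finset (Fin n → ℕ) := Fintype.piFinset fun _ => range q with hW
  have hmem : ∀ P, P ∈ W ↔ ∀ i, P i < q := by
    intro P; simp only [hW, Fintype.mem_piFinset, mem_range]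
  have hone : ∀ a ∈ s, (W.filter fun P => P (co a) ∈ Bad a P).card * q ≤ W.card * b := by
    intro a ha
    have h1 : ((W.filter fun P => P (co a) ∈ Bad a P) ×ˢ range q).card ≤
        (W.sigma fun P => Bad a P).card := by
      refine card_le_card_of_injOn
        (fun x => ⟨Function.update x.1 (co a) x.2, x.1 (co a)⟩) ?_ ?_
      · intro x hx
        have hx1 := mem_product.1 (mem_coe.1 hx)
        have hx2 := mem_filter.1 hx1.1
        refine mem_coe.2 (mem_sigma.2 ⟨(hmem _).2 fun i => ?_, ?_⟩)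
        · by_cases hi : i = co a
          · subst hi; simpa using mem_range.1 hx1.2
          · simpa [Function.update_of_ne hi] using (hmem _).1 hx2.1 i
        · show x.1 (co a) ∈ Bad a (Function.update x.1 (co a) x.2)
          rw [hind a ha]; exact hx2.2
      · intro x _ y _ hxy
        have h1 : Function.update x.1 (co a) x.2 = Function.update y.1 (co a) y.2 :=
          congrArg Sigma.fst hxy
        have h2 : x.1 (co a) = y.1 (co a) :=
          congrArg (fun z : (_ : Fin n → ℕ) × ℕ => (z.2 : ℕ)) hxy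
        refine Prod.ext (funext fun i => ?_) ?_
        · by_cases hi : i = co a
          · rw [hi]; exact h2
          · simpa [Function.update_of_ne hi] using congrFun h1 i
        · simpa using congrFun h1 (co a)
    rw [card_product, card_range, card_sigma] at h1
    refine h1.trans ?_
    have := sum_le_card_nsmul W (fun P => (Bad a P).card) b fun P hP => hb a ha P ((hmem P).1 hP)
    simpa only [ge_iff_le, smul_eq_mul] using this
  by_contra hcon
  push Not at hcon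
  have hsub : W ⊆ s.biUnion fun a => W.filter fun P => P (co a) ∈ Bad a P := by
    intro P hP
    obtain ⟨a, ha, h⟩ := hcon P ((hmem P).1 hP)
    exact mem_biUnion.2 ⟨a, ha, mem_filter.2 ⟨hP, h⟩⟩
  have h1 := (card_le_card hsub).trans card_biUnion_le
  have h2 : (∑ a ∈ s, (W.filter fun P => P (co a) ∈ Bad a P).card) * q ≤
      s.card * (W.card * b) := by
    rw [sum_mul]
    simpa only [smul_eq_mul] using sum_le_card_nsmul s _ _ hone
  have h3 : 0 < W.card := card_pos.2 ⟨fun _ => 0, (hmem _).2 fun _ => by omega⟩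
  have h4 := (Nat.mul_le_mul_right q h1).trans h2
  nlinarith only [hq, h3, h4]

end Pool.Agent.MP_dc1150_gt.Neg

end

section
namespace Pool.Agent.MP_dc1150_gt.Neg

open Finset

theorem s2_cost_biUnion {Γ ι : Type} [DecidableEq Γ] [DecidableEq ι] (κ : Γ → ℝ)
    (hκ : ∀ g, 0 ≤ κ g) (s : Finset ι) (f : ι → Finset Γ) :
    ∑ g ∈ s.biUnion f, κ g ≤ ∑ i ∈ s, ∑ g ∈ f i, κ g := by
  induction s using Finset.induction_on with
  | empty => simp
  | insert a s ha ih =>
    rw [biUnion_insert, sum_insert ha]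
    have := s1_cost_union κ hκ (f a) (s.biUnion f)
    linarith

theorem s2_closed_inf {π : Par} {Γ ι : Type} [Fintype Γ] [DecidableEq Γ] (C : CS π Γ)
    (s : Finset ι) (f : ι → Finset Γ) (hf : ∀ i ∈ s, C.Closed (f i)) : C.Closed (s.inf f) :=
  Finset.inf_induction (p := C.Closed) C.closed_univ (fun a ha b hb => C.closed_inter a b ha hb) hf

theorem s2_mem_inf {Γ ι : Type} [Fintype Γ] [DecidableEq Γ] (s : Finset ι) (f : ι → Finset Γ)
    (g : Γ) : g ∈ s.inf f ↔ ∀ i ∈ s, g ∈ f i :=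
  Finset.mem_inf

theorem s2_card_M {π : Par} {Γ : Type} [Fintype Γ] [DecidableEq Γ] (C : CS π Γ) {c : ℕ}
    (hc : c < π.K) (I : Finset Γ) (hI : C.Closed I) :
    ((π.toSys.St c).filter fun x => ∃ g ∈ C.BB c, g ∉ I ∧ C.ex g c x ∈ I).card ≤
      π.w c * π.d c := by
  have hsub : ((π.toSys.St c).filter fun x => ∃ g ∈ C.BB c, g ∉ I ∧ C.ex g c x ∈ I) ⊆
      (C.BB c \ I).biUnion fun g => (π.toSys.Lam c).filter fun x => C.ex g c x ∈ I := by
    intro x hx
    obtain ⟨h1, g, hg, hgI, h2⟩ := mem_filter.1 hx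
    exact mem_biUnion.2 ⟨g, mem_sdiff.2 ⟨hg, hgI⟩, mem_filter.2 ⟨π.toSys.St_sub c h1, h2⟩⟩
  refine (card_le_card hsub).trans ((card_biUnion_le_card_mul _ _ (π.d c) fun g hg => ?_).trans ?_)
  · exact C.sparse I hI c hc g (mem_sdiff.1 hg).1 (mem_sdiff.1 hg).2
  · exact Nat.mul_le_mul_right _ ((card_le_card sdiff_subset).trans (C.BB_card c hc.le))

/-- One stage of the construction. -/
theorem stage {π : Par} {Γ : Type} [Fintype Γ] [DecidableEq Γ] (C : CS π Γ) (hN : π.Num)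
    (p : ℕ → ℕ) (hp : π.Modu p) (c : ℕ) (hc : c < π.K) (Φ : Finset Γ → Finset Γ)
    (hΦ : C.ValidOp c Φ) (Z0 : Finset ℕ) (hZ : Z0 ⊆ range (π.qq c)) (hZl : Z0.card ≤ π.l c) :
    ∃ (Φ' : Finset Γ → Finset Γ) (F : Finset Lab), C.ValidOp (c + 1) Φ' ∧
      Φ' ∅ ∩ C.BB c = Φ ∅ ∩ C.BB c ∧ C.GoodAt p c (Φ' ∅) F ∧ ∀ f ∈ F, f.2.2 = Z0 := by
  obtain ⟨hmono, hext, hcl, hval⟩ := hΦ
  obtain ⟨hpp, hpP, hpd⟩ := hp c hc
  choose E hE hEs using stab C.κ C.κ_nonneg Φ hmono (C.BB (c + 1)) (π.w (c + 1))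
    (C.BB_card (c + 1) hc) (π.ρ (c + 1)) (hN.hρ _)
  set Abs := C.BB c \ Φ ∅ with hAbs
  have hAw : Abs.card ≤ π.w c := (card_le_card sdiff_subset).trans (C.BB_card c hc.le)
  have htr : ∀ Z, ∑ g ∈ Z, C.κ g ≤ π.ρ c → ∀ g ∈ C.BB c, (g ∈ Φ Z ↔ g ∈ Φ ∅) := by
    intro Z hZ g hg
    have h1 := (hval Z hZ).2
    constructor
    · intro h
      have : g ∈ Φ Z ∩ C.BB c := mem_inter.2 ⟨h, hg⟩
      rw [h1] at this
      exact (mem_inter.1 this).1
    · intro h
      exact hmono (empty_subset Z) h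
  set RR := (Abs ×ˢ π.toSys.Cnt c).powerset.filter fun R => R.card ≤ π.w c * π.P c with hRR
  have hRRc : RR.card ≤ π.rr c := by
    refine (card_small _ _).trans ?_
    unfold Par.rr
    refine Nat.pow_le_pow_left (Nat.succ_le_succ ?_) _
    rw [card_product, Sys.card_Cnt]
    exact Nat.mul_le_mul_right _ hAw
  let XX : Finset (Γ × Lab) → Finset Lab → Finset Γ :=
    fun R Fs => (R ∪ Abs ×ˢ Fs).image fun r => C.ex r.1 c r.2
  let a0 : ℝ := ((π.w c * π.P c + π.n c * π.w c : ℕ) : ℝ) / (π.d c + 1)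
  have hXc : ∀ R ∈ RR, ∀ Fs ⊆ π.toSys.St c, Fs.card ≤ π.n c → ∑ g ∈ XX R Fs, C.κ g ≤ a0 := by
    intro R hR Fs hFs hFn
    obtain ⟨hR1, hR2⟩ := mem_filter.1 hR
    rw [mem_powerset] at hR1
    have h1 : ∀ g ∈ XX R Fs, C.κ g ≤ 1 / (π.d c + 1 : ℝ) := by
      intro g hg
      obtain ⟨r, hr, rfl⟩ := mem_image.1 hg
      rcases mem_union.1 hr with hr | hr
      · have := mem_product.1 (hR1 hr)
        exact C.κ_ex c hc _ (mem_sdiff.1 this.1).1 _ (π.toSys.Cnt_sub c this.2)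
      · have := mem_product.1 hr
        exact C.κ_ex c hc _ (mem_sdiff.1 this.1).1 _ (π.toSys.St_sub c (hFs this.2))
    have h2 : (XX R Fs).card ≤ π.w c * π.P c + π.n c * π.w c := by
      refine card_image_le.trans ((card_union_le _ _).trans (Nat.add_le_add hR2 ?_))
      rw [card_product, mul_comm]
      exact Nat.mul_le_mul hFn hAw
    have h3 := sum_le_card_nsmul _ _ _ h1
    rw [nsmul_eq_mul, mul_one_div] at h3
    refine h3.trans (div_le_div_of_nonneg_right ?_ (by positivity))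
    exact_mod_cast h2
  have hρs : a0 + ((2 ^ π.n c + 1) * π.w (c + 1) + 1 : ℝ) * π.ρ (c + 1) ≤ π.ρ c := hN.hρs c hc
  have hρ' := hN.hρ (c + 1)
  have hwρ : 0 ≤ (π.w (c + 1) : ℝ) * π.ρ (c + 1) := by positivity
  have h2wρ : 0 ≤ (2 : ℝ) ^ π.n c * (π.w (c + 1) * π.ρ (c + 1)) := by positivity
  have hXEZ : ∀ R ∈ RR, ∀ Fs ⊆ π.toSys.St c, Fs.card ≤ π.n c → ∀ Z,
      ∑ g ∈ Z, C.κ g ≤ π.ρ (c + 1) → ∑ g ∈ XX R Fs ∪ E (XX R Fs) ∪ Z, C.κ g ≤ π.ρ c := by
    intro R hR Fs hFs hFn Z hZ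
    have h1 := s1_cost_union C.κ C.κ_nonneg (XX R Fs ∪ E (XX R Fs)) Z
    have h2 := s1_cost_union C.κ C.κ_nonneg (XX R Fs) (E (XX R Fs))
    have h3 := hXc R hR Fs hFs hFn
    have h4 := hE (XX R Fs)
    linarith only [hρs, h2wρ, hZ, h1, h2, h3, h4]
  let M : Finset Γ → Finset Lab := fun A =>
    (π.toSys.St c).filter fun x => ∃ g ∈ Abs, C.ex g c x ∈ A
  have hM : ∀ Z, ∑ g ∈ Z, C.κ g ≤ π.ρ c → (M (Φ Z)).card ≤ π.w c * π.d c := by
    intro Z hZ
    refine le_trans (card_le_card fun x hx => ?_) (s2_card_M C hc (Φ Z) (hcl Z))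
    obtain ⟨h1, g, hg, h2⟩ := mem_filter.1 hx
    have hg' := mem_sdiff.1 hg
    exact mem_filter.2 ⟨h1, g, hg'.1, fun h => hg'.2 ((htr Z hZ g hg'.1).1 h), h2⟩
  have hMm : ∀ A A', A ⊆ A' → M A ⊆ M A' := by
    intro A A' h x hx
    obtain ⟨h1, g, hg, h2⟩ := mem_filter.1 hx
    exact mem_filter.2 ⟨h1, g, hg, h h2⟩
  let FT : (Fin (π.n c) → ℕ) → Finset (Fin (π.n c)) → Finset Lab :=
    fun P T => T.image fun i => (false, P i, Z0)
  have hFT : ∀ P : Fin (π.n c) → ℕ, (∀ i, P i < π.qq c) → ∀ T, FT P T ⊆ π.toSys.St c := by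
    intro P hP T f hf
    obtain ⟨i, -, rfl⟩ := mem_image.1 hf
    exact π.toSys.mem_St.2 ⟨rfl, hP i, hZ, hZl⟩
  have hFn : ∀ P T, (FT P T).card ≤ π.n c := fun P T =>
    card_image_le.trans ((card_le_univ _).trans (by simp only [Fintype.card_fin, Std.le_refl]))
  let AA : Finset (Γ × Lab) → Finset Lab → Finset Γ :=
    fun R Fs => Φ (XX R Fs ∪ E (XX R Fs) ∪ ∅)
  have hz : ∑ g ∈ (∅ : Finset Γ), C.κ g ≤ π.ρ (c + 1) := by simpa only [sum_empty] using hρ'
  obtain ⟨P, hPq, hP⟩ := cnt_pt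
    ((RR ×ˢ (univ : Finset (Finset (Fin (π.n c)) × Fin (π.n c)))).filter fun a => a.2.2 ∉ a.2.1)
    (π.n c) (π.qq c) (π.w c * π.d c * π.l c) (fun a => a.2.2)
    (fun a P => (M (AA a.1 (FT P a.2.1))).biUnion fun y => y.2.2)
    (by
      intro a ha P v
      have h1 : FT (Function.update P a.2.2 v) a.2.1 = FT P a.2.1 := by
        refine image_congr fun i hi => ?_
        have : i ≠ a.2.2 := fun h => (mem_filter.1 ha).2 (h ▸ mem_coe.1 hi)
        simp only [Function.update_of_ne this]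
      simp only [h1])
    (by
      intro a ha P hP
      have ha1 := (mem_product.1 (mem_filter.1 ha).1).1
      refine (card_biUnion_le_card_mul _ _ (π.l c) fun y hy => ?_).trans
        (Nat.mul_le_mul_right _ (hM _ (hXEZ _ ha1 _ (hFT P hP _) (hFn _ _) _ hz)))
      exact (π.toSys.mem_St.1 (mem_filter.1 hy).1).2.2.2)
    (by
      refine lt_of_le_of_lt (Nat.mul_le_mul_right _ ((card_filter_le _ _).trans ?_)) (hN.hq c hc)
      rw [card_product, card_univ, Fintype.card_prod, Fintype.card_finset, Fintype.card_fin,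
        mul_assoc]
      exact Nat.mul_le_mul_right _ hRRc)
  have hP' : ∀ R ∈ RR, ∀ T, ∀ i ∉ T, ∀ y ∈ M (AA R (FT P T)), P i ∉ y.2.2 := by
    intro R hR T i hi y hy h
    exact hP (R, T, i) (mem_filter.2 ⟨mem_product.2 ⟨hR, mem_univ _⟩, hi⟩)
      (mem_biUnion.2 ⟨y, hy, h⟩)
  have hgood : ∃ T : Finset (Fin (π.n c)), T.Nonempty ∧
      ∀ R ∈ RR, ∀ y ∈ M (AA R (FT P T)), ∃ i ∈ T, P i ∉ y.2.2 := by
    by_contra hcon
    push Not at hcon
    let As : Finset (Γ × Lab) → Finset Γ := fun R =>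
      Φ (XX R (FT P univ) ∪ univ.biUnion fun T => E (XX R (FT P T)))
    have hAs : ∀ R ∈ RR, (M (As R)).card ≤ π.w c * π.d c := by
      intro R hR
      refine hM _ ?_
      have h1 := s1_cost_union C.κ C.κ_nonneg (XX R (FT P univ))
        (univ.biUnion fun T => E (XX R (FT P T)))
      have h2 := s2_cost_biUnion C.κ C.κ_nonneg univ fun T => E (XX R (FT P T))
      have h3 := hXc R hR _ (hFT P hPq univ) (hFn P univ)
      have h4 := sum_le_card_nsmul (univ : Finset (Finset (Fin (π.n c))))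
        (fun T => ∑ g ∈ E (XX R (FT P T)), C.κ g) _ fun T _ => hE (XX R (FT P T))
      rw [card_univ, Fintype.card_finset, Fintype.card_fin, nsmul_eq_mul] at h4
      push_cast at h4
      linarith only [hρs, hρ', hwρ, h1, h2, h3, h4]
    have hsub : (univ : Finset (Finset (Fin (π.n c)))).erase ∅ ⊆
        (RR.biUnion fun R => M (As R)).image fun y => univ.filter fun i => P i ∈ y.2.2 := by
      intro T hT
      obtain ⟨R, hR, y, hy, hall⟩ := hcon T (nonempty_iff_ne_empty.2 (mem_erase.1 hT).1)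
      refine mem_image.2 ⟨y, mem_biUnion.2 ⟨R, hR, hMm _ _ (hmono ?_) hy⟩, ?_⟩
      · rw [union_empty]
        refine union_subset_union (image_subset_image (union_subset_union Subset.rfl
          (product_subset_product_right (image_subset_image (subset_univ _))))) ?_
        exact subset_biUnion_of_mem (fun T => E (XX R (FT P T))) (mem_univ T)
      · ext i
        rw [mem_filter]
        refine ⟨fun h => ?_, fun h => ⟨mem_univ _, hall i h⟩⟩
        by_contra hi
        exact hP' R hR T i hi y hy h.2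
    have h1 := (card_le_card hsub).trans
      (card_image_le.trans (card_biUnion_le_card_mul _ _ _ hAs))
    rw [card_erase_of_mem (mem_univ _), card_univ, Fintype.card_finset, Fintype.card_fin] at h1
    have h2 := hN.hn c hc
    have h3 := Nat.mul_le_mul_right (π.w c * π.d c) hRRc
    omega
  obtain ⟨T, hT, hTg⟩ := hgood
  set F := FT P T with hF
  have hFS : F ⊆ π.toSys.St c := hFT P hPq T
  obtain ⟨sg, hsg, hsR, hdiv⟩ := fw (p c) hpp Abs (π.toSys.Cnt c)
    (by rw [Sys.card_Cnt]; exact hpd) (π.w c * π.P c) (Nat.mul_le_mul hAw hpP)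
    (fun R => (Abs ×ˢ π.toSys.Cnt c).filter fun r => C.ex r.1 c r.2 ∈ AA R F)
    (by
      intro R hR _ r hr
      refine mem_filter.2 ⟨hR hr, hext _ ?_⟩
      exact mem_union_left _ (mem_union_left _ (mem_image_of_mem _ (mem_union_left _ hr))))
  have hsR' : ∀ R ∈ sg, R ∈ RR := fun R hR =>
    mem_filter.2 ⟨mem_powerset.2 (hsR R hR).1, (hsR R hR).2⟩
  obtain ⟨R0, hR0⟩ := hsg
  let Φ' : Finset Γ → Finset Γ := fun Z => sg.inf fun R => Φ (XX R F ∪ E (XX R F) ∪ Z)
  have hmem : ∀ Z g, g ∈ Φ' Z ↔ ∀ R ∈ sg, g ∈ Φ (XX R F ∪ E (XX R F) ∪ Z) :=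
    fun Z g => s2_mem_inf _ _ g
  have hBB : ∀ g ∈ C.BB c, (g ∈ Φ' ∅ ↔ g ∈ Φ ∅) := by
    intro g hg
    rw [hmem]
    exact ⟨fun h => (htr _ (hXEZ _ (hsR' _ hR0) _ hFS (hFn _ _) _ hz) g hg).1 (h R0 hR0),
      fun h R _ => hmono (empty_subset _) h⟩
  refine ⟨Φ', F, ⟨?_, ?_, ?_, ?_⟩, ?_, ⟨hFS, hT.image _, ?_, ?_⟩, ?_⟩
  · intro Z Z' h g hg
    rw [hmem] at hg ⊢
    exact fun R hR => hmono (union_subset_union Subset.rfl h) (hg R hR)
  · intro Z g hg
    rw [hmem]
    exact fun R _ => hext _ (mem_union_right _ hg)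
  · intro Z
    exact s2_closed_inf C _ _ fun R _ => hcl _
  · intro Z hZ'
    refine ⟨C.proper_anti _ _ (fun g hg => (hmem Z g).1 hg R0 hR0)
      (hval _ (hXEZ _ (hsR' _ hR0) _ hFS (hFn _ _) _ hZ')).1, ?_⟩
    ext g
    rw [mem_inter, mem_inter, hmem, hmem]
    refine and_congr_left fun hg => forall₂_congr fun R _ => ?_
    have h1 := hEs (XX R F) Z hZ'
    have h2 := hEs (XX R F) ∅ hz
    have h3 : g ∈ Φ (XX R F ∪ E (XX R F) ∪ Z) ∩ C.BB (c + 1) ↔
        g ∈ Φ (XX R F ∪ E (XX R F) ∪ ∅) ∩ C.BB (c + 1) := by rw [h1, h2]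
    simpa only [mem_inter, hg, and_true] using h3
  · ext g
    rw [mem_inter, mem_inter]
    exact and_congr_left fun hg => hBB g hg
  · intro g hg hgI
    have hgA : g ∈ Abs := mem_sdiff.2 ⟨hg, fun h => hgI ((hBB g hg).2 h)⟩
    constructor
    · have h1 := hdiv g hgA
      have h2 : ((π.toSys.Cnt c).filter fun x => C.ex g c x ∈ Φ' ∅) =
          (π.toSys.Cnt c).filter fun x => ∀ R ∈ sg, (g, x) ∈
            (Abs ×ˢ π.toSys.Cnt c).filter fun r => C.ex r.1 c r.2 ∈ AA R F := by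
        refine filter_congr fun x hx => ?_
        rw [hmem]
        refine forall₂_congr fun R _ => ?_
        rw [mem_filter]
        exact ⟨fun h => ⟨mem_product.2 ⟨hgA, hx⟩, h⟩, fun h => h.2⟩
      rw [h2]
      exact h1
    · intro f hf
      rw [hmem]
      refine fun R _ => hext _ (mem_union_left _ (mem_union_left _ ?_))
      exact mem_image.2 ⟨(g, f), mem_union_right _ (mem_product.2 ⟨hgA, hf⟩), rfl⟩
  · intro x hx g hg hgI hxI
    have hgA : g ∈ Abs := mem_sdiff.2 ⟨hg, fun h => hgI ((hBB g hg).2 h)⟩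
    obtain ⟨i, hi, hPi⟩ := hTg R0 (hsR' _ hR0) x
      (mem_filter.2 ⟨hx, g, hgA, (hmem _ _).1 hxI R0 hR0⟩)
    exact ⟨(false, P i, Z0), mem_image_of_mem _ hi, hPi⟩
  · intro f hf
    obtain ⟨i, -, rfl⟩ := mem_image.1 hf
    rfl

end Pool.Agent.MP_dc1150_gt.Neg

end

section
namespace Pool.Agent.MP_dc1150_gt.Neg

open Finset

open Classical in
/-- A stage whose fresh stamps rarely meet the avoided sets. -/
theorem stage_w {π : Par} {Γ : Type} [Fintype Γ] [DecidableEq Γ] (C : CS π Γ) (hN : π.Num)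
    (p : ℕ → ℕ) (hp : π.Modu p) (c : ℕ) (hc : c < π.K) (Φ : Finset Γ → Finset Γ)
    (hΦ : C.ValidOp c Φ) {Ω : Type} [Fintype Ω] (wt : Ω → ℝ) (h0 : ∀ o, 0 ≤ wt o)
    (h1 : ∑ o, wt o ≤ 1) (Av : Ω → Finset Lab) (b : ℕ) (hb : ∀ o, (Av o).card ≤ b) :
    ∃ (Φ' : Finset Γ → Finset Γ) (F : Finset Lab), C.ValidOp (c + 1) Φ' ∧
      Φ' ∅ ∩ C.BB c = Φ ∅ ∩ C.BB c ∧ C.GoodAt p c (Φ' ∅) F ∧
      ∑ o with C.Hit c (Φ' ∅) F (Av o), wt o ≤ (b : ℝ) / π.n' c := by
  by_contra hcon
  push Not at hcon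
  set β : ℝ := (b : ℝ) / π.n' c with hβ
  let Pot : Finset ℕ → ℝ := fun Z => ∑ o, wt o * (((Av o).filter fun x => x.2.1 ∈ Z).card : ℝ)
  have key : ∀ j : ℕ, j ≤ π.n' c → ∃ Z ⊆ range (π.qq c), Z.card ≤ j * (π.w c * π.d c) ∧
      j * β ≤ Pot Z ∧ (0 < j → j * β < Pot Z) := by
    intro j
    induction j with
    | zero =>
      intro _
      refine ⟨∅, empty_subset _, by simp, ?_, fun h => absurd h (lt_irrefl _)⟩
      simp only [CharP.cast_eq_zero, zero_mul, Pot, notMem_empty, filter_false, card_empty, mul_zero, sum_const_zero, Std.le_refl]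
    | succ j ih =>
      intro hj
      obtain ⟨Z, hZ, hZc, hP, -⟩ := ih (by omega)
      have hZl : Z.card ≤ π.l c :=
        hZc.trans ((Nat.mul_le_mul_right _ (by omega)).trans (hN.hl c hc))
      obtain ⟨Φ', F, hV, htr, hG, hF⟩ := stage C hN p hp c hc Φ hΦ Z hZ hZl
      have hw := hcon Φ' F hV htr hG
      set M := (π.toSys.St c).filter fun x => ∃ g ∈ C.BB c, g ∉ Φ' ∅ ∧ C.ex g c x ∈ Φ' ∅ with hM
      have hMc : M.card ≤ π.w c * π.d c := s2_card_M C hc _ (hV.2.2.1 ∅)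
      have hstep : Pot Z + ∑ o with C.Hit c (Φ' ∅) F (Av o), wt o ≤
          Pot (Z ∪ M.image fun x => x.2.1) := by
        rw [sum_filter]
        simp only [Pot]
        rw [← sum_add_distrib]
        refine sum_le_sum fun o _ => ?_
        have hsub : ((Av o).filter fun x => x.2.1 ∈ Z) ⊆
            (Av o).filter fun x => x.2.1 ∈ Z ∪ M.image fun x => x.2.1 := by
          intro x hx
          exact mem_filter.2 ⟨(mem_filter.1 hx).1, mem_union_left _ (mem_filter.1 hx).2⟩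
        split_ifs with hH
        · obtain ⟨x, hxW, hxS, hg, f, hf, hnb⟩ := hH
          have hx1 : x.2.1 ∉ Z := by
            rw [← hF f hf]; exact hnb
          have hlt := card_lt_card (ssubset_of_subset_of_ne hsub fun h => by
            have : x ∈ (Av o).filter fun x => x.2.1 ∈ Z ∪ M.image fun x => x.2.1 :=
              mem_filter.2 ⟨hxW, mem_union_right _ (mem_image_of_mem _ (mem_filter.2 ⟨hxS, hg⟩))⟩
            rw [← h] at this
            exact hx1 (mem_filter.1 this).2)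
          have h2 : (((Av o).filter fun x => x.2.1 ∈ Z).card : ℝ) + 1 ≤
              (((Av o).filter fun x => x.2.1 ∈ Z ∪ M.image fun x => x.2.1).card : ℝ) := by
            exact_mod_cast hlt
          have := mul_le_mul_of_nonneg_left h2 (h0 o)
          linarith only [this]
        · rw [add_zero]
          exact mul_le_mul_of_nonneg_left (by exact_mod_cast card_le_card hsub) (h0 o)
      have hlt : ((j + 1 : ℕ) : ℝ) * β < Pot (Z ∪ M.image fun x => x.2.1) := by
        push_cast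
        linarith only [hP, hw, hstep]
      have hA : (Z ∪ M.image fun x => x.2.1) ⊆ range (π.qq c) := by
        refine union_subset hZ fun a ha => ?_
        obtain ⟨x, hx, rfl⟩ := mem_image.1 ha
        exact mem_range.2 (π.toSys.mem_St.1 (mem_filter.1 hx).1).2.1
      have hB : (Z ∪ M.image fun x => x.2.1).card ≤ (j + 1) * (π.w c * π.d c) := by
        have h2 := card_union_le Z (M.image fun x => x.2.1)
        have h3 : (M.image fun x => x.2.1).card ≤ M.card := card_image_le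
        rw [add_mul, one_mul]
        omega
      generalize (Z ∪ M.image fun x => x.2.1) = Z' at hA hB hlt
      exact ⟨Z', hA, hB, hlt.le, fun _ => hlt⟩
  obtain ⟨Z, -, -, -, hP⟩ := key _ le_rfl
  have h2 := hP (hN.hn' c hc)
  have hn : (0 : ℝ) < π.n' c := by exact_mod_cast hN.hn' c hc
  rw [hβ, mul_div_cancel₀ _ hn.ne'] at h2
  have h3 : Pot Z ≤ ∑ o, wt o * (b : ℝ) :=
    sum_le_sum fun o _ => mul_le_mul_of_nonneg_left
      (by exact_mod_cast (card_filter_le _ _).trans (hb o)) (h0 o)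
  rw [← sum_mul] at h3
  have h4 : (∑ o, wt o) * (b : ℝ) ≤ 1 * b := mul_le_mul_of_nonneg_right h1 (by positivity)
  linarith only [h2, h3, h4]

/-- The initial operator. -/
theorem base_op {π : Par} {Γ : Type} [Fintype Γ] [DecidableEq Γ] (C : CS π Γ) (hN : π.Num) :
    ∃ Φ, C.ValidOp 0 Φ := by
  classical
  let cl : Finset Γ → Finset Γ := fun Z => (univ.filter fun A => C.Closed A ∧ Z ⊆ A).inf id
  have hmem : ∀ Z g, g ∈ cl Z ↔ ∀ A, C.Closed A → Z ⊆ A → g ∈ A := by
    intro Z g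
    simp only [cl, s2_mem_inf, mem_filter, mem_univ, true_and, id, and_imp]
  have hmono : Monotone cl := by
    intro Z Z' h g hg
    rw [hmem] at hg ⊢
    exact fun A hA hZ => hg A hA (Subset.trans h hZ)
  obtain ⟨E, hE, hEs⟩ := stab C.κ C.κ_nonneg cl hmono (C.BB 0) (π.w 0)
    (C.BB_card 0 (Nat.zero_le _)) (π.ρ 0) (hN.hρ 0) ∅
  refine ⟨fun Z => cl (∅ ∪ E ∪ Z), fun Z Z' h => hmono (union_subset_union Subset.rfl h), ?_, ?_,
    fun Z hZ => ⟨?_, ?_⟩⟩
  · intro Z g hg
    rw [hmem]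
    exact fun A _ h => h (mem_union_right _ hg)
  · intro Z
    exact s2_closed_inf C _ _ fun A hA => (mem_filter.1 hA).2.1
  · have h1 := s1_cost_union C.κ C.κ_nonneg E Z
    have h2 := hN.hρ0
    obtain ⟨I, hI, hIc, hIp⟩ := C.small (∅ ∪ E ∪ Z) (by rw [empty_union]; linarith only [hE, hZ, h1, h2])
    exact C.proper_anti _ _ (fun g hg => (hmem _ g).1 hg I hIc hI) hIp
  · rw [hEs Z hZ, hEs ∅ (by simpa only [sum_empty] using hN.hρ 0)]

theorem s3_BB_mono {π : Par} {Γ : Type} [Fintype Γ] [DecidableEq Γ] (C : CS π Γ) {a c : ℕ}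
    (h : a ≤ c) (hc : c ≤ π.K) : C.BB a ⊆ C.BB c := by
  induction h with
  | refl => exact Subset.rfl
  | step _ ih => exact (ih (Nat.le_of_succ_le hc)).trans (C.BB_mono _ hc)

theorem s3_good {π : Par} {Γ : Type} [Fintype Γ] [DecidableEq Γ] (C : CS π Γ) (p : ℕ → ℕ)
    {a : ℕ} (ha : a < π.K) {I I' : Finset Γ} (h : ∀ g ∈ C.BB (a + 1), (g ∈ I' ↔ g ∈ I))
    {F : Finset Lab} (hG : C.GoodAt p a I F) : C.GoodAt p a I' F := by
  obtain ⟨h1, h2, h3, h4⟩ := hG
  have hB : ∀ g ∈ C.BB a, g ∉ I' → g ∉ I := fun g hg hn hI =>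
    hn ((h g (C.BB_mono a ha hg)).2 hI)
  refine ⟨h1, h2, fun g hg hn => ⟨?_, fun f hf => ?_⟩, fun x hx g hg hn hI => ?_⟩
  · rw [filter_congr fun x hx => h _ (C.ex_mem a ha g hg x (π.toSys.Cnt_sub a hx))]
    exact (h3 g hg (hB g hg hn)).1
  · exact (h _ (C.ex_mem a ha g hg f (π.toSys.St_sub a (h1 hf)))).2 ((h3 g hg (hB g hg hn)).2 f hf)
  · exact h4 x hx g hg (hB g hg hn) ((h _ (C.ex_mem a ha g hg x (π.toSys.St_sub a hx))).1 hI)

theorem s3_hit {π : Par} {Γ : Type} [Fintype Γ] [DecidableEq Γ] (C : CS π Γ)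
    {a : ℕ} (ha : a < π.K) {I I' : Finset Γ} (h : ∀ g ∈ C.BB (a + 1), (g ∈ I' ↔ g ∈ I))
    {F W : Finset Lab} (hH : C.Hit a I' F W) : C.Hit a I F W := by
  obtain ⟨x, hxW, hxS, ⟨g, hg, hn, hI⟩, hf⟩ := hH
  exact ⟨x, hxW, hxS, ⟨g, hg, fun hgI => hn ((h g (C.BB_mono a ha hg)).2 hgI),
    (h _ (C.ex_mem a ha g hg x (π.toSys.St_sub a hxS))).1 hI⟩, hf⟩

open Classical in
/-- One closed proper set with all the properties. -/
theorem oneI {π : Par} {Γ : Type} [Fintype Γ] [DecidableEq Γ] (C : CS π Γ) (hN : π.Num)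
    (p : ℕ → ℕ) (hp : π.Modu p) {Ω : Type} [Fintype Ω] (wt : Ω → ℝ) (h0 : ∀ o, 0 ≤ wt o)
    (h1 : ∑ o, wt o ≤ 1) (Av : Ω → ℕ → Finset Lab) (b : ℕ → ℕ)
    (hb : ∀ o, ∀ c < π.K, (Av o c).card ≤ b c) :
    ∃ (I : Finset Γ) (F : ℕ → Finset Lab), C.Closed I ∧ C.Proper I ∧
      (∀ c < π.K, C.GoodAt p c I (F c)) ∧
      ∑ o with (∃ c < π.K, C.Hit c I (F c) (Av o c)), wt o ≤
        ∑ c ∈ range π.K, (b c : ℝ) / π.n' c := by
  have key : ∀ c ≤ π.K, ∃ (Φ : Finset Γ → Finset Γ) (F : ℕ → Finset Lab), C.ValidOp c Φ ∧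
      ∀ a < c, C.GoodAt p a (Φ ∅) (F a) ∧
        ∑ o with C.Hit a (Φ ∅) (F a) (Av o a), wt o ≤ (b a : ℝ) / π.n' a := by
    intro c
    induction c with
    | zero =>
      intro _
      obtain ⟨Φ, hΦ⟩ := base_op C hN
      exact ⟨Φ, fun _ => ∅, hΦ, fun a ha => absurd ha (Nat.not_lt_zero a)⟩
    | succ c ih =>
      intro hc
      obtain ⟨Φ, F, hΦ, hF⟩ := ih (Nat.le_of_succ_le hc)
      obtain ⟨Φ', F', hV, htr, hG, hw⟩ := stage_w C hN p hp c hc Φ hΦ wt h0 h1
        (fun o => Av o c) (b c) fun o => hb o c hc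
      refine ⟨Φ', Function.update F c F', hV, fun a ha => ?_⟩
      rcases Nat.lt_succ_iff_lt_or_eq.1 ha with ha | rfl
      · rw [Function.update_of_ne ha.ne]
        have hiff : ∀ g ∈ C.BB (a + 1), (g ∈ Φ' ∅ ↔ g ∈ Φ ∅) := by
          intro g hg
          have hg' := s3_BB_mono C (show a + 1 ≤ c from ha) (Nat.le_of_succ_le hc) hg
          have h3 : g ∈ Φ' ∅ ∩ C.BB c ↔ g ∈ Φ ∅ ∩ C.BB c := by rw [htr]
          simpa only [mem_inter, hg', and_true] using h3
        have haK : a < π.K := ha.trans hc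
        refine ⟨s3_good C p haK hiff (hF a ha).1, le_trans ?_ (hF a ha).2⟩
        refine sum_le_sum_of_subset_of_nonneg (fun o ho => ?_) fun o _ _ => h0 o
        exact mem_filter.2 ⟨mem_univ _, s3_hit C haK hiff (mem_filter.1 ho).2⟩
      · rw [Function.update_self]
        exact ⟨hG, hw⟩
  obtain ⟨Φ, F, hΦ, hF⟩ := key π.K le_rfl
  refine ⟨Φ ∅, F, hΦ.2.2.1 ∅, (hΦ.2.2.2 ∅ (by simpa only [sum_empty] using hN.hρ _)).1, fun c hc => (hF c hc).1,
    le_trans ?_ (sum_le_sum fun c hc => (hF c (mem_range.1 hc)).2)⟩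
  refine le_trans ?_ (s2_cost_biUnion wt h0 (range π.K)
    fun c => univ.filter fun o => C.Hit c (Φ ∅) (F c) (Av o c))
  refine sum_le_sum_of_subset_of_nonneg (fun o ho => ?_) fun o _ _ => h0 o
  obtain ⟨c, hc, hH⟩ := (mem_filter.1 ho).2
  exact mem_biUnion.2 ⟨c, mem_range.2 hc, mem_filter.2 ⟨mem_univ _, hH⟩⟩

end Pool.Agent.MP_dc1150_gt.Neg

end

end

-- part MP_dc1150_gt.Neg.Main
section

section
namespace Pool.Agent.MP_dc1150_gt.Neg

open Finset

/-- Slots. -/
abbrev Slot : Type := Item × (ℕ × Item × ℕ)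

instance instDecEqIdx : DecidableEq (ℕ × Item × ℕ) := inferInstance

instance instDecEqSlot : DecidableEq Slot := inferInstance

/-- Anchors. -/
def BBs (π : Par) (c : ℕ) : Finset Slot := π.toSys.DD c ×ˢ AA π c

/-- The finite type of slots. -/
abbrev Gam (π : Par) : Type := {g : Slot // g ∈ BBs π π.K}

instance instDecEqGam (π : Par) : DecidableEq (Gam π) := inferInstance

/-- Extension of a slot. -/
def exG (π : Par) (g : Gam π) (c : ℕ) (x : Lab) : Gam π :=
  if h : (((c, x) :: g.1.1, g.1.2) : Slot) ∈ BBs π π.K then ⟨_, h⟩ else g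

/-- Cost of an item. -/
noncomputable def kapI (π : Par) : Item → ℝ
  | [] => 1
  | a :: _ => 1 / (π.d a.1 + 1 : ℝ)

theorem kapI_nonneg (π : Par) (S : Item) : 0 ≤ kapI π S := by
  cases S with
  | nil => simp [kapI]
  | cons a S => simp only [kapI]; positivity

theorem AA_mono {π : Par} (hr : Monotone π.r) {a b : ℕ} (h : a ≤ b) : AA π a ⊆ AA π b := by
  intro g hg
  simp only [AA, mem_product, mem_range] at hg ⊢
  exact ⟨by omega, π.toSys.DD_mono h hg.2.1, lt_of_lt_of_le hg.2.2 (hr h)⟩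

theorem BBs_mono {π : Par} (hr : Monotone π.r) {a b : ℕ} (h : a ≤ b) : BBs π a ⊆ BBs π b :=
  product_subset_product (π.toSys.DD_mono h) (AA_mono hr h)

theorem card_BBs {π : Par} {ε : ℝ} (hπ : π.Good ε) (c : ℕ) : (BBs π c).card ≤ π.w c := by
  refine le_trans ?_ (hπ.hw c)
  simp only [BBs, AA, card_product, card_range]
  have := hπ.hΔ c
  gcongr

theorem exG_val {π : Par} (g : Gam π) {c : ℕ} (hc : c < π.K) (hg : g.1.1 ∈ π.toSys.DD c)
    {x : Lab} (hx : x ∈ π.toSys.Lam c) : (exG π g c x).1 = ((c, x) :: g.1.1, g.1.2) := by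
  have h : (((c, x) :: g.1.1, g.1.2) : Slot) ∈ BBs π π.K :=
    mem_product.2 ⟨π.toSys.DD_mono hc (π.toSys.cons_mem hg hx), (mem_product.1 g.2).2⟩
  simp [exG, h]

theorem res_count {V : Type} [Fintype V] [DecidableEq V] {π : Par} {ev : ℕ → Lab → V → V}
    {Q D : ℕ} (hV : Fintype.card V = Q ^ D) (hc : IsCode π.toSys ev Q D) (S : Item)
    (hS : S ∈ π.toSys.DD π.K) :
    ∃ E : ℕ, (E : ℝ) = D * kapI π S ∧ (univ.image (res ev S)).card ≤ Q ^ E := by
  cases S with
  | nil => exact ⟨D, by simp [kapI], by rw [← hV]; exact card_le_univ _⟩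
  | cons a S =>
    obtain ⟨E, hE, hle⟩ := hc.2 a.1 (π.toSys.head_lt hS) a.2
    refine ⟨E, ?_, le_trans (card_le_card ?_) hle⟩
    · have : (E : ℝ) * (π.d a.1 + 1) = D := by exact_mod_cast hE
      simp only [kapI]
      rw [← this]; field_simp
    · intro u hu
      obtain ⟨t, -, rfl⟩ := mem_image.1 hu
      exact mem_image.2 ⟨res ev S t, mem_univ _, rfl⟩

theorem few_values {V : Type} [Fintype V] [DecidableEq V] [Nonempty V] {π : Par}
    {ev : ℕ → Lab → V → V} {Q D : ℕ} (hQ : 1 ≤ Q) (hV : Fintype.card V = Q ^ D)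
    (hc : IsCode π.toSys ev Q D) (Z : Finset (Gam π)) (hZ : ∑ g ∈ Z, kapI π g.1.1 ≤ 1 / 4) :
    ∃ (E : ℕ) (T : Finset (Gam π → V)), 4 * E ≤ D ∧ T.card ≤ Q ^ E ∧
      ∀ col : Gam π → V, ∃ t ∈ T, ∀ g ∈ Z, res ev g.1.1 (col g) = t g := by
  choose E hE hle using fun g : Gam π => res_count hV hc g.1.1 (mem_product.1 g.2).1
  obtain ⟨t0⟩ := ‹Nonempty V›
  refine ⟨∑ g ∈ Z, E g,
    Fintype.piFinset fun g => if g ∈ Z then univ.image (res ev g.1.1) else {t0}, ?_, ?_, ?_⟩
  · have h1 : ((∑ g ∈ Z, E g : ℕ) : ℝ) = D * ∑ g ∈ Z, kapI π g.1.1 := by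
      push_cast
      rw [mul_sum]
      exact sum_congr rfl fun g _ => hE g
    have h2 : (4 : ℝ) * ((∑ g ∈ Z, E g : ℕ) : ℝ) ≤ D := by
      rw [h1]
      have : (0 : ℝ) ≤ D := Nat.cast_nonneg D
      nlinarith only [hZ]
    exact_mod_cast h2
  · rw [Fintype.card_piFinset, ← prod_pow_eq_pow_sum]
    calc ∏ g, (if g ∈ Z then univ.image (res ev g.1.1) else {t0}).card
        ≤ ∏ g, (if g ∈ Z then Q ^ E g else 1) := by
          refine prod_le_prod' fun g _ => ?_
          split_ifs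
          · exact hle g
          · simp
      _ = ∏ g ∈ Z, Q ^ E g := by rw [prod_ite_mem, univ_inter]
  · intro col
    refine ⟨fun g => if g ∈ Z then res ev g.1.1 (col g) else t0, ?_, fun g hg => by simp [hg]⟩
    rw [Fintype.mem_piFinset]
    intro g
    split_ifs <;> simp

/-- The slots carrying the values of a word. -/
def tau {V : Type} [DecidableEq V] (π : Par) (ev : ℕ → Lab → V → V) (T : ℕ × Item × ℕ → V)
    (t : V) : Finset (Gam π) :=
  univ.filter fun g => res ev g.1.1 (T g.1.2) = res ev g.1.1 t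

/-- The pattern seen through a closed set. -/
def zI (π : Par) (I ρ τ : Finset (Gam π)) : Finset Item :=
  (π.toSys.DD π.K).filter fun S => ∃ g ∈ I, g ∈ ρ ∧ g ∈ τ ∧ g.1.1 = S

theorem pat_cl {V : Type} [DecidableEq V] (σ : Sys) (ev : ℕ → Lab → V → V) (s t : V) :
    Cl σ (pat σ ev s t) := by
  intro c hc S hS h x hx
  simp only [pat, mem_filter] at h ⊢
  exact ⟨σ.DD_mono hc (σ.cons_mem hS hx), by simp only [res, h.2]⟩

theorem pat_sparse {V : Type} [Fintype V] [DecidableEq V] {σ : Sys} {ev : ℕ → Lab → V → V}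
    {Q D : ℕ} (hc : IsCode σ ev Q D) (s t : V) : Sparse σ (pat σ ev s t) := by
  intro c hcK S hS h
  have hne : res ev S s ≠ res ev S t := fun e =>
    h (mem_filter.2 ⟨σ.DD_mono hcK.le hS, e⟩)
  refine le_trans (card_le_card ?_) (hc.1 c hcK _ _ hne)
  intro x hx
  simp only [Lt, pat, mem_filter] at hx ⊢
  exact ⟨hx.1, hx.2.2⟩

section Move

variable {V : Type} [DecidableEq V] {π : Par} {ev : ℕ → Lab → V → V} {T : ℕ × Item × ℕ → V}
  (C : CS π (Gam π)) {I : Finset (Gam π)} {s t : V}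

theorem anchor (hr : Monotone π.r) (hE : ¬ Err π ev T s t) {c : ℕ} (hc : c ≤ π.K) {U : Item}
    (hU : U ∈ π.toSys.DD c) (hy : U ∈ pat π.toSys ev s t)
    (hz : U ∉ zI π I (tau π ev T s) (tau π ev T t)) :
    ∃ g : Gam π, g.1 ∈ BBs π c ∧ g ∉ I ∧ g.1.1 = U ∧ res ev U (T g.1.2) = res ev U s := by
  have hst : res ev U s = res ev U t := (mem_filter.1 hy).2
  have : ∃ a ∈ AA π c, res ev U (T a) = res ev U s := by
    by_contra hcon
    push Not at hcon
    exact hE ⟨c, hc, U, hU, hst.symm, hcon⟩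
  obtain ⟨a, ha, hva⟩ := this
  have hb : ((U, a) : Slot) ∈ BBs π c := mem_product.2 ⟨hU, ha⟩
  refine ⟨⟨(U, a), BBs_mono hr hc hb⟩, hb, fun hI => hz ?_, rfl, hva⟩
  refine mem_filter.2 ⟨π.toSys.DD_mono hc hU, _, hI, ?_, ?_, rfl⟩
  · simpa only [tau, univ_eq_attach, mem_filter, mem_attach, true_and] using hva
  · simpa only [tau, univ_eq_attach, mem_filter, mem_attach, true_and] using hva.trans hst

theorem cons_mem_zI
    (heq : ∀ g ∈ I, ∀ g' : Gam π, res ev g.1.1 (T g.1.2) = res ev g'.1.1 (T g'.1.2) → g' ∈ I)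
    {c : ℕ} (hc : c < π.K) {g : Gam π} (hg : g.1.1 ∈ π.toSys.DD c)
    (hs : res ev g.1.1 (T g.1.2) = res ev g.1.1 s) (ht : res ev g.1.1 s = res ev g.1.1 t)
    {x : Lab} (hx : x ∈ π.toSys.Lam c) :
    (c, x) :: g.1.1 ∈ zI π I (tau π ev T s) (tau π ev T t) ↔ exG π g c x ∈ I := by
  have hv := exG_val g hc hg hx
  have h1 : (exG π g c x).1.1 = (c, x) :: g.1.1 := by rw [hv]
  have h2 : (exG π g c x).1.2 = g.1.2 := by rw [hv]
  constructor
  · intro h
    obtain ⟨-, g', hI, hρ, -, hS⟩ := mem_filter.1 h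
    refine heq g' hI _ ?_
    have h3 : res ev g'.1.1 (T g'.1.2) = res ev g'.1.1 s := by simpa only [tau, univ_eq_attach, mem_filter, mem_attach, true_and] using hρ
    rw [h3, h1, h2, hS]
    simp only [res, hs]
  · intro h
    refine mem_filter.2 ⟨π.toSys.DD_mono hc (π.toSys.cons_mem hg hx), _, h, ?_, ?_, h1⟩
    · simp only [tau, mem_filter, mem_univ, true_and, h1, h2, res, hs]
    · simp only [tau, mem_filter, mem_univ, true_and, h1, h2, res, hs, ht]

theorem move_tm (hr : Monotone π.r) (hB : ∀ c g, g ∈ C.BB c ↔ g.1 ∈ BBs π c)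
    (hex : C.ex = exG π) (hI : C.Closed I)
    (hext : ∀ g ∈ I, ∀ c < π.K, g.1.1 ∈ π.toSys.DD c → ∀ x ∈ π.toSys.Lam c, exG π g c x ∈ I)
    (heq : ∀ g ∈ I, ∀ g' : Gam π, res ev g.1.1 (T g.1.2) = res ev g'.1.1 (T g'.1.2) → g' ∈ I)
    {p : ℕ → ℕ} {F : ℕ → Finset Lab} (hF : ∀ c < π.K, C.GoodAt p c I (F c))
    (hE : ¬ Err π ev T s t) :
    TM π.toSys p (pat π.toSys ev s t) (zI π I (tau π ev T s) (tau π ev T t)) F ∧
      ∀ W : ℕ → Finset Lab, (¬ ∃ c < π.K, C.Hit c I (F c) (W c)) →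
        Avoid π.toSys (pat π.toSys ev s t) (zI π I (tau π ev T s) (tau π ev T t)) F W := by
  have key : ∀ c < π.K, ∀ U ∈ π.toSys.DD c, U ∈ pat π.toSys ev s t →
      U ∉ zI π I (tau π ev T s) (tau π ev T t) → ∃ g ∈ C.BB c, g ∉ I ∧
        ∀ x ∈ π.toSys.Lam c,
          ((c, x) :: U ∈ zI π I (tau π ev T s) (tau π ev T t) ↔ C.ex g c x ∈ I) := by
    intro c hc U hU hy hz
    obtain ⟨g, hg, hgI, rfl, hv⟩ := anchor hr hE hc.le hU hy hz
    refine ⟨g, (hB c g).2 hg, hgI, fun x hx => ?_⟩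
    rw [hex]
    exact cons_mem_zI heq hc hU hv (mem_filter.1 hy).2 hx
  refine ⟨⟨?_, pat_cl _ _ _ _, ?_, fun c hc => (hF c hc).1, fun c hc => (hF c hc).2.1, ?_, ?_⟩, ?_⟩
  · intro S hS
    obtain ⟨h1, g, -, hρ, hτ, rfl⟩ := mem_filter.1 hS
    simp only [tau, mem_filter, mem_univ, true_and] at hρ hτ
    exact mem_filter.2 ⟨h1, hρ.symm.trans hτ⟩
  · intro c hc S hS h x hx
    obtain ⟨-, g, hgI, hρ, hτ, rfl⟩ := mem_filter.1 h
    simp only [tau, mem_filter, mem_univ, true_and] at hρ hτ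
    exact (cons_mem_zI heq hc hS hρ (hρ.symm.trans hτ) hx).2 (hext g hgI c hc hS x hx)
  · intro c hc U hU hy hz
    obtain ⟨g, hg, hgI, h⟩ := key c hc U hU hy hz
    have h1 : Lt π.toSys (zI π I (tau π ev T s) (tau π ev T t)) c U =
        (π.toSys.Lam c).filter fun x => C.ex g c x ∈ I := filter_congr h
    have h2 : ((π.toSys.Lam c).filter fun x => C.ex g c x ∈ I) ∩ π.toSys.Cnt c =
        (π.toSys.Cnt c).filter fun x => C.ex g c x ∈ I := by
      ext x
      simp only [mem_inter, mem_filter]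
      exact ⟨fun a => ⟨a.2, a.1.2⟩, fun a => ⟨⟨π.toSys.Cnt_sub c a.1, a.2⟩, a.1⟩⟩
    rw [h1, h2]
    have h3 := (hF c hc).2.2.1 g hg hgI
    exact ⟨h3.1, C.sparse I hI c hc g hg hgI, fun f hf =>
      (h f (π.toSys.St_sub c ((hF c hc).1 hf))).2 (h3.2 f hf)⟩
  · intro c hc x hx
    obtain ⟨hxs, U, hU, hy, hz, hxz⟩ := mem_filter.1 hx
    obtain ⟨g, hg, hgI, h⟩ := key c hc U hU hy hz
    exact (hF c hc).2.2.2 x hxs g hg hgI ((h x (π.toSys.St_sub c hxs)).1 hxz)
  · intro W hW c hc x hx hxW f hf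
    obtain ⟨hxs, U, hU, hy, hz, hxz⟩ := mem_filter.1 hx
    obtain ⟨g, hg, hgI, h⟩ := key c hc U hU hy hz
    by_contra hb
    exact hW ⟨c, hc, x, hxW, hxs, ⟨g, hg, hgI, (h x (π.toSys.St_sub c hxs)).1 hxz⟩, f, hf, hb⟩

theorem pat_eq_zI (hr : Monotone π.r) {T' : ℕ × Item × ℕ → V}
    (hag : ∀ g ∈ I, res ev g.1.1 (T' g.1.2) = res ev g.1.1 (T g.1.2))
    (h2 : ¬ ∃ g : Gam π, g ∉ I ∧ res ev g.1.1 (T' g.1.2) = res ev g.1.1 s)
    (hE : ¬ Err π ev T' s t) :
    zI π I (tau π ev T s) (tau π ev T' t) = pat π.toSys ev s t := by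
  ext S
  constructor
  · intro hS
    obtain ⟨h1, g, hgI, hρ, hτ, rfl⟩ := mem_filter.1 hS
    simp only [tau, mem_filter, mem_univ, true_and] at hρ hτ
    exact mem_filter.2 ⟨h1, hρ.symm.trans ((hag g hgI).symm.trans hτ)⟩
  · intro hS
    have h1 := (mem_filter.1 hS).1
    have hst : res ev S s = res ev S t := (mem_filter.1 hS).2
    obtain ⟨g, -, -, rfl, hv⟩ := anchor (I := ∅) hr hE le_rfl h1 hS (by simp only [zI, notMem_empty, false_and, exists_false, filter_false, not_false_eq_true])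
    have hgI : g ∈ I := by
      by_contra hn
      exact h2 ⟨g, hn, hv⟩
    refine mem_filter.2 ⟨h1, g, hgI, ?_, ?_, rfl⟩
    · simpa only [tau, univ_eq_attach, mem_filter, mem_attach, true_and] using (hag g hgI).symm.trans hv
    · simpa only [tau, univ_eq_attach, mem_filter, mem_attach, true_and] using hv.trans hst

end Move

end Pool.Agent.MP_dc1150_gt.Neg

end

section
namespace Pool.Agent.MP_dc1150_gt.Neg

open Finset

theorem final_ineq {V : Type} [Fintype V] (μ νj νi : V → ℝ) (hμ : ∑ s, |μ s| ≤ 1)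
    (hj0 : ∀ t, 0 ≤ νj t) (hj1 : ∑ t, νj t = 1) (hi0 : ∀ t, 0 ≤ νi t)
    (A ψj ψi : V → V → ℝ) (hA : ∀ s t, 0 ≤ A s t ∧ A s t ≤ 1)
    (hψj : ∀ s t, 0 ≤ ψj s t ∧ ψj s t ≤ 1) (hψi : ∀ s t, 0 ≤ ψi s t ∧ ψi s t ≤ 1)
    (P1 P3 : V → V → Prop) (P2 : V × V → Prop) (P4 : V → Prop)
    [∀ s, DecidablePred (P1 s)] [∀ s, DecidablePred (P3 s)] [DecidablePred P2] [DecidablePred P4]
    (ε : ℝ) (hε : 0 ≤ ε) (hi1 : ∑ t, νi t = 1)
    (h1 : ∀ s t, ¬ P1 s t → ¬ P2 (s, t) → |A s t - ψj s t| ≤ ε)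
    (h2 : ∀ s, |∑ t, νj t * ψj s t - ∑ t, νi t * ψi s t| ≤ ε)
    (h3 : ∀ s t, ¬ P4 s → ¬ P3 s t → ψi s t = A s t)
    (m1 : ∀ s, ∑ t with P1 s t, νj t ≤ ε) (m2 : ∑ o with P2 o, |μ o.1| * νj o.2 ≤ ε)
    (m3 : ∀ s, ∑ t with P3 s t, νi t ≤ ε) (m4 : ∑ s with P4 s, |μ s| ≤ ε) :
    ∑ s, μ s * (∑ t, A s t * νj t - ∑ t, A s t * νi t) ≤ 6 * ε := by
  have k1 : ∀ s, |∑ t, A s t * νj t - ∑ t, νj t * ψj s t| ≤
      2 * ε + ∑ t, if P2 (s, t) then νj t else 0 := by
    intro s
    rw [← sum_sub_distrib]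
    refine (abs_sum_le_sum_abs _ _).trans ?_
    calc ∑ t, |A s t * νj t - νj t * ψj s t|
        ≤ ∑ t, (ε * νj t + (if P1 s t then νj t else 0) + if P2 (s, t) then νj t else 0) := by
          refine sum_le_sum fun t _ => ?_
          have e : A s t * νj t - νj t * ψj s t = (A s t - ψj s t) * νj t := by ring
          have b : |A s t - ψj s t| ≤ 1 := by
            rw [abs_le]; constructor <;> linarith only [hA s t, hψj s t]
          have c0 := hj0 t
          have c1 := mul_nonneg hε c0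
          rw [e, abs_mul, abs_of_nonneg c0]
          have b1 := mul_le_mul_of_nonneg_right b c0
          split_ifs with a1 a2 a2
          · linarith only [c0, c1, b1]
          · linarith
          · linarith
          · have := mul_le_mul_of_nonneg_right (h1 s t a1 a2) c0
            linarith
      _ ≤ _ := by
          rw [sum_add_distrib, sum_add_distrib, ← mul_sum, hj1, ← sum_filter]
          linarith [m1 s]
  have k3 : ∀ s, |∑ t, νi t * ψi s t - ∑ t, A s t * νi t| ≤ ε + if P4 s then 1 else 0 := by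
    intro s
    rw [← sum_sub_distrib]
    refine (abs_sum_le_sum_abs _ _).trans ?_
    calc ∑ t, |νi t * ψi s t - A s t * νi t|
        ≤ ∑ t, ((if P3 s t then νi t else 0) + (if P4 s then 1 else 0) * νi t) := by
          refine sum_le_sum fun t _ => ?_
          have e : νi t * ψi s t - A s t * νi t = (ψi s t - A s t) * νi t := by ring
          have b : |ψi s t - A s t| ≤ 1 := by
            rw [abs_le]; constructor <;> linarith [hA s t, hψi s t]
          have c0 := hi0 t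
          rw [e, abs_mul, abs_of_nonneg c0]
          have b1 := mul_le_mul_of_nonneg_right b c0
          split_ifs with a1 a2 a2
          · linarith only [c0, b1]
          · linarith
          · linarith
          · rw [h3 s t a2 a1]; simp
      _ ≤ _ := by
          rw [sum_add_distrib, ← mul_sum, hi1, ← sum_filter]
          linarith [m3 s]
  have k4 : ∀ s, μ s * (∑ t, A s t * νj t - ∑ t, A s t * νi t) ≤
      4 * ε * |μ s| + (∑ t, if P2 (s, t) then |μ s| * νj t else 0) +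
        if P4 s then |μ s| else 0 := by
    intro s
    have a1 := k1 s
    have a2 := h2 s
    have a3 := k3 s
    have a4 : |∑ t, A s t * νj t - ∑ t, A s t * νi t| ≤
        4 * ε + (∑ t, if P2 (s, t) then νj t else 0) + if P4 s then 1 else 0 := by
      rw [abs_le] at a1 a2 a3 ⊢
      constructor <;> linarith only [a1.1, a1.2, a2.1, a2.2, a3.1, a3.2]
    have a5 := mul_le_mul_of_nonneg_left a4 (abs_nonneg (μ s))
    rw [← abs_mul] at a5
    refine ((le_abs_self _).trans a5).trans (le_of_eq ?_)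
    rw [mul_add, mul_add, mul_sum]
    simp only [mul_ite, mul_zero, mul_one]
    ring
  refine (sum_le_sum fun s _ => k4 s).trans ?_
  rw [sum_add_distrib, sum_add_distrib, ← mul_sum, ← sum_filter]
  have e2 : (∑ s, ∑ t, if P2 (s, t) then |μ s| * νj t else 0) =
      ∑ o with P2 o, |μ o.1| * νj o.2 := by
    rw [sum_filter, Fintype.sum_prod_type]
  rw [e2]
  nlinarith only [hμ, hε, m2, m4]

theorem pick_index {ι V : Type} [Fintype V] (E : Finset ι) (hE : E.Nonempty) (μ : V → ℝ)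
    (hμ : ∑ s, |μ s| ≤ 1) (P : V → ι → Prop) [∀ s i, Decidable (P s i)] (ε : ℝ) (hε : 0 ≤ ε)
    (h : ∀ s, ((E.filter fun i => P s i).card : ℝ) ≤ ε * E.card) :
    ∃ i ∈ E, ∑ s with P s i, |μ s| ≤ ε := by
  refine exists_le_of_sum_le hE ?_
  calc ∑ i ∈ E, ∑ s with P s i, |μ s|
      = ∑ s, |μ s| * ((E.filter fun i => P s i).card : ℝ) := by
        simp only [sum_filter]
        rw [sum_comm]
        refine sum_congr rfl fun s _ => ?_
        rw [← sum_filter, sum_const, nsmul_eq_mul, mul_comm]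
    _ ≤ ∑ s, |μ s| * (ε * E.card) :=
        sum_le_sum fun s _ => mul_le_mul_of_nonneg_left (h s) (abs_nonneg _)
    _ ≤ ∑ _i ∈ E, ε := by
        rw [← sum_mul, sum_const, nsmul_eq_mul]
        have : 0 ≤ ε * E.card := by positivity
        nlinarith only [hμ, this]

/-- The closure system attached to a homogeneous family. -/
noncomputable def mkCS {π : Par} {ε : ℝ} (hπ : π.Good ε) (Closed Proper : Finset (Gam π) → Prop)
    (h1 : Closed univ) (h2 : ∀ I I', Closed I → Closed I' → Closed (I ∩ I'))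
    (h3 : ∀ I I', I ⊆ I' → Proper I' → Proper I)
    (h4 : ∀ Z : Finset (Gam π), ∑ g ∈ Z, kapI π g.1.1 ≤ 1 / 4 → ∃ I, Z ⊆ I ∧ Closed I ∧ Proper I)
    (h5 : ∀ I, Closed I → ∀ c < π.K, ∀ g : Gam π, g.1.1 ∈ π.toSys.DD c → g ∉ I →
      ((π.toSys.Lam c).filter fun x => exG π g c x ∈ I).card ≤ π.d c) : CS π (Gam π) where
  BB c := univ.filter fun g => g.1 ∈ BBs π c
  ex := exG π
  κ g := kapI π g.1.1
  Closed := Closed
  Proper := Proper
  BB_mono c _ g hg := by
    simp only [mem_filter, mem_univ, true_and] at hg ⊢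
    exact BBs_mono hπ.hrm (Nat.le_succ c) hg
  BB_card c _ := by
    refine le_trans (card_le_card_of_injOn (fun g => g.1) ?_ ?_) (card_BBs hπ c)
    · intro g hg
      simpa only [SetLike.mem_coe, univ_eq_attach, coe_filter, mem_attach, true_and, Set.mem_ofPred_eq] using hg
    · intro a _ b _ h
      exact Subtype.ext h
  ex_mem c hc g hg x hx := by
    simp only [mem_filter, mem_univ, true_and] at hg ⊢
    have hg' := mem_product.1 hg
    rw [exG_val g hc hg'.1 hx]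
    exact mem_product.2 ⟨π.toSys.cons_mem hg'.1 hx, AA_mono hπ.hrm (Nat.le_succ c) hg'.2⟩
  κ_nonneg g := kapI_nonneg π _
  κ_ex c hc g hg x hx := by
    simp only [mem_filter, mem_univ, true_and] at hg
    rw [exG_val g hc (mem_product.1 hg).1 hx]
    simp [kapI]
  closed_univ := h1
  closed_inter := h2
  proper_anti := h3
  small := h4
  sparse I hI c hc g hg hgI := by
    simp only [mem_filter, mem_univ, true_and] at hg
    exact h5 I hI c hc g (mem_product.1 hg).1 hgI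

/-- No long ladder for the matrix given by the game. -/
theorem no_ladder (π : Par) (ε : ℝ) (hε : 0 < ε) (hπ : π.Good ε) (p : ℕ → ℕ) (hp : π.Modu p)
    (D : ℕ) (hD : 0 < D) :
    ∃ a0 : ℕ, ∀ a, a0 ≤ a → ∃ b0 : ℕ, ∀ b, b0 ≤ b →
      ∀ (V : Type) [Fintype V] [DecidableEq V] (ev : ℕ → Lab → V → V),
        Fintype.card V = (2 ^ (12 * a * b)) ^ D → IsCode π.toSys ev (2 ^ (12 * a * b)) D →
        ¬ Ladder (fun s t => phi π.toSys p (pat π.toSys ev s t)) (7 * ε) (2 ^ (4 * a * b * D)) := by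
  classical
  obtain ⟨k, hk⟩ : ∃ k, k = Fintype.card (Gam π) := ⟨_, rfl⟩
  refine ⟨3 * k + 2, fun a ha => ?_⟩
  obtain ⟨g, hg⟩ := exists_nat_gt ((2 : ℝ) ^ k / ε)
  have hg0 : 0 < g := by
    have : (0 : ℝ) < g := lt_trans (by positivity) hg
    exact_mod_cast this
  obtain ⟨R, hR⟩ : ∃ R, R = 2 ^ (k + 1) * (4 * a * D + 1) ^ 2 ^ k := ⟨_, rfl⟩
  obtain ⟨b1, hb1⟩ := exists_nat_gt ((k : ℝ) * (2 ^ (k + 2) * R) / ε)
  refine ⟨b1 + 2 ^ (k * k) * (g + 1) ^ 2 ^ k * (2 ^ (k + 2) * R ^ (k + 2)) + 1, ?_⟩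
  intro b hb V _ _ ev hV hc
  rintro ⟨μ, ν, hμ, hν0, hν1, hlad⟩
  obtain ⟨B, hBd⟩ : ∃ B, B = 2 ^ b := ⟨_, rfl⟩
  have hbB : b < B := hBd ▸ Nat.lt_two_pow_self
  have hB2 : 2 ≤ B := by omega
  have hM : 2 ^ (4 * a * b * D) = B ^ (4 * a * D) := by
    rw [hBd, ← pow_mul]; congr 1; ring
  have hQ : 2 ^ (12 * a * b) = B ^ (12 * a) := by
    rw [hBd, ← pow_mul]; congr 1; ring
  have : Nonempty V := Fintype.card_pos_iff.1 (by rw [hV]; positivity)
  choose T hT using fun j => lists π ε hπ ev (ν j) (hν0 j) (hν1 j)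
  obtain ⟨J0, hJ0, hcl⟩ := classes _ ν hν0 hν1 (fun j => tau π ev (T j))
    (fun j (γ : Gam π) => res ev γ.1.1 (T j γ.1.2)) k g
    (2 ^ (k + 2) * R ^ (k + 2) * B ^ (3 * k + 1) * B ^ (3 * a * D)) hk hg0 (by
      rw [hM]
      have e1 : 2 ^ (k * k) * (g + 1) ^ 2 ^ k * (2 ^ (k + 2) * R ^ (k + 2)) ≤ B := by omega
      have e2 : 1 + (3 * k + 1) + 3 * a * D ≤ 4 * a * D := by nlinarith only [hD, ha]
      calc _ = 2 ^ (k * k) * (g + 1) ^ 2 ^ k * (2 ^ (k + 2) * R ^ (k + 2)) *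
            B ^ (3 * k + 1) * B ^ (3 * a * D) := by ring
        _ ≤ B * B ^ (3 * k + 1) * B ^ (3 * a * D) := by gcongr
        _ = B ^ (1 + (3 * k + 1) + 3 * a * D) := by ring
        _ ≤ _ := Nat.pow_le_pow_right (by omega) e2)
  obtain ⟨j, hj, Closed, Proper, c1, c2, c3, c4, c5, c6⟩ := H76.homog J0
    (fun j (γ : Gam π) => res ev γ.1.1 (T j γ.1.2)) B (4 * a * D + 1) (B ^ (3 * a * D)) k R hB2
    (Nat.one_le_pow _ _ (by omega)) (by omega) (by
      have := card_le_univ J0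
      rw [Fintype.card_fin] at this
      exact lt_of_le_of_lt (this.trans_eq hM) (Nat.pow_lt_pow_right (by omega) (by omega))) hk hR hJ0
  have hsm : ∀ Z : Finset (Gam π), ∑ γ ∈ Z, kapI π γ.1.1 ≤ 1 / 4 →
      ∃ I, Z ⊆ I ∧ Closed I ∧ Proper I := by
    intro Z hZ
    obtain ⟨E, TT, hE, hTT, hcol⟩ := few_values (Nat.one_le_pow _ _ (by omega)) hV hc Z hZ
    refine c4 Z ⟨TT, hTT.trans ?_, fun i _ => hcol fun γ => T i γ.1.2⟩
    rw [hQ, ← pow_mul]
    exact Nat.pow_le_pow_right (by omega) (by nlinarith only [hE])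
  have hsp : ∀ I, Closed I → ∀ c < π.K, ∀ γ : Gam π, γ.1.1 ∈ π.toSys.DD c → γ ∉ I →
      ((π.toSys.Lam c).filter fun x => exG π γ c x ∈ I).card ≤ π.d c := by
    intro I hI c hcK γ hγ hγI
    obtain ⟨i, -, hag, hne⟩ := c5 I γ hI hγI
    refine le_trans (card_le_card ?_) (hc.1 c hcK _ _ hne)
    intro x hx
    rw [mem_filter] at hx ⊢
    have := hag _ hx.2
    rw [exG_val γ hcK hγ hx.1] at this
    exact ⟨hx.1, this⟩
  choose Av hAv hlip using fun y => phi_lip π.toSys p π.Δ hπ.hΔ hπ.hJ y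
  obtain ⟨I, F, hI, hIp, hF, hw⟩ := oneI (mkCS hπ Closed Proper c1 c2 c3 hsm hsp) hπ.num p hp
    (fun o : V × V => |μ j o.1| * ν j o.2) (fun o => mul_nonneg (abs_nonneg _) (hν0 j _))
    (by
      rw [Fintype.sum_prod_type]
      simp only [← mul_sum, hν1, mul_one]
      exact hμ j)
    (fun o => Av (pat π.toSys ev o.1 o.2)) (fun c => bav π.J (π.Δ c) (π.d c))
    (fun o c hc => hAv _ c hc)
  have hext : ∀ γ ∈ I, ∀ c < π.K, γ.1.1 ∈ π.toSys.DD c → ∀ x ∈ π.toSys.Lam c,
      exG π γ c x ∈ I := by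
    intro γ hγ c hcK hS x hx
    by_contra hn
    obtain ⟨i, -, hag, hne⟩ := c5 I _ hI hn
    rw [exG_val γ hcK hS hx] at hne
    exact hne (by simp only [res, hag γ hγ])
  have heq : ∀ γ ∈ I, ∀ γ' : Gam π,
      res ev γ.1.1 (T j γ.1.2) = res ev γ'.1.1 (T j γ'.1.2) → γ' ∈ I := by
    intro γ hγ γ' h
    by_contra hn
    obtain ⟨i, hi, hag, hne⟩ := c5 I _ hI hn
    exact hne (((hcl j hj i hi).1 γ γ' h).symm.trans ((hag γ hγ).trans h))
  obtain ⟨E, hEJ, hEne, hE1, hE2⟩ := c6 I hI hIp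
  obtain ⟨i, hi, hm4⟩ := pick_index E hEne (μ j) (hμ j)
    (fun s i => ∃ γ : Gam π, γ ∉ I ∧ res ev γ.1.1 (T i γ.1.2) = res ev γ.1.1 s) ε hε.le (by
      intro s
      have e1 : (E.filter fun i => ∃ γ : Gam π, γ ∉ I ∧
          res ev γ.1.1 (T i γ.1.2) = res ev γ.1.1 s) ⊆ (univ.filter fun γ => γ ∉ I).biUnion
            fun γ => E.filter fun i => res ev γ.1.1 (T i γ.1.2) = res ev γ.1.1 s := by
        intro i hi
        obtain ⟨h1, γ, h2, h3⟩ := mem_filter.1 hi
        exact mem_biUnion.2 ⟨γ, by simpa only [univ_eq_attach, mem_filter, mem_attach, true_and] using h2, mem_filter.2 ⟨h1, h3⟩⟩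
      have e2 := (card_le_card e1).trans card_biUnion_le
      have e3 : B * (E.filter fun i => ∃ γ : Gam π, γ ∉ I ∧
          res ev γ.1.1 (T i γ.1.2) = res ev γ.1.1 s).card ≤ k * (2 ^ (k + 2) * R * E.card) := by
        refine (Nat.mul_le_mul_left B e2).trans ?_
        rw [mul_sum]
        refine (sum_le_card_nsmul _ _ (2 ^ (k + 2) * R * E.card) fun γ hγ =>
          hE2 γ (mem_filter.1 hγ).2 _).trans ?_
        rw [smul_eq_mul, hk]
        exact Nat.mul_le_mul_right _ (card_le_univ _)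
      have e4 : (B : ℝ) * ((E.filter fun i => ∃ γ : Gam π, γ ∉ I ∧
          res ev γ.1.1 (T i γ.1.2) = res ev γ.1.1 s).card : ℝ) ≤
            k * (2 ^ (k + 2) * R * E.card) := by exact_mod_cast e3
      have e5 : (b1 : ℝ) ≤ B := by exact_mod_cast (by omega : b1 ≤ B)
      have e6 : (k : ℝ) * (2 ^ (k + 2) * R) ≤ B * ε := by
        rw [div_lt_iff₀ hε] at hb1
        nlinarith only [hε, hb1, e5]
      have e7 : (0 : ℝ) < B := by exact_mod_cast (by omega : 0 < B)
      have e8 : (0 : ℝ) ≤ E.card := Nat.cast_nonneg _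
      refine le_of_mul_le_mul_left (e4.trans ?_) e7
      linarith only [mul_le_mul_of_nonneg_right e6 e8])
  have hphi : ∀ z, 0 ≤ phi π.toSys p z ∧ phi π.toSys p z ≤ 1 := fun z =>
    ⟨phi_nonneg _ _ _, phi_le_one _ _ _⟩
  have fin := final_ineq (μ j) (ν j) (ν i) (hμ j) (hν0 j) (hν1 j) (hν0 i)
    (fun s t => phi π.toSys p (pat π.toSys ev s t))
    (fun s t => phi π.toSys p (zI π I (tau π ev (T j) s) (tau π ev (T j) t)))
    (fun s t => phi π.toSys p (zI π I (tau π ev (T j) s) (tau π ev (T i) t)))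
    (fun _ _ => hphi _) (fun _ _ => hphi _) (fun _ _ => hphi _)
    (fun s t => Err π ev (T j) s t) (fun s t => Err π ev (T i) s t) _ _ ε hε.le (hν1 i)
    (fun s t h1 h2 => by
      obtain ⟨a1, a2⟩ := move_tm (mkCS hπ Closed Proper c1 c2 c3 hsm hsp) hπ.hrm
        (fun c γ => by simp only [mkCS, univ_eq_attach, mem_filter, mem_attach, true_and]) rfl hI hext heq hF h1
      exact (hlip _ _ F a1 (a2 _ h2)).trans hπ.hJε)
    (fun s => ((hcl j hj i (hEJ hi)).2 (fun τ => phi π.toSys p (zI π I (tau π ev (T j) s) τ))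
      fun _ => hphi _).trans (by
        rw [div_lt_iff₀ hε] at hg
        rw [div_le_iff₀ (by exact_mod_cast hg0)]
        linarith only [hg]))
    (fun s t h4 h3 => by rw [pat_eq_zI hπ.hrm (hE1 i hi).2 h4 h3])
    (hT j) (hw.trans hπ.hb) (hT i) hm4
  linarith only [hlad i j (hE1 i hi).1, hε, fin]

end Pool.Agent.MP_dc1150_gt.Neg

end

section
namespace Pool.Agent.MP_dc1150_gt.Neg

open Finset

/-- The combinatorial core. -/
theorem core (c : ℝ) (hc : 0 < c) (m1 : ℕ) :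
    ∃ M : ℕ, m1 ≤ M ∧ ∃ (V : Type) (_ : Fintype V) (_ : DecidableEq V) (A B : V → V → ℝ),
      Fintype.card V = M ^ 3 ∧ (∀ s t, 0 ≤ A s t ∧ A s t ≤ 1) ∧ (∀ s t, 0 ≤ B s t ∧ B s t ≤ 1) ∧
      (∀ t, A t t = 1 ∧ B t t = 1) ∧ (∀ s t, s ≠ t → A s t + B s t ≤ 1) ∧
      ¬ Ladder A c M ∧ ¬ Ladder B c M := by
  have hε : 0 < c / 7 := by positivity
  obtain ⟨π, hπ⟩ := params (c / 7) hε
  obtain ⟨D, n0, hD, hcode⟩ := code π.toSys
  obtain ⟨a1, ha1⟩ := no_ladder π _ hε hπ π.p hπ.hp D hD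
  obtain ⟨a2, ha2⟩ := no_ladder π _ hε hπ π.q hπ.hq D hD
  obtain ⟨b1, hb1⟩ := ha1 (a1 + a2 + 1) (by omega)
  obtain ⟨b2, hb2⟩ := ha2 (a1 + a2 + 1) (by omega)
  obtain ⟨a, ha⟩ : ∃ a, a = a1 + a2 + 1 := ⟨_, rfl⟩
  obtain ⟨b, hb⟩ : ∃ b, b = b1 + b2 + n0 + m1 := ⟨_, rfl⟩
  rw [← ha] at hb1 hb2
  have ha0 : 1 ≤ a := by omega
  obtain ⟨V, _, _, ev, hV, hcd⟩ := hcode (12 * a * b) (by nlinarith only [ha, hb])
  have h7 : 7 * (c / 7) = c := by ring
  have hA := hb1 b (by omega) V ev hV hcd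
  have hB := hb2 b (by omega) V ev hV hcd
  rw [h7] at hA hB
  refine ⟨2 ^ (4 * a * b * D), ?_, V, inferInstance, inferInstance, _, _, ?_,
    fun _ _ => ⟨phi_nonneg _ _ _, phi_le_one _ _ _⟩,
    fun _ _ => ⟨phi_nonneg _ _ _, phi_le_one _ _ _⟩, fun t => ?_, fun s t hst => ?_, hA, hB⟩
  · have h1 : b ≤ 4 * a * b * D := by
      calc b = 1 * 1 * b * 1 := by ring
        _ ≤ 4 * a * b * D := by gcongr <;> omega
    exact le_trans (by omega) (Nat.lt_two_pow_self (n := 4 * a * b * D)).le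
  · rw [hV, ← pow_mul, ← pow_mul]; congr 1; ring
  · have : pat π.toSys ev t t = π.toSys.DD π.K := by simp [pat]
    simp only [this]
    exact ⟨phi_top _ _ hπ.hJ, phi_top _ _ hπ.hJ⟩
  · refine phi_add_le _ _ _ hπ.hJ hπ.hK (fun c hc => ⟨?_, (hπ.hpq c hc).2⟩) _
      (pat_sparse hcd s t) fun h => hst (mem_filter.1 h).2
    exact (Nat.coprime_primes (hπ.hp c hc).1 (hπ.hq c hc).1).2 (hπ.hpq c hc).1

end Pool.Agent.MP_dc1150_gt.Neg

end

end

-- part MP_dc1150_gt.Neg.Geo
section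

section
namespace Pool.Agent.MP_dc1150_gt.Neg

open Finset

/-- Finite-dimensional duality. -/
theorem approx_of_not_ladder {V : Type} [Fintype V] (A : V → V → ℝ) (c : ℝ) (hc : 0 < c)
    (M : ℕ) (h : ¬ Ladder A c M) : Approx A c M := by
  classical
  intro nu h0 h1
  by_contra hcon
  push Not at hcon
  apply h
  set a : Fin M → V → ℝ := fun i s => ∑ t, A s t * nu i t with ha
  have key : ∀ j : Fin M, ∃ mu : V → ℝ, ∑ s, |mu s| ≤ 1 ∧
      ∀ i, i < j → c ≤ ∑ s, mu s * (a j s - a i s) := by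
    intro j
    by_cases hj : ∃ i, i < j
    swap
    · exact ⟨0, by simp only [Pi.zero_apply, abs_zero, sum_const_zero, zero_le_one], fun i hi => absurd ⟨i, hi⟩ hj⟩
    obtain ⟨i0, hi0⟩ := hj
    set P : Set (Fin M → ℝ) := stdSimplex ℝ (Fin M) ∩ {l | ∀ i, j ≤ i → l i = 0} with hP
    set L : (Fin M → ℝ) →ₗ[ℝ] (V → ℝ) := Fintype.linearCombination ℝ a with hL
    have hLa : ∀ l s, L l s = ∑ i, l i * a i s := by
      intro l s
      simp only [hL, Fintype.linearCombination_apply, Finset.sum_apply, Pi.smul_apply, smul_eq_mul]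
    have hPc : IsCompact P := by
      apply (isCompact_stdSimplex ℝ (Fin M)).inter_right
      have : {l : Fin M → ℝ | ∀ i, j ≤ i → l i = 0} = ⋂ i, ⋂ _ : j ≤ i, {l | l i = 0} := by
        ext l; simp only [Set.mem_ofPred_eq, Set.mem_iInter]
      rw [this]
      exact isClosed_iInter fun i => isClosed_iInter fun _ =>
        isClosed_eq (continuous_apply i) continuous_const
    have hPv : Convex ℝ P := by
      apply (convex_stdSimplex ℝ (Fin M)).inter
      intro x hx y hy p q _ _ _ i hi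
      simp [hx i hi, hy i hi]
    have hdis : Disjoint (L '' P) (Metric.closedBall (a j) c) := by
      rw [Set.disjoint_left]
      rintro _ ⟨l, ⟨⟨hl0, hl1⟩, hl2⟩, rfl⟩ hb
      obtain ⟨s, hs⟩ := hcon j l hl0 hl2 hl1
      rw [Metric.mem_closedBall, dist_pi_le_iff hc.le] at hb
      have := hb s
      rw [Real.dist_eq, hLa, abs_sub_comm] at this
      exact absurd this (not_le.2 hs)
    obtain ⟨f, u, v, hf1, huv, hf2⟩ := geometric_hahn_banach_compact_closed (hPv.linear_image L)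
      (hPc.image L.continuous_of_finiteDimensional) (convex_closedBall _ _)
      Metric.isClosed_closedBall hdis
    set mu : V → ℝ := fun s => f (Pi.single s 1) with hmu
    have hf : ∀ x : V → ℝ, f x = ∑ s, mu s * x s := by
      intro x
      conv_lhs => rw [pi_eq_sum_univ' x]
      rw [map_sum]
      refine Finset.sum_congr rfl fun s _ => ?_
      rw [map_smul, smul_eq_mul, mul_comm]
    have hai : ∀ i, i < j → f (a i) < u := by
      intro i hi
      apply hf1
      refine ⟨Pi.single i 1, ⟨single_mem_stdSimplex ℝ i, fun i' hi' => ?_⟩, ?_⟩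
      · have : i' ≠ i := by rintro rfl; exact absurd hi (not_lt.2 hi')
        simp [this]
      · funext s
        rw [hLa]
        simp only [Pi.single_apply, ite_mul, one_mul, zero_mul, sum_ite_eq', mem_univ, ↓ reduceIte]
    have hb : v < f (a j) - c * ∑ s, |mu s| := by
      have h2 := hf2 (fun s => a j s - c * (if 0 ≤ mu s then 1 else -1)) (by
        rw [Metric.mem_closedBall, dist_pi_le_iff hc.le]
        intro s
        rw [Real.dist_eq]
        split_ifs <;> simp [abs_of_pos hc])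
      rw [hf] at h2
      rw [hf, Finset.mul_sum, ← Finset.sum_sub_distrib]
      refine h2.trans_le (le_of_eq (Finset.sum_congr rfl fun s _ => ?_))
      split_ifs with h3
      · rw [abs_of_nonneg h3]; ring
      · rw [abs_of_neg (not_le.1 h3)]; ring
    have hS0 : 0 ≤ ∑ s, |mu s| := Finset.sum_nonneg fun s _ => abs_nonneg _
    have hS : 0 < ∑ s, |mu s| := by
      rcases hS0.lt_or_eq with h2 | h2
      · exact h2
      · exfalso
        have h3 : ∀ s, mu s = 0 := fun s => abs_eq_zero.1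
          ((Finset.sum_eq_zero_iff_of_nonneg fun s _ => abs_nonneg _).1 h2.symm s
            (Finset.mem_univ s))
        have h4 := hai i0 hi0
        rw [hf] at h4 hb
        simp only [h3, zero_mul, sum_const_zero, abs_zero, mul_zero, sub_self] at h4 hb
        linarith only [huv, h4, hb]
    refine ⟨fun s => mu s / ∑ s, |mu s|, ?_, fun i hi => ?_⟩
    · simp only [abs_div, abs_of_pos hS]
      rw [← Finset.sum_div, div_self hS.ne']
    · have h4 := hai i hi
      have h5 : ∑ s, mu s / (∑ s, |mu s|) * (a j s - a i s) =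
          (f (a j) - f (a i)) / ∑ s, |mu s| := by
        rw [hf, hf, ← Finset.sum_sub_distrib, Finset.sum_div]
        exact Finset.sum_congr rfl fun s _ => by ring
      rw [h5, le_div_iff₀ hS]
      linarith only [huv, hb, h4]
  choose mu hmu1 hmu2 using key
  exact ⟨mu, nu, hmu1, h0, h1, fun i j hij => hmu2 j i hij⟩

end Pool.Agent.MP_dc1150_gt.Neg

end

section
namespace Pool.Agent.MP_dc1150_gt.Neg

open Finset
open scoped RealInnerProductSpace

theorem r2_frame0 (d : ℕ) : ∃ k v : Option (Fin d) → Euc d,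
    (∀ o o', ⟪k o, v o'⟫ = 1 - ((d : ℝ) + 1) * (if o = o' then 1 else 0)) ∧ ∑ o, k o = 0 ∧
      ∑ o, v o = 0 ∧ ∀ x : Euc d, ∑ o, ⟪x, v o⟫ • k o = -((d : ℝ) + 1) • x := by
  set one : Euc d := WithLp.toLp 2 fun _ => (1 : ℝ) with hone
  refine ⟨fun o => o.elim one fun i => -EuclideanSpace.single i 1,
    fun o => o.elim (-one) fun i => ((d : ℝ) + 1) • EuclideanSpace.single i 1 - one, ?_, ?_, ?_, ?_⟩
  · rintro (_ | i) (_ | j)
    · simp only [hone, Option.elim_none, inner_neg_right, inner_self_eq_norm_sq_to_K, Real.ringHom_apply, EuclideanSpace.real_norm_sq_eq, one_pow, sum_const, card_univ, Fintype.card_fin, nsmul_eq_mul, mul_one, ↓ reduceIte, sub_add_cancel_right]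
    · simp only [hone, Option.elim_none, Option.elim_some, PiLp.inner_apply, PiLp.sub_apply, PiLp.smul_apply, PiLp.single_apply, smul_eq_mul, mul_ite, mul_one, mul_zero, RCLike.inner_apply, Real.ringHom_apply, sum_sub_distrib, sum_ite_eq', mem_univ, ↓ reduceIte, sum_const, card_univ, Fintype.card_fin, nsmul_eq_mul, add_sub_cancel_left, reduceCtorEq, sub_zero]
    · simp only [hone, Option.elim_some, Option.elim_none, inner_neg_right, inner_neg_left, PiLp.inner_apply, PiLp.single_apply, RCLike.inner_apply, MonoidWithZeroHom.map_ite_one_zero, mul_ite, mul_one, mul_zero, sum_ite_eq', mem_univ, ↓ reduceIte, neg_neg, reduceCtorEq, sub_zero]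
    · simp only [hone, Option.elim_some, inner_neg_left, PiLp.inner_apply, PiLp.single_apply, PiLp.sub_apply, PiLp.smul_apply, smul_eq_mul, mul_ite, mul_one, mul_zero, RCLike.inner_apply, MonoidWithZeroHom.map_ite_one_zero, sum_ite_eq', mem_univ, ↓ reduceIte, neg_sub, Option.some.injEq]
  · ext i
    simp only [hone, Fintype.sum_option, Option.elim_none, Option.elim_some, sum_neg_distrib, PiLp.add_apply, PiLp.neg_apply, WithLp.ofLp_sum, PiLp.ofLp_single, Finset.sum_apply, Pi.single_apply, sum_ite_eq, mem_univ, ↓ reduceIte, add_neg_cancel, PiLp.zero_apply]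
  · ext i
    simp only [hone, Fintype.sum_option, Option.elim_none, Option.elim_some, sum_sub_distrib, sum_const, card_univ, Fintype.card_fin, PiLp.add_apply, PiLp.neg_apply, PiLp.sub_apply, WithLp.ofLp_sum, WithLp.ofLp_smul, PiLp.ofLp_single, Finset.sum_apply, Pi.smul_apply, Pi.single_apply, smul_eq_mul, mul_ite, mul_one, mul_zero, sum_ite_eq, mem_univ, ↓ reduceIte, PiLp.smul_apply, nsmul_eq_mul, add_sub_cancel_left, neg_add_cancel, PiLp.zero_apply]
  · intro x
    ext i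
    simp only [hone, PiLp.inner_apply, RCLike.inner_apply, Real.ringHom_apply, Fintype.sum_option, Option.elim_none, PiLp.neg_apply, neg_mul, one_mul, sum_neg_distrib, neg_smul, Option.elim_some, PiLp.sub_apply, PiLp.smul_apply, PiLp.single_apply, smul_eq_mul, mul_ite, mul_one, mul_zero, sub_mul, ite_mul, zero_mul, sum_sub_distrib, sum_ite_eq', mem_univ, ↓ reduceIte, smul_neg, PiLp.add_apply, WithLp.ofLp_sum, WithLp.ofLp_smul, PiLp.ofLp_single, Finset.sum_apply, Pi.smul_apply, Pi.single_apply, sum_ite_eq, neg_sub, neg_add_rev]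
    ring

theorem r2_frame (d : ℕ) (O : Type) [Fintype O] [DecidableEq O] (hO : Fintype.card O = d + 1) :
    ∃ k v : O → Euc d,
    (∀ o o', ⟪k o, v o'⟫ = 1 - ((d : ℝ) + 1) * (if o = o' then 1 else 0)) ∧ ∑ o, k o = 0 ∧
      ∑ o, v o = 0 ∧ ∀ x : Euc d, ∑ o, ⟪x, v o⟫ • k o = -((d : ℝ) + 1) • x := by
  obtain ⟨k, v, h1, h2, h3, h4⟩ := r2_frame0 d
  have e : O ≃ Option (Fin d) := Fintype.equivOfCardEq (by simp only [hO, Fintype.card_option, Fintype.card_fin, Nat.add_left_cancel_iff])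
  refine ⟨fun o => k (e o), fun o => v (e o), fun o o' => ?_, ?_, ?_, fun x => ?_⟩
  · rw [h1]; simp
  · rw [e.sum_comp k, h2]
  · rw [e.sum_comp v, h3]
  · rw [e.sum_comp fun o => ⟪x, v o⟫ • k o, h4]

/-- points with small pairings lie in the scaled simplex -/
theorem r2_mem_hull {d : ℕ} {O : Type} [Fintype O] (hO : Fintype.card O = d + 1)
    {k v : O → Euc d} (h2 : ∑ o, k o = 0) (h3 : ∑ o, v o = 0)
    (h4 : ∀ x : Euc d, ∑ o, ⟪x, v o⟫ • k o = -((d : ℝ) + 1) • x) {ε : ℝ} (hε : 0 < ε)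
    {S : Set (Euc d)} (hS : Convex ℝ S) (hk : ∀ o, ε • k o ∈ S) {x : Euc d}
    (hx : ∀ o, ⟪x, v o⟫ ≤ ε) : x ∈ S := by
  have hd : (0 : ℝ) < d + 1 := by positivity
  have hsum : ∑ o, ⟪x, v o⟫ = 0 := by rw [← inner_sum, h3, inner_zero_right]
  have hx2 : x = ∑ o, ((ε - ⟪x, v o⟫) / (ε * (d + 1))) • ε • k o := by
    have h5 : ∀ o, ((ε - ⟪x, v o⟫) / (ε * (d + 1))) • ε • k o =
        (ε / (d + 1)) • k o - (1 / ((d : ℝ) + 1)) • ⟪x, v o⟫ • k o := by
      intro o
      rw [smul_smul, smul_smul, ← sub_smul]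
      congr 1
      field_simp
    simp only [h5]
    rw [Finset.sum_sub_distrib, ← Finset.smul_sum, ← Finset.smul_sum, h2, h4, smul_zero,
      smul_smul, zero_sub, ← neg_smul]
    have : -(1 / ((d : ℝ) + 1) * -((d : ℝ) + 1)) = 1 := by field_simp
    rw [this, one_smul]
  rw [hx2]
  apply hS.sum_mem
  · intro o _
    exact div_nonneg (by linarith only [hx o]) (by positivity)
  · rw [← Finset.sum_div, Finset.sum_sub_distrib, hsum]
    simp only [Finset.sum_const, Finset.card_univ, hO, nsmul_eq_mul]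
    push_cast
    field_simp
    ring
  · exact fun o _ => hk o

theorem r2_open {d : ℕ} {O : Type} [Fintype O] (v : O → Euc d) (ε : ℝ) :
    IsOpen {x : Euc d | ∀ o, ⟪x, v o⟫ < ε} := by
  have : {x : Euc d | ∀ o, ⟪x, v o⟫ < ε} = ⋂ o, {x | ⟪x, v o⟫ < ε} := by ext; simp only [Set.mem_ofPred_eq, Set.mem_iInter]
  rw [this]
  exact isOpen_iInter_of_finite fun o => isOpen_lt (by fun_prop) continuous_const

theorem r2_convex_lt {d : ℕ} {O : Type} (v : O → Euc d) :
    Convex ℝ {x : Euc d | ∀ o, ⟪x, v o⟫ < 1} := by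
  have : {x : Euc d | ∀ o, ⟪x, v o⟫ < 1} = ⋂ o, {x | ⟪x, v o⟫ < 1} := by ext; simp only [Set.mem_ofPred_eq, Set.mem_iInter]
  rw [this]
  refine convex_iInter fun o => convex_halfSpace_lt ⟨fun x y => inner_add_left _ _ _, ?_⟩ 1
  intro c x
  rw [real_inner_smul_left, smul_eq_mul]

theorem r2_convex_le {d : ℕ} (y : Euc d) : Convex ℝ {x : Euc d | ⟪x, y⟫ ≤ 1} := by
  refine convex_halfSpace_le ⟨fun x y => inner_add_left _ _ _, ?_⟩ 1
  intro c x
  rw [real_inner_smul_left, smul_eq_mul]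

/-- an inequality on the generators passes to the bipolar -/
theorem r2_bipolar {d : ℕ} {S : Set (Euc d)} {u w : Euc d} {r : ℝ} (hr : 0 < r)
    (h : ∀ p ∈ S, Hh p u ≤ (1 + r) * Hh p w) :
    ∀ p ∈ polarSet (polarSet (convexHull ℝ S)), Hh p u ≤ (1 + r) * Hh p w := by
  have key : ∀ p : Euc d, ⟪p, r⁻¹ • ((1 + r) • w - u)⟫ ≤ 1 ↔ Hh p u ≤ (1 + r) * Hh p w := by
    intro p
    unfold Hh
    rw [inner_smul_right, inner_sub_right, inner_smul_right, inv_mul_le_iff₀ hr]
    constructor <;> intro h <;> linarith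
  have h1 : r⁻¹ • ((1 + r) • w - u) ∈ polarSet (convexHull ℝ S) := fun g hg =>
    convexHull_min (fun p hp => (key p).2 (h p hp)) (r2_convex_le _) hg
  intro p hp
  have := hp _ h1
  rw [real_inner_comm] at this
  exact (key p).1 this

/-- A simplex inside a polytope cut out by prescribed positive weights. -/
theorem simplex_model (O : Type) [Fintype O] [DecidableEq O] (hO : 2 ≤ Fintype.card O)
    (ι : Type) [Fintype ι] (H : ι → O → ℝ) (hH : ∀ i o, 0 < H i o) (r : ℝ) (hr : 0 < r) :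
    ∃ d : ℕ, 1 ≤ d ∧ ∃ (G K : Set (Euc d)) (lam : Euc d → O → ℝ) (v : O → Euc d),
      Admissible G K ∧
      (∀ u ∈ polarSet K, (∀ o, 0 ≤ lam u o) ∧ ∑ o, lam u o = 1) ∧
      (∀ o, v o ∈ polarSet K) ∧ (∀ o o', lam (v o) o' = if o = o' then 1 else 0) ∧
      (∀ (n : ℕ) (w : Fin n → ℝ) (x : Fin n → Euc d), ∑ i, w i = 1 →
        ∀ o, lam (∑ i, w i • x i) o = ∑ i, w i * lam (x i) o) ∧
      Convex ℝ (polarSet K) ∧
      (∀ u ∈ polarSet K, ∀ u' ∈ polarSet K,
        (∀ i, ∑ o, lam u o * H i o ≤ (1 + r) * ∑ o, lam u' o * H i o ∧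
          ∑ o, lam u' o * H i o ≤ (1 + r) * ∑ o, lam u o * H i o) →
        hilbertDist (polarSet G) u u' ≤ r) ∧
      ∀ u ∈ polarSet K, ∀ u' ∈ polarSet K, ∀ i,
        1 / 2 * Real.log ((∑ o, lam u' o * H i o) / ∑ o, lam u o * H i o) ≤
          hilbertDist (polarSet G) u u' := by
  obtain ⟨d, hd⟩ : ∃ d, Fintype.card O = d + 1 := ⟨Fintype.card O - 1, by omega⟩
  have hd1 : 1 ≤ d := by omega
  obtain ⟨k, v, h1, h2, h3, h4⟩ := r2_frame d O hd
  have : Nonempty O := Fintype.card_pos_iff.1 (by omega)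
  have hD : (0 : ℝ) < d + 1 := by positivity
  have hD2 : (2 : ℝ) ≤ d + 1 := by
    have : (1 : ℝ) ≤ d := by exact_mod_cast hd1
    linarith only [this]
  set ε : ℝ := min r 1 / (2 * (d + 1)) with hε
  have hm0 : 0 < min r 1 := lt_min hr one_pos
  have hε0 : 0 < ε := by positivity
  have hε1 : ε * (d + 1) = min r 1 / 2 := by rw [hε]; field_simp
  have hε2 : ε ≤ 1 / 2 := by nlinarith only [min_le_right r 1, hε1]
  set K : Set (Euc d) := {x | ∀ o, ⟪x, v o⟫ ≤ 1} with hK
  set lam : Euc d → O → ℝ := fun u o => Hh (k o) u / (d + 1) with hlam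
  set p : ι → Euc d := fun i => ∑ o, (H i o / ∑ o', H i o') • k o with hp
  set S : Set (Euc d) := Set.range p ∪ Set.range fun o => ε • k o with hS
  have hSH : ∀ i, 0 < ∑ o, H i o := fun i => Finset.sum_pos (fun o _ => hH i o) Finset.univ_nonempty
  have hpH : ∀ i u, Hh (p i) u = (d + 1) / (∑ o, H i o) * ∑ o, lam u o * H i o := by
    intro i u
    have h5 : ∑ o, H i o / ∑ o', H i o' = 1 := by rw [← Finset.sum_div, div_self (hSH i).ne']
    unfold Hh
    simp only [hp, hlam, Hh, sum_inner, real_inner_smul_left]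
    rw [Finset.mul_sum]
    conv_lhs => rw [← h5]
    rw [← Finset.sum_sub_distrib]
    refine Finset.sum_congr rfl fun o _ => ?_
    have := (hSH i).ne'
    field_simp
  have hεH : ∀ o u, Hh (ε • k o) u = 1 - ε + ε * (d + 1) * lam u o := by
    intro o u
    simp only [hlam, Hh, real_inner_smul_left]
    field_simp
    ring
  have hlv : ∀ o o', lam (v o) o' = if o = o' then 1 else 0 := by
    intro o o'
    simp only [hlam, Hh, h1]
    by_cases h : o = o'
    · subst h; rw [if_pos rfl, mul_one, sub_sub_cancel, div_self hD.ne']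
    · simp [h, Ne.symm h]
  have hkK : ∀ o, k o ∈ K := by
    intro o o'
    rw [h1]
    split_ifs <;> linarith only [hD2, hε0, hε2]
  have hlam0 : ∀ u ∈ polarSet K, ∀ o, 0 ≤ lam u o := fun u hu o =>
    div_nonneg (by have := hu _ (hkK o); unfold Hh; linarith only [this]) hD.le
  have hlam1 : ∀ u, ∑ o, lam u o = 1 := by
    intro u
    simp only [hlam, Hh]
    rw [← Finset.sum_div, Finset.sum_sub_distrib, ← sum_inner, h2, inner_zero_left]
    simp [hd, hD.ne']
  have hKint : {x : Euc d | ∀ o, ⟪x, v o⟫ < 1} ⊆ interior K :=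
    interior_maximal (fun x hx o => (hx o).le) (r2_open v 1)
  have hSfin : S.Finite := (Set.finite_range _).union (Set.finite_range _)
  have hG0 : (0 : Euc d) ∈ interior (convexHull ℝ S) := by
    refine interior_maximal (t := {x : Euc d | ∀ o, ⟪x, v o⟫ < ε}) (fun x hx => ?_)
      (r2_open v ε) (fun o => by simpa using hε0)
    exact r2_mem_hull hd h2 h3 h4 hε0 (convex_convexHull ℝ S)
      (fun o => subset_convexHull ℝ S (Or.inr ⟨o, rfl⟩)) fun o => (hx o).le
  have hadm : Admissible (convexHull ℝ S) K := by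
    refine ⟨⟨hSfin.isCompact_convexHull ℝ, convex_convexHull ℝ S, ⟨0, hG0⟩⟩, ⟨?_, ?_, ?_⟩, hG0, ?_⟩
    · refine ((Set.finite_range k).isCompact_convexHull ℝ).of_isClosed_subset ?_ fun x hx => ?_
      · have : K = ⋂ o, {x | ⟪x, v o⟫ ≤ 1} := by ext; simp only [hK, Set.mem_ofPred_eq, Set.mem_iInter]
        rw [this]
        exact isClosed_iInter fun o => isClosed_le (by fun_prop) continuous_const
      · exact r2_mem_hull hd h2 h3 h4 one_pos (convex_convexHull ℝ _)
          (fun o => subset_convexHull ℝ (Set.range k) ⟨o, (one_smul _ _).symm⟩) hx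
    · have : K = ⋂ o, {x | ⟪x, v o⟫ ≤ 1} := by ext; simp only [hK, Set.mem_ofPred_eq, Set.mem_iInter]
      rw [this]
      exact convex_iInter fun o => r2_convex_le _
    · exact ⟨0, hKint fun o => by simp⟩
    · refine (convexHull_min ?_ (r2_convex_lt v)).trans hKint
      have key : ∀ g o, 0 < Hh g (v o) → ⟪g, v o⟫ < 1 := fun g o h => by
        unfold Hh at h; linarith only [h]
      rintro _ (⟨i, rfl⟩ | ⟨o', rfl⟩) o <;> apply key
      · rw [hpH]
        refine mul_pos (div_pos hD (hSH i)) ?_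
        simp only [hlv, ite_mul, one_mul, zero_mul, Finset.sum_ite_eq, Finset.mem_univ, if_true]
        exact hH i o
      · rw [hεH, hlv]
        split_ifs <;> linarith only [hm0, hε1, hε2, hε0]
  have hAB := polar_sub_interior hadm
  refine ⟨d, hd1, convexHull ℝ S, K, lam, v, hadm, fun u hu => ⟨hlam0 u hu, hlam1 u⟩,
    fun o x hx => hx o, hlv, ?_, convex_polarSet K, ?_, ?_⟩
  · intro n w x hw o
    simp only [hlam]
    rw [Hh_sum _ _ _ _ hw, Finset.sum_div]
    exact Finset.sum_congr rfl fun i _ => by ring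
  · have key : ∀ u ∈ polarSet K, ∀ u' ∈ polarSet K,
        (∀ i, ∑ o, lam u o * H i o ≤ (1 + r) * ∑ o, lam u' o * H i o) →
        Close (polarSet (polarSet (convexHull ℝ S))) r u u' := by
      intro u hu u' hu' h q hq
      refine (r2_bipolar hr ?_ q hq).trans (mul_le_mul_of_nonneg_right ?_ (Hh_pos (hAB hu') hq).le)
      · rintro _ (⟨i, rfl⟩ | ⟨o, rfl⟩)
        · rw [hpH, hpH, mul_left_comm]
          exact mul_le_mul_of_nonneg_left (h i) (div_pos hD (hSH i)).le
        · rw [hεH, hεH, hε1]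
          have a1 : lam u o ≤ 1 := by
            rw [← hlam1 u]
            exact Finset.single_le_sum (fun o _ => hlam0 u hu o) (Finset.mem_univ o)
          have a2 := hlam0 u' hu' o
          have a3 := min_le_left r 1
          have a4 : min r 1 / 2 * lam u o ≤ r / 2 := by nlinarith only [hm0, a1, a3]
          have a5 : 0 ≤ min r 1 / 2 * lam u' o := by positivity
          nlinarith only [hr, hε2, a4, a5]
      · linarith only [Real.add_one_le_exp r]
    intro u hu u' hu' h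
    exact hilbert_le (hAB hu) (hAB hu') (key u hu u' hu' fun i => (h i).1)
      (key u' hu' u hu fun i => (h i).2)
  · intro u hu u' hu' i
    have hq : p i ∈ polarSet (polarSet (convexHull ℝ S)) := fun y hy => by
      rw [real_inner_comm]
      exact hy _ (subset_convexHull ℝ S (Or.inl ⟨i, rfl⟩))
    refine le_trans (le_of_eq ?_) (le_hilbert (hAB hu) (hAB hu') (zero_mem_polarSet _) hq)
    rw [Hh_zero, Hh_zero, one_mul, one_mul, hpH, hpH,
      mul_div_mul_left _ _ (div_pos hD (hSH i)).ne']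

end Pool.Agent.MP_dc1150_gt.Neg

end

section
namespace Pool.Agent.MP_dc1150_gt.Neg

open Finset

theorem r3_avg {M : ℕ} {l x : Fin M → ℝ} (h0 : ∀ i, 0 ≤ l i) (h1 : ∑ i, l i = 1) {w : ℝ}
    (h : ∀ i, |x i| ≤ w) : |∑ i, l i * x i| ≤ w := by
  calc _ ≤ ∑ i, |l i * x i| := Finset.abs_sum_le_sum_abs _ _
    _ ≤ ∑ i, l i * w := Finset.sum_le_sum fun i _ => by
        rw [abs_mul, abs_of_nonneg (h0 i)]; exact mul_le_mul_of_nonneg_left (h i) (h0 i)
    _ = w := by rw [← Finset.sum_mul, h1, one_mul]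

theorem r3_first {V : Type} [Fintype V] {A a : V → ℝ} (hA : ∀ t, 0 ≤ A t ∧ A t ≤ 1)
    (ha : ∀ t, 0 ≤ a t) (h1 : ∑ t, a t ≤ 1) :
    0 ≤ ∑ t, a t * (1 + A t) ∧ ∑ t, a t * (1 + A t) ≤ 2 := by
  refine ⟨Finset.sum_nonneg fun t _ => mul_nonneg (ha t) (by linarith [(hA t).1]), ?_⟩
  calc _ ≤ ∑ t, a t * 2 := Finset.sum_le_sum fun t _ =>
        mul_le_mul_of_nonneg_left (by linarith [(hA t).2]) (ha t)
    _ ≤ 2 := by rw [← Finset.sum_mul]; linarith

theorem r3_num1 {r M0 w x y p q : ℝ} (hr : 0 < r) (h1 : r * M0 = 16) (h2 : 1 ≤ M0)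
    (h3 : w * M0 ≤ 2) (h4 : x - y ≤ w) (h5 : 1 / 4 ≤ y) (h6 : p ≤ 2) (h7 : 0 ≤ q) :
    p + x * M0 ≤ (1 + r) * (q + y * M0) := by
  have f1 : x * M0 ≤ y * M0 + 2 := by nlinarith only [hr, h1, h3, h4]
  have f3 : 4 ≤ r * (y * M0) := by nlinarith only [h1, h5]
  linarith only [mul_nonneg hr.le h7, h6, h7, f1, f3]

theorem r3_num2 {r M0 w c x y u v : ℝ} (hr : 0 < r) (h2 : 1 ≤ M0) (h3 : w * (M0 + 2) + c ≤ r)
    (h4 : x - y ≤ w) (h5 : y - x ≤ w) (h6 : y ≤ 1) (h7 : u - v ≤ c + w) (h8 : 0 ≤ v) :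
    (1 - x) * M0 + (x + u) ≤ (1 + r) * ((1 - y) * M0 + (y + v)) := by
  have m1 : 1 ≤ (1 - y) * M0 + (y + v) := by nlinarith only [h2, h6, h8]
  have m3 : (1 - x) * M0 ≤ (1 - y) * M0 + w * M0 := by nlinarith only [h2, h5]
  linarith only [mul_le_mul_of_nonneg_left m1 hr.le, h3, h4, h7, m3]

/-- inside one window the absence of ladders gives a close convex combination -/
theorem r3_key {V : Type} [Fintype V] {A B : V → V → ℝ} (hA : ∀ s t, 0 ≤ A s t ∧ A s t ≤ 1)
    (hB : ∀ s t, 0 ≤ B s t ∧ B s t ≤ 1) {M : ℕ} {c r w M0 : ℝ} (hap : Approx B c M) (hr : 0 < r)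
    (hc : 0 ≤ c) (hM0 : r * M0 = 16) (hM1 : 1 ≤ M0) (hw1 : w * (M0 + 2) + c ≤ r) (hw2 : w * M0 ≤ 2)
    (a b : Fin M → V → ℝ) (ha : ∀ i t, 0 ≤ a i t) (hb : ∀ i t, 0 ≤ b i t)
    (hab : ∀ i, ∑ t, a i t + ∑ t, b i t = 1) (h4 : ∀ i, 1 / 4 ≤ ∑ t, b i t)
    (hw : ∀ i j, |∑ t, b i t - ∑ t, b j t| ≤ w) :
    ∃ (j : Fin M) (l : Fin M → ℝ), (∀ i, 0 ≤ l i) ∧ (∀ i, j ≤ i → l i = 0) ∧ ∑ i, l i = 1 ∧ ∀ s,
      (∑ t, a j t * (1 + A s t) + ∑ t, b j t * M0 ≤ (1 + r) *
          (∑ t, (∑ i, l i * a i t) * (1 + A s t) + ∑ t, (∑ i, l i * b i t) * M0) ∧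
        ∑ t, (∑ i, l i * a i t) * (1 + A s t) + ∑ t, (∑ i, l i * b i t) * M0 ≤ (1 + r) *
          (∑ t, a j t * (1 + A s t) + ∑ t, b j t * M0)) ∧
      (∑ t, a j t * M0 + ∑ t, b j t * (1 + B s t) ≤ (1 + r) *
          (∑ t, (∑ i, l i * a i t) * M0 + ∑ t, (∑ i, l i * b i t) * (1 + B s t)) ∧
        ∑ t, (∑ i, l i * a i t) * M0 + ∑ t, (∑ i, l i * b i t) * (1 + B s t) ≤ (1 + r) *
          (∑ t, a j t * M0 + ∑ t, b j t * (1 + B s t))) := by
  set σ : Fin M → ℝ := fun i => ∑ t, b i t with hσ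
  have hσ0 : ∀ i, 0 < σ i := fun i => lt_of_lt_of_le (by norm_num) (h4 i)
  have hσ1 : ∀ i, σ i ≤ 1 := fun i => by
    have := hab i
    have h2 : 0 ≤ ∑ t, a i t := Finset.sum_nonneg fun t _ => ha i t
    simp only [hσ]; linarith
  obtain ⟨j, l, l0, lj, l1, hl⟩ := hap (fun i t => b i t / σ i)
    (fun i t => div_nonneg (hb i t) (hσ0 i).le)
    (fun i => by rw [← Finset.sum_div]; exact div_self (hσ0 i).ne')
  refine ⟨j, l, l0, lj, l1, fun s => ?_⟩
  set sb := ∑ t, ∑ i, l i * b i t with hsb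
  set ta := ∑ t, ∑ i, l i * a i t with hta
  have e1 : sb = ∑ i, l i * σ i := by
    rw [hsb, Finset.sum_comm]; exact Finset.sum_congr rfl fun i _ => by rw [← Finset.mul_sum]
  have e2 : ta + sb = 1 := by
    rw [e1, hta, Finset.sum_comm, ← Finset.sum_add_distrib, ← l1]
    exact Finset.sum_congr rfl fun i _ => by rw [← Finset.mul_sum, ← mul_add, hab i, mul_one]
  have e3 : |sb - σ j| ≤ w := by
    have : sb - σ j = ∑ i, l i * (σ i - σ j) := by
      simp only [mul_sub]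
      rw [Finset.sum_sub_distrib, ← Finset.sum_mul, l1, one_mul, e1]
    rw [this]
    exact r3_avg l0 l1 fun i => hw i j
  have e4 : 1 / 4 ≤ sb := by
    rw [e1]
    calc (1 / 4 : ℝ) = ∑ i, l i * (1 / 4) := by rw [← Finset.sum_mul, l1, one_mul]
      _ ≤ _ := Finset.sum_le_sum fun i _ => mul_le_mul_of_nonneg_left (h4 i) (l0 i)
  have habar : ∀ t, 0 ≤ ∑ i, l i * a i t := fun t =>
    Finset.sum_nonneg fun i _ => mul_nonneg (l0 i) (ha i t)
  have hta0 : 0 ≤ ta := Finset.sum_nonneg fun t _ => habar t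
  have htj : ∑ t, a j t = 1 - σ j := by have := hab j; simp only [hσ]; linarith only [this]
  obtain ⟨p1, p2⟩ := r3_first (hA s) (ha j) (by rw [htj]; linarith only [hσ0 j])
  obtain ⟨q1, q2⟩ := r3_first (hA s) habar (by rw [← hta]; linarith only [e2, e4])
  obtain ⟨e5, e6⟩ := abs_le.1 e3
  have hj4 : 1 / 4 ≤ σ j := h4 j
  have hj1 := hσ1 j
  simp only [← Finset.sum_mul]
  rw [← hsb, ← hta, htj]
  change (_ + σ j * M0 ≤ _ ∧ _ ≤ (1 + r) * (_ + σ j * M0)) ∧ _
  refine ⟨⟨r3_num1 hr hM0 hM1 hw2 (by linarith only [e5]) e4 p2 q1,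
    r3_num1 hr hM0 hM1 hw2 e6 hj4 q2 p1⟩, ?_⟩
  set β : Fin M → ℝ := fun i => ∑ t, B s t * (b i t / σ i) with hβ
  have hβ0 : ∀ i, 0 ≤ β i := fun i =>
    Finset.sum_nonneg fun t _ => mul_nonneg (hB s t).1 (div_nonneg (hb i t) (hσ0 i).le)
  have hβ1 : ∀ i, β i ≤ 1 := fun i => by
    calc β i ≤ ∑ t, b i t / σ i := Finset.sum_le_sum fun t _ =>
          mul_le_of_le_one_left (div_nonneg (hb i t) (hσ0 i).le) (hB s t).2
      _ = 1 := by rw [← Finset.sum_div]; exact div_self (hσ0 i).ne'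
  have g0 : ∀ i, ∑ t, b i t * B s t = σ i * β i := fun i => by
    simp only [hβ]
    rw [Finset.mul_sum]
    refine Finset.sum_congr rfl fun t _ => ?_
    have := (hσ0 i).ne'
    field_simp
  have g1 : ∑ t, b j t * (1 + B s t) = σ j + σ j * β j := by
    simp only [mul_add, mul_one]
    rw [Finset.sum_add_distrib, g0]
  have g2 : ∑ t, (∑ i, l i * b i t) * (1 + B s t) = sb + ∑ i, l i * (σ i * β i) := by
    simp only [mul_add, mul_one]
    rw [Finset.sum_add_distrib, ← hsb]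
    congr 1
    simp only [Finset.sum_mul]
    rw [Finset.sum_comm]
    refine Finset.sum_congr rfl fun i _ => ?_
    rw [← g0, Finset.mul_sum]
    exact Finset.sum_congr rfl fun t _ => by ring
  have g3 : |σ j * β j - ∑ i, l i * (σ i * β i)| ≤ c + w := by
    have k1 : σ j * β j - ∑ i, l i * (σ i * β i) =
        σ j * (β j - ∑ i, l i * β i) + ∑ i, l i * ((σ j - σ i) * β i) := by
      have k0 : ∑ i, l i * ((σ j - σ i) * β i) =
          σ j * ∑ i, l i * β i - ∑ i, l i * (σ i * β i) := by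
        rw [Finset.mul_sum, ← Finset.sum_sub_distrib]
        exact Finset.sum_congr rfl fun i _ => by ring
      rw [k0]; ring
    have k2 : |σ j * (β j - ∑ i, l i * β i)| ≤ c := by
      rw [abs_mul, abs_of_pos (hσ0 j)]
      have := hl s
      calc _ ≤ 1 * c := mul_le_mul hj1 this (abs_nonneg _) zero_le_one
        _ = c := one_mul c
    have k3 : |∑ i, l i * ((σ j - σ i) * β i)| ≤ w := r3_avg l0 l1 fun i => by
      rw [abs_mul, abs_of_nonneg (hβ0 i)]
      exact (mul_le_of_le_one_right (abs_nonneg _) (hβ1 i)).trans (hw j i)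
    rw [k1]
    linarith only [abs_add_le (σ j * (β j - ∑ i, l i * β i)) (∑ i, l i * ((σ j - σ i) * β i)), k2, k3]
  obtain ⟨g4, g5⟩ := abs_le.1 g3
  have g6 : 0 ≤ ∑ i, l i * (σ i * β i) :=
    Finset.sum_nonneg fun i _ => mul_nonneg (l0 i) (mul_nonneg (hσ0 i).le (hβ0 i))
  have g7 : 0 ≤ σ j * β j := mul_nonneg (hσ0 j).le (hβ0 j)
  rw [g1, g2]
  have hta' : ta = 1 - sb := by linarith only [e2]
  rw [hta']
  exact ⟨r3_num2 hr hM1 hw1 (by linarith only [e5]) e6 (by linarith only [e2, hta0]) g5 g6,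
    r3_num2 hr hM1 hw1 e6 (by linarith only [e5]) hj1 (by linarith only [g4]) g7⟩

/-- pigeonhole on windows of width `w` -/
theorem r3_window {n M : ℕ} {w : ℝ} (hw : 0 < w) (τ : Fin n → ℝ) (h0 : ∀ i, 0 ≤ τ i)
    (h1 : ∀ i, τ i ≤ 1) (hn : (⌊1 / w⌋₊ + 1) * M ≤ n) :
    ∃ φ : Fin M ↪o Fin n, ∀ i j, |τ (φ i) - τ (φ j)| ≤ w := by
  obtain ⟨y, -, hy⟩ := Finset.exists_le_card_fiber_of_mul_le_card_of_maps_to
    (s := Finset.univ) (t := Finset.range (⌊1 / w⌋₊ + 1)) (f := fun i => ⌊τ i / w⌋₊) (n := M)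
    (fun i _ => Finset.mem_range.2 (Nat.lt_succ_of_le (Nat.floor_le_floor
      (div_le_div_of_nonneg_right (h1 i) hw.le)))) ⟨0, by simp only [one_div, mem_range, lt_add_iff_pos_left, Order.lt_add_one_iff, zero_le]⟩ (by simpa only [one_div, card_range, card_univ, Fintype.card_fin] using hn)
  obtain ⟨T, hT, hTc⟩ := Finset.exists_subset_card_eq hy
  refine ⟨T.orderEmbOfFin hTc, fun i j => ?_⟩
  have key : ∀ i, (y : ℝ) * w ≤ τ (T.orderEmbOfFin hTc i) ∧
      τ (T.orderEmbOfFin hTc i) ≤ (y + 1) * w := by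
    intro i
    have h2 := (Finset.mem_filter.1 (hT (T.orderEmbOfFin_mem hTc i))).2
    have h3 := Nat.floor_le (div_nonneg (h0 (T.orderEmbOfFin hTc i)) hw.le)
    have h4 := Nat.lt_floor_add_one (τ (T.orderEmbOfFin hTc i) / w)
    rw [h2] at h3 h4
    exact ⟨(le_div_iff₀ hw).1 h3, ((div_lt_iff₀ hw).1 h4).le⟩
  rw [abs_le]
  constructor <;> linarith only [(key i).1, (key i).2, (key j).1, (key j).2, hTc]

theorem r3_log {a b : ℝ} (ha : 0 ≤ a) (hb : 0 ≤ b) (h : a + b ≤ 1) :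
    Real.log (4 / 3) ≤ 1 / 2 * Real.log (2 / (1 + a)) + 1 / 2 * Real.log (2 / (1 + b)) := by
  rw [← mul_add, ← Real.log_mul (by positivity) (by positivity)]
  have h1 : Real.log ((4 / 3) ^ 2) ≤ Real.log (2 / (1 + a) * (2 / (1 + b))) := by
    apply Real.log_le_log (by norm_num)
    rw [div_mul_div_comm, le_div_iff₀ (by positivity)]
    nlinarith only [sq_nonneg (a - b), ha, hb, h]
  rw [Real.log_pow] at h1
  push_cast at h1
  linarith only [h1]

/-- Reduction of the geometric statement to two matrices. -/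
theorem reduce (c : ℝ) (hc : 0 < c) :
    ∃ c' : ℝ, 0 < c' ∧ ∃ W : ℕ, ∀ (V : Type) [Fintype V] [DecidableEq V] [Nonempty V]
      (A B : V → V → ℝ) (M : ℕ), (∀ s t, 0 ≤ A s t ∧ A s t ≤ 1) → (∀ s t, 0 ≤ B s t ∧ B s t ≤ 1) →
      (∀ t, A t t = 1 ∧ B t t = 1) → (∀ s t, s ≠ t → A s t + B s t ≤ 1) →
      Approx A c' M → Approx B c' M →
      ∃ d : ℕ, 1 ≤ d ∧ ∃ G K : Set (Euc d), Admissible G K ∧
        Mconv (polarSet K) (polarSet G) (c * Real.log (4 / 3)) ≤ (W * M : ℕ) ∧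
        (Fintype.card V : ℕ∞) ≤ Mdiag (polarSet K) (polarSet G) (Real.log (4 / 3)) := by
  have hα : 0 < c * Real.log (4 / 3) := mul_pos hc (Real.log_pos (by norm_num))
  set α := c * Real.log (4 / 3) with hαd
  set r : ℝ := min 1 (α / 2) with hrd
  have hr : 0 < r := lt_min one_pos (by linarith)
  have hr1 : r ≤ 1 := min_le_left _ _
  have hrα : r < α := lt_of_le_of_lt (min_le_right _ _) (by linarith only [hα])
  set M0 : ℝ := 16 / r with hM0d
  have hM0 : r * M0 = 16 := by rw [hM0d]; field_simp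
  have hM16 : 16 ≤ M0 := by rw [hM0d, le_div_iff₀ hr]; linarith only [hr1]
  set w : ℝ := r / (2 * (M0 + 2)) with hwd
  have hw : 0 < w := by positivity
  have hw1 : w * (M0 + 2) = r / 2 := by rw [hwd]; field_simp
  have hw2 : w * M0 ≤ 2 := by linarith only [hr1, hw, hw1]
  have hw4 : w ≤ 1 / 4 := by nlinarith only [hr, hr1, hM0, hw1]
  refine ⟨r / 2, by positivity, ⌊1 / w⌋₊ + 1, ?_⟩
  intro V _ _ _ A B M hA hB hd hs hapA hapB
  have hV : 0 < Fintype.card V := Fintype.card_pos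
  set H : V ⊕ V → V ⊕ V → ℝ := Sum.elim (fun s => Sum.elim (fun t => 1 + A s t) fun _ => M0)
    fun s => Sum.elim (fun _ => M0) fun t => 1 + B s t with hH
  obtain ⟨d, hd1, G, K, lam, v, hadm, hl, hv, hlv, hlin, hconv, hup, hlow⟩ :=
    simplex_model (V ⊕ V) (by rw [Fintype.card_sum]; omega) (V ⊕ V) H (by
      rintro (s | s) (t | t) <;> simp only [hH, Sum.elim_inl, Sum.elim_inr] <;>
        linarith only [(hA s t).1, (hB s t).1, hw, hw4, hM16]) r hr
  refine ⟨d, hd1, G, K, hadm, ?_, ?_⟩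
  · apply sSup_le
    rintro _ ⟨n, rfl, x, hx, hsep⟩
    by_contra hn
    have hn' : (⌊1 / w⌋₊ + 1) * M ≤ n := by
      have := not_le.1 hn
      exact_mod_cast this.le
    have hsum : ∀ i, ∑ t, lam (x i) (.inl t) + ∑ t, lam (x i) (.inr t) = 1 := fun i => by
      rw [← (hl _ (hx i)).2, Fintype.sum_sum_type]
    have hs0 : ∀ i, 0 ≤ ∑ t, lam (x i) (.inl t) := fun i =>
      Finset.sum_nonneg fun t _ => (hl _ (hx i)).1 _
    have hs1 : ∀ i, 0 ≤ ∑ t, lam (x i) (.inr t) := fun i =>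
      Finset.sum_nonneg fun t _ => (hl _ (hx i)).1 _
    obtain ⟨φ, hφ⟩ := r3_window hw (fun i => ∑ t, lam (x i) (.inl t)) hs0
      (fun i => by linarith only [hsum i, hs1 i]) hn'
    have fin : ∀ (j : Fin M) (l : Fin M → ℝ), (∀ i, 0 ≤ l i) → (∀ i, j ≤ i → l i = 0) →
        ∑ i, l i = 1 → (∀ i, ∑ o, lam (x (φ j)) o * H i o ≤
          (1 + r) * ∑ o, (∑ i, l i * lam (x (φ i)) o) * H i o ∧
          ∑ o, (∑ i, l i * lam (x (φ i)) o) * H i o ≤ (1 + r) * ∑ o, lam (x (φ j)) o * H i o) →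
        False := by
      intro j l l0 lj l1 h
      have hu : ∑ i, l i • x (φ i) ∈ polarSet K :=
        hconv.sum_mem (fun i _ => l0 i) l1 fun i _ => hx _
      have h1 := hup _ (hx (φ j)) _ hu (by simpa only [hlin M l _ l1] using h)
      have h2 : ∑ i, l i • x (φ i) ∈ convexHull ℝ (x '' {i | i < φ j}) := by
        have e1 : ∑ i, l i • x (φ i) = ∑ i ∈ Finset.univ.filter (· < j), l i • x (φ i) := by
          rw [Finset.sum_filter]
          refine Finset.sum_congr rfl fun i _ => ?_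
          split_ifs with hi
          · rfl
          · rw [lj i (not_lt.1 hi), zero_smul]
        have e2 : ∑ i ∈ Finset.univ.filter (· < j), l i = 1 := by
          rw [← l1, Finset.sum_filter]
          refine Finset.sum_congr rfl fun i _ => ?_
          split_ifs with hi
          · rfl
          · rw [lj i (not_lt.1 hi)]
        rw [e1]
        refine (convex_convexHull ℝ _).sum_mem (fun i _ => l0 i) e2 fun i hi => ?_
        exact subset_convexHull ℝ _ ⟨φ i, φ.strictMono (Finset.mem_filter.1 hi).2, rfl⟩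
      linarith only [hsep _ _ h2, hrα, h1]
    by_cases hcase : ∀ i, ∑ t, lam (x (φ i)) (.inl t) ≤ 3 / 4
    · obtain ⟨j, l, l0, lj, l1, h⟩ := r3_key hA hB hapB hr (by positivity) hM0 (by linarith only [hM16, hw, hw4])
        (w := w) (by linarith only [hw1]) hw2 (fun i t => lam (x (φ i)) (.inl t))
        (fun i t => lam (x (φ i)) (.inr t)) (fun i t => (hl _ (hx _)).1 _)
        (fun i t => (hl _ (hx _)).1 _) (fun i => hsum _)
        (fun i => by linarith only [hsum (φ i), hcase i]) (fun i j => by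
          have := hφ j i
          rw [abs_le] at this ⊢
          constructor <;> linarith only [hsum (φ i), hsum (φ j), this.1, this.2])
      refine fin j l l0 lj l1 ?_
      rintro (s | s) <;> simp only [Fintype.sum_sum_type, hH, Sum.elim_inl, Sum.elim_inr]
      · exact (h s).1
      · exact (h s).2
    · push Not at hcase
      obtain ⟨i0, hi0⟩ := hcase
      obtain ⟨j, l, l0, lj, l1, h⟩ := r3_key hB hA hapA hr (by positivity) hM0 (by linarith only [hM16, hw, hw4])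
        (w := w) (by linarith only [hw1]) hw2 (fun i t => lam (x (φ i)) (.inr t))
        (fun i t => lam (x (φ i)) (.inl t)) (fun i t => (hl _ (hx _)).1 _)
        (fun i t => (hl _ (hx _)).1 _) (fun i => by linarith only [hsum (φ i)])
        (fun i => by linarith only [(abs_le.1 (hφ i i0)).1, hw4, hi0]) hφ
      refine fin j l l0 lj l1 ?_
      rintro (s | s) <;> simp only [Fintype.sum_sum_type, hH, Sum.elim_inl, Sum.elim_inr]
      · constructor <;> linarith only [(h s).2.1, (h s).2.2]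
      · constructor <;> linarith only [(h s).1.1, (h s).1.2]
  · apply le_sSup
    set e := (Fintype.equivFin V).symm with he
    refine ⟨Fintype.card V, rfl, fun i => v (.inl (e i)), fun i => v (.inr (e i)),
      fun i => hv _, fun i => hv _, fun j u u0 uj u1 => ?_⟩
    have hy : ∑ i, u i • v (.inl (e i)) ∈ polarSet K :=
      hconv.sum_mem (fun i _ => u0 i) u1 fun i _ => hv _
    have hz : ∑ i, u i • v (.inr (e i)) ∈ polarSet K :=
      hconv.sum_mem (fun i _ => u0 i) u1 fun i _ => hv _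
    have val : ∀ o i, ∑ o', lam (v o) o' * H i o' = H i o := by
      intro o i
      simp [hlv]
    have val2 : ∀ (f : Fin (Fintype.card V) → V ⊕ V) i,
        ∑ o', lam (∑ i, u i • v (f i)) o' * H i o' = ∑ k, u k * H i (f k) := by
      intro f i
      simp only [hlin _ u _ u1, Finset.sum_mul]
      rw [Finset.sum_comm]
      refine Finset.sum_congr rfl fun k _ => ?_
      rw [← val (f k) i, Finset.mul_sum]
      exact Finset.sum_congr rfl fun o _ => by ring
    have h1 := hlow _ hy _ (hv (.inl (e j))) (.inl (e j))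
    have h2 := hlow _ hz _ (hv (.inr (e j))) (.inr (e j))
    rw [val, val2] at h1 h2
    simp only [hH, Sum.elim_inl, Sum.elim_inr, (hd _).1, (hd _).2, mul_add, mul_one,
      Finset.sum_add_distrib, u1, one_add_one_eq_two] at h1 h2
    have h3 : ∑ k, u k * A (e j) (e k) + ∑ k, u k * B (e j) (e k) ≤ 1 := by
      rw [← Finset.sum_add_distrib, ← u1]
      refine Finset.sum_le_sum fun k _ => ?_
      by_cases hk : k = j
      · rw [hk, uj j le_rfl]; simp
      · rw [← mul_add]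
        exact mul_le_of_le_one_right (u0 k) (hs _ _ fun h => hk (e.injective h).symm)
    have h4 := r3_log (Finset.sum_nonneg fun k _ => mul_nonneg (u0 k) (hA (e j) (e k)).1)
      (Finset.sum_nonneg fun k _ => mul_nonneg (u0 k) (hB (e j) (e k)).1) h3
    linarith only [h1, h2, h4]

end Pool.Agent.MP_dc1150_gt.Neg

end

end
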